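import Pool.Agent.H56.GX.Defs

/-!
GX module Gau: the Gaussian weights `gk` and `K`.

(1) `gk η` is positive, continuous, integrable with integral `1` (`integral_gaussian`).
(2) moments: `∫ |v|^k e^{2|v|} gk η v dv ≤ C_k η^k` for `0 < η ≤ 1`: substitute `v = η w`
(`Measure.integral_comp_mul_left`): `= η^k ∫ |w|^k e^{2η|w|} gk 1 w dw ≤ η^k ∫ |w|^k e^{2|w|} gk 1 w dw`.
(3) `‖K η (σ+it)‖ = exp(η² ((σ-1/2)² - t²)/2)`.
(4) `K η` is entire, and the inverse transform: for real `w` and `σ`,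
`(1/2π) ∫ K η (σ + it) e^{(σ+it) w} dt = e^{w/2} gk η w` (`0 < η`). Proof: it is a Gaussian integral
`integral_cexp_quadratic` (in Mathlib/Analysis/SpecialFunctions/Gaussian/FourierTransform.lean):
with `b = -η²/2`, `c = i (η² (σ-1/2) + w)`, `d = η² (σ-1/2)²/2 + σ w`; the value is
`(2π/η²)^{1/2} exp(d - c²/(4b))`, and `-c²/(4b) = -(η²(σ-1/2)+w)²/(2η²)`, `d - c²/(4b) = w/2 - w²/(2η²)`.
-/

set_option autoImplicit false

namespace Pool.Agent.H56.GX

open MeasureTheory Set Complex Filter Topology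

theorem gk_pos (η : ℝ) (hη : 0 < η) (v : ℝ) : 0 < gk η v := by
  unfold gk
  positivity

theorem gk_continuous (η : ℝ) : Continuous (gk η) := by
  unfold gk
  fun_prop

private theorem Gau_eq (η : ℝ) (v : ℝ) :
    gk η v = (η * Real.sqrt (2 * Real.pi))⁻¹ * Real.exp (-(1 / (2 * η ^ 2)) * v ^ 2) := by
  unfold gk
  congr 2
  ring

theorem gk_integrable (η : ℝ) (hη : 0 < η) : Integrable (gk η) := by
  have h : Integrable (fun v : ℝ => (η * Real.sqrt (2 * Real.pi))⁻¹ *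
      Real.exp (-(1 / (2 * η ^ 2)) * v ^ 2)) :=
    (integrable_exp_neg_mul_sq (by positivity)).const_mul _
  have e : gk η = fun v : ℝ => (η * Real.sqrt (2 * Real.pi))⁻¹ *
      Real.exp (-(1 / (2 * η ^ 2)) * v ^ 2) := funext (Gau_eq η)
  rw [e]
  exact h

private theorem Gau_sqrt (η : ℝ) (hη : 0 < η) :
    Real.sqrt (Real.pi / (1 / (2 * η ^ 2))) = η * Real.sqrt (2 * Real.pi) := by
  rw [show Real.pi / (1 / (2 * η ^ 2)) = η ^ 2 * (2 * Real.pi) by field_simp,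
    Real.sqrt_mul (by positivity), Real.sqrt_sq hη.le]

theorem gk_integral (η : ℝ) (hη : 0 < η) : ∫ v : ℝ, gk η v = 1 := by
  simp only [Gau_eq]
  rw [integral_const_mul, integral_gaussian, Gau_sqrt η hη]
  have : η * Real.sqrt (2 * Real.pi) ≠ 0 := by positivity
  field_simp

theorem gk_neg (η v : ℝ) : gk η (-v) = gk η v := by
  unfold gk
  rw [neg_sq]

/-- `gk` is even and decreasing in `|v|` -/
theorem gk_anti (η : ℝ) (hη : 0 < η) (v w : ℝ) (h : |v| ≤ |w|) : gk η w ≤ gk η v := by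
  unfold gk
  apply mul_le_mul_of_nonneg_left _ (by positivity)
  apply Real.exp_le_exp.2
  apply div_le_div_of_nonneg_right _ (by positivity)
  have := sq_le_sq.2 h
  linarith

private theorem Gau_bound (k : ℕ) (η : ℝ) (hη : 0 < η) (hη1 : η ≤ 1) (v : ℝ) :
    |v| ^ k * Real.exp (2 * |v|) * gk η v ≤
      η ^ k * (k.factorial * Real.exp 9) * (η * Real.sqrt (2 * Real.pi))⁻¹ *
        Real.exp (-(1 / (4 * η ^ 2)) * v ^ 2) := by
  set t : ℝ := |v| / η with ht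
  have ht0 : 0 ≤ t := by positivity
  have hv : |v| = η * t := by
    rw [ht]
    field_simp
  have hvt : |v| ≤ t := by
    rw [hv]
    nlinarith
  have h1 : |v| ^ k ≤ η ^ k * (k.factorial * Real.exp t) := by
    rw [hv, mul_pow]
    apply mul_le_mul_of_nonneg_left _ (by positivity)
    have h2 := Real.pow_div_factorial_le_exp t ht0 k
    rw [div_le_iff₀ (by positivity)] at h2
    linarith
  have h2 : Real.exp (2 * |v|) ≤ Real.exp (2 * t) := Real.exp_le_exp.2 (by linarith)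
  have h3 : v ^ 2 = η ^ 2 * t ^ 2 := by
    rw [← sq_abs v, hv]
    ring
  have h4 : Real.exp (-(1 / (2 * η ^ 2)) * v ^ 2) = Real.exp (-(t ^ 2) / 2) := by
    congr 1
    rw [h3]
    field_simp
  have h5 : Real.exp (-(1 / (4 * η ^ 2)) * v ^ 2) = Real.exp (-(t ^ 2) / 4) := by
    congr 1
    rw [h3]
    field_simp
  rw [Gau_eq, h4, h5]
  have h6 : Real.exp t * Real.exp (2 * t) * Real.exp (-(t ^ 2) / 2) ≤
      Real.exp 9 * Real.exp (-(t ^ 2) / 4) := by
    rw [← Real.exp_add, ← Real.exp_add, ← Real.exp_add, Real.exp_le_exp]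
    nlinarith [sq_nonneg (t - 6)]
  calc |v| ^ k * Real.exp (2 * |v|) * ((η * Real.sqrt (2 * Real.pi))⁻¹ *
        Real.exp (-(t ^ 2) / 2))
      ≤ (η ^ k * (k.factorial * Real.exp t)) * Real.exp (2 * t) *
        ((η * Real.sqrt (2 * Real.pi))⁻¹ * Real.exp (-(t ^ 2) / 2)) := by
        apply mul_le_mul_of_nonneg_right _ (by positivity)
        exact mul_le_mul h1 h2 (by positivity) (by positivity)
    _ = (η ^ k * k.factorial * (η * Real.sqrt (2 * Real.pi))⁻¹) *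
        (Real.exp t * Real.exp (2 * t) * Real.exp (-(t ^ 2) / 2)) := by ring
    _ ≤ (η ^ k * k.factorial * (η * Real.sqrt (2 * Real.pi))⁻¹) *
        (Real.exp 9 * Real.exp (-(t ^ 2) / 4)) := by
        apply mul_le_mul_of_nonneg_left h6 (by positivity)
    _ = _ := by ring

theorem gk_moment (k : ℕ) : ∃ C : ℝ, 0 < C ∧ ∀ η : ℝ, 0 < η → η ≤ 1 →
    Integrable (fun v : ℝ => |v| ^ k * Real.exp (2 * |v|) * gk η v) ∧
      ∫ v : ℝ, |v| ^ k * Real.exp (2 * |v|) * gk η v ≤ C * η ^ k := by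
  refine ⟨(k.factorial * Real.exp 9) * Real.sqrt 2, by positivity, fun η hη hη1 => ?_⟩
  have hdom : Integrable (fun v : ℝ => η ^ k * (k.factorial * Real.exp 9) *
      (η * Real.sqrt (2 * Real.pi))⁻¹ * Real.exp (-(1 / (4 * η ^ 2)) * v ^ 2)) :=
    (integrable_exp_neg_mul_sq (by positivity)).const_mul _
  have hint : Integrable (fun v : ℝ => |v| ^ k * Real.exp (2 * |v|) * gk η v) := by
    refine hdom.mono' ?_ (Filter.Eventually.of_forall fun v => ?_)
    · apply Continuous.aestronglyMeasurable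
      have := gk_continuous η
      fun_prop
    · rw [Real.norm_eq_abs, abs_of_nonneg]
      · exact Gau_bound k η hη hη1 v
      · exact mul_nonneg (by positivity) (gk_pos η hη v).le
  refine ⟨hint, ?_⟩
  refine (integral_mono hint hdom (fun v => Gau_bound k η hη hη1 v)).trans ?_
  rw [integral_const_mul, integral_gaussian]
  have h1 : Real.sqrt (Real.pi / (1 / (4 * η ^ 2))) = η * (Real.sqrt (2 * Real.pi) * Real.sqrt 2) := by
    rw [show Real.pi / (1 / (4 * η ^ 2)) = η ^ 2 * ((2 * Real.pi) * 2) by field_simp; ring,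
      Real.sqrt_mul (by positivity), Real.sqrt_sq hη.le, Real.sqrt_mul (by positivity)]
  rw [h1]
  have h2 : Real.sqrt (2 * Real.pi) ≠ 0 := by positivity
  apply le_of_eq
  field_simp

theorem K_norm (η σ t : ℝ) :
    ‖K η (σ + t * I)‖ = Real.exp (η ^ 2 * ((σ - 1 / 2) ^ 2 - t ^ 2) / 2) := by
  unfold K
  rw [Complex.norm_exp]
  congr 1
  have h : (η : ℂ) ^ 2 * ((σ : ℂ) + t * I - 1 / 2) ^ 2 / 2 =
      ((η ^ 2 * ((σ - 1 / 2) ^ 2 - t ^ 2) / 2 : ℝ) : ℂ) + ((η ^ 2 * (σ - 1 / 2) * t : ℝ) : ℂ) * I := by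
    push_cast
    linear_combination (η : ℂ) ^ 2 * (t : ℂ) ^ 2 / 2 * Complex.I_sq
  rw [h, Complex.add_re, Complex.ofReal_re, Complex.re_ofReal_mul, Complex.I_re]
  ring

theorem K_differentiable (η : ℝ) : Differentiable ℂ (K η) := by
  unfold K
  fun_prop

theorem K_inverse (η : ℝ) (hη : 0 < η) (σ w : ℝ) :
    (2 * Real.pi : ℂ)⁻¹ * ∫ t : ℝ, K η (σ + t * I) * Complex.exp ((σ + t * I) * w) =
      ((Real.exp (w / 2) * gk η w : ℝ) : ℂ) := by
  have hηc : (η : ℂ) ≠ 0 := Complex.ofReal_ne_zero.2 hη.ne'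
  have e1 : ∀ t : ℝ, K η (σ + t * I) * Complex.exp ((σ + t * I) * w) =
      Complex.exp (-((η : ℂ) ^ 2 / 2) * (t : ℂ) ^ 2 + (I * ((η : ℂ) ^ 2 * (σ - 1 / 2) + w)) * t +
        ((η : ℂ) ^ 2 * (σ - 1 / 2) ^ 2 / 2 + σ * w)) := by
    intro t
    unfold K
    rw [← Complex.exp_add]
    congr 1
    linear_combination (η : ℂ) ^ 2 * (t : ℂ) ^ 2 / 2 * Complex.I_sq
  simp_rw [e1]
  have hre : (-((η : ℂ) ^ 2 / 2)).re < 0 := by
    rw [show (-((η : ℂ) ^ 2 / 2)) = ((-(η ^ 2 / 2) : ℝ) : ℂ) by push_cast; ring,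
      Complex.ofReal_re]
    have : 0 < η ^ 2 := by positivity
    linarith
  rw [integral_cexp_quadratic hre]
  have e2 : ((Real.pi : ℂ) / -(-((η : ℂ) ^ 2 / 2))) ^ (1 / 2 : ℂ) =
      ((Real.sqrt (2 * Real.pi) / η : ℝ) : ℂ) := by
    rw [show ((Real.pi : ℂ) / -(-((η : ℂ) ^ 2 / 2))) = ((2 * Real.pi / η ^ 2 : ℝ) : ℂ) by
      push_cast
      field_simp]
    rw [show (1 / 2 : ℂ) = ((1 / 2 : ℝ) : ℂ) by push_cast; rfl,
      ← Complex.ofReal_cpow (by positivity), ← Real.sqrt_eq_rpow, Real.sqrt_div (by positivity),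
      Real.sqrt_sq hη.le]
  have e3 : (η : ℂ) ^ 2 * (σ - 1 / 2) ^ 2 / 2 + σ * w -
      (I * ((η : ℂ) ^ 2 * (σ - 1 / 2) + w)) ^ 2 / (4 * -((η : ℂ) ^ 2 / 2)) =
      ((w / 2 + -(w ^ 2) / (2 * η ^ 2) : ℝ) : ℂ) := by
    push_cast
    rw [mul_pow, Complex.I_sq]
    field_simp
    ring
  rw [e2, e3]
  unfold gk
  rw [← Complex.ofReal_exp, Real.exp_add]
  have h2 : Real.sqrt (2 * Real.pi) ≠ 0 := by positivity
  have h3 : Real.sqrt (2 * Real.pi) * Real.sqrt (2 * Real.pi) = 2 * Real.pi :=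
    Real.mul_self_sqrt (by positivity)
  have h4 : (2 * Real.pi)⁻¹ * (Real.sqrt (2 * Real.pi) / η) = (η * Real.sqrt (2 * Real.pi))⁻¹ := by
    rw [← h3]
    have h5 : Real.sqrt (Real.sqrt (2 * Real.pi) * Real.sqrt (2 * Real.pi)) =
      Real.sqrt (2 * Real.pi) := by rw [h3]
    rw [h5]
    field_simp
  rw [show (2 * Real.pi : ℂ)⁻¹ = (((2 * Real.pi)⁻¹ : ℝ) : ℂ) by push_cast; rfl,
    ← Complex.ofReal_mul, ← Complex.ofReal_mul, Complex.ofReal_inj, ← mul_assoc, h4]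
  ring

end Pool.Agent.H56.GX
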