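import Pool.Agent.H56.GX.Defs
import Pool.Agent.H95.GC.ZetaForm

/-!
GX module ZDer: polynomial bound for `ζ'` on the critical line.

For `|γ| ≥ 2`: Cauchy's estimate (`Complex.norm_deriv_le_of_forall_mem_sphere_norm_le`) on the circle
of radius `1/2` around `1/2 + iγ`, where `Re ≥ 0 ≥ -1/2` and `|Im| ≥ 1`, with
`Pool.Agent.H95.GC.zeta_growth : ‖ζ(s)‖ ≤ 2 (1 + ‖s‖)^2` (for `-1/2 ≤ Re s`, `1 ≤ |Im s|`).
For `|γ| ≤ 2`: `γ ↦ deriv ζ (1/2+iγ)` is continuous (the derivative of a holomorphic function on the open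
set `{1}ᶜ` is holomorphic there), so bounded on the compact interval.
-/

set_option autoImplicit false

namespace Pool.Agent.H56.GX

open MeasureTheory Set Complex Filter Topology

private theorem zder_ne (γ : ℝ) : (1 / 2 + γ * I : ℂ) ≠ 1 := by
  intro h
  have := congrArg Complex.re h
  norm_num at this

private theorem zder_continuous : Continuous fun γ : ℝ => deriv riemannZeta (1 / 2 + γ * I) := by
  have hdiff : DifferentiableOn ℂ riemannZeta ({1}ᶜ : Set ℂ) := fun z hz =>
    (differentiableAt_riemannZeta hz).differentiableWithinAt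
  have hd : ContinuousOn (deriv riemannZeta) ({1}ᶜ : Set ℂ) :=
    (hdiff.deriv isOpen_compl_singleton).continuousOn
  exact hd.comp_continuous (by fun_prop) (fun γ => zder_ne γ)

private theorem zder_large (γ : ℝ) (hγ : 2 ≤ |γ|) :
    ‖deriv riemannZeta (1 / 2 + γ * I)‖ ≤ 16 * (1 + |γ|) ^ 2 := by
  have hkey : ∀ z ∈ Metric.closedBall (1 / 2 + γ * I : ℂ) (1 / 2),
      0 ≤ z.re ∧ 1 ≤ |z.im| ∧ ‖z‖ ≤ 1 + |γ| := by
    intro z hz
    rw [Metric.mem_closedBall, dist_eq_norm] at hz
    have h1 := (Complex.abs_re_le_norm (z - (1 / 2 + γ * I))).trans hz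
    have h2 := (Complex.abs_im_le_norm (z - (1 / 2 + γ * I))).trans hz
    have e1 : (z - (1 / 2 + γ * I)).re = z.re - 1 / 2 := by simp
    have e2 : (z - (1 / 2 + γ * I)).im = z.im - γ := by simp
    rw [e1] at h1
    rw [e2] at h2
    refine ⟨by linarith [(abs_le.1 h1).1], ?_, ?_⟩
    · have h3 : |γ| ≤ |z.im| + |z.im - γ| := by
        have := abs_sub_abs_le_abs_sub γ z.im
        rw [abs_sub_comm] at this
        linarith
      linarith
    · have h4 : ‖z‖ ≤ ‖z - (1 / 2 + γ * I)‖ + ‖(1 / 2 + γ * I : ℂ)‖ := by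
        have := norm_add_le (z - (1 / 2 + γ * I)) (1 / 2 + γ * I : ℂ)
        rwa [sub_add_cancel] at this
      have h5 : ‖(1 / 2 + γ * I : ℂ)‖ ≤ 1 / 2 + |γ| := by
        refine (norm_add_le _ _).trans ?_
        rw [norm_mul, Complex.norm_I, mul_one, Complex.norm_real, Real.norm_eq_abs]
        norm_num
      linarith
  have hdc : DiffContOnCl ℂ riemannZeta (Metric.ball (1 / 2 + γ * I : ℂ) (1 / 2)) := by
    apply DifferentiableOn.diffContOnCl
    rw [closure_ball _ (by norm_num)]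
    intro z hz
    apply DifferentiableAt.differentiableWithinAt
    apply differentiableAt_riemannZeta
    rintro rfl
    have := (hkey _ hz).2.1
    simp at this
    linarith
  have hb := Complex.norm_deriv_le_of_forall_mem_sphere_norm_le (C := 8 * (1 + |γ|) ^ 2)
    (by norm_num : (0 : ℝ) < 1 / 2) hdc (by
      intro z hz
      obtain ⟨h1, h2, h3⟩ := hkey z (Metric.sphere_subset_closedBall hz)
      have h4 := Pool.Agent.H95.GC.zeta_growth z (by linarith) h2
      have h5 : (1 + ‖z‖) ^ 2 ≤ (2 * (1 + |γ|)) ^ 2 :=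
        pow_le_pow_left₀ (by positivity) (by linarith [abs_nonneg γ]) 2
      nlinarith)
  have : 8 * (1 + |γ|) ^ 2 / (1 / 2) = 16 * (1 + |γ|) ^ 2 := by ring
  rwa [this] at hb

theorem zeta_deriv_growth : ∃ C : ℝ, 0 < C ∧ ∀ γ : ℝ,
    ‖deriv riemannZeta (1 / 2 + γ * I)‖ ≤ C * (1 + |γ|) ^ 2 := by
  obtain ⟨M, hM⟩ := (isCompact_Icc (a := (-2 : ℝ)) (b := 2)).exists_bound_of_continuousOn
    zder_continuous.continuousOn
  refine ⟨max M 16, lt_of_lt_of_le (by norm_num) (le_max_right _ _), fun γ => ?_⟩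
  have h1 : (1 : ℝ) ≤ (1 + |γ|) ^ 2 := one_le_pow₀ (by linarith [abs_nonneg γ])
  rcases le_total 2 |γ| with h | h
  · refine (zder_large γ h).trans ?_
    exact mul_le_mul_of_nonneg_right (le_max_right _ _) (by positivity)
  · have h2 := hM γ (by rw [mem_Icc]; exact abs_le.1 h)
    refine h2.trans ((le_max_left M 16).trans ?_)
    have h3 : (0 : ℝ) ≤ max M 16 := le_trans (by norm_num) (le_max_right _ _)
    nlinarith

end Pool.Agent.H56.GX
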