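import Pool.Agent.H56.GX.Res2
import Pool.Agent.H56.GX.ZDer
import Pool.Agent.H56.GX.Gau

/-!
GX module ASum: absolute summability of the coefficients.

`‖a η γ‖ = exp(-η²γ²/2) ‖r γ‖` (`K_norm` with `σ = 1/2`). By `zeta_simple` `r γ ≠ 0` and by
`zeta_deriv_growth` `‖r γ‖⁻¹ = ‖1/2+iγ‖ ‖ζ'(1/2+iγ)‖ ≤ C (1+|γ|)³`. So
`‖a η γ‖ = ‖r γ‖² ‖r γ‖⁻¹ exp(-η²γ²/2) ≤ ‖r γ‖² · C (1+|γ|)³ exp(-η²γ²/2) ≤ C_η ‖r γ‖²`
(polynomial times Gaussian is bounded), and `∑ ‖r γ‖²` converges over the subtype `Zr`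
(`summable_of_sum_le` with `res_sq`).
-/

set_option autoImplicit false

namespace Pool.Agent.H56.GX

open MeasureTheory Set Complex Filter Topology

private lemma ASum_gauss (η : ℝ) (hη : 0 < η) (x : ℝ) :
    (1 + |x|) ^ 3 * Real.exp (η ^ 2 * (0 - x ^ 2) / 2) ≤ (2 + 6 / η ^ 2) ^ 3 := by
  have hη2 : 0 < η ^ 2 := by positivity
  set K₀ : ℝ := 2 + 6 / η ^ 2 with hK
  have hK0 : 0 < K₀ := by positivity
  have h6 : 6 / η ^ 2 * η ^ 2 = 6 := by field_simp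
  have h1 : 1 + |x| ≤ K₀ * Real.exp (η ^ 2 * x ^ 2 / 6) := by
    have h2 := Real.add_one_le_exp (η ^ 2 * x ^ 2 / 6)
    have h3 : 1 + |x| ≤ K₀ * (η ^ 2 * x ^ 2 / 6 + 1) := by
      have h4 : K₀ * (η ^ 2 * x ^ 2 / 6 + 1) = 2 * (η ^ 2 * x ^ 2 / 6) + x ^ 2 + K₀ := by
        rw [hK]
        have : (2 + 6 / η ^ 2) * (η ^ 2 * x ^ 2 / 6 + 1)
          = 2 * (η ^ 2 * x ^ 2 / 6) + (6 / η ^ 2 * η ^ 2) * x ^ 2 / 6 + (2 + 6 / η ^ 2) := by ring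
        rw [this, h6]
        ring
      rw [h4]
      have h5 : 0 ≤ η ^ 2 * x ^ 2 / 6 := by positivity
      have h7 : 2 ≤ K₀ := by
        rw [hK]
        have : 0 < 6 / η ^ 2 := by positivity
        linarith
      have h8 : |x| ^ 2 = x ^ 2 := sq_abs x
      nlinarith [sq_nonneg (|x| - 1 / 2)]
    exact h3.trans (mul_le_mul_of_nonneg_left h2 hK0.le)
  have h2 : (1 + |x|) ^ 3 ≤ (K₀ * Real.exp (η ^ 2 * x ^ 2 / 6)) ^ 3 :=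
    pow_le_pow_left₀ (by positivity) h1 3
  calc (1 + |x|) ^ 3 * Real.exp (η ^ 2 * (0 - x ^ 2) / 2)
      ≤ (K₀ * Real.exp (η ^ 2 * x ^ 2 / 6)) ^ 3 * Real.exp (η ^ 2 * (0 - x ^ 2) / 2) :=
        mul_le_mul_of_nonneg_right h2 (Real.exp_pos _).le
    _ = K₀ ^ 3 := by
        rw [mul_pow, ← Real.exp_nat_mul, mul_assoc, ← Real.exp_add]
        have : ((3 : ℕ) : ℝ) * (η ^ 2 * x ^ 2 / 6) + η ^ 2 * (0 - x ^ 2) / 2 = 0 := by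
          push_cast; ring
        rw [this, Real.exp_zero, mul_one]

theorem a_summable (C : ℝ) (hC : 1 ≤ C) (h : SBound C) (η : ℝ) (hη : 0 < η) :
    Summable (fun γ : Zr => ‖a η γ‖) := by
  obtain ⟨C₀, hC₀, hg⟩ := zeta_deriv_growth
  obtain ⟨C₃, hC₃, hr⟩ := res_sq C hC h
  have hs : Summable (fun γ : Zr => ‖r γ‖ ^ 2) := by
    apply summable_of_sum_le (fun γ => sq_nonneg _) (c := C₃)
    intro u
    have h1 := hr (u.map ⟨Subtype.val, Subtype.val_injective⟩) (by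
      intro γ hγ
      rw [Finset.mem_map] at hγ
      obtain ⟨z, _, hz⟩ := hγ
      rw [← hz]
      exact z.2)
    rw [Finset.sum_map] at h1
    exact h1
  apply Summable.of_nonneg_of_le (fun γ => norm_nonneg _) _
    (hs.mul_left (C₀ * (2 + 6 / η ^ 2) ^ 3))
  intro γ
  have hd := zeta_simple C hC h γ γ.2
  have hz : (1 / 2 + (γ : ℝ) * I : ℂ) ≠ 0 := by
    intro h7
    have h8 := congrArg Complex.re h7
    simp at h8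
  have hrn : r γ ≠ 0 := inv_ne_zero (mul_ne_zero hz hd)
  have hrn0 : 0 < ‖r γ‖ := norm_pos_iff.2 hrn
  have hinv : ‖r γ‖⁻¹ ≤ C₀ * (1 + |(γ : ℝ)|) ^ 3 := by
    unfold r
    rw [norm_inv, inv_inv, norm_mul]
    have h1 : ‖(1 / 2 + (γ : ℝ) * I : ℂ)‖ ≤ 1 + |(γ : ℝ)| := by
      refine (norm_add_le _ _).trans ?_
      rw [norm_mul, Complex.norm_I, mul_one, Complex.norm_real, Real.norm_eq_abs]
      have : ‖(1 / 2 : ℂ)‖ = 1 / 2 := by norm_num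
      rw [this]
      linarith
    calc ‖(1 / 2 + (γ : ℝ) * I : ℂ)‖ * ‖deriv riemannZeta (1 / 2 + (γ : ℝ) * I)‖
        ≤ (1 + |(γ : ℝ)|) * (C₀ * (1 + |(γ : ℝ)|) ^ 2) :=
          mul_le_mul h1 (hg γ) (norm_nonneg _) (by positivity)
      _ = C₀ * (1 + |(γ : ℝ)|) ^ 3 := by ring
  have hK : ‖K η (1 / 2 + (γ : ℝ) * I)‖ = Real.exp (η ^ 2 * (0 - (γ : ℝ) ^ 2) / 2) := by
    have h1 := K_norm η (1 / 2) γ
    rw [sub_self] at h1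
    have h2 : ((1 / 2 : ℝ) : ℂ) = 1 / 2 := by push_cast; ring
    rw [h2] at h1
    rw [h1]
    norm_num
  unfold a
  rw [norm_mul, hK]
  have h3 : ‖r γ‖ = ‖r γ‖ ^ 2 * ‖r γ‖⁻¹ := by
    field_simp
  calc Real.exp (η ^ 2 * (0 - (γ : ℝ) ^ 2) / 2) * ‖r γ‖
      = Real.exp (η ^ 2 * (0 - (γ : ℝ) ^ 2) / 2) * (‖r γ‖ ^ 2 * ‖r γ‖⁻¹) := by rw [← h3]
    _ ≤ Real.exp (η ^ 2 * (0 - (γ : ℝ) ^ 2) / 2) * (‖r γ‖ ^ 2 * (C₀ * (1 + |(γ : ℝ)|) ^ 3)) := by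
        apply mul_le_mul_of_nonneg_left _ (Real.exp_pos _).le
        apply mul_le_mul_of_nonneg_left hinv (sq_nonneg _)
    _ = C₀ * ((1 + |(γ : ℝ)|) ^ 3 * Real.exp (η ^ 2 * (0 - (γ : ℝ) ^ 2) / 2)) * ‖r γ‖ ^ 2 := by ring
    _ ≤ C₀ * (2 + 6 / η ^ 2) ^ 3 * ‖r γ‖ ^ 2 := by
        apply mul_le_mul_of_nonneg_right _ (sq_nonneg _)
        apply mul_le_mul_of_nonneg_left _ hC₀.le
        exact ASum_gauss η hη γ

end Pool.Agent.H56.GX
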