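import Pool.Agent.H56.GX.Ener
import Pool.Agent.H56.GX.Gau

/-!
GX module Chg: the change of variables.

Claim: with `v₀ = δ₀/8`, for `0 < η ≤ 1`, `0 < δ₁ < δ₀/2` and `X ≥ X₀(δ₁)`:
`∫_0^{v₀} gk η v ∫_{(7/20)X}^{X} (Mz x - Mz (x e^{-v}))² dx dv ≤ A (η + δ₁) X²`, `A` depending on `B`.

For fixed `x ∈ [(7/20)X, X]` substitute `u = x (1 - e^{-v})`, i.e. `v = -log(1 - u/x)`,
`dv = du/(x-u)`, `x e^{-v} = x - u`, `u ∈ [0, x(1-e^{-v₀})] ⊂ [0, X v₀]`. As `v ≥ 1 - e^{-v} = u/x ≥ u/X`,
`gk η v ≤ gk η (u/X)` (`gk_anti`), and `1/(x-u) ≤ 2/x ≤ 6/X` (`e^{-v} ≥ 1/2`). So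
`∫_0^{v₀} gk η v (Mz x - Mz (x e^{-v}))² dv ≤ (6/X) ∫_0^{X v₀} gk η (u/X) (Mz x - Mz (x-u))² du`
(all integrands are bounded, measurable and nonnegative). Integrate over `x` and exchange the order twice (Fubini
for bounded measurable functions on bounded boxes; `Mz` is measurable); by `ener2` (`u ≤ X v₀ = δ₀ X/8`)
`≤ (6/X) ∫_0^{X v₀} gk η (u/X) 100 B X (u + δ₁ X) du = 600 B X² ∫_0^{v₀} gk η w (w + δ₁) dw
 ≤ 600 B X² (C₁ η + δ₁)` (`gk_moment 1`, `gk_integral`).
-/

set_option autoImplicit false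

namespace Pool.Agent.H56.GX

open MeasureTheory Set Complex Filter Topology

private theorem Chg_int2 (f : ℝ → ℝ → ℝ) (hf : Measurable (Function.uncurry f)) (a b c d C : ℝ)
    (hb : ∀ x ∈ Ioc a b, ∀ y ∈ Ioc c d, |f x y| ≤ C) :
    Integrable (Function.uncurry f)
      ((volume.restrict (Ioc a b)).prod (volume.restrict (Ioc c d))) := by
  refine Integrable.of_bound hf.aestronglyMeasurable C ?_
  rw [Measure.prod_restrict]
  refine (ae_restrict_iff' (measurableSet_Ioc.prod measurableSet_Ioc)).2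
    (Filter.Eventually.of_forall ?_)
  rintro ⟨x, y⟩ ⟨hx, hy⟩
  exact hb x hx y hy

private theorem Chg_one (η X x v₀ : ℝ) (hη : 0 < η) (hX : 1 ≤ X) (hx1 : 7 / 20 * X ≤ x)
    (hx2 : x ≤ X) (hv : 0 < v₀) (hv' : v₀ ≤ 1 / 80) :
    ∫ v in Ioc 0 v₀, gk η v * (Mz x - Mz (x * Real.exp (-v))) ^ 2 ≤
      (6 / X) * ∫ u in Ioc 0 (X * v₀), gk η (u / X) * (Mz x - Mz (x - u)) ^ 2 := by
  have hX0 : 0 < X := by linarith
  have hx0 : 0 < x := by nlinarith
  have hgk0 : ∀ w, 0 ≤ gk η w := fun w => (gk_pos η hη w).le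
  have hgkb : ∀ w, gk η w ≤ gk η 0 := fun w => gk_anti η hη 0 w (by simp)
  have hmeas2 : Measurable (fun u : ℝ => gk η (u / X) * (Mz x - Mz (x - u)) ^ 2) := by
    have h1 : Measurable (fun u : ℝ => gk η (u / X)) :=
      (gk_continuous η).measurable.comp (measurable_id.div_const X)
    have h2 : Measurable (fun u : ℝ => Mz (x - u)) :=
      Mz_measurable.comp (measurable_const.sub measurable_id)
    exact h1.mul ((measurable_const.sub h2).pow_const 2)
  have hmeas1 : Measurable (fun v : ℝ => gk η v * (Mz x - Mz (x * Real.exp (-v))) ^ 2) := by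
    have h2 : Measurable (fun v : ℝ => Mz (x * Real.exp (-v))) :=
      Mz_measurable.comp (measurable_const.mul (Real.measurable_exp.comp measurable_neg))
    exact (gk_continuous η).measurable.mul ((measurable_const.sub h2).pow_const 2)
  have hMb : ∀ y z : ℝ, |y| ≤ X → |z| ≤ X → (Mz y - Mz z) ^ 2 ≤ (2 * X) ^ 2 := by
    intro y z hy hz
    have h1 := Mz_abs_le' y
    have h2 := Mz_abs_le' z
    rw [← sq_abs]
    refine pow_le_pow_left₀ (abs_nonneg _) ?_ 2
    refine (abs_sub _ _).trans ?_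
    linarith
  have hint2 : IntegrableOn (fun u : ℝ => gk η (u / X) * (Mz x - Mz (x - u)) ^ 2)
      (Ioc 0 (X * v₀)) := by
    refine Measure.integrableOn_of_bounded (M := gk η 0 * (2 * X) ^ 2) (by simp)
      hmeas2.aestronglyMeasurable ?_
    refine (ae_restrict_iff' measurableSet_Ioc).2 (Filter.Eventually.of_forall ?_)
    intro u hu
    rw [Real.norm_of_nonneg (mul_nonneg (hgk0 _) (sq_nonneg _))]
    have h1 : |x| ≤ X := by rw [abs_of_pos hx0]; exact hx2
    have h2 : |x - u| ≤ X := by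
      have : X * v₀ ≤ X := by nlinarith
      rw [abs_le]; constructor
      · linarith [hu.1, hu.2]
      · linarith [hu.1]
    exact mul_le_mul (hgkb _) (hMb _ _ h1 h2) (sq_nonneg _) (hgk0 _)
  have hint1 : IntegrableOn (fun v : ℝ => gk η v * (Mz x - Mz (x * Real.exp (-v))) ^ 2)
      (Ioc 0 v₀) := by
    refine Measure.integrableOn_of_bounded (M := gk η 0 * (2 * X) ^ 2) (by simp)
      hmeas1.aestronglyMeasurable ?_
    refine (ae_restrict_iff' measurableSet_Ioc).2 (Filter.Eventually.of_forall ?_)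
    intro v hv1
    rw [Real.norm_of_nonneg (mul_nonneg (hgk0 _) (sq_nonneg _))]
    have h1 : |x| ≤ X := by rw [abs_of_pos hx0]; exact hx2
    have h2 : |x * Real.exp (-v)| ≤ X := by
      have h3 : Real.exp (-v) ≤ 1 := Real.exp_le_one_iff.2 (by linarith [hv1.1])
      have h4 := Real.exp_pos (-v)
      rw [abs_of_nonneg (by positivity)]
      nlinarith
    exact mul_le_mul (hgkb _) (hMb _ _ h1 h2) (sq_nonneg _) (hgk0 _)
  -- change of variables
  have hder : ∀ v ∈ Ioc 0 v₀, HasDerivWithinAt (fun v : ℝ => x * (1 - Real.exp (-v)))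
      (x * Real.exp (-v)) (Ioc 0 v₀) v := by
    intro v _
    have h1 : HasDerivAt (fun v : ℝ => x * (1 - Real.exp (-v)))
        (x * (0 - Real.exp (-v) * (-1))) v := by
      refine HasDerivAt.const_mul x ?_
      refine (hasDerivAt_const v (1 : ℝ)).sub ?_
      exact (hasDerivAt_neg v).exp
    have h2 : x * (0 - Real.exp (-v) * (-1)) = x * Real.exp (-v) := by ring
    rw [h2] at h1
    exact h1.hasDerivWithinAt
  have hinj : InjOn (fun v : ℝ => x * (1 - Real.exp (-v))) (Ioc 0 v₀) := by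
    intro a _ b _ hab
    simp only at hab
    have h1 := mul_left_cancel₀ hx0.ne' hab
    have h2 : Real.exp (-a) = Real.exp (-b) := by linarith
    have h3 := Real.exp_injective h2
    linarith
  have hcv := integral_image_eq_integral_abs_deriv_smul measurableSet_Ioc hder hinj
    (fun u : ℝ => gk η (u / X) * (Mz x - Mz (x - u)) ^ 2)
  have himg : (fun v : ℝ => x * (1 - Real.exp (-v))) '' Ioc 0 v₀ ⊆ Ioc 0 (X * v₀) := by
    rintro _ ⟨v, hv1, rfl⟩
    have h3 : Real.exp (-v) < 1 := by rw [Real.exp_lt_one_iff]; linarith [hv1.1]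
    have h4 : -v + 1 ≤ Real.exp (-v) := Real.add_one_le_exp _
    constructor
    · simp only; nlinarith
    · simp only
      have h5 : 1 - Real.exp (-v) ≤ v₀ := by linarith [hv1.2]
      exact mul_le_mul hx2 h5 (by linarith) hX0.le
  have hmono : ∫ u in (fun v : ℝ => x * (1 - Real.exp (-v))) '' Ioc 0 v₀,
      gk η (u / X) * (Mz x - Mz (x - u)) ^ 2 ≤
      ∫ u in Ioc 0 (X * v₀), gk η (u / X) * (Mz x - Mz (x - u)) ^ 2 := by
    refine setIntegral_mono_set hint2 ?_ (LE.le.eventuallyLE himg)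
    exact Filter.Eventually.of_forall (fun u => mul_nonneg (hgk0 _) (sq_nonneg _))
  rw [hcv] at hmono
  have hint3 : IntegrableOn (fun v : ℝ => |x * Real.exp (-v)| •
      (fun u : ℝ => gk η (u / X) * (Mz x - Mz (x - u)) ^ 2) (x * (1 - Real.exp (-v))))
      (Ioc 0 v₀) := by
    refine (integrableOn_image_iff_integrableOn_abs_deriv_smul measurableSet_Ioc hder hinj
      (fun u : ℝ => gk η (u / X) * (Mz x - Mz (x - u)) ^ 2)).1 ?_
    exact hint2.mono_set himg
  have hpt : ∫ v in Ioc 0 v₀, gk η v * (Mz x - Mz (x * Real.exp (-v))) ^ 2 ≤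
      ∫ v in Ioc 0 v₀, (6 / X) * (|x * Real.exp (-v)| •
      (fun u : ℝ => gk η (u / X) * (Mz x - Mz (x - u)) ^ 2) (x * (1 - Real.exp (-v)))) := by
    refine setIntegral_mono_on hint1 (hint3.const_mul _) measurableSet_Ioc ?_
    intro v hv1
    have h3 : Real.exp (-v) < 1 := by rw [Real.exp_lt_one_iff]; linarith [hv1.1]
    have h4 : -v + 1 ≤ Real.exp (-v) := Real.add_one_le_exp _
    have h5 : x - x * (1 - Real.exp (-v)) = x * Real.exp (-v) := by ring
    simp only [smul_eq_mul]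
    rw [h5, abs_of_nonneg (by positivity)]
    have h6 : gk η v ≤ gk η (x * (1 - Real.exp (-v)) / X) := by
      refine gk_anti η hη _ _ ?_
      rw [abs_of_nonneg (by apply div_nonneg (mul_nonneg hx0.le (by linarith)) hX0.le),
        abs_of_nonneg hv1.1.le, div_le_iff₀ hX0]
      have : 1 - Real.exp (-v) ≤ v := by linarith
      have h7 : x * (1 - Real.exp (-v)) ≤ X * v := mul_le_mul hx2 this (by linarith) hX0.le
      linarith
    have h7 : 1 ≤ 6 / X * (x * Real.exp (-v)) := by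
      have h8 : 79 / 80 ≤ Real.exp (-v) := by linarith [hv1.2]
      have h9 : X / 6 ≤ x * Real.exp (-v) := by nlinarith
      rw [div_mul_eq_mul_div, le_div_iff₀ hX0]
      linarith
    have h10 : 6 / X * (x * Real.exp (-v) * (gk η (x * (1 - Real.exp (-v)) / X) *
        (Mz x - Mz (x * Real.exp (-v))) ^ 2)) = (6 / X * (x * Real.exp (-v))) *
        (gk η (x * (1 - Real.exp (-v)) / X) * (Mz x - Mz (x * Real.exp (-v))) ^ 2) := by ring
    rw [h10]
    have h11 : gk η v * (Mz x - Mz (x * Real.exp (-v))) ^ 2 ≤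
        gk η (x * (1 - Real.exp (-v)) / X) * (Mz x - Mz (x * Real.exp (-v))) ^ 2 :=
      mul_le_mul_of_nonneg_right h6 (sq_nonneg _)
    have h12 : 0 ≤ gk η (x * (1 - Real.exp (-v)) / X) * (Mz x - Mz (x * Real.exp (-v))) ^ 2 :=
      mul_nonneg (hgk0 _) (sq_nonneg _)
    nlinarith
  refine hpt.trans ?_
  rw [integral_const_mul]
  exact mul_le_mul_of_nonneg_left hmono (by positivity)

theorem chg (B δ₀ : ℝ) (hB : 0 ≤ B) (hδ : 0 < δ₀) (hδ' : δ₀ ≤ 1 / 10) (h : Win B δ₀) :
    ∃ A : ℝ, 0 < A ∧ ∀ δ₁ : ℝ, 0 < δ₁ → δ₁ < δ₀ / 2 → ∃ X₀ : ℝ, 1 ≤ X₀ ∧ ∀ η X : ℝ, 0 < η → η ≤ 1 →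
      X₀ ≤ X → ∫ v in (0 : ℝ)..(δ₀ / 8), gk η v *
        (∫ x in (7 / 20 * X)..X, (Mz x - Mz (x * Real.exp (-v))) ^ 2) ≤ A * (η + δ₁) * X ^ 2 := by
  obtain ⟨C₁, hC₁, hmom⟩ := gk_moment 1
  refine ⟨600 * B * (C₁ + 1) + 1, by positivity, ?_⟩
  intro δ₁ h1 h2
  obtain ⟨X₀, hX₀, hE⟩ := ener2 B δ₀ hB hδ hδ' h δ₁ h1 h2
  refine ⟨X₀, hX₀, ?_⟩
  intro η X hη hη1 hX
  have hX1 : 1 ≤ X := hX₀.trans hX
  have hX0 : 0 < X := by linarith
  have hgk0 : ∀ w, 0 ≤ gk η w := fun w => (gk_pos η hη w).le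
  have hgkb : ∀ w, gk η w ≤ gk η 0 := fun w => gk_anti η hη 0 w (by simp)
  set v₀ : ℝ := δ₀ / 8 with hv₀
  have hv0 : 0 < v₀ := by positivity
  have hv1 : v₀ ≤ 1 / 80 := by rw [hv₀]; linarith
  have hMb : ∀ y z : ℝ, |y| ≤ X → |z| ≤ X → (Mz y - Mz z) ^ 2 ≤ (2 * X) ^ 2 := by
    intro y z hy hz
    have h1 := Mz_abs_le' y
    have h2 := Mz_abs_le' z
    rw [← sq_abs]
    refine pow_le_pow_left₀ (abs_nonneg _) ?_ 2
    refine (abs_sub _ _).trans ?_
    linarith
  have h7X : 7 / 20 * X ≤ X := by linarith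
  -- the two product functions
  let f1 : ℝ → ℝ → ℝ := fun v x => gk η v * (Mz x - Mz (x * Real.exp (-v))) ^ 2
  let f2 : ℝ → ℝ → ℝ := fun u x => gk η (u / X) * (Mz x - Mz (x - u)) ^ 2
  have hm1 : Measurable (Function.uncurry f1) := by
    have e1 : Measurable (fun p : ℝ × ℝ => gk η p.1) :=
      (gk_continuous η).measurable.comp measurable_fst
    have e2 : Measurable (fun p : ℝ × ℝ => Mz p.2) := Mz_measurable.comp measurable_snd
    have e3 : Measurable (fun p : ℝ × ℝ => Mz (p.2 * Real.exp (-p.1))) :=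
      Mz_measurable.comp (measurable_snd.mul (Real.measurable_exp.comp measurable_fst.neg))
    exact e1.mul ((e2.sub e3).pow_const 2)
  have hm2 : Measurable (Function.uncurry f2) := by
    have e1 : Measurable (fun p : ℝ × ℝ => gk η (p.1 / X)) :=
      (gk_continuous η).measurable.comp (measurable_fst.div_const X)
    have e2 : Measurable (fun p : ℝ × ℝ => Mz p.2) := Mz_measurable.comp measurable_snd
    have e3 : Measurable (fun p : ℝ × ℝ => Mz (p.2 - p.1)) :=
      Mz_measurable.comp (measurable_snd.sub measurable_fst)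
    exact e1.mul ((e2.sub e3).pow_const 2)
  have hI1 := Chg_int2 f1 hm1 0 v₀ (7 / 20 * X) X (gk η 0 * (2 * X) ^ 2) (by
    intro v hv x hx
    simp only [f1]
    rw [abs_of_nonneg (mul_nonneg (hgk0 _) (sq_nonneg _))]
    have hx0 : 0 < x := by linarith [hx.1]
    have e1 : |x| ≤ X := by rw [abs_of_pos hx0]; exact hx.2
    have e2 : |x * Real.exp (-v)| ≤ X := by
      have h3 : Real.exp (-v) ≤ 1 := Real.exp_le_one_iff.2 (by linarith [hv.1])
      have h4 := Real.exp_pos (-v)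
      rw [abs_of_nonneg (by positivity)]
      nlinarith [hx.2]
    exact mul_le_mul (hgkb _) (hMb _ _ e1 e2) (sq_nonneg _) (hgk0 _))
  have hI2 := Chg_int2 f2 hm2 0 (X * v₀) (7 / 20 * X) X (gk η 0 * (2 * X) ^ 2) (by
    intro u hu x hx
    simp only [f2]
    rw [abs_of_nonneg (mul_nonneg (hgk0 _) (sq_nonneg _))]
    have hx0 : 0 < x := by linarith [hx.1]
    have e1 : |x| ≤ X := by rw [abs_of_pos hx0]; exact hx.2
    have e2 : |x - u| ≤ X := by
      have : X * v₀ ≤ X := by nlinarith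
      rw [abs_le]; constructor
      · linarith [hu.1, hu.2]
      · linarith [hu.1, hx.2]
    exact mul_le_mul (hgkb _) (hMb _ _ e1 e2) (sq_nonneg _) (hgk0 _))
  have step1 : ∫ v in (0 : ℝ)..v₀, gk η v *
        (∫ x in (7 / 20 * X)..X, (Mz x - Mz (x * Real.exp (-v))) ^ 2)
      = ∫ v in Ioc 0 v₀, ∫ x in Ioc (7 / 20 * X) X, f1 v x := by
    rw [intervalIntegral.integral_of_le hv0.le]
    refine integral_congr_ae (Filter.Eventually.of_forall (fun v => ?_))
    simp only [f1]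
    rw [intervalIntegral.integral_of_le h7X, integral_const_mul]
  have step2 : ∫ v in Ioc 0 v₀, ∫ x in Ioc (7 / 20 * X) X, f1 v x
      = ∫ x in Ioc (7 / 20 * X) X, ∫ v in Ioc 0 v₀, f1 v x := integral_integral_swap hI1
  have step3 : ∫ x in Ioc (7 / 20 * X) X, ∫ v in Ioc 0 v₀, f1 v x ≤
      ∫ x in Ioc (7 / 20 * X) X, (6 / X) * ∫ u in Ioc 0 (X * v₀), f2 u x := by
    refine setIntegral_mono_on ?_ ?_ measurableSet_Ioc ?_
    · exact hI1.integral_prod_right
    · exact (hI2.integral_prod_right).const_mul _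
    · intro x hx
      exact Chg_one η X x v₀ hη hX1 hx.1.le hx.2 hv0 hv1
  have step4 : ∫ x in Ioc (7 / 20 * X) X, (6 / X) * ∫ u in Ioc 0 (X * v₀), f2 u x
      = (6 / X) * ∫ u in Ioc 0 (X * v₀), ∫ x in Ioc (7 / 20 * X) X, f2 u x := by
    rw [integral_const_mul, integral_integral_swap hI2]
  have step5 : ∫ u in Ioc 0 (X * v₀), ∫ x in Ioc (7 / 20 * X) X, f2 u x ≤
      ∫ u in Ioc 0 (X * v₀), gk η (u / X) * (100 * B * X * (u + δ₁ * X)) := by
    refine setIntegral_mono_on ?_ ?_ measurableSet_Ioc ?_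
    · exact hI2.integral_prod_left
    · have hc : Continuous (fun u : ℝ => gk η (u / X) * (100 * B * X * (u + δ₁ * X))) := by
        have := (gk_continuous η).comp (continuous_id.div_const X)
        exact this.mul (by fun_prop)
      exact (hc.integrableOn_Icc).mono_set Ioc_subset_Icc_self
    · intro u hu
      have e1 : ∫ x in Ioc (7 / 20 * X) X, f2 u x =
          gk η (u / X) * ∫ x in (7 / 20 * X)..X, (Mz x - Mz (x - u)) ^ 2 := by
        rw [intervalIntegral.integral_of_le h7X, ← integral_const_mul]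
      rw [e1]
      refine mul_le_mul_of_nonneg_left ?_ (hgk0 _)
      refine hE X u hX hu.1.le ?_
      have := hu.2
      rw [hv₀] at this
      linarith
  have step6 : ∫ u in Ioc 0 (X * v₀), gk η (u / X) * (100 * B * X * (u + δ₁ * X))
      = 100 * B * X ^ 3 * ∫ w in Ioc 0 v₀, gk η w * (w + δ₁) := by
    rw [← intervalIntegral.integral_of_le (by positivity),
      ← intervalIntegral.integral_of_le hv0.le]
    have e1 : ∀ u : ℝ, gk η (u / X) * (100 * B * X * (u + δ₁ * X)) =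
        (100 * B * X ^ 2) * (fun w : ℝ => gk η w * (w + δ₁)) (u / X) := by
      intro u
      simp only
      have : u = X * (u / X) := by field_simp
      nth_rewrite 2 [this]
      ring
    simp_rw [e1]
    rw [intervalIntegral.integral_const_mul]
    rw [intervalIntegral.integral_comp_div (fun w : ℝ => gk η w * (w + δ₁)) hX0.ne']
    have e2 : X * v₀ / X = v₀ := by field_simp
    rw [zero_div, e2, smul_eq_mul]
    ring
  have step7 : ∫ w in Ioc 0 v₀, gk η w * (w + δ₁) ≤ C₁ * η + δ₁ := by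
    obtain ⟨g1, g2⟩ := hmom η hη hη1
    have g3 := gk_integrable η hη
    have g4 := gk_integral η hη
    have e1 : ∫ w in Ioc 0 v₀, gk η w * (w + δ₁) ≤
        ∫ w in Ioc 0 v₀, (|w| ^ 1 * Real.exp (2 * |w|) * gk η w + δ₁ * gk η w) := by
      refine setIntegral_mono_on ?_ ?_ measurableSet_Ioc ?_
      · have hc : Continuous (fun w : ℝ => gk η w * (w + δ₁)) :=
          (gk_continuous η).mul (by fun_prop)
        exact (hc.integrableOn_Icc).mono_set Ioc_subset_Icc_self
      · exact (g1.add (g3.const_mul δ₁)).integrableOn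
      · intro w hw
        have e2 : w ≤ |w| ^ 1 * Real.exp (2 * |w|) := by
          have e3 : 1 ≤ Real.exp (2 * |w|) := Real.one_le_exp (by positivity)
          have e4 := le_abs_self w
          have e5 := abs_nonneg w
          rw [pow_one]
          nlinarith
        have e6 := hgk0 w
        nlinarith
    refine e1.trans ?_
    have e2 : ∫ w in Ioc 0 v₀, (|w| ^ 1 * Real.exp (2 * |w|) * gk η w + δ₁ * gk η w) ≤
        ∫ w : ℝ, (|w| ^ 1 * Real.exp (2 * |w|) * gk η w + δ₁ * gk η w) := by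
      refine setIntegral_le_integral (g1.add (g3.const_mul δ₁)) ?_
      refine Filter.Eventually.of_forall (fun w => ?_)
      have e6 := hgk0 w
      simp only [Pi.zero_apply]
      positivity
    refine e2.trans ?_
    rw [integral_add g1 (g3.const_mul δ₁), integral_const_mul, g4]
    rw [pow_one] at g2
    linarith
  have hfin : ∫ v in (0 : ℝ)..v₀, gk η v *
        (∫ x in (7 / 20 * X)..X, (Mz x - Mz (x * Real.exp (-v))) ^ 2)
      ≤ (6 / X) * (100 * B * X ^ 3 * (C₁ * η + δ₁)) := by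
    rw [step1, step2]
    refine step3.trans ?_
    rw [step4]
    refine mul_le_mul_of_nonneg_left ?_ (by positivity)
    refine step5.trans ?_
    rw [step6]
    exact mul_le_mul_of_nonneg_left step7 (by positivity)
  refine hfin.trans ?_
  have e1 : (6 / X) * (100 * B * X ^ 3 * (C₁ * η + δ₁)) = 600 * B * (C₁ * η + δ₁) * X ^ 2 := by
    field_simp; ring
  rw [e1]
  refine mul_le_mul_of_nonneg_right ?_ (by positivity)
  have e2 : 0 ≤ B * (C₁ * δ₁) := by positivity
  have e3 : 0 ≤ B * η := by positivity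
  nlinarith

end Pool.Agent.H56.GX
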