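import Pool.Agent.H56.GX.RectA

/-!
GX module RectB: the residue theorem for rectangles and finitely many simple poles.

Induction on the finite set `S` (for all `f`). `S = ∅`: Mathlib's
`Complex.integral_boundary_rect_eq_zero_of_differentiableOn`. Step: pick `w ∈ S`, put
`h s = f s - ρ w / (s - w)`. On `U \ S`, `h` is holomorphic and `(s-w) h(s) → 0` as `s → w`, `s ≠ w`, so
`h₁ = Function.update h w (limUnder (𝓝[≠] w) h)` is differentiable at `w`
(`Complex.differentiableOn_update_limUnder_of_isLittleO`, on a small ball `B(w, δ) ⊂ U` that meets `S`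
only in `w`). So `h₁` is holomorphic on `U \ (S \ {w})`, with the same limits at the other points `w'` of `S`
(`(s-w') ρ w / (s-w) → 0`, and `h₁ = h` near `w'`). By induction `Rect h₁ = 2πi ∑_{S \ {w}} ρ`. On the
boundary `h₁ = h = f - ρ w/(s-w)` (as `w` is an interior point), so
`Rect f = Rect h₁ + ρ w Rect (1/(s-w))` (linearity needs interval integrability: continuity on the
boundary), and `rect_inv`.
-/

set_option autoImplicit false

namespace Pool.Agent.H56.GX

open MeasureTheory Set Complex Filter Topology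

private theorem RectB_side (f h₁ φ : _) (V : Set ℂ) (w r : ℂ) (p q : ℝ)
    (hφ : Continuous (φ : ℝ → ℂ)) (hw : ∀ x, φ x ≠ w) (hV : ∀ x ∈ Set.uIcc p q, φ x ∈ V)
    (hc : ContinuousOn (h₁ : ℂ → ℂ) V)
    (he : ∀ s, s ≠ w → (f : ℂ → ℂ) s = h₁ s + r * (s - w)⁻¹) :
    (∫ x in p..q, f (φ x)) = (∫ x in p..q, h₁ (φ x)) + r * ∫ x in p..q, (φ x - w)⁻¹ := by
  have h1 : IntervalIntegrable (fun x => h₁ (φ x)) volume p q := by
    apply ContinuousOn.intervalIntegrable
    exact hc.comp hφ.continuousOn (fun x hx => hV x hx)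
  have h2 : IntervalIntegrable (fun x => (φ x - w)⁻¹) volume p q := by
    apply Continuous.intervalIntegrable
    exact (hφ.sub continuous_const).inv₀ (fun x => sub_ne_zero.mpr (hw x))
  rw [← intervalIntegral.integral_const_mul, ← intervalIntegral.integral_add h1 (h2.const_mul r)]
  apply intervalIntegral.integral_congr
  intro x _
  exact he (φ x) (hw x)

private theorem RectB_split (a b c d : ℝ) (hab : a < b) (hcd : c < d) (f h₁ : ℂ → ℂ)
    (V : Set ℂ) (w r : ℂ) (ha : a < w.re) (hb : w.re < b) (hc : c < w.im) (hd : w.im < d)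
    (hV : ∀ s : ℂ, a ≤ s.re → s.re ≤ b → c ≤ s.im → s.im ≤ d →
      (s.re = a ∨ s.re = b ∨ s.im = c ∨ s.im = d) → s ∈ V)
    (hcont : ContinuousOn h₁ V) (he : ∀ s, s ≠ w → f s = h₁ s + r * (s - w)⁻¹) :
    Rect f a b c d = Rect h₁ a b c d + r * Rect (fun s => (s - w)⁻¹) a b c d := by
  have e1 : (∫ x in a..b, f (x + c * I)) = (∫ x in a..b, h₁ (x + c * I)) +
      r * ∫ x in a..b, ((x : ℂ) + c * I - w)⁻¹ := by
    apply RectB_side f h₁ (fun x : ℝ => (x : ℂ) + c * I) V w r a b (by fun_prop) _ _ hcont he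
    · intro x hx
      have := congrArg Complex.im hx
      simp at this
      linarith
    · intro x hx
      rw [Set.uIcc_of_le hab.le] at hx
      apply hV <;> simp [hx.1, hx.2, hcd.le]
  have e2 : (∫ x in a..b, f (x + d * I)) = (∫ x in a..b, h₁ (x + d * I)) +
      r * ∫ x in a..b, ((x : ℂ) + d * I - w)⁻¹ := by
    apply RectB_side f h₁ (fun x : ℝ => (x : ℂ) + d * I) V w r a b (by fun_prop) _ _ hcont he
    · intro x hx
      have := congrArg Complex.im hx
      simp at this
      linarith
    · intro x hx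
      rw [Set.uIcc_of_le hab.le] at hx
      apply hV <;> simp [hx.1, hx.2, hcd.le]
  have e3 : (∫ y in c..d, f (b + y * I)) = (∫ y in c..d, h₁ (b + y * I)) +
      r * ∫ y in c..d, ((b : ℂ) + y * I - w)⁻¹ := by
    apply RectB_side f h₁ (fun y : ℝ => (b : ℂ) + y * I) V w r c d (by fun_prop) _ _ hcont he
    · intro x hx
      have := congrArg Complex.re hx
      simp at this
      linarith
    · intro x hx
      rw [Set.uIcc_of_le hcd.le] at hx
      apply hV <;> simp [hx.1, hx.2, hab.le]
  have e4 : (∫ y in c..d, f (a + y * I)) = (∫ y in c..d, h₁ (a + y * I)) +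
      r * ∫ y in c..d, ((a : ℂ) + y * I - w)⁻¹ := by
    apply RectB_side f h₁ (fun y : ℝ => (a : ℂ) + y * I) V w r c d (by fun_prop) _ _ hcont he
    · intro x hx
      have := congrArg Complex.re hx
      simp at this
      linarith
    · intro x hx
      rw [Set.uIcc_of_le hcd.le] at hx
      apply hV <;> simp [hx.1, hx.2, hab.le]
  simp only [Rect]
  rw [e1, e2, e3, e4]
  ring

theorem rect_residue (a b c d : ℝ) (hab : a < b) (hcd : c < d) (U : Set ℂ) (hU : IsOpen U)
    (hR : ∀ s : ℂ, a ≤ s.re → s.re ≤ b → c ≤ s.im → s.im ≤ d → s ∈ U) (S : Finset ℂ)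
    (hS : ∀ w ∈ S, a < w.re ∧ w.re < b ∧ c < w.im ∧ w.im < d) (f : ℂ → ℂ) (ρ : ℂ → ℂ)
    (hf : DifferentiableOn ℂ f (U \ (S : Set ℂ)))
    (hρ : ∀ w ∈ S, Tendsto (fun s => (s - w) * f s) (𝓝[≠] w) (𝓝 (ρ w))) :
    Rect f a b c d = 2 * Real.pi * I * ∑ w ∈ S, ρ w := by
  induction S using Finset.induction_on generalizing f with
  | empty =>
    have h := Complex.integral_boundary_rect_eq_zero_of_differentiableOn f
      ((a : ℂ) + c * I) ((b : ℂ) + d * I) (by
        apply hf.mono
        intro s hs
        rw [Complex.mem_reProdIm] at hs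
        simp only [add_re, ofReal_re, mul_re, I_re, mul_zero, ofReal_im, I_im, mul_one, sub_self,
          add_zero, add_im, mul_im, zero_add] at hs
        rw [Set.uIcc_of_le hab.le, Set.uIcc_of_le hcd.le] at hs
        simp only [Finset.coe_empty, Set.sdiff_empty]
        exact hR s hs.1.1 hs.1.2 hs.2.1 hs.2.2)
    simp only [add_re, ofReal_re, mul_re, I_re, mul_zero, ofReal_im, I_im, mul_one, sub_self,
          add_zero, add_im, mul_im, zero_add, smul_eq_mul] at h
    simp only [Rect, Finset.sum_empty, mul_zero]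
    exact h
  | insert w S hwS ih =>
    obtain ⟨hwa, hwb, hwc, hwd⟩ := hS w (Finset.mem_insert_self w S)
    have hwU : w ∈ U := hR w hwa.le hwb.le hwc.le hwd.le
    have hopen : IsOpen (U \ (S : Set ℂ)) := hU.sdiff S.finite_toSet.isClosed
    have hwV : w ∈ U \ (S : Set ℂ) := ⟨hwU, by simpa using hwS⟩
    set h : ℂ → ℂ := fun s => f s - ρ w * (s - w)⁻¹ with hh
    have hdiff : (U \ (S : Set ℂ)) \ {w} = U \ ((insert w S : Finset ℂ) : Set ℂ) := by
      ext s
      simp only [Set.mem_sdiff, Finset.mem_coe, Set.mem_singleton_iff, Finset.coe_insert,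
        Set.mem_insert_iff, not_or]
      tauto
    have hhd : DifferentiableOn ℂ h ((U \ (S : Set ℂ)) \ {w}) := by
      rw [hdiff]
      apply hf.sub
      intro s hs
      have hsw : s ≠ w := by
        rintro rfl
        exact hs.2 (by simp)
      apply DifferentiableAt.differentiableWithinAt
      have : s - w ≠ 0 := sub_ne_zero.mpr hsw
      fun_prop (disch := assumption)
    have hlim : Tendsto (fun s => (s - w) * h s) (𝓝[≠] w) (𝓝 0) := by
      have h1 := hρ w (Finset.mem_insert_self w S)
      have h2 : Tendsto (fun s => (s - w) * f s - ρ w) (𝓝[≠] w) (𝓝 (ρ w - ρ w)) :=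
        h1.sub tendsto_const_nhds
      rw [sub_self] at h2
      apply h2.congr'
      filter_upwards [self_mem_nhdsWithin] with s hs
      have : s - w ≠ 0 := sub_ne_zero.mpr hs
      simp only [hh]
      field_simp
    have ho : (fun z => h z - h w) =o[𝓝[≠] w] fun z => (z - w)⁻¹ := by
      have h3 : Tendsto (fun s => (s - w) * h w) (𝓝[≠] w) (𝓝 0) := by
        have : Tendsto (fun s : ℂ => (s - w) * h w) (𝓝 w) (𝓝 ((w - w) * h w)) := by
          apply Continuous.tendsto
          fun_prop
        rw [sub_self, zero_mul] at this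
        exact this.mono_left nhdsWithin_le_nhds
      have h4 := hlim.sub h3
      rw [sub_zero] at h4
      rw [Asymptotics.isLittleO_iff_tendsto']
      · apply h4.congr'
        filter_upwards [self_mem_nhdsWithin] with s hs
        have : s - w ≠ 0 := sub_ne_zero.mpr hs
        field_simp
      · filter_upwards [self_mem_nhdsWithin] with s hs h5
        exact absurd (inv_eq_zero.mp h5) (sub_ne_zero.mpr hs)
    set h₁ : ℂ → ℂ := Function.update h w (limUnder (𝓝[≠] w) h) with hh1
    have hd1 : DifferentiableOn ℂ h₁ (U \ (S : Set ℂ)) :=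
      Complex.differentiableOn_update_limUnder_of_isLittleO (hopen.mem_nhds hwV) hhd ho
    have hne : ∀ s, s ≠ w → h₁ s = h s := fun s hs => by
      rw [hh1, Function.update_of_ne hs]
    have hρ1 : ∀ w' ∈ S, Tendsto (fun s => (s - w') * h₁ s) (𝓝[≠] w') (𝓝 (ρ w')) := by
      intro w' hw'
      have hww : w' ≠ w := by
        rintro rfl
        exact hwS hw'
      have h1 := hρ w' (Finset.mem_insert_of_mem hw')
      have h2 : Tendsto (fun s : ℂ => (s - w') * (ρ w * (s - w)⁻¹)) (𝓝[≠] w') (𝓝 0) := by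
        have h3 : Tendsto (fun s : ℂ => (s - w') * (ρ w * (s - w)⁻¹)) (𝓝 w')
            (𝓝 ((w' - w') * (ρ w * (w' - w)⁻¹))) := by
          apply ContinuousAt.tendsto
          have : w' - w ≠ 0 := sub_ne_zero.mpr hww
          fun_prop (disch := assumption)
        rw [sub_self, zero_mul] at h3
        exact h3.mono_left nhdsWithin_le_nhds
      have h4 := h1.sub h2
      rw [sub_zero] at h4
      apply h4.congr'
      have h5 : ∀ᶠ s in 𝓝[≠] w', s ≠ w :=
        (isOpen_ne.mem_nhds hww : {s | s ≠ w} ∈ 𝓝 w') |> fun h => mem_nhdsWithin_of_mem_nhds h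
      filter_upwards [h5] with s hs
      rw [hne s hs, hh]
      ring
    have hi := ih (fun w' hw' => hS w' (Finset.mem_insert_of_mem hw')) h₁ hd1 hρ1
    have hsp := RectB_split a b c d hab hcd f h₁ (U \ (S : Set ℂ)) w (ρ w) hwa hwb hwc hwd (by
        intro s h1 h2 h3 h4 h5
        refine ⟨hR s h1 h2 h3 h4, ?_⟩
        intro hs
        obtain ⟨k1, k2, k3, k4⟩ := hS s (Finset.mem_insert_of_mem (by simpa using hs))
        rcases h5 with h5 | h5 | h5 | h5 <;> linarith) hd1.continuousOn (by
        intro s hs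
        rw [hne s hs, hh]
        ring)
    rw [hsp, hi, rect_inv a b c d w hwa hwb hwc hwd, Finset.sum_insert hwS]
    ring

end Pool.Agent.H56.GX
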