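import Pool.Agent.H56.GX.FId

/-!
GX module Simple: under `SBound` all zeros on the critical line are simple; residues.

(1) `zeta_simple`: let `ρ = 1/2 + iγ`, `ζ(ρ) = 0`, and suppose `ζ'(ρ) = 0`. Then `ζ(ρ + x) = O(x²)` as
`x → 0+` (`ζ` is analytic at `ρ ≠ 1`; e.g. `ζ(ρ+x)/x → ζ'(ρ) = 0` is enough:). By `F_inv` and `F_norm`,
for small `x > 0`: `‖((ρ+x) ζ(ρ+x))⁻¹‖ = ‖F(ρ+x)‖ ≤ C₁/x`, so `x ≤ C₁ ‖ρ+x‖ ‖ζ(ρ+x)‖`, i.e.
`‖ζ(ρ+x)‖/x ≥ 1/(C₁ ‖ρ+x‖) ≥ c > 0`, contradicting `ζ(ρ+x)/x → ζ'(ρ) = 0` (`HasDerivAt`).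
(2) `res_lim`: for a simple zero, `(s-ρ)/(s ζ(s)) → 1/(ρ ζ'(ρ)) = r γ` as `s → ρ`, `s ≠ ρ`
(slope of `ζ` at `ρ` tends to `ζ'(ρ) ≠ 0`, `hasDerivAt_iff_tendsto_slope`).
-/

set_option autoImplicit false

namespace Pool.Agent.H56.GX

open MeasureTheory Set Complex Filter Topology

theorem zeta_simple (C : ℝ) (hC : 1 ≤ C) (h : SBound C) (γ : ℝ) (hγ : γ ∈ Zr) :
    deriv riemannZeta (1 / 2 + γ * I) ≠ 0 := by
  intro hd
  obtain ⟨C₁, hC1, hF⟩ := F_norm C hC h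
  have hz : riemannZeta (1 / 2 + γ * I) = 0 := hγ
  set ρ₀ : ℂ := 1 / 2 + γ * I with hρ
  have hre : ρ₀.re = 1 / 2 := by simp [hρ]
  have hne : ρ₀ ≠ 1 := by
    intro h1
    have := congrArg Complex.re h1
    rw [hre] at this
    norm_num at this
  have hda : HasDerivAt riemannZeta 0 ρ₀ := by
    have := (differentiableAt_riemannZeta hne).hasDerivAt
    rwa [hd] at this
  rw [hasDerivAt_iff_tendsto_slope_zero] at hda
  have hreal : Tendsto (fun x : ℝ => (x : ℂ)) (𝓝[>] (0 : ℝ)) (𝓝[≠] (0 : ℂ)) := by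
    apply tendsto_nhdsWithin_of_tendsto_nhds_of_eventually_within
    · have : Tendsto (fun x : ℝ => (x : ℂ)) (𝓝 (0 : ℝ)) (𝓝 ((0 : ℝ) : ℂ)) :=
        Complex.continuous_ofReal.tendsto 0
      rw [Complex.ofReal_zero] at this
      exact this.mono_left nhdsWithin_le_nhds
    · filter_upwards [self_mem_nhdsWithin] with x hx
      have hx' : (0 : ℝ) < x := hx
      simp only [mem_compl_iff, mem_singleton_iff, Complex.ofReal_eq_zero]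
      exact hx'.ne'
  have ht := (hda.comp hreal).norm
  rw [norm_zero] at ht
  have hc0 : 0 < 1 / (C₁ * (‖ρ₀‖ + 1)) := by positivity
  have hev := ht.eventually (gt_mem_nhds hc0)
  have hx0 : ∀ᶠ x : ℝ in 𝓝[>] (0 : ℝ), x < 1 / 4 :=
    mem_nhdsWithin_of_mem_nhds (Iio_mem_nhds (by norm_num))
  obtain ⟨x, ⟨hx1, hx2⟩, hx3⟩ := ((hev.and hx0).and self_mem_nhdsWithin).exists
  have hxp : (0 : ℝ) < x := hx3
  have hsre : (ρ₀ + x).re = 1 / 2 + x := by simp [hre]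
  have hs1 : ρ₀ + x ≠ 1 := by
    intro h1
    have := congrArg Complex.re h1
    rw [hsre] at this
    norm_num at this
    linarith
  have hFx := hF (ρ₀ + x) (by rw [hsre]; linarith) (by rw [hsre]; linarith)
  rw [hsre, show (1 / 2 + x - 1 / 2 : ℝ) = x by ring] at hFx
  have hid := F_ident C hC h (ρ₀ + x) (by rw [hsre]; linarith) hs1
  have hn := congrArg norm hid
  rw [norm_mul, norm_mul, norm_one] at hn
  have hsn : ‖ρ₀ + x‖ ≤ ‖ρ₀‖ + 1 := by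
    refine (norm_add_le _ _).trans ?_
    rw [Complex.norm_real, Real.norm_eq_abs, abs_of_pos hxp]
    linarith
  simp only [Function.comp, smul_eq_mul, norm_mul, norm_inv, Complex.norm_real,
    Real.norm_eq_abs, abs_of_pos hxp, hz, sub_zero] at hx1
  have h1 : (1 : ℝ) ≤ (‖ρ₀‖ + 1) * ‖riemannZeta (ρ₀ + x)‖ * (C₁ / x) := by
    calc (1 : ℝ) = ‖ρ₀ + x‖ * ‖riemannZeta (ρ₀ + x)‖ * ‖F (ρ₀ + x)‖ := hn.symm
      _ ≤ (‖ρ₀‖ + 1) * ‖riemannZeta (ρ₀ + x)‖ * (C₁ / x) := by gcongr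
  have h2 : (‖ρ₀‖ + 1) * ‖riemannZeta (ρ₀ + x)‖ * (C₁ / x) =
      (C₁ * (‖ρ₀‖ + 1)) * (x⁻¹ * ‖riemannZeta (ρ₀ + x)‖) := by
    field_simp
  have h3 : (C₁ * (‖ρ₀‖ + 1)) * (x⁻¹ * ‖riemannZeta (ρ₀ + x)‖) <
      (C₁ * (‖ρ₀‖ + 1)) * (1 / (C₁ * (‖ρ₀‖ + 1))) :=
    mul_lt_mul_of_pos_left hx1 (by positivity)
  have h4 : (C₁ * (‖ρ₀‖ + 1)) * (1 / (C₁ * (‖ρ₀‖ + 1))) = 1 := by
    have : C₁ * (‖ρ₀‖ + 1) ≠ 0 := by positivity
    field_simp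
  rw [h4] at h3
  rw [h2] at h1
  linarith

theorem res_lim (γ : ℝ) (hγ : γ ∈ Zr) (hd : deriv riemannZeta (1 / 2 + γ * I) ≠ 0) :
    Tendsto (fun s : ℂ => (s - (1 / 2 + γ * I)) * (s * riemannZeta s)⁻¹) (𝓝[≠] (1 / 2 + γ * I))
      (𝓝 (r γ)) := by
  have hz : riemannZeta (1 / 2 + γ * I) = 0 := hγ
  simp only [r]
  set ρ₀ : ℂ := 1 / 2 + γ * I with hρ
  have hre : ρ₀.re = 1 / 2 := by simp [hρ]
  have hne : ρ₀ ≠ 1 := by
    intro h1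
    have := congrArg Complex.re h1
    rw [hre] at this
    norm_num at this
  have hne0 : ρ₀ ≠ 0 := by
    intro h1
    have := congrArg Complex.re h1
    rw [hre] at this
    norm_num at this
  have hda := (differentiableAt_riemannZeta hne).hasDerivAt
  rw [hasDerivAt_iff_tendsto_slope] at hda
  have h1 : Tendsto (fun s : ℂ => s) (𝓝[≠] ρ₀) (𝓝 ρ₀) :=
    tendsto_id.mono_left nhdsWithin_le_nhds
  have h2 := (h1.mul hda).inv₀ (mul_ne_zero hne0 hd)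
  apply h2.congr'
  filter_upwards [self_mem_nhdsWithin] with s hs
  have hs' : s - ρ₀ ≠ 0 := sub_ne_zero.mpr hs
  rw [slope_def_field, hz, sub_zero, mul_inv, mul_inv, inv_div]
  ring

end Pool.Agent.H56.GX
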