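import Pool.Agent.H56.GX.Defs

/-!
GX module ZRefl: `1/ζ` to the left of the critical line, and zero-freeness there.

(1) `zeta_refl`. Let `-1/2 ≤ Re s ≤ 1/2`, `|Im s| ≥ 1`, `w = 1 - s`, `t = Im s`. By
`riemannZeta_one_sub` (for `w`): `ζ(s) = 2 (2π)^{-w} Γ(w) cos(π w/2) ζ(w)`. So
`‖ζ(s)⁻¹‖ = (1/2) (2π)^{Re w} ‖Γ(w)⁻¹‖ ‖cos(πw/2)⁻¹‖ ‖ζ(w)⁻¹‖`.
* `‖cos(x+iy)‖² = cos² x + sinh² y ≥ sinh²(π t/2) ≥ sinh²(π/2) ≥ 1`, so `‖cos(πw/2)⁻¹‖ ≤ 1`.
* `Γ(w) Γ(s) = π / sin(π s)` so `‖Γ(w)⁻¹‖ = ‖Γ(s) sin(π s)‖ / π ≤ ‖Γ(s)‖ exp(π |t|) / π`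
  (`‖sin z‖ ≤ cosh(Im z) ≤ exp |Im z|`), and `Γ(s) = Γ(s+2) / (s (s+1))` with `|s|, |s+1| ≥ |t| ≥ 1`,
  `‖Γ(s+2)‖ ≤ Γ(Re s + 2) ≤ 2` (any absolute constant: e.g. `Γ(x) ≤ Γ(1)+Γ(3)...`; the bound
  `‖Γ(z)‖ ≤ Γ(Re z)` follows from the integral `Complex.Gamma_eq_integral`, and for `3/2 ≤ x ≤ 5/2` the
  integrand `e^{-u} u^{x-1} ≤ e^{-u} (1 + u²)` gives `Γ(x) ≤ Γ(1) + Γ(3) = 3`).
Altogether `‖ζ(s)⁻¹‖ ≤ exp(C |t|) ‖ζ(1-s)⁻¹‖` (`|t| ≥ 1` absorbs constants). If `ζ(w) = 0` then also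
`ζ(s) = 0` and both inverses are `0` in Lean: the inequality holds for all such `s` without a
nonvanishing hypothesis.

(2) `zeta_left_ne`. Let `-1/2 ≤ Re s < 1/2` and `ζ(1-s) ≠ 0`. If `s = 0`: `riemannZeta_zero`
(`ζ(0) = -1/2`). Else `w = 1-s ≠ 1`, `1/2 < Re w ≤ 3/2`, and in the functional equation `Γ(w) ≠ 0`
(`Complex.Gamma_ne_zero_of_re_pos`), `cos(π w/2) = 0` only if `w` is an odd integer
(`Complex.cos_eq_zero_iff`), i.e. `w = 1`, excluded.
-/

set_option autoImplicit false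

namespace Pool.Agent.H56.GX

open MeasureTheory Set Complex Filter Topology

/-- `‖sin z‖ ≤ exp |Im z|`. -/
lemma ZRefl_sin (z : ℂ) : ‖Complex.sin z‖ ≤ Real.exp |z.im| := by
  rw [Complex.sin, norm_div, norm_mul, Complex.norm_I, mul_one, Complex.norm_two]
  have h1 : ‖Complex.exp (-z * I)‖ ≤ Real.exp |z.im| := by
    rw [Complex.norm_exp]
    apply Real.exp_le_exp.mpr
    have : (-z * I).re = z.im := by simp
    rw [this]; exact le_abs_self _
  have h2 : ‖Complex.exp (z * I)‖ ≤ Real.exp |z.im| := by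
    rw [Complex.norm_exp]
    apply Real.exp_le_exp.mpr
    have : (z * I).re = -z.im := by simp
    rw [this]; exact neg_le_abs _
  have h3 := norm_sub_le (Complex.exp (-z * I)) (Complex.exp (z * I))
  rw [div_le_iff₀ (by norm_num)]
  linarith

/-- `‖Γ(z)‖ ≤ Γ(Re z)` for `Re z > 0`. -/
lemma ZRefl_Gamma_le (z : ℂ) (hz : 0 < z.re) : ‖Complex.Gamma z‖ ≤ Real.Gamma z.re := by
  rw [Complex.Gamma_eq_integral hz, Complex.GammaIntegral, Real.Gamma_eq_integral hz]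
  refine (norm_integral_le_integral_norm _).trans (le_of_eq ?_)
  refine setIntegral_congr_fun measurableSet_Ioi ?_
  intro x hx
  simp only
  have hx' : (0 : ℝ) < x := hx
  rw [norm_mul, Complex.norm_real, Real.norm_eq_abs, abs_of_pos (Real.exp_pos _),
    Complex.norm_cpow_eq_rpow_re_of_pos hx', Complex.sub_re, Complex.one_re]

/-- `Γ(x) ≤ 2` on `[1, 3]`. -/
lemma ZRefl_Gamma_two (x : ℝ) (h1 : 1 ≤ x) (h3 : x ≤ 3) : Real.Gamma x ≤ 2 := by
  have h := Real.convexOn_Gamma.le_max_of_mem_Icc (x := 1) (y := 3) (z := x)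
    (show (0 : ℝ) < 1 by norm_num) (show (0 : ℝ) < 3 by norm_num) ⟨h1, h3⟩
  have h2 : Real.Gamma 3 = 2 := by
    have := Real.Gamma_nat_eq_factorial 2
    norm_num at this
    simp
  rw [Real.Gamma_one, h2] at h
  exact h.trans (by norm_num)

/-- `‖cos z‖ ≥ 1` if `|Im z| ≥ 1`. -/
lemma ZRefl_cos (z : ℂ) (hz : 1 ≤ |z.im|) : 1 ≤ ‖Complex.cos z‖ := by
  have h1 : ‖Complex.cos z‖ ^ 2 = Real.cos z.re ^ 2 + Real.sinh z.im ^ 2 := by
    have h0 : Complex.cos z = ((Real.cos z.re * Real.cosh z.im : ℝ) : ℂ)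
        + ((-(Real.sin z.re * Real.sinh z.im) : ℝ) : ℂ) * I := by
      rw [Complex.cos_eq, ← Complex.ofReal_cos, ← Complex.ofReal_cosh, ← Complex.ofReal_sin,
        ← Complex.ofReal_sinh]
      push_cast; ring
    rw [h0, ← Complex.normSq_eq_norm_sq, Complex.normSq_add_mul_I]
    have h2 := Real.cosh_sq z.im
    have h3 := Real.sin_sq z.re
    have : (Real.cos z.re * Real.cosh z.im) ^ 2 + (-(Real.sin z.re * Real.sinh z.im)) ^ 2
        = Real.cos z.re ^ 2 * Real.cosh z.im ^ 2 + Real.sin z.re ^ 2 * Real.sinh z.im ^ 2 := by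
      ring
    rw [this, h2, h3]; ring
  have h4 : 1 ≤ Real.sinh z.im ^ 2 := by
    have h5 : |z.im| ≤ Real.sinh |z.im| := Real.self_le_sinh_iff.mpr (abs_nonneg _)
    have h6 : Real.sinh |z.im| ^ 2 = Real.sinh z.im ^ 2 := by
      rcases abs_choice z.im with h | h
      · rw [h]
      · rw [h, Real.sinh_neg]; ring
    rw [← h6]
    have h7 : 1 ≤ Real.sinh |z.im| := hz.trans h5
    nlinarith
  have h8 : 1 ≤ ‖Complex.cos z‖ ^ 2 := by
    rw [h1]
    have := sq_nonneg (Real.cos z.re)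
    linarith
  by_contra hc
  push Not at hc
  have := norm_nonneg (Complex.cos z)
  nlinarith

theorem zeta_refl : ∃ C : ℝ, 0 < C ∧ ∀ s : ℂ, -(1 / 2) ≤ s.re → s.re ≤ 1 / 2 → 1 ≤ |s.im| →
    ‖(riemannZeta s)⁻¹‖ ≤ Real.exp (C * |s.im|) * ‖(riemannZeta (1 - s))⁻¹‖ := by
  refine ⟨Real.pi + 100, by positivity, fun s h1 h2 h3 => ?_⟩
  have him : s.im ≠ 0 := by
    intro h; rw [h, abs_zero] at h3; linarith
  set w : ℂ := 1 - s with hw
  have hwim : w.im = -s.im := by rw [hw]; simp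
  have hwre : w.re = 1 - s.re := by rw [hw]; simp
  have hwn : ∀ n : ℕ, w ≠ -n := by
    intro n h
    have := congrArg Complex.im h
    rw [hwim] at this
    simp at this
    exact him this
  have hw1 : w ≠ 1 := by
    intro h
    have := congrArg Complex.im h
    rw [hwim] at this
    simp at this
    exact him this
  have hfe := riemannZeta_one_sub hwn hw1
  have hs1 : 1 - w = s := by rw [hw]; ring
  rw [hs1] at hfe
  have hsn : ∀ m : ℕ, s ≠ -m := by
    intro m h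
    have := congrArg Complex.im h
    simp at this
    exact him this
  have hGs : Complex.Gamma s ≠ 0 := Complex.Gamma_ne_zero hsn
  have hGw : Complex.Gamma w ≠ 0 := Complex.Gamma_ne_zero hwn
  have hrefl := Complex.Gamma_mul_Gamma_one_sub w
  rw [hs1] at hrefl
  have hsin : Complex.sin (Real.pi * w) ≠ 0 := by
    intro h
    rw [h, div_zero] at hrefl
    exact (mul_ne_zero hGw hGs) hrefl
  have hGinv : (Complex.Gamma w)⁻¹ = Complex.Gamma s * Complex.sin (Real.pi * w) / Real.pi := by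
    have hpi : (Real.pi : ℂ) ≠ 0 := by exact_mod_cast Real.pi_ne_zero
    have h4 : Complex.Gamma w * Complex.Gamma s * Complex.sin (Real.pi * w) = Real.pi := by
      rw [hrefl]; field_simp
    rw [eq_div_iff hpi, inv_mul_eq_iff_eq_mul₀ hGw]
    rw [← mul_assoc]
    exact h4.symm
  have hGs2 : ‖Complex.Gamma s‖ ≤ 2 := by
    have hs0 : s ≠ 0 := by
      intro h; apply him; rw [h]; simp
    have hs10 : s + 1 ≠ 0 := by
      intro h
      have := congrArg Complex.im h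
      simp at this
      exact him this
    have h5 : Complex.Gamma (s + 1 + 1) = (s + 1) * (s * Complex.Gamma s) := by
      rw [Complex.Gamma_add_one _ hs10, Complex.Gamma_add_one _ hs0]
    have h6 : ‖Complex.Gamma (s + 1 + 1)‖ ≤ 2 := by
      have hre : (s + 1 + 1).re = s.re + 2 := by simp; ring
      refine (ZRefl_Gamma_le _ (by rw [hre]; linarith)).trans ?_
      rw [hre]
      exact ZRefl_Gamma_two _ (by linarith) (by linarith)
    rw [h5, norm_mul, norm_mul] at h6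
    have h7 : 1 ≤ ‖s‖ := h3.trans (Complex.abs_im_le_norm s)
    have h8 : 1 ≤ ‖s + 1‖ := by
      have h9 : |(s + 1).im| ≤ ‖s + 1‖ := Complex.abs_im_le_norm _
      have h10 : (s + 1).im = s.im := by simp
      rw [h10] at h9
      exact h3.trans h9
    have h11 : ‖Complex.Gamma s‖ ≤ ‖s‖ * ‖Complex.Gamma s‖ :=
      le_mul_of_one_le_left (norm_nonneg _) h7
    have h12 : ‖s‖ * ‖Complex.Gamma s‖ ≤ ‖s + 1‖ * (‖s‖ * ‖Complex.Gamma s‖) :=
      le_mul_of_one_le_left (by positivity) h8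
    linarith
  have hGwb : ‖(Complex.Gamma w)⁻¹‖ ≤ 2 * Real.exp (Real.pi * |s.im|) / Real.pi := by
    rw [hGinv, norm_div, norm_mul, Complex.norm_real, Real.norm_eq_abs, abs_of_pos Real.pi_pos]
    have h13 : ‖Complex.sin (Real.pi * w)‖ ≤ Real.exp (Real.pi * |s.im|) := by
      refine (ZRefl_sin _).trans (le_of_eq ?_)
      have : ((Real.pi : ℂ) * w).im = -(Real.pi * s.im) := by
        rw [Complex.im_ofReal_mul, hwim]; ring
      rw [this, abs_neg, abs_mul, abs_of_pos Real.pi_pos]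
    gcongr
  have hcos : ‖(Complex.cos (Real.pi * w / 2))⁻¹‖ ≤ 1 := by
    rw [norm_inv]
    apply inv_le_one_of_one_le₀
    apply ZRefl_cos
    have : ((Real.pi : ℂ) * w / 2).im = -(Real.pi * s.im / 2) := by
      have h20 : (Real.pi : ℂ) * w / 2 = ((Real.pi / 2 : ℝ) : ℂ) * w := by push_cast; ring
      rw [h20, Complex.im_ofReal_mul, hwim]; ring
    rw [this, abs_neg, abs_div, abs_mul, abs_of_pos Real.pi_pos, abs_of_pos (by norm_num : (0 : ℝ) < 2)]
    have := Real.pi_gt_three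
    nlinarith
  have hpow : ‖((2 * (Real.pi : ℂ)) ^ (-w))⁻¹‖ ≤ 64 := by
    have h14 : (2 * (Real.pi : ℂ)) = ((2 * Real.pi : ℝ) : ℂ) := by push_cast; ring
    rw [norm_inv, h14, Complex.norm_cpow_eq_rpow_re_of_pos (by positivity), Complex.neg_re,
      Real.rpow_neg (by positivity), inv_inv, hwre]
    calc (2 * Real.pi) ^ (1 - s.re) ≤ (2 * Real.pi) ^ (2 : ℝ) :=
        Real.rpow_le_rpow_of_exponent_le (by linarith [Real.pi_gt_three]) (by linarith)
      _ = (2 * Real.pi) ^ 2 := Real.rpow_two _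
      _ ≤ 64 := by nlinarith [Real.pi_lt_four, Real.pi_pos]
  rw [hfe]
  have heq : ‖(2 * (2 * (Real.pi : ℂ)) ^ (-w) * Complex.Gamma w * Complex.cos (Real.pi * w / 2)
      * riemannZeta w)⁻¹‖ = 1 / 2 * ‖((2 * (Real.pi : ℂ)) ^ (-w))⁻¹‖ * ‖(Complex.Gamma w)⁻¹‖
        * ‖(Complex.cos (Real.pi * w / 2))⁻¹‖ * ‖(riemannZeta w)⁻¹‖ := by
    simp only [mul_inv, norm_mul, norm_inv, Complex.norm_two]
    ring
  rw [heq]
  have hexp : (1 / 2 * 64 * (2 * Real.exp (Real.pi * |s.im|) / Real.pi) * 1)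
      ≤ Real.exp ((Real.pi + 100) * |s.im|) := by
    rw [add_mul, Real.exp_add]
    have h15 : 100 * |s.im| + 1 ≤ Real.exp (100 * |s.im|) := Real.add_one_le_exp _
    have h16 : 1 / 2 * 64 * (2 * Real.exp (Real.pi * |s.im|) / Real.pi) * 1
        = Real.exp (Real.pi * |s.im|) * (64 / Real.pi) := by ring
    rw [h16]
    apply mul_le_mul_of_nonneg_left _ (Real.exp_pos _).le
    have h17 : 64 / Real.pi ≤ 64 := by
      rw [div_le_iff₀ Real.pi_pos]
      nlinarith [Real.pi_gt_three]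
    linarith
  refine mul_le_mul_of_nonneg_right (le_trans ?_ hexp) (norm_nonneg _)
  gcongr

theorem zeta_left_ne (s : ℂ) (h1 : -(1 / 2) ≤ s.re) (h2 : s.re < 1 / 2)
    (h : riemannZeta (1 - s) ≠ 0) : riemannZeta s ≠ 0 := by
  rcases eq_or_ne s 0 with h0 | h0
  · rw [h0, riemannZeta_zero]; norm_num
  set w : ℂ := 1 - s with hw
  have hwre : w.re = 1 - s.re := by rw [hw]; simp
  have hwn : ∀ n : ℕ, w ≠ -n := by
    intro n hn
    have := congrArg Complex.re hn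
    rw [hwre] at this
    simp at this
    have h3 : (0 : ℝ) ≤ n := Nat.cast_nonneg n
    linarith
  have hw1 : w ≠ 1 := by
    intro h3
    apply h0
    have : s = 1 - w := by rw [hw]; ring
    rw [this, h3]; ring
  have hfe := riemannZeta_one_sub hwn hw1
  have hs1 : 1 - w = s := by rw [hw]; ring
  rw [hs1] at hfe
  rw [hfe]
  have hpi : (2 * (Real.pi : ℂ)) ≠ 0 := by
    have : (Real.pi : ℂ) ≠ 0 := by exact_mod_cast Real.pi_ne_zero
    exact mul_ne_zero two_ne_zero this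
  have hcos : Complex.cos (Real.pi * w / 2) ≠ 0 := by
    intro hc
    rw [Complex.cos_eq_zero_iff] at hc
    obtain ⟨k, hk⟩ := hc
    have hpi0 : (Real.pi : ℂ) ≠ 0 := by exact_mod_cast Real.pi_ne_zero
    have h4 : w = 2 * k + 1 := by
      have : (Real.pi : ℂ) * w = Real.pi * (2 * k + 1) := by
        have h5 : (Real.pi : ℂ) * w = 2 * (Real.pi * w / 2) := by ring
        rw [h5, hk]; ring
      exact mul_left_cancel₀ hpi0 this
    have h6 : w.re = 2 * (k : ℝ) + 1 := by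
      rw [h4]; simp
    rw [hwre] at h6
    have h7 : -(1 : ℝ) < 2 * (k : ℝ) := by linarith
    have h8 : 2 * (k : ℝ) < 2 := by linarith
    have h9 : (-1 : ℤ) < 2 * k := by exact_mod_cast h7
    have h10 : 2 * k < (2 : ℤ) := by exact_mod_cast h8
    have h11 : k = 0 := by omega
    apply hw1
    rw [h4, h11]; simp
  have hGw : Complex.Gamma w ≠ 0 := Complex.Gamma_ne_zero hwn
  have hp : (2 * (Real.pi : ℂ)) ^ (-w) ≠ 0 := by
    rw [Complex.cpow_def_of_ne_zero hpi]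
    exact Complex.exp_ne_zero _
  exact mul_ne_zero (mul_ne_zero (mul_ne_zero (mul_ne_zero two_ne_zero hp) hGw) hcos) h

end Pool.Agent.H56.GX
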