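import Pool.Agent.H56.GX.FId
import Pool.Agent.H56.GX.ZRefl
import Pool.Agent.H56.GX.Simple
import Pool.Agent.H56.GX.RectB
import Pool.Agent.H56.GX.Gau

/-!
GX module Contour: the residue theorem for `f(s) = K(s) x^s / (s ζ(s))` on `[-1/2, 2] × [-T, T]`.

Let `T > 0` with `ζ(σ ± iT) ≠ 0` for `-1/2 ≤ σ ≤ 2` (as in `good_heights`).
Zeros of `ζ` with `-1/2 ≤ Re ≤ 2`: none with `Re > 1/2` except possibly... (`F_inv`; at `s = 1`
`riemannZeta 1 ≠ 0`, `riemannZeta_one_ne_zero`), none with `-1/2 ≤ Re < 1/2` (`zeta_left_ne` with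
`ζ(1-s) ≠ 0` by `F_inv` for `s ≠ 0`, and at `s = 0` `1 - s = 1`, `riemannZeta_one_ne_zero`). So all are
`1/2 + iγ`, `γ ∈ Zr`, `|γ| < T` for those in the rectangle (finitely many:
`IsCompact.inter_riemannZetaZeros_finite`). Apply `rect_residue` with
`U = {-3/4 < Re s}`... careful: on the vertical strip `-3/4 < Re s < -1/2` we do not know zero-freeness;
take `U = {s | -1/2 ≤ ...}`: since `U` must be open and contain the closed rectangle, use
`U = (open neighbourhood of the rectangle on which the only zeros are the ones in S)`, e.g. the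
complement of `(zeros of ζ) \ S` (closed, since the zero set is closed and discrete:
`isClosed_riemannZetaZeros`, `isDiscrete_riemannZetaZeros`; any subset of it is closed too, e.g.
`zeros \ S` = zeros ∩ complement of the open union of small balls around `S`; or by
`tendsto_riemannZeta_cofinite_cocompact`).
`S = {0, 1} ∪ {1/2 + iγ : γ ∈ Zr, |γ| < T}` and `f s = K η s * x^s * (s * riemannZeta s)⁻¹`.
Residues: at `0`: `s f(s) → K(0)/ζ(0) = -2 K η 0` (`riemannZeta_zero`); at `1`: `(s-1) f(s) → 0` because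
`(riemannZeta s)⁻¹ → 0` as `s → 1`, `s ≠ 1` (`riemannZeta_residue_one : (s-1) ζ(s) → 1`); at
`1/2+iγ`: `res_lim`, giving `a η γ x^{1/2+iγ}` (`a = K r`). The points of `S` are distinct.
On `Re s = 2`: `F = (s ζ(s))⁻¹` (`F_inv`).
The finset of ordinates is any `A : Finset ℝ` with `γ ∈ A ↔ γ ∈ Zr ∧ |γ| < T`.
-/

set_option autoImplicit false

namespace Pool.Agent.H56.GX

open MeasureTheory Set Complex Filter Topology

/-- The function whose contour integral is taken. -/
noncomputable def fc (η x : ℝ) (s : ℂ) : ℂ := K η s * (x : ℂ) ^ s * (s * riemannZeta s)⁻¹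

private lemma Contour_phi_re (γ : ℝ) : ((1 / 2 : ℂ) + γ * I).re = 1 / 2 := by
  simp

private lemma Contour_phi_im (γ : ℝ) : ((1 / 2 : ℂ) + γ * I).im = γ := by
  simp

private lemma Contour_phi_inj : Function.Injective (fun γ : ℝ => (1 / 2 : ℂ) + γ * I) := by
  intro γ γ' h
  have := congrArg Complex.im h
  simpa using this

theorem zr_finite (T : ℝ) : {γ : ℝ | γ ∈ Zr ∧ |γ| < T}.Finite := by
  have hc : IsCompact (Metric.closedBall (0 : ℂ) (1 + |T|)) := isCompact_closedBall _ _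
  have hf := hc.inter_riemannZetaZeros_finite
  refine Set.Finite.of_finite_image (f := fun γ : ℝ => (1 / 2 : ℂ) + γ * I) (hf.subset ?_)
    Contour_phi_inj.injOn
  rintro _ ⟨γ, ⟨h1, h2⟩, rfl⟩
  refine ⟨?_, h1⟩
  rw [mem_closedBall_zero_iff]
  refine (norm_add_le _ _).trans ?_
  have e1 : ‖(1 / 2 : ℂ)‖ = 1 / 2 := by norm_num
  have e2 : ‖(γ : ℂ) * I‖ = |γ| := by simp
  rw [e1, e2]
  have := le_abs_self T
  linarith

private lemma Contour_class (C : ℝ) (hC : 1 ≤ C) (h : SBound C) (s : ℂ) (h1 : -(1 / 2) ≤ s.re)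
    (hz : riemannZeta s = 0) : s = (1 / 2 : ℂ) + s.im * I := by
  have hs1 : s ≠ 1 := by
    rintro rfl
    exact riemannZeta_one_ne_zero hz
  have hre : s.re = 1 / 2 := by
    rcases lt_trichotomy s.re (1 / 2) with hlt | heq | hgt
    · exfalso
      refine zeta_left_ne s h1 hlt ?_ hz
      by_cases h0 : 1 - s = 1
      · rw [h0]; exact riemannZeta_one_ne_zero
      · refine (F_inv C hC h (1 - s) ?_ h0).1
        rw [sub_re, one_re]; linarith
    · exact heq
    · exact absurd hz (F_inv C hC h s hgt hs1).1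
  apply Complex.ext
  · rw [Contour_phi_re, hre]
  · rw [Contour_phi_im]

private lemma Contour_cont (η x : ℝ) (hx : 0 < x) : Continuous (fun s => K η s * (x : ℂ) ^ s) := by
  have hx0 : (x : ℂ) ≠ 0 := by exact_mod_cast hx.ne'
  exact (K_differentiable η).continuous.mul (continuous_id.const_cpow (Or.inl hx0))

private lemma Contour_lim_zero (η x : ℝ) (hx : 0 < x) :
    Tendsto (fun s => (s - 0) * fc η x s) (𝓝[≠] (0 : ℂ)) (𝓝 (-2 * K η 0)) := by
  have hx0 : (x : ℂ) ≠ 0 := by exact_mod_cast hx.ne'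
  have hz : ContinuousAt riemannZeta 0 := (differentiableAt_riemannZeta zero_ne_one).continuousAt
  have hz0 : riemannZeta 0 ≠ 0 := by rw [riemannZeta_zero]; norm_num
  have hcont : ContinuousAt (fun s => K η s * (x : ℂ) ^ s * (riemannZeta s)⁻¹) 0 :=
    (Contour_cont η x hx).continuousAt.mul (hz.inv₀ hz0)
  have hval : K η 0 * (x : ℂ) ^ (0 : ℂ) * (riemannZeta 0)⁻¹ = -2 * K η 0 := by
    rw [riemannZeta_zero, cpow_zero]
    norm_num
    ring
  have hlim := hcont.tendsto.mono_left (nhdsWithin_le_nhds (s := {(0 : ℂ)}ᶜ))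
  rw [hval] at hlim
  refine hlim.congr' ?_
  filter_upwards [self_mem_nhdsWithin] with s hs
  have hs0 : s ≠ 0 := hs
  rw [fc, mul_inv, sub_zero]
  field_simp

private lemma Contour_lim_one (η x : ℝ) (hx : 0 < x) :
    Tendsto (fun s => (s - 1) * fc η x s) (𝓝[≠] (1 : ℂ)) (𝓝 0) := by
  have h1 : Tendsto (fun s : ℂ => (s - 1) * ((s - 1) * riemannZeta s)⁻¹) (𝓝[≠] (1 : ℂ))
      (𝓝 ((1 - 1) * 1⁻¹)) := by
    refine Tendsto.mul ?_ (riemannZeta_residue_one.inv₀ one_ne_zero)
    exact ((continuous_id.sub continuous_const).tendsto (1 : ℂ)).mono_left nhdsWithin_le_nhds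
  have h2 : Tendsto (fun s : ℂ => (s - 1) * (K η s * (x : ℂ) ^ s) * s⁻¹) (𝓝[≠] (1 : ℂ))
      (𝓝 ((1 - 1) * (K η 1 * (x : ℂ) ^ (1 : ℂ)) * 1⁻¹)) := by
    refine Tendsto.mono_left ?_ nhdsWithin_le_nhds
    refine ContinuousAt.tendsto (f := fun s : ℂ => (s - 1) * (K η s * (x : ℂ) ^ s) * s⁻¹) ?_
    exact ((continuous_id.sub continuous_const).continuousAt.mul
      (Contour_cont η x hx).continuousAt).mul (continuousAt_inv₀ one_ne_zero)
  have h3 := h2.mul h1
  rw [sub_self, zero_mul, zero_mul, zero_mul] at h3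
  refine h3.congr' ?_
  filter_upwards [self_mem_nhdsWithin] with s hs
  have hs1 : s - 1 ≠ 0 := sub_ne_zero.2 hs
  rw [fc, mul_inv, mul_inv]
  field_simp

private lemma Contour_lim_zero' (η x γ : ℝ) (hx : 0 < x) (hγ : γ ∈ Zr)
    (hd : deriv riemannZeta (1 / 2 + γ * I) ≠ 0) :
    Tendsto (fun s => (s - (1 / 2 + γ * I)) * fc η x s) (𝓝[≠] ((1 / 2 : ℂ) + γ * I))
      (𝓝 (a η γ * (x : ℂ) ^ (1 / 2 + γ * I : ℂ))) := by
  have h1 := ((Contour_cont η x hx).tendsto ((1 / 2 : ℂ) + γ * I)).mono_left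
    (nhdsWithin_le_nhds (s := {(1 / 2 : ℂ) + γ * I}ᶜ))
  have h2 := h1.mul (res_lim γ hγ hd)
  have e : K η (1 / 2 + γ * I) * (x : ℂ) ^ (1 / 2 + γ * I : ℂ) * r γ =
      a η γ * (x : ℂ) ^ (1 / 2 + γ * I : ℂ) := by
    rw [a]; ring
  rw [e] at h2
  refine h2.congr fun s => ?_
  rw [fc]; ring

theorem contour (C : ℝ) (hC : 1 ≤ C) (h : SBound C) (η x T : ℝ) (hη : 0 < η) (hx : 0 < x)
    (hT : 0 < T)
    (hz : ∀ σ : ℝ, -(1 / 2) ≤ σ → σ ≤ 2 → riemannZeta (σ + T * I) ≠ 0 ∧ riemannZeta (σ - T * I) ≠ 0) :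
    Rect (fc η x) (-(1 / 2)) 2 (-T) T = 2 * Real.pi * I *
      (-2 * K η 0 + ∑ γ ∈ (zr_finite T).toFinset, a η γ * (x : ℂ) ^ (1 / 2 + γ * I : ℂ)) := by
  classical
  have hx0 : (x : ℂ) ≠ 0 := by exact_mod_cast hx.ne'
  set A : Finset ℝ := (zr_finite T).toFinset with hA
  have hAmem : ∀ γ : ℝ, γ ∈ A ↔ γ ∈ Zr ∧ |γ| < T := by
    intro γ
    rw [hA, Set.Finite.mem_toFinset, Set.mem_ofPred_eq]
  set S' : Finset ℂ := A.image (fun γ : ℝ => (1 / 2 : ℂ) + γ * I) with hS'
  set S : Finset ℂ := insert 0 (insert 1 S') with hS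
  have h1S' : (1 : ℂ) ∉ S' := by
    rw [hS', Finset.mem_image]
    rintro ⟨γ, -, hγ⟩
    have := congrArg Complex.re hγ
    rw [Contour_phi_re, one_re] at this
    norm_num at this
  have h0S' : (0 : ℂ) ∉ insert (1 : ℂ) S' := by
    rw [Finset.mem_insert, hS', Finset.mem_image]
    rintro (h0 | ⟨γ, -, hγ⟩)
    · exact zero_ne_one h0
    · have := congrArg Complex.re hγ
      rw [Contour_phi_re, zero_re] at this
      norm_num at this
  -- the open set
  have hcomp : IsCompact (Metric.closedBall (0 : ℂ) (T + 3)) := isCompact_closedBall _ _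
  have hfin := hcomp.inter_riemannZetaZeros_finite
  set Z' : Set ℂ := (Metric.closedBall (0 : ℂ) (T + 3) ∩ riemannZetaZeros) \ (S : Set ℂ) with hZ'
  have hZ'fin : Z'.Finite := hfin.subset sdiff_subset
  set U : Set ℂ := Metric.ball (0 : ℂ) (T + 3) \ Z' with hU
  have hUo : IsOpen U := Metric.isOpen_ball.sdiff hZ'fin.isClosed
  have hzero : ∀ s : ℂ, -(1 / 2) ≤ s.re → s.re ≤ 2 → -T ≤ s.im → s.im ≤ T → riemannZeta s = 0 →
      s ∈ S' := by
    intro s h1 h2 h3 h4 h5
    have hs := Contour_class C hC h s h1 h5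
    have hh := hz (1 / 2) (by norm_num) (by norm_num)
    push_cast at hh
    have hne1 : s.im ≠ T := by
      intro h6
      rw [h6] at hs
      rw [hs] at h5
      exact hh.1 h5
    have hne2 : s.im ≠ -T := by
      intro h6
      rw [h6] at hs
      rw [hs] at h5
      apply hh.2
      rw [← h5]
      congr 1
      push_cast
      ring
    rw [hS', Finset.mem_image]
    refine ⟨s.im, ?_, hs.symm⟩
    rw [hAmem]
    refine ⟨?_, abs_lt.2 ⟨lt_of_le_of_ne h3 (Ne.symm hne2), lt_of_le_of_ne h4 hne1⟩⟩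
    change riemannZeta (1 / 2 + (s.im : ℂ) * I) = 0
    rw [← hs]; exact h5
  have hR : ∀ s : ℂ, -(1 / 2) ≤ s.re → s.re ≤ 2 → -T ≤ s.im → s.im ≤ T → s ∈ U := by
    intro s h1 h2 h3 h4
    refine ⟨?_, ?_⟩
    · rw [mem_ball_zero_iff]
      have := Complex.norm_le_abs_re_add_abs_im s
      have e1 : |s.re| ≤ 2 := abs_le.2 ⟨by linarith, h2⟩
      have e2 : |s.im| ≤ T := abs_le.2 ⟨h3, h4⟩
      linarith
    · rintro ⟨⟨-, h5⟩, h6⟩
      apply h6
      have := hzero s h1 h2 h3 h4 h5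
      rw [hS]
      exact Finset.mem_coe.2 (Finset.mem_insert_of_mem (Finset.mem_insert_of_mem this))
  have hSin : ∀ w ∈ S, -(1 / 2) < w.re ∧ w.re < 2 ∧ -T < w.im ∧ w.im < T := by
    intro w hw
    rw [hS, Finset.mem_insert, Finset.mem_insert, hS', Finset.mem_image] at hw
    rcases hw with rfl | rfl | ⟨γ, hγ, rfl⟩
    · simp [hT]
    · refine ⟨by norm_num, by norm_num, by simpa using hT, by simpa using hT⟩
    · rw [hAmem] at hγ
      rw [Contour_phi_re, Contour_phi_im]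
      have := abs_lt.1 hγ.2
      exact ⟨by norm_num, by norm_num, this.1, this.2⟩
  have hdiff : DifferentiableOn ℂ (fc η x) (U \ (S : Set ℂ)) := by
    intro s hs
    have hsS : s ∉ S := fun h' => hs.2 (Finset.mem_coe.2 h')
    have hs0 : s ≠ 0 := by
      rintro rfl; exact hsS (by rw [hS]; exact Finset.mem_insert_self _ _)
    have hs1 : s ≠ 1 := by
      rintro rfl
      exact hsS (by rw [hS]; exact Finset.mem_insert_of_mem (Finset.mem_insert_self _ _))
    have hsz : riemannZeta s ≠ 0 := by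
      intro h5
      apply hs.1.2
      exact ⟨⟨Metric.ball_subset_closedBall hs.1.1, h5⟩, hs.2⟩
    have hd1 : DifferentiableAt ℂ riemannZeta s := differentiableAt_riemannZeta hs1
    refine DifferentiableAt.differentiableWithinAt ?_
    unfold fc
    refine DifferentiableAt.mul (DifferentiableAt.mul (K_differentiable η s) ?_) ?_
    · exact differentiableAt_id.const_cpow (Or.inl hx0)
    · exact (differentiableAt_id.mul hd1).inv (mul_ne_zero hs0 hsz)
  set ρ : ℂ → ℂ := fun s => if s = 0 then -2 * K η 0 else if s = 1 then 0 else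
    a η s.im * (x : ℂ) ^ s with hρ
  have hρphi : ∀ γ : ℝ, ρ ((1 / 2 : ℂ) + γ * I) = a η γ * (x : ℂ) ^ (1 / 2 + γ * I : ℂ) := by
    intro γ
    have e0 : (1 / 2 : ℂ) + γ * I ≠ 0 := by
      intro h'
      have := congrArg Complex.re h'
      rw [Contour_phi_re, zero_re] at this
      norm_num at this
    have e1 : (1 / 2 : ℂ) + γ * I ≠ 1 := by
      intro h'
      have := congrArg Complex.re h'
      rw [Contour_phi_re, one_re] at this
      norm_num at this
    rw [hρ]
    simp only [e0, e1, if_false, Contour_phi_im]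
  have hlim : ∀ w ∈ S, Tendsto (fun s => (s - w) * fc η x s) (𝓝[≠] w) (𝓝 (ρ w)) := by
    intro w hw
    rw [hS, Finset.mem_insert, Finset.mem_insert, hS', Finset.mem_image] at hw
    rcases hw with rfl | rfl | ⟨γ, hγ, rfl⟩
    · have : ρ 0 = -2 * K η 0 := by rw [hρ]; simp
      rw [this]
      exact Contour_lim_zero η x hx
    · have : ρ 1 = 0 := by rw [hρ]; simp
      rw [this]
      exact Contour_lim_one η x hx
    · rw [hρphi]
      rw [hAmem] at hγ
      exact Contour_lim_zero' η x γ hx hγ.1 (zeta_simple C hC h γ hγ.1)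
  have key := rect_residue (-(1 / 2)) 2 (-T) T (by norm_num) (by linarith) U hUo hR S hSin
    (fc η x) ρ hdiff hlim
  rw [key, hS, Finset.sum_insert h0S', Finset.sum_insert h1S', hS',
    Finset.sum_image (fun _ _ _ _ h' => Contour_phi_inj h')]
  have e0 : ρ 0 = -2 * K η 0 := by rw [hρ]; simp
  have e1 : ρ 1 = 0 := by rw [hρ]; simp
  rw [e0, e1, zero_add]
  congr 2
  exact Finset.sum_congr rfl fun γ _ => hρphi γ

end Pool.Agent.H56.GX
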