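import Mathlib

/-!
Project GX (MP_0575cc_nt): the Good-Churchhouse law fails for windows `H = o(X)`.
Common definitions.
-/

set_option autoImplicit false

namespace Pool.Agent.H56.GX

open MeasureTheory Set Complex

/-- `M x H` is the sum of `μ(n)` over the integers `n` with `|n - x| < H / 2`
(written exactly as in the frozen statement S15903). -/
noncomputable def M (x H : ℝ) : ℝ :=
  ∑ n ∈ (Finset.range (⌈x + H⌉₊ + 1)).filter (fun n : ℕ => |(n : ℝ) - x| < H / 2),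
    ((ArithmeticFunction.moebius n : ℤ) : ℝ)

/-- The variance `V(X;H) = (1/X) ∫_X^{2X} M(x;H)^2 dx`. -/
noncomputable def V (X H : ℝ) : ℝ := (1 / X) * ∫ x in X..2 * X, (M x H) ^ 2

/-- The summatory function `∑_{n ≤ x} μ(n)` (zero for `x < 1`). -/
noncomputable def Mz (x : ℝ) : ℝ :=
  ∑ n ∈ Finset.Icc 1 ⌊x⌋₊, ((ArithmeticFunction.moebius n : ℤ) : ℝ)

/-- The hypothesis that is refuted: `c H ≤ V(X;H) ≤ B H` for `δ₁ X ≤ H ≤ δ₀ X`, `X` large in terms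
of `δ₁`, for every `δ₁ ∈ (0, δ₀)`. -/
def Hyp (c B δ₀ : ℝ) : Prop :=
  ∀ δ₁ : ℝ, 0 < δ₁ → δ₁ < δ₀ → ∃ X₀ : ℝ, ∀ X H : ℝ, X₀ ≤ X → δ₁ * X ≤ H → H ≤ δ₀ * X →
    c * H ≤ V X H ∧ V X H ≤ B * H

/-- Upper bound for the window energies of `Mz`. -/
def Win (B δ₀ : ℝ) : Prop :=
  ∀ δ₁ : ℝ, 0 < δ₁ → δ₁ < δ₀ → ∃ Y₀ : ℝ, 1 ≤ Y₀ ∧ ∀ Y h : ℝ, Y₀ ≤ Y → δ₁ * Y ≤ h → h ≤ δ₀ * Y →
    ∫ x in Y..2 * Y, (Mz (x + h) - Mz x) ^ 2 ≤ 2 * B * Y * h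

/-- The mean square bound for `Mz`. -/
def SBound (C : ℝ) : Prop :=
  ∀ X : ℝ, 1 ≤ X → ∫ x in X..2 * X, (Mz x) ^ 2 ≤ C * X ^ 2

/-- The Mellin transform `∫_1^∞ Mz(x) x^{-s-1} dx`, equal to `1 / (s ζ(s))` for `Re s > 1`. -/
noncomputable def F (s : ℂ) : ℂ := ∫ x in Ioi (1 : ℝ), (Mz x : ℂ) * (x : ℂ) ^ (-s - 1)

/-- The Gaussian weight `exp (η² (s - 1/2)² / 2)`. -/
noncomputable def K (η : ℝ) (s : ℂ) : ℂ := Complex.exp ((η : ℂ) ^ 2 * (s - 1 / 2) ^ 2 / 2)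

/-- The Gaussian density of standard deviation `η`. -/
noncomputable def gk (η v : ℝ) : ℝ :=
  (η * Real.sqrt (2 * Real.pi))⁻¹ * Real.exp (-(v ^ 2) / (2 * η ^ 2))

/-- The smoothed summatory function. -/
noncomputable def SM (η x : ℝ) : ℝ :=
  ∫ v : ℝ, Mz (x * Real.exp (-v)) * Real.exp (v / 2) * gk η v

/-- The integral on the line `Re s = -1/2`. -/
noncomputable def J (η x : ℝ) : ℂ :=
  (2 * Real.pi : ℂ)⁻¹ * ∫ t : ℝ, K η (-(1 / 2) + t * I) * (x : ℂ) ^ (-(1 / 2) + t * I : ℂ) *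
    ((-(1 / 2) + t * I) * riemannZeta (-(1 / 2) + t * I))⁻¹

/-- The ordinates of the zeros of `ζ` on the critical line. -/
def Zr : Set ℝ := {γ : ℝ | riemannZeta (1 / 2 + γ * I) = 0}

/-- The residue of `1 / (s ζ(s))` at `1/2 + iγ` (for a simple zero). -/
noncomputable def r (γ : ℝ) : ℂ := ((1 / 2 + γ * I) * deriv riemannZeta (1 / 2 + γ * I))⁻¹

/-- The coefficients of the smoothed explicit formula. -/
noncomputable def a (η γ : ℝ) : ℂ := K η (1 / 2 + γ * I) * r γ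

end Pool.Agent.H56.GX
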