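import Pool.Agent.H56.GX.Explicit

/-!
GX module DiffB: differences of `SM` at the recurrence points.
-/

set_option autoImplicit false

namespace Pool.Agent.H56.GX

open MeasureTheory Set Complex Filter Topology

theorem cpow_norm_half (x γ : ℝ) (hx : 0 < x) : ‖(x : ℂ) ^ (1 / 2 + (γ : ℂ) * I : ℂ)‖ = Real.sqrt x := by
  rw [Complex.norm_cpow_eq_rpow_re_of_pos hx, Real.sqrt_eq_rpow]
  congr 1
  simp

theorem cpow_scale (τ u γ : ℝ) (hu : 0 < u) :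
    ((Real.exp τ * u : ℝ) : ℂ) ^ (1 / 2 + (γ : ℂ) * I : ℂ) -
      (Real.sqrt (Real.exp τ) : ℂ) * (u : ℂ) ^ (1 / 2 + (γ : ℂ) * I : ℂ) =
    (Real.sqrt (Real.exp τ) : ℂ) * (u : ℂ) ^ (1 / 2 + (γ : ℂ) * I : ℂ) *
      (Complex.exp ((γ * τ : ℝ) * I) - 1) := by
  have h1 : ((Real.exp τ * u : ℝ) : ℂ) ^ (1 / 2 + (γ : ℂ) * I : ℂ) =
      ((Real.exp τ : ℝ) : ℂ) ^ (1 / 2 + (γ : ℂ) * I : ℂ) * (u : ℂ) ^ (1 / 2 + (γ : ℂ) * I : ℂ) := by
    rw [Complex.ofReal_mul, Complex.mul_cpow_ofReal_nonneg (Real.exp_pos τ).le hu.le]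
  have h2 : ((Real.exp τ : ℝ) : ℂ) ^ (1 / 2 + (γ : ℂ) * I : ℂ) =
      (Real.sqrt (Real.exp τ) : ℂ) * Complex.exp ((γ * τ : ℝ) * I) := by
    have h3 : (Real.exp τ : ℂ) ≠ 0 := by
      exact_mod_cast (Real.exp_pos τ).ne'
    rw [Complex.cpow_def_of_ne_zero h3, ← Complex.ofReal_log (Real.exp_pos τ).le, Real.log_exp]
    have h4 : Real.sqrt (Real.exp τ) = Real.exp (τ / 2) := by
      rw [Real.sqrt_eq_iff_mul_self_eq (Real.exp_pos _).le (Real.exp_pos _).le, ← Real.exp_add]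
      congr 1
      ring
    rw [h4, Complex.ofReal_exp, ← Complex.exp_add]
    congr 1
    push_cast
    ring
  rw [h1, h2]
  ring

theorem a_cpow_summable (C : ℝ) (hC : 1 ≤ C) (h : SBound C) (η x : ℝ) (hη : 0 < η) (hx : 0 < x) :
    Summable (fun γ : Zr => a η γ * (x : ℂ) ^ (1 / 2 + (γ : ℝ) * I : ℂ)) := by
  have h1 := (a_summable C hC h η hη).mul_right (Real.sqrt x)
  refine Summable.of_norm_bounded h1 fun γ => ?_
  rw [norm_mul, cpow_norm_half x γ hx]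

theorem scale_bound (C : ℝ) (hC : 1 ≤ C) (h : SBound C) (η τ u ε : ℝ) (hη : 0 < η) (hu : 0 < u)
    (hu1 : u ≤ 1)
    (hτ : ∑' γ : Zr, ‖a η γ‖ * ‖Complex.exp (((γ : ℝ) * τ : ℝ) * I) - 1‖ ≤ ε) :
    ‖((SM η (Real.exp τ * u) : ℝ) : ℂ) - (Real.sqrt (Real.exp τ) : ℂ) * (SM η u : ℂ) -
        (J η (Real.exp τ * u) - 2 * K η 0) + (Real.sqrt (Real.exp τ) : ℂ) * (J η u - 2 * K η 0)‖ ≤
      Real.sqrt (Real.exp τ) * ε := by
  have hX : 0 < Real.exp τ := Real.exp_pos τ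
  have hXu : 0 < Real.exp τ * u := mul_pos hX hu
  rw [explicit C hC h η _ hη hXu, explicit C hC h η u hη hu]
  have hs1 := a_cpow_summable C hC h η _ hη hXu
  have hs2 := a_cpow_summable C hC h η u hη hu
  have h1 : (J η (Real.exp τ * u) - 2 * K η 0 +
        ∑' γ : Zr, a η γ * ((Real.exp τ * u : ℝ) : ℂ) ^ (1 / 2 + (γ : ℝ) * I : ℂ)) -
      (Real.sqrt (Real.exp τ) : ℂ) * (J η u - 2 * K η 0 +
        ∑' γ : Zr, a η γ * (u : ℂ) ^ (1 / 2 + (γ : ℝ) * I : ℂ)) -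
        (J η (Real.exp τ * u) - 2 * K η 0) + (Real.sqrt (Real.exp τ) : ℂ) * (J η u - 2 * K η 0) =
      ∑' γ : Zr, (a η γ * ((Real.exp τ * u : ℝ) : ℂ) ^ (1 / 2 + (γ : ℝ) * I : ℂ) -
        (Real.sqrt (Real.exp τ) : ℂ) * (a η γ * (u : ℂ) ^ (1 / 2 + (γ : ℝ) * I : ℂ))) := by
    rw [hs1.tsum_sub (hs2.mul_left _), tsum_mul_left]
    ring
  rw [h1]
  have hw : Summable fun γ : Zr => ‖a η γ‖ * ‖Complex.exp (((γ : ℝ) * τ : ℝ) * I) - 1‖ := by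
    refine Summable.of_nonneg_of_le (fun γ => by positivity) (fun γ => ?_)
      ((a_summable C hC h η hη).mul_right 2)
    refine mul_le_mul_of_nonneg_left ?_ (norm_nonneg _)
    refine (norm_sub_le _ _).trans ?_
    rw [Complex.norm_exp_ofReal_mul_I, norm_one]
    norm_num
  have h2 : ∀ γ : Zr, ‖a η γ * ((Real.exp τ * u : ℝ) : ℂ) ^ (1 / 2 + (γ : ℝ) * I : ℂ) -
        (Real.sqrt (Real.exp τ) : ℂ) * (a η γ * (u : ℂ) ^ (1 / 2 + (γ : ℝ) * I : ℂ))‖ ≤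
      Real.sqrt (Real.exp τ) * (‖a η γ‖ * ‖Complex.exp (((γ : ℝ) * τ : ℝ) * I) - 1‖) := by
    intro γ
    have h3 : a η γ * ((Real.exp τ * u : ℝ) : ℂ) ^ (1 / 2 + (γ : ℝ) * I : ℂ) -
        (Real.sqrt (Real.exp τ) : ℂ) * (a η γ * (u : ℂ) ^ (1 / 2 + (γ : ℝ) * I : ℂ)) =
        a η γ * ((Real.sqrt (Real.exp τ) : ℂ) * (u : ℂ) ^ (1 / 2 + ((γ : ℝ) : ℂ) * I : ℂ) *
          (Complex.exp (((γ : ℝ) * τ : ℝ) * I) - 1)) := by
      rw [← cpow_scale τ u γ hu]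
      ring
    rw [h3, norm_mul, norm_mul, norm_mul, cpow_norm_half u γ hu, Complex.norm_real,
      Real.norm_of_nonneg (Real.sqrt_nonneg _)]
    have h4 : Real.sqrt u ≤ 1 := Real.sqrt_le_one.2 hu1
    have h5 : 0 ≤ Real.sqrt (Real.exp τ) * (‖a η γ‖ * ‖Complex.exp (((γ : ℝ) * τ : ℝ) * I) - 1‖) := by
      positivity
    calc ‖a η γ‖ * (Real.sqrt (Real.exp τ) * Real.sqrt u *
          ‖Complex.exp (((γ : ℝ) * τ : ℝ) * I) - 1‖)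
        = Real.sqrt u * (Real.sqrt (Real.exp τ) *
          (‖a η γ‖ * ‖Complex.exp (((γ : ℝ) * τ : ℝ) * I) - 1‖)) := by ring
      _ ≤ 1 * (Real.sqrt (Real.exp τ) *
          (‖a η γ‖ * ‖Complex.exp (((γ : ℝ) * τ : ℝ) * I) - 1‖)) :=
          mul_le_mul_of_nonneg_right h4 h5
      _ = _ := one_mul _
  calc ‖∑' γ : Zr, (a η γ * ((Real.exp τ * u : ℝ) : ℂ) ^ (1 / 2 + (γ : ℝ) * I : ℂ) -
        (Real.sqrt (Real.exp τ) : ℂ) * (a η γ * (u : ℂ) ^ (1 / 2 + (γ : ℝ) * I : ℂ)))‖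
      ≤ ∑' γ : Zr, Real.sqrt (Real.exp τ) *
          (‖a η γ‖ * ‖Complex.exp (((γ : ℝ) * τ : ℝ) * I) - 1‖) :=
        tsum_of_norm_bounded (hw.mul_left _).hasSum h2
    _ = Real.sqrt (Real.exp τ) * ∑' γ : Zr,
          (‖a η γ‖ * ‖Complex.exp (((γ : ℝ) * τ : ℝ) * I) - 1‖) := tsum_mul_left
    _ ≤ Real.sqrt (Real.exp τ) * ε := mul_le_mul_of_nonneg_left hτ (Real.sqrt_nonneg _)

theorem diff_bound (C : ℝ) (hC : 1 ≤ C) (h : SBound C) (η τ u u' ε CS CL CJ : ℝ) (hη : 0 < η)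
    (hτ0 : 0 ≤ τ)
    (hu : 1 / 4 ≤ u) (hu1 : u ≤ 17 / 20) (hu' : 1 / 4 ≤ u') (hu1' : u' ≤ 17 / 20)
    (hCS : ∀ y : ℝ, 0 < y → y ≤ 17 / 20 → |SM η y| ≤ CS)
    (hCL : ∀ x y : ℝ, 1 / 4 ≤ x → x ≤ 1 → 1 / 4 ≤ y → y ≤ 1 → ‖J η x - J η y‖ ≤ CL * |x - y|)
    (hCJ : ∀ x : ℝ, 1 / 4 ≤ x → ‖J η x‖ ≤ CJ)
    (hτ : ∑' γ : Zr, ‖a η γ‖ * ‖Complex.exp (((γ : ℝ) * τ : ℝ) * I) - 1‖ ≤ ε) :
    |SM η (Real.exp τ * u) - SM η (Real.exp τ * u')| ≤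
      2 * CJ + Real.sqrt (Real.exp τ) * (2 * CS + CL * |u - u'| + 2 * ε) := by
  have hX1 : 1 ≤ Real.exp τ := Real.one_le_exp hτ0
  have h1 := scale_bound C hC h η τ u ε hη (by linarith) (by linarith) hτ
  have h2 := scale_bound C hC h η τ u' ε hη (by linarith) (by linarith) hτ
  set X := Real.exp τ with hX
  set q := Real.sqrt X with hq
  have hq0 : 0 ≤ q := Real.sqrt_nonneg _
  set E : ℂ := ((SM η (X * u) : ℝ) : ℂ) - (q : ℂ) * (SM η u : ℂ) -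
        (J η (X * u) - 2 * K η 0) + (q : ℂ) * (J η u - 2 * K η 0) with hE
  set E' : ℂ := ((SM η (X * u') : ℝ) : ℂ) - (q : ℂ) * (SM η u' : ℂ) -
        (J η (X * u') - 2 * K η 0) + (q : ℂ) * (J η u' - 2 * K η 0) with hE'
  have h3 : (((SM η (X * u) - SM η (X * u') : ℝ)) : ℂ) =
      (E - E') + (q : ℂ) * ((SM η u - SM η u' : ℝ) : ℂ) + (J η (X * u) - J η (X * u')) -
        (q : ℂ) * (J η u - J η u') := by
    rw [hE, hE']
    push_cast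
    ring
  have h4 : |SM η (X * u) - SM η (X * u')| = ‖(((SM η (X * u) - SM η (X * u') : ℝ)) : ℂ)‖ := by
    rw [Complex.norm_real, Real.norm_eq_abs]
  rw [h4, h3]
  have hXu : 1 / 4 ≤ X * u := by nlinarith
  have hXu' : 1 / 4 ≤ X * u' := by nlinarith
  have b1 : ‖E - E'‖ ≤ 2 * (q * ε) := (norm_sub_le _ _).trans (by linarith)
  have b2 : ‖(q : ℂ) * ((SM η u - SM η u' : ℝ) : ℂ)‖ ≤ q * (2 * CS) := by
    rw [norm_mul, Complex.norm_real, Complex.norm_real, Real.norm_of_nonneg hq0, Real.norm_eq_abs]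
    refine mul_le_mul_of_nonneg_left ?_ hq0
    have := abs_sub (SM η u) (SM η u')
    have e1 := hCS u (by linarith) hu1
    have e2 := hCS u' (by linarith) hu1'
    linarith
  have b3 : ‖J η (X * u) - J η (X * u')‖ ≤ 2 * CJ :=
    (norm_sub_le _ _).trans (by have := hCJ _ hXu; have := hCJ _ hXu'; linarith)
  have b4 : ‖(q : ℂ) * (J η u - J η u')‖ ≤ q * (CL * |u - u'|) := by
    rw [norm_mul, Complex.norm_real, Real.norm_of_nonneg hq0]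
    exact mul_le_mul_of_nonneg_left (hCL u u' hu (by linarith) hu' (by linarith)) hq0
  calc ‖(E - E') + (q : ℂ) * ((SM η u - SM η u' : ℝ) : ℂ) + (J η (X * u) - J η (X * u')) -
        (q : ℂ) * (J η u - J η u')‖
      ≤ ‖E - E'‖ + ‖(q : ℂ) * ((SM η u - SM η u' : ℝ) : ℂ)‖ + ‖J η (X * u) - J η (X * u')‖ +
        ‖(q : ℂ) * (J η u - J η u')‖ := by
        refine (norm_sub_le _ _).trans (add_le_add_left ?_ _)
        exact (norm_add_le _ _).trans (add_le_add_left (norm_add_le _ _) _)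
    _ ≤ _ := by
        nlinarith

end Pool.Agent.H56.GX
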