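import Pool.Agent.H56.GX.MzB

/-!
GX module Ener: window energies for all `h ∈ [0, δ₀ X / 8]`, on `[X/4, X]`.

(1) `ener1`: for `0 < δ₁ < δ₀/2` there is `Y₀ ≥ 1` with
`∫_Y^{2Y} (Mz (x+h) - Mz x)² dx ≤ 20 B Y (h + δ₁ Y)` for `Y ≥ Y₀`, `0 ≤ h ≤ δ₀ Y`.
If `h ≥ δ₁ Y`: `Win`. If `h < δ₁ Y`, let `h' = δ₁ Y` and write
`Mz (x+h) - Mz x = (Mz (x+h+h') - Mz x) - (Mz (x+h+h') - Mz (x+h))`, `(u-v)² ≤ 2u²+2v²`. The first has
window `h+h' ∈ [δ₁ Y, 2 δ₁ Y]`: `≤ 2BY · 2δ₁ Y`. The second, after `x' = x+h`, is at most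
`∫_{Y+h}^{2(Y+h)} (Mz (x'+h') - Mz x')² ≤ 2 B (Y+h) h' ≤ 4 B Y δ₁ Y` by `Win` for `δ₁/2`
(`h' ≥ (δ₁/2)(Y+h)` as `Y + h ≤ 2Y`). Sum `≤ 2·4 + 2·4 = 16 ≤ 20`. (`Y₀` for `δ₁/2`.)
(2) `ener2`: for `0 < δ₁ < δ₀/2` there is `X₀ ≥ 1` such that for `X ≥ X₀`, `0 ≤ h ≤ δ₀ X / 8`
(`δ₀ ≤ 1/10`): `∫_{(7/20) X}^{X} (Mz x - Mz (x-h))² dx ≤ C B X (h + δ₁ X)` with `C` absolute (`C = 100`):
substitute `x = x' + h`, `x' ∈ [(7/20) X - h, X - h] ⊂ [Y, 2Y] ∪ [2Y, 4Y]` with `Y = X/4`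
(as `h ≤ X/80`; `4Y = X`), and (1) for `Y` and `2Y` (`h ≤ δ₀ X/8 ≤ δ₀ Y`):
`20 B [Y (h + δ₁ Y) + 2Y (h + 2 δ₁ Y)] ≤ 20 B · 3Y (h + 2δ₁Y) ≤ 15 B X (h + δ₁ X)`.
-/

set_option autoImplicit false

namespace Pool.Agent.H56.GX

open MeasureTheory Set Complex Filter Topology

private theorem Ener_int (a b p : ℝ) :
    IntervalIntegrable (fun x => (Mz (x + p) - Mz x) ^ 2) volume a b := by
  simpa using Mz_diff_sq_intervalIntegrable a b p 0

/-- step (1) of the header -/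
theorem Ener_one (B δ₀ : ℝ) (hB : 0 ≤ B) (hδ : 0 < δ₀) (hδ' : δ₀ ≤ 1 / 10) (h : Win B δ₀) (δ₁ : ℝ)
    (h1 : 0 < δ₁) (h2 : δ₁ < δ₀ / 2) : ∃ Y₀ : ℝ, 1 ≤ Y₀ ∧ ∀ Y u : ℝ, Y₀ ≤ Y → 0 ≤ u →
      u ≤ δ₀ * Y → ∫ x in Y..2 * Y, (Mz (x + u) - Mz x) ^ 2 ≤ 20 * B * Y * (u + δ₁ * Y) := by
  obtain ⟨Y₀, hY₀, hw⟩ := h (δ₁ / 2) (by positivity) (by linarith)
  refine ⟨Y₀, hY₀, ?_⟩
  intro Y u hY hu hu'
  have hYpos : 0 < Y := by linarith
  have hdY : 0 < δ₁ * Y := by positivity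
  by_cases hc : δ₁ * Y ≤ u
  · refine (hw Y u hY (by nlinarith) hu').trans ?_
    have hBY : 0 ≤ B * Y := by positivity
    nlinarith [mul_nonneg hBY hu, mul_nonneg hBY hdY.le]
  · push Not at hc
    set k : ℝ := δ₁ * Y with hk
    -- first part
    have hA : ∫ x in Y..2 * Y, (Mz (x + (u + k)) - Mz x) ^ 2 ≤ 2 * B * Y * (u + k) := by
      refine hw Y (u + k) hY ?_ ?_
      · rw [hk]
        nlinarith
      · rw [hk] at hc ⊢
        nlinarith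
    -- second part
    have hC : ∫ x in Y..2 * Y, (Mz (x + u + k) - Mz (x + u)) ^ 2 ≤ 2 * B * (Y + u) * k := by
      have e1 : ∫ x in Y..2 * Y, (Mz (x + u + k) - Mz (x + u)) ^ 2
          = ∫ x in (Y + u)..(2 * Y + u), (Mz (x + k) - Mz x) ^ 2 :=
        intervalIntegral.integral_comp_add_right (fun x => (Mz (x + k) - Mz x) ^ 2) u
      rw [e1]
      have e2 : ∫ x in (Y + u)..(2 * Y + u), (Mz (x + k) - Mz x) ^ 2
          ≤ ∫ x in (Y + u)..(2 * (Y + u)), (Mz (x + k) - Mz x) ^ 2 := by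
        apply intervalIntegral.integral_mono_interval le_rfl (by linarith) (by linarith)
        · exact Filter.Eventually.of_forall fun x => by positivity
        · exact Ener_int _ _ _
      refine e2.trans (hw (Y + u) k (by linarith) ?_ ?_)
      · rw [hk] at hc ⊢
        have : δ₁ ≤ 1 := by linarith
        nlinarith
      · rw [hk] at hc ⊢
        nlinarith
    have hint1 : IntervalIntegrable (fun x => (Mz (x + (u + k)) - Mz x) ^ 2) volume Y (2 * Y) :=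
      Ener_int _ _ _
    have hint2 : IntervalIntegrable (fun x => (Mz (x + u + k) - Mz (x + u)) ^ 2) volume Y (2 * Y) := by
      have := Mz_diff_sq_intervalIntegrable Y (2 * Y) (u + k) u
      simpa [add_assoc] using this
    have hD : ∫ x in Y..2 * Y, (Mz (x + u) - Mz x) ^ 2 ≤
        ∫ x in Y..2 * Y, (2 * (Mz (x + (u + k)) - Mz x) ^ 2 + 2 * (Mz (x + u + k) - Mz (x + u)) ^ 2) := by
      apply intervalIntegral.integral_mono_on (by linarith) (Ener_int _ _ _)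
      · exact (hint1.const_mul 2).add (hint2.const_mul 2)
      · intro x _
        have e : x + (u + k) = x + u + k := by ring
        rw [e]
        nlinarith [sq_nonneg ((Mz (x + u + k) - Mz x) + (Mz (x + u + k) - Mz (x + u)))]
    rw [intervalIntegral.integral_add (hint1.const_mul 2) (hint2.const_mul 2),
      intervalIntegral.integral_const_mul, intervalIntegral.integral_const_mul] at hD
    have hBY : 0 ≤ B * Y := by positivity
    have hk0 : 0 ≤ k := hdY.le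
    have huY : u ≤ Y := by
      have : δ₁ ≤ 1 := by linarith
      rw [hk] at hc
      nlinarith
    have h3 : 2 * B * Y * (u + k) ≤ 4 * (B * Y * k) := by
      nlinarith [mul_nonneg hBY (sub_nonneg.2 hc.le)]
    have h4 : 2 * B * (Y + u) * k ≤ 4 * (B * Y * k) := by
      nlinarith [mul_nonneg (mul_nonneg hB hk0) (sub_nonneg.2 huY)]
    have h5 : 20 * B * Y * (u + k) = 20 * (B * Y * u) + 20 * (B * Y * k) := by ring
    have h6 : 0 ≤ B * Y * u := mul_nonneg hBY hu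
    have h7 : 0 ≤ B * Y * k := mul_nonneg hBY hk0
    rw [h5]
    linarith

theorem ener2 (B δ₀ : ℝ) (hB : 0 ≤ B) (hδ : 0 < δ₀) (hδ' : δ₀ ≤ 1 / 10) (h : Win B δ₀) (δ₁ : ℝ)
    (h1 : 0 < δ₁) (h2 : δ₁ < δ₀ / 2) : ∃ X₀ : ℝ, 1 ≤ X₀ ∧ ∀ X u : ℝ, X₀ ≤ X → 0 ≤ u →
      u ≤ δ₀ * X / 8 → ∫ x in (7 / 20 * X)..X, (Mz x - Mz (x - u)) ^ 2 ≤ 100 * B * X * (u + δ₁ * X) := by
  obtain ⟨Y₀, hY₀, hw⟩ := Ener_one B δ₀ hB hδ hδ' h δ₁ h1 h2
  refine ⟨4 * Y₀, by linarith, ?_⟩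
  intro X u hX hu hu'
  have hXpos : 0 < X := by linarith
  have huX : u ≤ X / 80 := by nlinarith
  have e1 : ∫ x in (7 / 20 * X)..X, (Mz x - Mz (x - u)) ^ 2
      = ∫ x in (7 / 20 * X - u)..(X - u), (Mz (x + u) - Mz x) ^ 2 := by
    rw [← intervalIntegral.integral_comp_sub_right (fun x => (Mz (x + u) - Mz x) ^ 2) u]
    simp
  have e2 : ∫ x in (7 / 20 * X - u)..(X - u), (Mz (x + u) - Mz x) ^ 2
      ≤ ∫ x in (X / 4)..X, (Mz (x + u) - Mz x) ^ 2 := by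
    apply intervalIntegral.integral_mono_interval (by linarith) (by linarith) (by linarith)
    · exact Filter.Eventually.of_forall fun x => by positivity
    · exact Ener_int _ _ _
  have e3 : ∫ x in (X / 4)..X, (Mz (x + u) - Mz x) ^ 2
      = (∫ x in (X / 4)..(2 * (X / 4)), (Mz (x + u) - Mz x) ^ 2)
        + ∫ x in (X / 2)..(2 * (X / 2)), (Mz (x + u) - Mz x) ^ 2 := by
    rw [show 2 * (X / 4) = X / 2 by ring, show 2 * (X / 2) = X by ring]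
    exact (intervalIntegral.integral_add_adjacent_intervals (Ener_int _ _ _) (Ener_int _ _ _)).symm
  have h3 := hw (X / 4) u (by linarith) hu (by nlinarith)
  have h4 := hw (X / 2) u (by linarith) hu (by nlinarith)
  rw [e1]
  refine e2.trans ?_
  rw [e3]
  refine (add_le_add h3 h4).trans ?_
  have hBX : 0 ≤ B * X := by positivity
  have h5 : 0 ≤ B * X * u := mul_nonneg hBX hu
  have h6 : 0 ≤ B * X * (δ₁ * X) := mul_nonneg hBX (by positivity)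
  nlinarith [h5, h6]

end Pool.Agent.H56.GX
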