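import Pool.Agent.H56.GX.MzB

/-!
GX module Low: integrals of `Mz²` and `|Mz|` against powers, from `SBound`.

(1) `low_int`: `∫_0^Y Mz² ≤ C Y²` for every `Y ≥ 0` (with `C ≥ 1`). Proof: first
`∫_Z^{2Z} Mz² ≤ C Z²` for every `Z ≥ 0`: for `Z ≥ 1` it is `SBound`; for `Z ≤ 1/2` it is `0`; for
`1/2 ≤ Z ≤ 1` it is `∫_1^{2Z} 1 = 2Z - 1 ≤ Z² ≤ C Z²`. Then induction on `n`:
`∫_{Y/2^n}^{Y} Mz² ≤ C ∑_{k=1}^n (Y/2^k)² ≤ C Y² / 3`, and for `Y/2^n < 1` the integral over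
`[0, Y/2^n]` vanishes.

(2) `tail_sq`: for `σ > 0`, `x ↦ Mz² x^(-2-2σ)` is integrable on `(1, ∞)` and
`∫ ≤ ∑_{k ≥ 0} ∫_{2^k}^{2^{k+1}} Mz² (2^k)^(-2-2σ) ≤ C ∑_k 2^{-2kσ} = C / (1 - 2^{-2σ}) ≤ C' / σ` for
`0 < σ ≤ 3` (`C' = 6 C` works or any constant). (E.g. bound `∫_1^{2^n}` uniformly in `n` and use
monotone convergence: `MeasureTheory.integrableOn_Ioi_of_intervalIntegral_norm_bounded` and
`MeasureTheory.intervalIntegral_tendsto_integral_Ioi`.)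

(3) `tail_abs`: `|Mz| x^(-3/2-σ) ≤ (Mz² x^(-2-σ) + x^(-1-σ)) / 2` (AM-GM), so it is integrable on
`(1, ∞)` with integral `≤ C' / σ` (use (2) with `σ/2`).
-/

set_option autoImplicit false

namespace Pool.Agent.H56.GX

open MeasureTheory Set Complex Filter Topology

private theorem low_zero (a b : ℝ) (hab : a ≤ b) (hb : b ≤ 1) :
    ∫ x in a..b, (Mz x) ^ 2 = 0 := by
  apply intervalIntegral.integral_zero_ae
  have h1 : ∀ᵐ x : ℝ, x ≠ b := by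
    have : (volume : Measure ℝ) {b} = 0 := by simp
    have h2 : {x : ℝ | ¬ x ≠ b} = {b} := by
      ext x
      simp
    rw [ae_iff, h2]
    exact this
  filter_upwards [h1] with x hx hx2
  rw [uIoc_of_le hab] at hx2
  have : x < b := lt_of_le_of_ne hx2.2 hx
  rw [Mz_lt_one x (by linarith)]
  simp

private theorem low_dyadic (C : ℝ) (hC : 1 ≤ C) (h : SBound C) (Z : ℝ) (hZ : 0 ≤ Z) :
    ∫ x in Z..2 * Z, (Mz x) ^ 2 ≤ C * Z ^ 2 := by
  rcases le_or_gt 1 Z with h1 | h1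
  · exact h Z h1
  rcases le_or_gt (2 * Z) 1 with h2 | h2
  · rw [low_zero Z (2 * Z) (by linarith) h2]
    positivity
  · have h3 : ∫ x in Z..2 * Z, (Mz x) ^ 2 =
        (∫ x in Z..1, (Mz x) ^ 2) + ∫ x in (1 : ℝ)..2 * Z, (Mz x) ^ 2 :=
      (intervalIntegral.integral_add_adjacent_intervals (Mz_sq_intervalIntegrable _ _)
        (Mz_sq_intervalIntegrable _ _)).symm
    have h4 : ∫ x in (1 : ℝ)..2 * Z, (Mz x) ^ 2 = ∫ x in (1 : ℝ)..2 * Z, (1 : ℝ) := by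
      apply intervalIntegral.integral_congr_ae
      apply Filter.Eventually.of_forall
      intro x hx
      rw [uIoc_of_le h2.le] at hx
      have h5 : x < 2 := by
        have := hx.2
        linarith
      rw [Mz_lt_two x hx.1.le h5]
      norm_num
    rw [h3, low_zero Z 1 h1.le le_rfl, h4, intervalIntegral.integral_const]
    simp only [smul_eq_mul, mul_one, zero_add]
    nlinarith [sq_nonneg (Z - 1), sq_nonneg Z]

theorem low_int (C : ℝ) (hC : 1 ≤ C) (h : SBound C) (Y : ℝ) (hY : 0 ≤ Y) :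
    ∫ x in (0 : ℝ)..Y, (Mz x) ^ 2 ≤ C * Y ^ 2 := by
  have key : ∀ n : ℕ, ∫ x in (Y / 2 ^ n)..Y, (Mz x) ^ 2 ≤ C * Y ^ 2 * ((1 - (1 / 4) ^ n) / 3) := by
    intro n
    induction n with
    | zero => simp
    | succ n ih =>
      have h1 : ∫ x in (Y / 2 ^ (n + 1))..Y, (Mz x) ^ 2 =
          (∫ x in (Y / 2 ^ (n + 1))..(Y / 2 ^ n), (Mz x) ^ 2) + ∫ x in (Y / 2 ^ n)..Y, (Mz x) ^ 2 :=
        (intervalIntegral.integral_add_adjacent_intervals (Mz_sq_intervalIntegrable _ _)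
          (Mz_sq_intervalIntegrable _ _)).symm
      have h2 := low_dyadic C hC h (Y / 2 ^ (n + 1)) (by positivity)
      have h3 : 2 * (Y / 2 ^ (n + 1)) = Y / 2 ^ n := by
        rw [pow_succ]
        field_simp
      rw [h3] at h2
      rw [h1]
      have h4 : C * (Y / 2 ^ (n + 1)) ^ 2 = C * Y ^ 2 * ((1 / 4) ^ n / 4) := by
        have h5 : ((2 : ℝ) ^ (n + 1)) ^ 2 = 4 * 4 ^ n := by
          rw [← pow_mul, mul_comm, pow_mul]
          norm_num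
          ring
        rw [div_pow, h5, one_div, inv_pow]
        field_simp
      rw [h4] at h2
      calc _ ≤ C * Y ^ 2 * ((1 / 4) ^ n / 4) + C * Y ^ 2 * ((1 - (1 / 4) ^ n) / 3) := add_le_add h2 ih
        _ = C * Y ^ 2 * ((1 - (1 / 4) ^ (n + 1)) / 3) := by
          rw [pow_succ]
          ring
  obtain ⟨n, hn⟩ : ∃ n : ℕ, Y < 2 ^ n := pow_unbounded_of_one_lt Y (by norm_num)
  have h1 : Y / 2 ^ n ≤ 1 := by
    rw [div_le_one (by positivity)]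
    exact hn.le
  have h2 : ∫ x in (0 : ℝ)..Y, (Mz x) ^ 2 =
      (∫ x in (0 : ℝ)..(Y / 2 ^ n), (Mz x) ^ 2) + ∫ x in (Y / 2 ^ n)..Y, (Mz x) ^ 2 :=
    (intervalIntegral.integral_add_adjacent_intervals (Mz_sq_intervalIntegrable _ _)
      (Mz_sq_intervalIntegrable _ _)).symm
  rw [h2, low_zero 0 (Y / 2 ^ n) (by positivity) h1, zero_add]
  refine (key n).trans ?_
  have h3 : (1 - (1 / 4 : ℝ) ^ n) / 3 ≤ 1 := by
    have : 0 ≤ (1 / 4 : ℝ) ^ n := by positivity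
    linarith
  have h4 : 0 ≤ C * Y ^ 2 := by positivity
  calc C * Y ^ 2 * ((1 - (1 / 4) ^ n) / 3) ≤ C * Y ^ 2 * 1 := mul_le_mul_of_nonneg_left h3 h4
    _ = C * Y ^ 2 := mul_one _

private theorem low_tail_int (σ a b : ℝ) (ha : 1 ≤ a) (hab : a ≤ b) :
    IntervalIntegrable (fun x : ℝ => (Mz x) ^ 2 * x ^ (-2 - 2 * σ)) volume a b := by
  apply (Mz_sq_intervalIntegrable a b).mul_continuousOn
  apply ContinuousOn.rpow_const continuousOn_id
  intro x hx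
  left
  rw [uIcc_of_le hab] at hx
  have := hx.1
  simp only [id_eq]
  intro h0
  linarith

private theorem low_geom (σ : ℝ) (hσ : 0 < σ) (hσ3 : σ ≤ 3) (n : ℕ) :
    ∑ k ∈ Finset.range n, ((4 : ℝ) ^ (-σ)) ^ k ≤ 4 / σ := by
  have hq0 : 0 ≤ (4 : ℝ) ^ (-σ) := Real.rpow_nonneg (by norm_num) _
  have hq1 : (4 : ℝ) ^ (-σ) < 1 := Real.rpow_lt_one_of_one_lt_of_neg (by norm_num) (by linarith)
  have h1 : ∑ k ∈ Finset.range n, ((4 : ℝ) ^ (-σ)) ^ k ≤ (1 - (4 : ℝ) ^ (-σ))⁻¹ := by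
    have hs := summable_geometric_of_lt_one hq0 hq1
    have := hs.sum_le_tsum (Finset.range n) (fun k _ => pow_nonneg hq0 k)
    rwa [tsum_geometric_of_lt_one hq0 hq1] at this
  refine h1.trans ?_
  have h2 : 1 + σ ≤ (4 : ℝ) ^ σ := by
    have h3 : (4 : ℝ) ^ σ = Real.exp (Real.log 4 * σ) := Real.rpow_def_of_pos (by norm_num) σ
    have h4 : (1 : ℝ) ≤ Real.log 4 := by
      rw [Real.le_log_iff_exp_le (by norm_num)]
      have := Real.exp_one_lt_d9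
      linarith
    rw [h3]
    have h5 := Real.add_one_le_exp (Real.log 4 * σ)
    nlinarith
  have h6 : (4 : ℝ) ^ (-σ) ≤ 1 / (1 + σ) := by
    rw [Real.rpow_neg (by norm_num), ← one_div]
    exact one_div_le_one_div_of_le (by linarith) h2
  have h7 : σ / 4 ≤ 1 - (4 : ℝ) ^ (-σ) := by
    have h8 : 1 - 1 / (1 + σ) = σ / (1 + σ) := by
      field_simp
      ring
    have h9 : σ / 4 ≤ σ / (1 + σ) := by
      apply div_le_div_of_nonneg_left hσ.le (by linarith) (by linarith)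
    linarith
  have h10 : (1 - (4 : ℝ) ^ (-σ))⁻¹ ≤ (σ / 4)⁻¹ := by
    apply inv_anti₀ (by positivity) h7
  rwa [inv_div] at h10

private theorem low_tail_bound (C : ℝ) (hC : 1 ≤ C) (h : SBound C) (σ : ℝ) (hσ : 0 < σ)
    (n : ℕ) : ∫ x in (1 : ℝ)..2 ^ n, (Mz x) ^ 2 * x ^ (-2 - 2 * σ) ≤
      C * ∑ k ∈ Finset.range n, ((4 : ℝ) ^ (-σ)) ^ k := by
  induction n with
  | zero => simp
  | succ n ih =>
    have hp1 : (1 : ℝ) ≤ 2 ^ n := one_le_pow₀ (by norm_num)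
    have hp2 : (2 : ℝ) ^ n ≤ 2 ^ (n + 1) := by
      rw [pow_succ]
      linarith
    have h1 : ∫ x in (1 : ℝ)..2 ^ (n + 1), (Mz x) ^ 2 * x ^ (-2 - 2 * σ) =
        (∫ x in (1 : ℝ)..2 ^ n, (Mz x) ^ 2 * x ^ (-2 - 2 * σ)) +
          ∫ x in (2 : ℝ) ^ n..2 ^ (n + 1), (Mz x) ^ 2 * x ^ (-2 - 2 * σ) :=
      (intervalIntegral.integral_add_adjacent_intervals (low_tail_int σ _ _ le_rfl hp1)
        (low_tail_int σ _ _ hp1 hp2)).symm
    have h2 : ∫ x in (2 : ℝ) ^ n..2 ^ (n + 1), (Mz x) ^ 2 * x ^ (-2 - 2 * σ) ≤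
        ∫ x in (2 : ℝ) ^ n..2 ^ (n + 1), (Mz x) ^ 2 * ((2 : ℝ) ^ n) ^ (-2 - 2 * σ) := by
      apply intervalIntegral.integral_mono_on hp2 (low_tail_int σ _ _ hp1 hp2)
      · exact (Mz_sq_intervalIntegrable _ _).mul_const _
      · intro x hx
        apply mul_le_mul_of_nonneg_left _ (sq_nonneg _)
        apply Real.rpow_le_rpow_of_nonpos (by linarith) hx.1 (by linarith)
    have h3 : ∫ x in (2 : ℝ) ^ n..2 ^ (n + 1), (Mz x) ^ 2 * ((2 : ℝ) ^ n) ^ (-2 - 2 * σ) =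
        (∫ x in (2 : ℝ) ^ n..2 * 2 ^ n, (Mz x) ^ 2) * ((2 : ℝ) ^ n) ^ (-2 - 2 * σ) := by
      rw [intervalIntegral.integral_mul_const, pow_succ, mul_comm (2 ^ n : ℝ) 2]
    have h4 := h (2 ^ n) hp1
    have h5 : (C * ((2 : ℝ) ^ n) ^ 2) * ((2 : ℝ) ^ n) ^ (-2 - 2 * σ) = C * ((4 : ℝ) ^ (-σ)) ^ n := by
      have hpos : (0 : ℝ) < 2 ^ n := by positivity
      have e1 : ((2 : ℝ) ^ n) ^ (-2 - 2 * σ) = (((2 : ℝ) ^ n) ^ 2)⁻¹ * ((4 : ℝ) ^ (-σ)) ^ n := by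
        have e2 : (-2 - 2 * σ : ℝ) = -((2 : ℕ) : ℝ) + (2 * -σ) := by
          push_cast
          ring
        rw [e2, Real.rpow_add hpos, Real.rpow_neg hpos.le, Real.rpow_natCast]
        congr 1
        rw [← Real.rpow_natCast 2 n, ← Real.rpow_mul (by norm_num),
          ← Real.rpow_natCast ((4 : ℝ) ^ (-σ)) n, ← Real.rpow_mul (by norm_num)]
        have e3 : (4 : ℝ) = (2 : ℝ) ^ (2 : ℝ) := by norm_num
        rw [e3, ← Real.rpow_mul (by norm_num)]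
        congr 1
        ring
      rw [e1]
      field_simp
    have h6 : (∫ x in (2 : ℝ) ^ n..2 * 2 ^ n, (Mz x) ^ 2) * ((2 : ℝ) ^ n) ^ (-2 - 2 * σ) ≤
        (C * ((2 : ℝ) ^ n) ^ 2) * ((2 : ℝ) ^ n) ^ (-2 - 2 * σ) :=
      mul_le_mul_of_nonneg_right h4 (Real.rpow_nonneg (by positivity) _)
    rw [h1, Finset.sum_range_succ, mul_add]
    rw [h5] at h6
    rw [h3] at h2
    exact add_le_add ih (h2.trans h6)

theorem tail_sq (C : ℝ) (hC : 1 ≤ C) (h : SBound C) : ∃ C' : ℝ, 0 < C' ∧ ∀ σ : ℝ, 0 < σ → σ ≤ 3 →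
    IntegrableOn (fun x : ℝ => (Mz x) ^ 2 * x ^ (-2 - 2 * σ)) (Ioi 1) ∧
      ∫ x in Ioi (1 : ℝ), (Mz x) ^ 2 * x ^ (-2 - 2 * σ) ≤ C' / σ := by
  refine ⟨4 * C, by positivity, fun σ hσ hσ3 => ?_⟩
  have hb : Tendsto (fun n : ℕ => (2 : ℝ) ^ n) atTop atTop :=
    tendsto_pow_atTop_atTop_of_one_lt (by norm_num)
  have hp1 : ∀ n : ℕ, (1 : ℝ) ≤ 2 ^ n := fun n => one_le_pow₀ (by norm_num)
  have hbound : ∀ n : ℕ, ∫ x in (1 : ℝ)..2 ^ n, (Mz x) ^ 2 * x ^ (-2 - 2 * σ) ≤ 4 * C / σ := by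
    intro n
    refine (low_tail_bound C hC h σ hσ n).trans ?_
    have h1 := mul_le_mul_of_nonneg_left (low_geom σ hσ hσ3 n) (by linarith : (0 : ℝ) ≤ C)
    refine h1.trans (le_of_eq ?_)
    ring
  have hint : IntegrableOn (fun x : ℝ => (Mz x) ^ 2 * x ^ (-2 - 2 * σ)) (Ioi 1) := by
    apply integrableOn_Ioi_of_intervalIntegral_norm_bounded (l := atTop) (4 * C / σ) 1
      (b := fun n : ℕ => (2 : ℝ) ^ n)
    · intro n
      exact (low_tail_int σ 1 (2 ^ n) le_rfl (hp1 n)).1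
    · exact hb
    · apply Filter.Eventually.of_forall
      intro n
      refine le_trans (le_of_eq ?_) (hbound n)
      apply intervalIntegral.integral_congr
      intro x hx
      rw [uIcc_of_le (hp1 n)] at hx
      have hx0 : (0 : ℝ) < x := by linarith [hx.1]
      exact Real.norm_of_nonneg (by positivity)
  refine ⟨hint, ?_⟩
  have ht := intervalIntegral_tendsto_integral_Ioi 1 hint hb
  exact le_of_tendsto ht (Filter.Eventually.of_forall hbound)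

theorem tail_abs (C : ℝ) (hC : 1 ≤ C) (h : SBound C) : ∃ C' : ℝ, 0 < C' ∧ ∀ σ : ℝ, 0 < σ → σ ≤ 3 →
    IntegrableOn (fun x : ℝ => |Mz x| * x ^ (-(3 / 2) - σ)) (Ioi 1) ∧
      ∫ x in Ioi (1 : ℝ), |Mz x| * x ^ (-(3 / 2) - σ) ≤ C' / σ := by
  obtain ⟨C', hC', hC''⟩ := tail_sq C hC h
  refine ⟨(2 * C' + 1) / 2, by positivity, fun σ hσ hσ3 => ?_⟩
  obtain ⟨hi1, hb1⟩ := hC'' (σ / 2) (by linarith) (by linarith)
  have hi2 : IntegrableOn (fun x : ℝ => x ^ (-1 - σ)) (Ioi 1) :=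
    integrableOn_Ioi_rpow_of_lt (by linarith) one_pos
  have hb2 : ∫ x in Ioi (1 : ℝ), x ^ (-1 - σ) = 1 / σ := by
    rw [integral_Ioi_rpow_of_lt (by linarith) one_pos, Real.one_rpow]
    have : -1 - σ + 1 = -σ := by ring
    rw [this, neg_div_neg_eq]
  set g : ℝ → ℝ := fun x => ((Mz x) ^ 2 * x ^ (-2 - 2 * (σ / 2)) + x ^ (-1 - σ)) / 2 with hg
  have hgi : IntegrableOn g (Ioi 1) := (hi1.add hi2).div_const 2
  have hle : ∀ x : ℝ, x ∈ Ioi (1 : ℝ) → |Mz x| * x ^ (-(3 / 2) - σ) ≤ g x := by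
    intro x hx
    have hx0 : (0 : ℝ) < x := lt_trans one_pos hx
    have e1 : x ^ (-(3 / 2) - σ) = x ^ (-1 - σ / 2) * x ^ (-(1 / 2) - σ / 2) := by
      rw [← Real.rpow_add hx0]
      congr 1
      ring
    have e2 : x ^ (-2 - 2 * (σ / 2)) = x ^ (-1 - σ / 2) * x ^ (-1 - σ / 2) := by
      rw [← Real.rpow_add hx0]
      congr 1
      ring
    have e3 : x ^ (-1 - σ) = x ^ (-(1 / 2) - σ / 2) * x ^ (-(1 / 2) - σ / 2) := by
      rw [← Real.rpow_add hx0]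
      congr 1
      ring
    rw [hg]
    simp only
    rw [e1, e2, e3, ← sq_abs (Mz x)]
    nlinarith [sq_nonneg (|Mz x| * x ^ (-1 - σ / 2) - x ^ (-(1 / 2) - σ / 2))]
  have hmeas : AEStronglyMeasurable (fun x : ℝ => |Mz x| * x ^ (-(3 / 2) - σ))
      (volume.restrict (Ioi (1 : ℝ))) := by
    apply Measurable.aestronglyMeasurable
    exact (Mz_measurable.abs).mul (measurable_id.pow_const _)
  have hint : IntegrableOn (fun x : ℝ => |Mz x| * x ^ (-(3 / 2) - σ)) (Ioi 1) := by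
    refine Integrable.mono' hgi hmeas ?_
    rw [ae_restrict_iff' measurableSet_Ioi]
    apply Filter.Eventually.of_forall
    intro x hx
    have hx0 : (0 : ℝ) < x := lt_trans one_pos hx
    rw [Real.norm_of_nonneg (by positivity)]
    exact hle x hx
  refine ⟨hint, ?_⟩
  have h1 : ∫ x in Ioi (1 : ℝ), |Mz x| * x ^ (-(3 / 2) - σ) ≤ ∫ x in Ioi (1 : ℝ), g x :=
    setIntegral_mono_on hint hgi measurableSet_Ioi hle
  have h2 : ∫ x in Ioi (1 : ℝ), g x =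
      ((∫ x in Ioi (1 : ℝ), (Mz x) ^ 2 * x ^ (-2 - 2 * (σ / 2))) +
        ∫ x in Ioi (1 : ℝ), x ^ (-1 - σ)) / 2 := by
    rw [hg, integral_div, integral_add hi1 hi2]
  rw [h2, hb2] at h1
  refine h1.trans ?_
  have h3 : C' / (σ / 2) = 2 * C' / σ := by
    field_simp
  rw [h3] at hb1
  have h4 : (2 * C' + 1) / 2 / σ = (2 * C' / σ + 1 / σ) / 2 := by
    field_simp
  rw [h4]
  linarith

end Pool.Agent.H56.GX
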