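import Pool.Agent.H56.GX.MzB
import Pool.Agent.H56.GX.Gau

/-!
GX module SMCont: continuity and integrability of `SM η`.

`SM η` is continuous on `(0, ∞)`: substituting `w = log x - v`,
`SM η x = ∫ Mz(e^w) e^{(log x - w)/2} gk η (log x - w) dw`, dominated convergence
(`continuousOn_of_dominated` or `continuous_of_dominated` in the variable `ℓ = log x` on bounded sets:
`|Mz(e^w)| ≤ e^{|w|}`, and for `|ℓ| ≤ L`: `gk η (ℓ - w) ≤ C exp(-w²/(4η²) + L²/(2η²))`).
`IntervalIntegrable` of `(Mz (x+s) - SM η (x+s))²` on `[p,q]` with `p + s, q + s > 0`: bounded and measurable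
there (`SM η` is bounded on the compact interval by continuity, `|Mz x| ≤ x`).
-/

set_option autoImplicit false

namespace Pool.Agent.H56.GX

open MeasureTheory Set Complex Filter Topology

private theorem SMCont_exp (η L l w : ℝ) (hη : 0 < η) (hl : |l| ≤ L) :
    w + (l - w) / 2 + -((l - w) ^ 2) / (2 * η ^ 2) ≤
      (L / 2 + L ^ 2 / (2 * η ^ 2) + η ^ 2 / 2) + -(1 / (8 * η ^ 2)) * w ^ 2 := by
  have hη2 : 0 < η ^ 2 := by positivity
  have hl1 : l ≤ L := (le_abs_self l).trans hl
  have hl2 : l ^ 2 ≤ L ^ 2 := by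
    rw [← sq_abs l]
    exact pow_le_pow_left₀ (abs_nonneg l) hl 2
  have h1 : w / 2 ≤ w ^ 2 / (8 * η ^ 2) + η ^ 2 / 2 := by
    have : w ^ 2 / (8 * η ^ 2) + η ^ 2 / 2 - w / 2 = (w - 2 * η ^ 2) ^ 2 / (8 * η ^ 2) := by
      field_simp
      ring
    have h2 : 0 ≤ (w - 2 * η ^ 2) ^ 2 / (8 * η ^ 2) := by positivity
    linarith
  have h3 : -((l - w) ^ 2) / (2 * η ^ 2) ≤ L ^ 2 / (2 * η ^ 2) - w ^ 2 / (4 * η ^ 2) := by
    have : L ^ 2 / (2 * η ^ 2) - w ^ 2 / (4 * η ^ 2) - -((l - w) ^ 2) / (2 * η ^ 2) =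
        (2 * (L ^ 2 - l ^ 2) + (w - 2 * l) ^ 2) / (4 * η ^ 2) := by
      field_simp
      ring
    have h2 : 0 ≤ (2 * (L ^ 2 - l ^ 2) + (w - 2 * l) ^ 2) / (4 * η ^ 2) := by
      apply div_nonneg _ (by positivity)
      have : 0 ≤ L ^ 2 - l ^ 2 := by linarith
      positivity
    linarith
  have h4 : w ^ 2 / (4 * η ^ 2) = w ^ 2 / (8 * η ^ 2) + w ^ 2 / (8 * η ^ 2) := by
    field_simp
    ring
  have h5 : -(1 / (8 * η ^ 2)) * w ^ 2 = - (w ^ 2 / (8 * η ^ 2)) := by
    field_simp
  rw [h5]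
  linarith

private theorem SMCont_bd (η L l w : ℝ) (hη : 0 < η) (hl : |l| ≤ L) :
    ‖Mz (Real.exp w) * Real.exp ((l - w) / 2) * gk η (l - w)‖ ≤
      ((η * Real.sqrt (2 * Real.pi))⁻¹ *
        Real.exp (L / 2 + L ^ 2 / (2 * η ^ 2) + η ^ 2 / 2)) *
          Real.exp (-(1 / (8 * η ^ 2)) * w ^ 2) := by
  have hg := gk_pos η hη (l - w)
  have hM : |Mz (Real.exp w)| ≤ Real.exp w := Mz_abs_le _ (Real.exp_pos w).le
  rw [norm_mul, norm_mul, Real.norm_eq_abs, Real.norm_eq_abs, Real.norm_eq_abs, abs_of_pos hg,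
    abs_of_pos (Real.exp_pos ((l - w) / 2))]
  have hc : 0 < (η * Real.sqrt (2 * Real.pi))⁻¹ := by positivity
  calc |Mz (Real.exp w)| * Real.exp ((l - w) / 2) * gk η (l - w)
      ≤ Real.exp w * Real.exp ((l - w) / 2) * gk η (l - w) := by
        apply mul_le_mul_of_nonneg_right _ hg.le
        exact mul_le_mul_of_nonneg_right hM (Real.exp_pos _).le
    _ = (η * Real.sqrt (2 * Real.pi))⁻¹ *
          Real.exp (w + (l - w) / 2 + -((l - w) ^ 2) / (2 * η ^ 2)) := by
        unfold gk
        rw [Real.exp_add, Real.exp_add]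
        ring
    _ ≤ (η * Real.sqrt (2 * Real.pi))⁻¹ *
          Real.exp ((L / 2 + L ^ 2 / (2 * η ^ 2) + η ^ 2 / 2) +
            -(1 / (8 * η ^ 2)) * w ^ 2) := by
        apply mul_le_mul_of_nonneg_left _ hc.le
        exact Real.exp_le_exp.mpr (SMCont_exp η L l w hη hl)
    _ = _ := by
        rw [Real.exp_add]
        ring

private theorem SMCont_cont (η : ℝ) (hη : 0 < η) : Continuous (fun l : ℝ =>
    ∫ w : ℝ, Mz (Real.exp w) * Real.exp ((l - w) / 2) * gk η (l - w)) := by
  rw [continuous_iff_continuousAt]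
  intro l₀
  have hgc := gk_continuous η
  apply continuousAt_of_dominated
    (bound := fun w => ((η * Real.sqrt (2 * Real.pi))⁻¹ *
        Real.exp ((|l₀| + 1) / 2 + (|l₀| + 1) ^ 2 / (2 * η ^ 2) + η ^ 2 / 2)) *
          Real.exp (-(1 / (8 * η ^ 2)) * w ^ 2))
  · refine Eventually.of_forall (fun l => ?_)
    apply AEStronglyMeasurable.mul
    · apply AEStronglyMeasurable.mul
      · exact (Mz_measurable.comp Real.measurable_exp).aestronglyMeasurable
      · exact (by fun_prop : Continuous (fun w : ℝ => Real.exp ((l - w) / 2))).aestronglyMeasurable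
    · exact (hgc.comp (by fun_prop : Continuous (fun w : ℝ => l - w))).aestronglyMeasurable
  · have h1 : ∀ᶠ l in 𝓝 l₀, |l| < |l₀| + 1 := by
      have : ContinuousAt (fun l : ℝ => |l|) l₀ := continuous_abs.continuousAt
      exact this.eventually (gt_mem_nhds (by linarith))
    filter_upwards [h1] with l hl
    exact Eventually.of_forall (fun w => SMCont_bd η (|l₀| + 1) l w hη hl.le)
  · apply Integrable.const_mul
    exact integrable_exp_neg_mul_sq (by positivity)
  · refine Eventually.of_forall (fun w => ?_)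
    apply Continuous.continuousAt
    apply Continuous.mul
    · apply Continuous.mul continuous_const
      fun_prop
    · exact hgc.comp (by fun_prop : Continuous (fun l : ℝ => l - w))

private theorem SMCont_eq (η x : ℝ) (hx : 0 < x) :
    SM η x = ∫ w : ℝ, Mz (Real.exp w) * Real.exp ((Real.log x - w) / 2) *
      gk η (Real.log x - w) := by
  unfold SM
  have h := integral_sub_left_eq_self
    (fun v : ℝ => Mz (x * Real.exp (-v)) * Real.exp (v / 2) * gk η v) volume (Real.log x)
  rw [← h]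
  apply integral_congr_ae
  refine Eventually.of_forall (fun w => ?_)
  have h2 : x * Real.exp (-(Real.log x - w)) = Real.exp w := by
    have : -(Real.log x - w) = -Real.log x + w := by ring
    rw [this, Real.exp_add, Real.exp_neg, Real.exp_log hx]
    field_simp
  simp only [h2]

theorem SM_continuousOn (η : ℝ) (hη : 0 < η) : ContinuousOn (SM η) (Ioi 0) := by
  have h1 : ContinuousOn (fun x : ℝ => ∫ w : ℝ, Mz (Real.exp w) *
      Real.exp ((Real.log x - w) / 2) * gk η (Real.log x - w)) (Ioi 0) := by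
    apply (SMCont_cont η hη).comp_continuousOn
    apply Real.continuousOn_log.mono
    intro x hx
    have : 0 < x := hx
    simp only [mem_compl_iff, mem_singleton_iff]
    exact this.ne'
  exact h1.congr (fun x hx => SMCont_eq η x hx)

theorem err_intervalIntegrable (η : ℝ) (hη : 0 < η) (p q s : ℝ) (hp : 0 < p + s) (hq : 0 < q + s) :
    IntervalIntegrable (fun x => (Mz (x + s) - SM η (x + s)) ^ 2) volume p q := by
  have hsub : ∀ x ∈ uIcc p q, x + s ∈ Ioi (0 : ℝ) := by
    intro x hx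
    rw [mem_uIcc] at hx
    simp only [mem_Ioi]
    rcases hx with ⟨h1, _⟩ | ⟨h1, _⟩ <;> linarith
  have hcont : ContinuousOn (fun x => SM η (x + s)) (uIcc p q) :=
    (SM_continuousOn η hη).comp (by fun_prop) hsub
  obtain ⟨C, hC⟩ := isCompact_uIcc.exists_bound_of_continuousOn hcont
  obtain ⟨D, hD⟩ := isCompact_uIcc.exists_bound_of_continuousOn
    (by fun_prop : ContinuousOn (fun x : ℝ => x + s) (uIcc p q))
  rw [intervalIntegrable_iff]
  refine IntegrableOn.of_bound (by simp) ?_ ((D + C) ^ 2) ?_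
  · apply AEStronglyMeasurable.pow
    apply AEStronglyMeasurable.sub
    · exact (Mz_measurable.comp (measurable_id.add_const s)).aestronglyMeasurable
    · exact (hcont.mono uIoc_subset_uIcc).aestronglyMeasurable measurableSet_uIoc
  · rw [ae_restrict_iff' measurableSet_uIoc]
    refine Eventually.of_forall (fun x hx => ?_)
    have hx' := uIoc_subset_uIcc hx
    have h1 := hC x hx'
    have h2 := hD x hx'
    have h3 : |Mz (x + s)| ≤ |x + s| := Mz_abs_le' _
    rw [Real.norm_eq_abs] at h1 h2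
    rw [norm_pow, Real.norm_eq_abs]
    apply pow_le_pow_left₀ (abs_nonneg _)
    have := abs_sub (Mz (x + s)) (SM η (x + s))
    linarith

end Pool.Agent.H56.GX
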