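import Pool.Agent.H56.GX.Chg
import Pool.Agent.H56.GX.Low
import Pool.Agent.H56.GX.SMCont

/-!
GX module Err: `∫_{(7/20)X}^{(17/20)X} (Mz - SM η)² ≤ A (η + δ₁) X²` for `X ≥ X₁(δ₁)`.

`Mz x - SM η x = ∫ gk η v [Mz x - Mz (x e^{-v}) e^{v/2}] dv` (`gk_integral`); Cauchy-Schwarz for the
probability density `gk`: `(Mz x - SM η x)² ≤ ∫ gk η v [Mz x - Mz (x e^{-v}) e^{v/2}]² dv`, and
`[...]² ≤ 2 (Mz x - Mz (x e^{-v}))² + 2 Mz (x e^{-v})² (1 - e^{v/2})²`. Integrate over
`x ∈ [(7/20)X, (17/20)X]`, exchange the order (Tonelli), and bound the four parts, with `v₀ = δ₀/8`: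
(a) second term: `∫ Mz (x e^{-v})² dx = e^v ∫_{...} Mz(y)² dy ≤ e^v C (X e^{-v})² = C X² e^{-v}` (`low_int`), and
   `(1 - e^{v/2})² ≤ (v²/4) e^{|v|}`; so `≤ C X² ∫ v² e^{2|v|} gk ≤ C' η² X² ≤ C' η X²` (`gk_moment 2`);
(b) first term, `|v| ≥ v₀`: `∫ 2(Mz x - Mz(x e^{-v}))² dx ≤ 4 ∫ Mz x² + 4 ∫ Mz(x e^{-v})² ≤ 8 C X² e^{|v|}
   ≤ 8 C X² e^{2|v|} |v|/v₀`, so `≤ C' η X² / v₀` (`gk_moment 1`);
(c) first term, `0 ≤ v ≤ v₀`: `chg`;
(d) first term, `-v₀ ≤ v ≤ 0`: with `w = -v`, `y = x e^w`: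
   `∫_{(7/20)X}^{(17/20)X} (Mz x - Mz (x e^w))² dx = e^{-w} ∫_{(7/20)Xe^w}^{(17/20)Xe^w} (Mz (y e^{-w}) - Mz y)² dy
   ≤ ∫_{(7/20)X}^{X} (Mz y - Mz (y e^{-w}))² dy` (`e^{v₀} · 17/20 ≤ 1` as `v₀ ≤ 1/80`), then (c) (`gk` is even).
-/

set_option autoImplicit false

namespace Pool.Agent.H56.GX

open MeasureTheory Set Complex Filter Topology

/-- bounded measurable functions on bounded intervals -/
private theorem Err_ii {f : ℝ → ℝ} (hf : Measurable f) {a b : ℝ} (M : ℝ) (hab : a ≤ b)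
    (h : ∀ x ∈ Icc a b, |f x| ≤ M) : IntervalIntegrable f volume a b := by
  rw [intervalIntegrable_iff_integrableOn_Ioc_of_le hab]
  refine Measure.integrableOn_of_bounded (M := M) ?_ hf.aestronglyMeasurable ?_
  · simp
  · filter_upwards [ae_restrict_mem measurableSet_Ioc] with x hx
    exact h x ⟨hx.1.le, hx.2⟩

private theorem Err_exp (u : ℝ) : (1 - Real.exp u) ^ 2 ≤ u ^ 2 * Real.exp (2 * |u|) := by
  have h1 : |1 - Real.exp u| ≤ |u| * Real.exp |u| := by
    rcases le_total 0 u with h | h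
    · rw [abs_of_nonneg h, abs_sub_comm, abs_of_nonneg (by linarith [Real.add_one_le_exp u])]
      have h2 := Real.add_one_le_exp (-u)
      have h3 : Real.exp u * Real.exp (-u) = 1 := by rw [← Real.exp_add]; simp
      have h4 : 0 < Real.exp u := Real.exp_pos u
      nlinarith
    · have h2 := Real.add_one_le_exp u
      have h3 : Real.exp u ≤ 1 := Real.exp_le_one_iff.2 h
      rw [abs_of_nonneg (by linarith), abs_of_nonpos h]
      have h4 : 1 ≤ Real.exp (-u) := Real.one_le_exp (by linarith)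
      nlinarith
  have h2 : (1 - Real.exp u) ^ 2 ≤ (|u| * Real.exp |u|) ^ 2 := by
    rw [← sq_abs (1 - Real.exp u)]
    exact pow_le_pow_left₀ (abs_nonneg _) h1 2
  refine h2.trans (le_of_eq ?_)
  rw [mul_pow, sq_abs, ← Real.exp_nat_mul]
  norm_num

private theorem Err_M2 (v : ℝ) : Measurable fun x : ℝ => Mz (x * Real.exp (-v)) :=
  Mz_measurable.comp (measurable_id.mul_const _)

private theorem Err_bd {a b x v : ℝ} (ha : 0 ≤ a) (hx : x ∈ Icc a b) :
    |Mz (x * Real.exp (-v))| ≤ b * Real.exp (-v) := by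
  have h0 : 0 ≤ x := ha.trans hx.1
  have h1 := Mz_abs_le (x * Real.exp (-v)) (mul_nonneg h0 (Real.exp_pos _).le)
  exact h1.trans (mul_le_mul_of_nonneg_right hx.2 (Real.exp_pos _).le)

private theorem Err_bd0 {a b x : ℝ} (ha : 0 ≤ a) (hx : x ∈ Icc a b) :
    |Mz x| ≤ b :=
  (Mz_abs_le x (ha.trans hx.1)).trans hx.2

private theorem Err_E (C : ℝ) (hC : 1 ≤ C) (hS : SBound C) (a b v : ℝ) (ha : 0 ≤ a) (hab : a ≤ b) :
    ∫ x in a..b, (Mz (x * Real.exp (-v))) ^ 2 ≤ C * b ^ 2 * Real.exp (-v) := by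
  have he : 0 < Real.exp (-v) := Real.exp_pos _
  rw [intervalIntegral.integral_comp_mul_right (fun y => Mz y ^ 2) he.ne', smul_eq_mul]
  have hb : 0 ≤ b * Real.exp (-v) := mul_nonneg (ha.trans hab) he.le
  have h1 : ∫ x in (a * Real.exp (-v))..(b * Real.exp (-v)), Mz x ^ 2 ≤
      ∫ x in (0 : ℝ)..(b * Real.exp (-v)), Mz x ^ 2 := by
    refine intervalIntegral.integral_mono_interval (mul_nonneg ha he.le)
      (mul_le_mul_of_nonneg_right hab he.le) le_rfl ?_ (Mz_sq_intervalIntegrable _ _)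
    exact Eventually.of_forall fun x => sq_nonneg _
  have h2 := low_int C hC hS _ hb
  calc (Real.exp (-v))⁻¹ * ∫ x in (a * Real.exp (-v))..(b * Real.exp (-v)), Mz x ^ 2
      ≤ (Real.exp (-v))⁻¹ * (C * (b * Real.exp (-v)) ^ 2) :=
        mul_le_mul_of_nonneg_left (h1.trans h2) (inv_nonneg.2 he.le)
    _ = C * b ^ 2 * Real.exp (-v) := by
        field_simp

/-- the mean square of the increment -/
private noncomputable def ErrD (a b v : ℝ) : ℝ :=
  ∫ x in a..b, (Mz x - Mz (x * Real.exp (-v))) ^ 2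

private theorem Err_Dii {a b : ℝ} (v : ℝ) (ha : 0 ≤ a) (hab : a ≤ b) :
    IntervalIntegrable (fun x => (Mz x - Mz (x * Real.exp (-v))) ^ 2) volume a b := by
  refine Err_ii ((Mz_measurable.sub (Err_M2 v)).pow_const 2)
    ((b + b * Real.exp (-v)) ^ 2) hab ?_
  intro x hx
  rw [abs_pow]
  refine pow_le_pow_left₀ (abs_nonneg _) ?_ 2
  exact (abs_sub _ _).trans (add_le_add (Err_bd0 ha hx) (Err_bd ha hx))

private theorem Err_Eii {a b : ℝ} (v : ℝ) (ha : 0 ≤ a) (hab : a ≤ b) :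
    IntervalIntegrable (fun x => (Mz (x * Real.exp (-v))) ^ 2) volume a b := by
  refine Err_ii ((Err_M2 v).pow_const 2) ((b * Real.exp (-v)) ^ 2) hab ?_
  intro x hx
  rw [abs_pow]
  exact pow_le_pow_left₀ (abs_nonneg _) (Err_bd ha hx) 2

private theorem Err_Gii {a b : ℝ} (v : ℝ) (ha : 0 ≤ a) (hab : a ≤ b) :
    IntervalIntegrable (fun x => (Mz x - Mz (x * Real.exp (-v)) * Real.exp (v / 2)) ^ 2)
      volume a b := by
  refine Err_ii ((Mz_measurable.sub ((Err_M2 v).mul_const _)).pow_const 2)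
    ((b + b * Real.exp (-v) * Real.exp (v / 2)) ^ 2) hab ?_
  intro x hx
  rw [abs_pow]
  refine pow_le_pow_left₀ (abs_nonneg _) ?_ 2
  refine (abs_sub _ _).trans (add_le_add (Err_bd0 ha hx) ?_)
  rw [abs_mul, abs_of_pos (Real.exp_pos (v / 2))]
  exact mul_le_mul_of_nonneg_right (Err_bd ha hx) (Real.exp_pos _).le

private theorem Err_D_nonneg {a b v : ℝ} (hab : a ≤ b) : 0 ≤ ErrD a b v :=
  intervalIntegral.integral_nonneg hab fun _ _ => sq_nonneg _

private theorem Err_D_big (C : ℝ) (hC : 1 ≤ C) (hS : SBound C) (a b v : ℝ) (ha : 0 ≤ a)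
    (hab : a ≤ b) : ErrD a b v ≤ 2 * (C * b ^ 2) + 2 * (C * b ^ 2 * Real.exp (-v)) := by
  unfold ErrD
  have h1 : ∫ x in a..b, (Mz x - Mz (x * Real.exp (-v))) ^ 2 ≤
      ∫ x in a..b, (2 * (Mz x) ^ 2 + 2 * (Mz (x * Real.exp (-v))) ^ 2) := by
    refine intervalIntegral.integral_mono_on hab (Err_Dii v ha hab)
      (((Mz_sq_intervalIntegrable a b).const_mul 2).add ((Err_Eii v ha hab).const_mul 2)) ?_
    intro x _
    nlinarith [sq_nonneg (Mz x + Mz (x * Real.exp (-v)))]
  rw [intervalIntegral.integral_add ((Mz_sq_intervalIntegrable a b).const_mul 2)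
    ((Err_Eii v ha hab).const_mul 2), intervalIntegral.integral_const_mul,
    intervalIntegral.integral_const_mul] at h1
  have h2 := Err_E C hC hS a b v ha hab
  have h3 : ∫ x in a..b, Mz x ^ 2 ≤ C * b ^ 2 := by
    have h4 := Err_E C hC hS a b 0 ha hab
    simpa using h4
  linarith

private theorem Err_D_mono {a b c v : ℝ} (ha : 0 ≤ a) (hab : a ≤ b) (hbc : b ≤ c) :
    ErrD a b v ≤ ErrD a c v := by
  unfold ErrD
  refine intervalIntegral.integral_mono_interval le_rfl hab hbc ?_ (Err_Dii v ha (hab.trans hbc))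
  exact Eventually.of_forall fun x => sq_nonneg _

private theorem Err_D_neg {a b c w : ℝ} (ha : 0 ≤ a) (hab : a ≤ b) (hw : 0 ≤ w)
    (hbc : b * Real.exp w ≤ c) : ErrD a b (-w) ≤ ErrD a c w := by
  unfold ErrD
  have he : 0 < Real.exp w := Real.exp_pos _
  have he1 : 1 ≤ Real.exp w := Real.one_le_exp hw
  have h1 : ∫ x in a..b, (Mz x - Mz (x * Real.exp (-(-w)))) ^ 2 =
      ∫ x in a..b, (fun y => (Mz y - Mz (y * Real.exp (-w))) ^ 2) (x * Real.exp w) := by
    refine intervalIntegral.integral_congr fun x _ => ?_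
    show (Mz x - Mz (x * Real.exp (-(-w)))) ^ 2 =
      (Mz (x * Real.exp w) - Mz (x * Real.exp w * Real.exp (-w))) ^ 2
    have h2 : x * Real.exp w * Real.exp (-w) = x := by
      rw [mul_assoc, ← Real.exp_add]; simp
    rw [h2, neg_neg]
    ring
  rw [h1, intervalIntegral.integral_comp_mul_right
    (fun y => (Mz y - Mz (y * Real.exp (-w))) ^ 2) he.ne', smul_eq_mul]
  have hac : a ≤ a * Real.exp w := le_mul_of_one_le_right ha he1
  have hab' : a * Real.exp w ≤ b * Real.exp w := mul_le_mul_of_nonneg_right hab he.le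
  have h3 : ∫ x in (a * Real.exp w)..(b * Real.exp w), (Mz x - Mz (x * Real.exp (-w))) ^ 2 ≤
      ∫ x in a..c, (Mz x - Mz (x * Real.exp (-w))) ^ 2 := by
    refine intervalIntegral.integral_mono_interval hac hab' hbc ?_
      (Err_Dii w ha (hac.trans (hab'.trans hbc)))
    exact Eventually.of_forall fun x => sq_nonneg _
  have h4 : 0 ≤ ∫ x in (a * Real.exp w)..(b * Real.exp w),
      (Mz x - Mz (x * Real.exp (-w))) ^ 2 :=
    intervalIntegral.integral_nonneg hab' fun _ _ => sq_nonneg _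
  have h5 : (Real.exp w)⁻¹ ≤ 1 := inv_le_one_of_one_le₀ he1
  calc (Real.exp w)⁻¹ * ∫ x in (a * Real.exp w)..(b * Real.exp w),
        (Mz x - Mz (x * Real.exp (-w))) ^ 2
      ≤ 1 * ∫ x in (a * Real.exp w)..(b * Real.exp w),
        (Mz x - Mz (x * Real.exp (-w))) ^ 2 := mul_le_mul_of_nonneg_right h5 h4
    _ ≤ _ := by rw [one_mul]; exact h3

private theorem Err_D_meas (a b : ℝ) (hab : a ≤ b) : StronglyMeasurable fun v => ErrD a b v := by
  have h1 : (fun v => ErrD a b v) =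
      fun v => ∫ x in Ioc a b, (Mz x - Mz (x * Real.exp (-v))) ^ 2 := by
    funext v
    unfold ErrD
    rw [intervalIntegral.integral_of_le hab]
  rw [h1]
  refine StronglyMeasurable.integral_prod_left
    (f := fun (x v : ℝ) => (Mz x - Mz (x * Real.exp (-v))) ^ 2) ?_
  have h2 : Measurable (Function.uncurry fun (x v : ℝ) => (Mz x - Mz (x * Real.exp (-v))) ^ 2) := by
    refine Measurable.pow_const (Measurable.sub (Mz_measurable.comp measurable_fst) ?_) 2
    exact Mz_measurable.comp (measurable_fst.mul (Real.measurable_exp.comp measurable_snd.neg))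
  exact h2.stronglyMeasurable

/-- the mean square of the integrand of the error -/
private noncomputable def ErrG (a b v : ℝ) : ℝ :=
  ∫ x in a..b, (Mz x - Mz (x * Real.exp (-v)) * Real.exp (v / 2)) ^ 2

private theorem Err_G_le (C : ℝ) (hC : 1 ≤ C) (hS : SBound C) (a b v : ℝ) (ha : 0 ≤ a)
    (hab : a ≤ b) : ErrG a b v ≤ 2 * ErrD a b v +
      C * b ^ 2 * (|v| ^ 2 * Real.exp (2 * |v|)) := by
  have h1 : ErrG a b v ≤ ∫ x in a..b, (2 * (Mz x - Mz (x * Real.exp (-v))) ^ 2 +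
      (2 * (1 - Real.exp (v / 2)) ^ 2) * (Mz (x * Real.exp (-v))) ^ 2) := by
    unfold ErrG
    refine intervalIntegral.integral_mono_on hab (Err_Gii v ha hab)
      (((Err_Dii v ha hab).const_mul 2).add ((Err_Eii v ha hab).const_mul _)) ?_
    intro x _
    nlinarith [sq_nonneg ((Mz x - Mz (x * Real.exp (-v))) -
      (1 - Real.exp (v / 2)) * Mz (x * Real.exp (-v)))]
  rw [intervalIntegral.integral_add ((Err_Dii v ha hab).const_mul 2)
    ((Err_Eii v ha hab).const_mul _), intervalIntegral.integral_const_mul,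
    intervalIntegral.integral_const_mul] at h1
  have h2 := Err_E C hC hS a b v ha hab
  have h3 := Err_exp (v / 2)
  have h4 : (v / 2) ^ 2 * Real.exp (2 * |v / 2|) = |v| ^ 2 / 4 * Real.exp |v| := by
    rw [abs_div, abs_two, sq_abs]
    have : 2 * (|v| / 2) = |v| := by ring
    rw [this]
    ring
  rw [h4] at h3
  have hEn : 0 ≤ ∫ x in a..b, (Mz (x * Real.exp (-v))) ^ 2 :=
    intervalIntegral.integral_nonneg hab fun _ _ => sq_nonneg _
  have h5 : Real.exp (-v) ≤ Real.exp |v| := Real.exp_le_exp.2 (neg_le_abs v)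
  have hb2 : 0 ≤ C * b ^ 2 := by positivity
  have h6 : ∫ x in a..b, (Mz (x * Real.exp (-v))) ^ 2 ≤ C * b ^ 2 * Real.exp |v| :=
    h2.trans (mul_le_mul_of_nonneg_left h5 hb2)
  have h7 : 2 * (1 - Real.exp (v / 2)) ^ 2 * ∫ x in a..b, (Mz (x * Real.exp (-v))) ^ 2 ≤
      2 * (|v| ^ 2 / 4 * Real.exp |v|) * (C * b ^ 2 * Real.exp |v|) := by
    refine mul_le_mul (by linarith) h6 hEn (by positivity)
  have h8 : 2 * (|v| ^ 2 / 4 * Real.exp |v|) * (C * b ^ 2 * Real.exp |v|) =
      C * b ^ 2 * (|v| ^ 2 * Real.exp (2 * |v|)) / 2 := by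
    have : Real.exp (2 * |v|) = Real.exp |v| * Real.exp |v| := by
      rw [← Real.exp_add]; ring_nf
    rw [this]
    ring
  have h9 : 0 ≤ C * b ^ 2 * (|v| ^ 2 * Real.exp (2 * |v|)) := by positivity
  have h10 : ∫ x in a..b, (Mz x - Mz (x * Real.exp (-v))) ^ 2 = ErrD a b v := rfl
  rw [h10] at h1
  rw [h8] at h7
  linarith


private theorem Err_f_bd (x v : ℝ) :
    (Mz x - Mz (x * Real.exp (-v)) * Real.exp (v / 2)) ^ 2 ≤ 4 * x ^ 2 * Real.exp (2 * |v|) := by
  have h1 : |Mz x| ≤ |x| * Real.exp |v| := by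
    refine (Mz_abs_le' x).trans ?_
    exact le_mul_of_one_le_right (abs_nonneg x) (Real.one_le_exp (abs_nonneg v))
  have h2 : |Mz (x * Real.exp (-v)) * Real.exp (v / 2)| ≤ |x| * Real.exp |v| := by
    rw [abs_mul, abs_of_pos (Real.exp_pos (v / 2))]
    have h3 := Mz_abs_le' (x * Real.exp (-v))
    rw [abs_mul, abs_of_pos (Real.exp_pos (-v))] at h3
    calc |Mz (x * Real.exp (-v))| * Real.exp (v / 2)
        ≤ |x| * Real.exp (-v) * Real.exp (v / 2) :=
          mul_le_mul_of_nonneg_right h3 (Real.exp_pos _).le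
      _ = |x| * Real.exp (-v + v / 2) := by rw [mul_assoc, ← Real.exp_add]
      _ ≤ |x| * Real.exp |v| := by
          refine mul_le_mul_of_nonneg_left (Real.exp_le_exp.2 ?_) (abs_nonneg x)
          have := neg_le_abs v
          have := abs_nonneg v
          linarith
  have h3 : |Mz x - Mz (x * Real.exp (-v)) * Real.exp (v / 2)| ≤ 2 * (|x| * Real.exp |v|) :=
    (abs_sub _ _).trans (by linarith)
  have h4 := pow_le_pow_left₀ (abs_nonneg _) h3 2
  rw [sq_abs] at h4
  refine h4.trans (le_of_eq ?_)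
  have : Real.exp (2 * |v|) = Real.exp |v| * Real.exp |v| := by
    rw [← Real.exp_add]; ring_nf
  rw [this, ← sq_abs x]
  ring

private theorem Err_mom0 (η : ℝ) (hη : 0 < η) (hη1 : η ≤ 1) :
    Integrable fun v : ℝ => Real.exp (2 * |v|) * gk η v := by
  obtain ⟨C, _, hC⟩ := gk_moment 0
  have h := (hC η hη hη1).1
  simpa using h

private theorem Err_fv_meas (x : ℝ) :
    Measurable fun v : ℝ => Mz (x * Real.exp (-v)) * Real.exp (v / 2) :=
  (Mz_measurable.comp (measurable_const.mul (Real.measurable_exp.comp measurable_neg))).mul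
    (Real.measurable_exp.comp (measurable_id.div_const 2))

private theorem Err_pt (η : ℝ) (hη : 0 < η) (hη1 : η ≤ 1) (x : ℝ) :
    (Mz x - SM η x) ^ 2 ≤
      ∫ v : ℝ, gk η v * (Mz x - Mz (x * Real.exp (-v)) * Real.exp (v / 2)) ^ 2 := by
  have hm0 := Err_mom0 η hη hη1
  have hgm : Measurable (gk η) := (gk_continuous η).measurable
  set f : ℝ → ℝ := fun v => Mz x - Mz (x * Real.exp (-v)) * Real.exp (v / 2) with hf
  have hfm : Measurable f := measurable_const.sub (Err_fv_meas x)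
  have int2 : Integrable fun v => gk η v * f v ^ 2 := by
    refine (hm0.const_mul (4 * x ^ 2)).mono' (hgm.mul (hfm.pow_const 2)).aestronglyMeasurable ?_
    refine Eventually.of_forall fun v => ?_
    rw [Real.norm_eq_abs, abs_mul, abs_of_pos (gk_pos η hη v), abs_of_nonneg (sq_nonneg _)]
    calc gk η v * f v ^ 2 ≤ gk η v * (4 * x ^ 2 * Real.exp (2 * |v|)) :=
          mul_le_mul_of_nonneg_left (Err_f_bd x v) (gk_pos η hη v).le
      _ = _ := by ring
  have int1 : Integrable fun v => gk η v * f v := by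
    refine ((gk_integrable η hη).add int2).mono' (hgm.mul hfm).aestronglyMeasurable ?_
    refine Eventually.of_forall fun v => ?_
    rw [Real.norm_eq_abs, abs_mul, abs_of_pos (gk_pos η hη v)]
    have h1 : |f v| ≤ 1 + f v ^ 2 := by
      rw [← sq_abs (f v)]
      nlinarith [sq_nonneg (|f v| - 1), abs_nonneg (f v)]
    calc gk η v * |f v| ≤ gk η v * (1 + f v ^ 2) :=
          mul_le_mul_of_nonneg_left h1 (gk_pos η hη v).le
      _ = _ := by simp only [Pi.add_apply]; ring
  have hS : Mz x - SM η x = ∫ v : ℝ, gk η v * f v := by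
    have h1 : ∫ v : ℝ, Mz x * gk η v = Mz x := by
      rw [integral_const_mul, gk_integral η hη, mul_one]
    have h2 : Integrable fun v : ℝ => Mz x * gk η v := (gk_integrable η hη).const_mul _
    have h3 : Integrable fun v : ℝ =>
        Mz (x * Real.exp (-v)) * Real.exp (v / 2) * gk η v := by
      refine (h2.sub int1).congr (Eventually.of_forall fun v => ?_)
      simp only [Pi.sub_apply, hf]
      ring
    calc Mz x - SM η x = (∫ v : ℝ, Mz x * gk η v) -
          ∫ v : ℝ, Mz (x * Real.exp (-v)) * Real.exp (v / 2) * gk η v := by rw [h1]; rfl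
      _ = ∫ v : ℝ, (Mz x * gk η v - Mz (x * Real.exp (-v)) * Real.exp (v / 2) * gk η v) :=
          (integral_sub h2 h3).symm
      _ = _ := by
          refine integral_congr_ae (Eventually.of_forall fun v => ?_)
          simp only [hf]
          ring
  set m : ℝ := ∫ v : ℝ, gk η v * f v with hm
  have h0 : 0 ≤ ∫ v : ℝ, gk η v * (f v - m) ^ 2 :=
    integral_nonneg fun v => mul_nonneg (gk_pos η hη v).le (sq_nonneg _)
  have h1 : ∫ v : ℝ, gk η v * (f v - m) ^ 2 =
      (∫ v : ℝ, gk η v * f v ^ 2) - 2 * m * m + m ^ 2 := by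
    calc ∫ v : ℝ, gk η v * (f v - m) ^ 2
        = ∫ v : ℝ, ((gk η v * f v ^ 2 - 2 * m * (gk η v * f v)) + m ^ 2 * gk η v) := by
          refine integral_congr_ae (Eventually.of_forall fun v => ?_)
          simp only []
          ring
      _ = (∫ v : ℝ, (gk η v * f v ^ 2 - 2 * m * (gk η v * f v))) + ∫ v : ℝ, m ^ 2 * gk η v :=
          integral_add (int2.sub (int1.const_mul _)) ((gk_integrable η hη).const_mul _)
      _ = _ := by
          rw [integral_sub int2 (int1.const_mul _), integral_const_mul, integral_const_mul,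
            gk_integral η hη, mul_one]
  rw [hS]
  rw [h1] at h0
  nlinarith

private theorem Err_prod (η : ℝ) (hη : 0 < η) (hη1 : η ≤ 1) (a b : ℝ) :
    Integrable (Function.uncurry fun (x v : ℝ) =>
      gk η v * (Mz x - Mz (x * Real.exp (-v)) * Real.exp (v / 2)) ^ 2)
      ((volume.restrict (Ioc a b)).prod volume) := by
  have h1 : Integrable (fun x : ℝ => 4 * x ^ 2) (volume.restrict (Ioc a b)) := by
    have h2 : Continuous fun x : ℝ => 4 * x ^ 2 := by fun_prop
    exact (h2.integrableOn_Icc (a := a) (b := b)).mono_set Ioc_subset_Icc_self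
  have h3 := h1.mul_prod (Err_mom0 η hη hη1)
  refine h3.mono' ?_ ?_
  · refine Measurable.aestronglyMeasurable ?_
    refine Measurable.mul ((gk_continuous η).measurable.comp measurable_snd) ?_
    refine Measurable.pow_const (Measurable.sub (Mz_measurable.comp measurable_fst) ?_) 2
    refine Measurable.mul ?_ (Real.measurable_exp.comp (measurable_snd.div_const 2))
    exact Mz_measurable.comp (measurable_fst.mul (Real.measurable_exp.comp measurable_snd.neg))
  · refine Eventually.of_forall fun z => ?_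
    rcases z with ⟨x, v⟩
    show ‖gk η v * (Mz x - Mz (x * Real.exp (-v)) * Real.exp (v / 2)) ^ 2‖ ≤
      4 * x ^ 2 * (Real.exp (2 * |v|) * gk η v)
    rw [Real.norm_eq_abs, abs_mul, abs_of_pos (gk_pos η hη v), abs_of_nonneg (sq_nonneg _)]
    calc gk η v * (Mz x - Mz (x * Real.exp (-v)) * Real.exp (v / 2)) ^ 2
        ≤ gk η v * (4 * x ^ 2 * Real.exp (2 * |v|)) :=
          mul_le_mul_of_nonneg_left (Err_f_bd x v) (gk_pos η hη v).le
      _ = _ := by ring

private theorem Err_swap (η : ℝ) (hη : 0 < η) (hη1 : η ≤ 1) (a b : ℝ) (ha : 0 < a)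
    (hab : a ≤ b) : ∫ x in a..b, (Mz x - SM η x) ^ 2 ≤ ∫ v : ℝ, gk η v * ErrG a b v := by
  have hp := Err_prod η hη hη1 a b
  have h1 : IntervalIntegrable (fun x => (Mz x - SM η x) ^ 2) volume a b := by
    have h := err_intervalIntegrable η hη a b 0 (by linarith) (by linarith)
    simpa using h
  have h2 : IntervalIntegrable (fun x => ∫ v : ℝ,
      gk η v * (Mz x - Mz (x * Real.exp (-v)) * Real.exp (v / 2)) ^ 2) volume a b := by
    rw [intervalIntegrable_iff_integrableOn_Ioc_of_le hab]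
    exact hp.integral_prod_left
  have h3 := intervalIntegral.integral_mono_on hab h1 h2 fun x _ => Err_pt η hη hη1 x
  refine h3.trans (le_of_eq ?_)
  rw [intervalIntegral.integral_of_le hab]
  rw [integral_integral_swap hp]
  refine integral_congr_ae (Eventually.of_forall fun v => ?_)
  simp only []
  rw [integral_const_mul]
  unfold ErrG
  rw [intervalIntegral.integral_of_le hab]

private theorem Err_G_int (η : ℝ) (hη : 0 < η) (hη1 : η ≤ 1) (a b : ℝ) (hab : a ≤ b) :
    Integrable fun v : ℝ => gk η v * ErrG a b v := by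
  have h := (Err_prod η hη hη1 a b).integral_prod_right
  refine h.congr (Eventually.of_forall fun v => ?_)
  simp only [Function.uncurry]
  rw [integral_const_mul]
  unfold ErrG
  rw [intervalIntegral.integral_of_le hab]

theorem err (B δ₀ C : ℝ) (hB : 0 ≤ B) (hδ : 0 < δ₀) (hδ' : δ₀ ≤ 1 / 10) (h : Win B δ₀)
    (hC : 1 ≤ C) (hS : SBound C) :
    ∃ A : ℝ, 0 < A ∧ ∀ δ₁ : ℝ, 0 < δ₁ → δ₁ < δ₀ / 2 → ∃ X₀ : ℝ, 1 ≤ X₀ ∧ ∀ η X : ℝ, 0 < η → η ≤ 1 →
      X₀ ≤ X → ∫ x in (7 / 20 * X)..(17 / 20 * X), (Mz x - SM η x) ^ 2 ≤ A * (η + δ₁) * X ^ 2 := by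
  obtain ⟨A0, hA0, hchg⟩ := chg B δ₀ hB hδ hδ' h
  obtain ⟨C1, hC1, hm1⟩ := gk_moment 1
  obtain ⟨C2, hC2, hm2⟩ := gk_moment 2
  have hv0 : 0 < δ₀ / 8 := by positivity
  have hC0 : 0 < C := by linarith
  refine ⟨4 * A0 + 8 * C * C1 / (δ₀ / 8) + C * C2, by positivity, ?_⟩
  intro δ₁ hδ₁ hδ₁'
  obtain ⟨X₀, hX₀, hX⟩ := hchg δ₁ hδ₁ hδ₁'
  refine ⟨X₀, hX₀, ?_⟩
  intro η X hη hη1 hXX
  have hX0 : 0 < X := by linarith
  have hchgX := hX η X hη hη1 hXX
  set a : ℝ := 7 / 20 * X with ha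
  set b : ℝ := 17 / 20 * X with hb
  have ha0 : 0 < a := by positivity
  have hab : a ≤ b := by rw [ha, hb]; linarith
  have hbX : b ≤ X := by rw [hb]; linarith
  have haX : a ≤ X := hab.trans hbX
  refine (Err_swap η hη hη1 a b ha0 hab).trans ?_
  -- the local part
  let g : ℝ → ℝ := fun u => gk η u * ErrD a X u
  let H : ℝ → ℝ := (Iic (δ₀ / 8)).indicator g
  have hgmeas : StronglyMeasurable g :=
    (gk_continuous η).stronglyMeasurable.mul (Err_D_meas a X haX)
  have hHmeas : StronglyMeasurable H := hgmeas.indicator measurableSet_Iic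
  have hHabs : StronglyMeasurable fun v : ℝ => H |v| :=
    hHmeas.comp_measurable continuous_abs.measurable
  have hHint : Integrable fun v : ℝ => H |v| := by
    refine ((gk_integrable η hη).const_mul (4 * C * X ^ 2)).mono' hHabs.aestronglyMeasurable ?_
    refine Eventually.of_forall fun v => ?_
    have hg0 : 0 < gk η v := gk_pos η hη v
    by_cases hv : |v| ≤ δ₀ / 8
    · have h1 : H |v| = gk η |v| * ErrD a X |v| := indicator_of_mem (mem_Iic.2 hv) g
      have h2 : gk η |v| = gk η v := by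
        rcases abs_choice v with h | h
        · rw [h]
        · rw [h, gk_neg]
      rw [h1, h2, Real.norm_eq_abs, abs_mul, abs_of_pos hg0,
        abs_of_nonneg (Err_D_nonneg haX)]
      have h3 := Err_D_big C hC hS a X |v| ha0.le haX
      have h4 : Real.exp (-|v|) ≤ 1 := Real.exp_le_one_iff.2 (by simp)
      have h5 : C * X ^ 2 * Real.exp (-|v|) ≤ C * X ^ 2 :=
        mul_le_of_le_one_right (by positivity) h4
      have h6 : ErrD a X |v| ≤ 4 * C * X ^ 2 := by linarith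
      calc gk η v * ErrD a X |v| ≤ gk η v * (4 * C * X ^ 2) :=
            mul_le_mul_of_nonneg_left h6 hg0.le
        _ = _ := by ring
    · have h1 : H |v| = 0 := indicator_of_notMem (fun h => hv (mem_Iic.1 h)) g
      rw [h1, norm_zero]
      positivity
  have hHval : ∫ v : ℝ, H |v| ≤ 2 * (A0 * (η + δ₁) * X ^ 2) := by
    rw [integral_comp_abs (f := H)]
    have h1 : ∫ x in Ioi (0 : ℝ), H x = ∫ v in (0 : ℝ)..(δ₀ / 8), g v := by
      rw [intervalIntegral.integral_of_le hv0.le]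
      show ∫ x in Ioi (0 : ℝ), (Iic (δ₀ / 8)).indicator g x = _
      rw [setIntegral_indicator measurableSet_Iic, Ioi_inter_Iic]
    rw [h1]
    exact mul_le_mul_of_nonneg_left hchgX (by norm_num)
  -- pointwise bound
  have hpt : ∀ v : ℝ, gk η v * ErrG a b v ≤ (2 * H |v| +
      (8 * C * X ^ 2 / (δ₀ / 8)) * (|v| ^ 1 * Real.exp (2 * |v|) * gk η v)) +
      (C * X ^ 2) * (|v| ^ 2 * Real.exp (2 * |v|) * gk η v) := by
    intro v
    have hg0 : 0 < gk η v := gk_pos η hη v
    have h1 := Err_G_le C hC hS a b v ha0.le hab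
    have hb2 : b ^ 2 ≤ X ^ 2 := pow_le_pow_left₀ (ha0.le.trans hab) hbX 2
    have h2 : C * b ^ 2 * (|v| ^ 2 * Real.exp (2 * |v|)) ≤
        C * X ^ 2 * (|v| ^ 2 * Real.exp (2 * |v|)) :=
      mul_le_mul_of_nonneg_right (mul_le_mul_of_nonneg_left hb2 hC0.le) (by positivity)
    have hE : 0 ≤ Real.exp (2 * |v|) := (Real.exp_pos _).le
    have hH0 : 0 ≤ H |v| := by
      refine indicator_nonneg (fun u _ => ?_) _
      exact mul_nonneg (gk_pos η hη u).le (Err_D_nonneg haX)
    have h3 : gk η v * ErrD a b v ≤ H |v| +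
        (4 * C * X ^ 2 / (δ₀ / 8)) * (|v| ^ 1 * Real.exp (2 * |v|) * gk η v) := by
      by_cases hv : |v| ≤ δ₀ / 8
      · have h4 : H |v| = gk η |v| * ErrD a X |v| := indicator_of_mem (mem_Iic.2 hv) g
        have h5 : gk η |v| = gk η v := by
          rcases abs_choice v with h | h
          · rw [h]
          · rw [h, gk_neg]
        have h6 : ErrD a b v ≤ ErrD a X |v| := by
          rcases le_total 0 v with h0 | h0
          · rw [abs_of_nonneg h0]
            exact Err_D_mono ha0.le hab hbX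
          · have h7 : v = -|v| := by rw [abs_of_nonpos h0, neg_neg]
            have h8 : ErrD a b (-|v|) ≤ ErrD a X |v| := by
              refine Err_D_neg ha0.le hab (abs_nonneg v) ?_
              have h9 : |v| ≤ 1 / 80 := by linarith
              have h10 := Real.add_one_le_exp (-|v|)
              have h11 : Real.exp |v| * Real.exp (-|v|) = 1 := by
                rw [← Real.exp_add]; simp
              have h12 : 0 < Real.exp |v| := Real.exp_pos _
              have h13 : Real.exp |v| ≤ 80 / 79 := by nlinarith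
              rw [hb]
              nlinarith
            rw [← h7] at h8
            exact h8
        rw [h4, h5]
        have h7 := mul_le_mul_of_nonneg_left h6 hg0.le
        have h8 : 0 ≤ (4 * C * X ^ 2 / (δ₀ / 8)) * (|v| ^ 1 * Real.exp (2 * |v|) * gk η v) := by
          positivity
        linarith
      · push Not at hv
        have h4 := Err_D_big C hC hS a b v ha0.le hab
        have h5 : Real.exp (-v) ≤ Real.exp (2 * |v|) := by
          refine Real.exp_le_exp.2 ?_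
          have := neg_le_abs v
          have := abs_nonneg v
          linarith
        have h6 : 1 ≤ Real.exp (2 * |v|) := Real.one_le_exp (by positivity)
        have h7 : C * b ^ 2 ≤ C * X ^ 2 := mul_le_mul_of_nonneg_left hb2 hC0.le
        have h8 : 0 ≤ C * b ^ 2 := by positivity
        have h9 : ErrD a b v ≤ 4 * C * X ^ 2 * Real.exp (2 * |v|) := by
          have h10 : C * b ^ 2 * Real.exp (-v) ≤ C * X ^ 2 * Real.exp (2 * |v|) :=
            mul_le_mul h7 h5 (Real.exp_pos _).le (by positivity)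
          have h11 : C * b ^ 2 ≤ C * X ^ 2 * Real.exp (2 * |v|) :=
            h7.trans (le_mul_of_one_le_right (by positivity) h6)
          linarith
        have h10 : 1 ≤ |v| / (δ₀ / 8) := by
          rw [le_div_iff₀ hv0]
          linarith
        have h11 : 4 * C * X ^ 2 * Real.exp (2 * |v|) ≤
            4 * C * X ^ 2 * Real.exp (2 * |v|) * (|v| / (δ₀ / 8)) :=
          le_mul_of_one_le_right (by positivity) h10
        calc gk η v * ErrD a b v
            ≤ gk η v * (4 * C * X ^ 2 * Real.exp (2 * |v|) * (|v| / (δ₀ / 8))) :=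
              mul_le_mul_of_nonneg_left (h9.trans h11) hg0.le
          _ = (4 * C * X ^ 2 / (δ₀ / 8)) * (|v| ^ 1 * Real.exp (2 * |v|) * gk η v) := by
              rw [pow_one]; ring
          _ ≤ _ := by linarith
    calc gk η v * ErrG a b v
        ≤ gk η v * (2 * ErrD a b v + C * X ^ 2 * (|v| ^ 2 * Real.exp (2 * |v|))) :=
          mul_le_mul_of_nonneg_left (by linarith) hg0.le
      _ = 2 * (gk η v * ErrD a b v) +
          (C * X ^ 2) * (|v| ^ 2 * Real.exp (2 * |v|) * gk η v) := by ring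
      _ ≤ 2 * (H |v| +
          (4 * C * X ^ 2 / (δ₀ / 8)) * (|v| ^ 1 * Real.exp (2 * |v|) * gk η v)) +
          (C * X ^ 2) * (|v| ^ 2 * Real.exp (2 * |v|) * gk η v) := by linarith
      _ = _ := by ring
  have hi1 := (hm1 η hη hη1).1
  have hi2 := (hm2 η hη hη1).1
  have hA := hHint.const_mul 2
  have hB1 := hi1.const_mul (8 * C * X ^ 2 / (δ₀ / 8))
  have hB2 := hi2.const_mul (C * X ^ 2)
  have hfin : ∫ v : ℝ, gk η v * ErrG a b v ≤ ∫ v : ℝ, ((2 * H |v| +
      (8 * C * X ^ 2 / (δ₀ / 8)) * (|v| ^ 1 * Real.exp (2 * |v|) * gk η v)) +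
      (C * X ^ 2) * (|v| ^ 2 * Real.exp (2 * |v|) * gk η v)) :=
    integral_mono (Err_G_int η hη hη1 a b hab) ((hA.add hB1).add hB2) hpt
  refine hfin.trans ?_
  have e0 : ∫ v : ℝ, (2 * H |v| +
      (8 * C * X ^ 2 / (δ₀ / 8)) * (|v| ^ 1 * Real.exp (2 * |v|) * gk η v)) =
      2 * (∫ v : ℝ, H |v|) + 8 * C * X ^ 2 / (δ₀ / 8) *
      (∫ v : ℝ, |v| ^ 1 * Real.exp (2 * |v|) * gk η v) := by
    rw [integral_add hA hB1, integral_const_mul, integral_const_mul]
  have e1 : ∫ v : ℝ, ((2 * H |v| +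
      (8 * C * X ^ 2 / (δ₀ / 8)) * (|v| ^ 1 * Real.exp (2 * |v|) * gk η v)) +
      (C * X ^ 2) * (|v| ^ 2 * Real.exp (2 * |v|) * gk η v)) =
      2 * (∫ v : ℝ, H |v|) + 8 * C * X ^ 2 / (δ₀ / 8) *
      (∫ v : ℝ, |v| ^ 1 * Real.exp (2 * |v|) * gk η v) + C * X ^ 2 *
      ∫ v : ℝ, |v| ^ 2 * Real.exp (2 * |v|) * gk η v := by
    rw [← e0, ← integral_const_mul (C * X ^ 2)]
    exact integral_add (hA.add hB1) hB2
  refine (le_of_eq e1).trans ?_
  have h1 := (hm1 η hη hη1).2
  have h2 := (hm2 η hη hη1).2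
  have h3 : 8 * C * X ^ 2 / (δ₀ / 8) * (∫ v : ℝ, |v| ^ 1 * Real.exp (2 * |v|) * gk η v) ≤
      8 * C * X ^ 2 / (δ₀ / 8) * (C1 * η ^ 1) := mul_le_mul_of_nonneg_left h1 (by positivity)
  have h4 : C * X ^ 2 * (∫ v : ℝ, |v| ^ 2 * Real.exp (2 * |v|) * gk η v) ≤
      C * X ^ 2 * (C2 * η ^ 2) := mul_le_mul_of_nonneg_left h2 (by positivity)
  have h5 : η ^ 2 ≤ η := by nlinarith
  have h6 : C * X ^ 2 * (C2 * η ^ 2) ≤ C * X ^ 2 * (C2 * (η + δ₁)) := by
    refine mul_le_mul_of_nonneg_left (mul_le_mul_of_nonneg_left ?_ hC2.le) (by positivity)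
    linarith
  have h7 : 8 * C * X ^ 2 / (δ₀ / 8) * (C1 * η ^ 1) ≤
      8 * C * X ^ 2 / (δ₀ / 8) * (C1 * (η + δ₁)) := by
    refine mul_le_mul_of_nonneg_left (mul_le_mul_of_nonneg_left ?_ hC1.le) (by positivity)
    rw [pow_one]
    linarith
  calc 2 * (∫ v : ℝ, H |v|) + 8 * C * X ^ 2 / (δ₀ / 8) *
      (∫ v : ℝ, |v| ^ 1 * Real.exp (2 * |v|) * gk η v) + C * X ^ 2 *
      ∫ v : ℝ, |v| ^ 2 * Real.exp (2 * |v|) * gk η v
      ≤ 2 * (2 * (A0 * (η + δ₁) * X ^ 2)) + 8 * C * X ^ 2 / (δ₀ / 8) * (C1 * (η + δ₁)) +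
        C * X ^ 2 * (C2 * (η + δ₁)) := by linarith
    _ = (4 * A0 + 8 * C * C1 / (δ₀ / 8) + C * C2) * (η + δ₁) * X ^ 2 := by ring

end Pool.Agent.H56.GX
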