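import Pool.Agent.H56.GX.FHol

/-!
GX module FL2: under `SBound`, `∫_ℝ ‖F(1/2 + σ + it)‖² dt ≤ C₂ / σ` for `0 < σ ≤ 3`.

With `x = e^u`: `F(1/2+σ+it) = ∫_0^∞ f(u) e^{-itu} du`, `f(u) = Mz(e^u) e^{-(1/2+σ)u}` for `u > 0`, and
`∫ |f| = ∫_1^∞ |Mz| x^(-3/2-σ) dx < ∞` (`tail_abs`), `∫ f² = ∫_1^∞ Mz² x^(-2-2σ) dx ≤ C' / σ`
(`tail_sq`). Plancherel: `∫_ℝ |F(1/2+σ+it)|² dt = 2π ∫ f²`. Only `≤` is needed. Elementary proof:
for `ε > 0`, by Fubini (everything absolutely convergent since `f ∈ L¹` and the weight is Gaussian)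
`∫ |F|² e^{-ε t²} dt = ∬ f(u) f(v) (∫ e^{-εt²} e^{-it(u-v)} dt) du dv
   = ∬ f(u) f(v) √(π/ε) e^{-(u-v)²/(4ε)} du dv ≤ ∫ f(u)² (∫ √(π/ε) e^{-(u-v)²/(4ε)} dv) du = 2π ∫ f²`
(by `|f(u) f(v)| ≤ (f(u)² + f(v)²)/2` and symmetry), then `ε → 0` (monotone convergence / Fatou).
Alternatives: `mean_F` of `Pool/Agent/H95/GC/MeanF.lean` with the weight `1/(1+(t/T)²)`, `T → ∞`; or
Mathlib's Plancherel theorem in `Mathlib/Analysis/Fourier/LpSpace.lean`.
`t ↦ F(1/2+σ+it)` is continuous (by `F_diff`).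
-/

set_option autoImplicit false

namespace Pool.Agent.H56.GX

open MeasureTheory Set Complex Filter Topology

/-- the Fourier transform of the Gaussian weight -/
noncomputable def FL2_G (ε w : ℝ) : ℝ := Real.sqrt (Real.pi / ε) * Real.exp (-(1 / (4 * ε)) * w ^ 2)

theorem FL2_G_eq {ε : ℝ} (hε : 0 < ε) (w : ℝ) :
    ∫ t : ℝ, Complex.exp (-(ε : ℂ) * t ^ 2) * Complex.exp (-(I * t * w)) = (FL2_G ε w : ℂ) := by
  have h := fourierIntegral_gaussian (b := (ε : ℂ)) (by simpa using hε) (-(w : ℂ))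
  have h1 : ∀ t : ℝ, Complex.exp (-(ε : ℂ) * t ^ 2) * Complex.exp (-(I * t * w)) =
      Complex.exp (I * (-(w : ℂ)) * t) * Complex.exp (-(ε : ℂ) * t ^ 2) := by
    intro t
    rw [mul_comm]
    congr 2
    ring
  simp_rw [h1]
  rw [h]
  unfold FL2_G
  rw [Real.sqrt_eq_rpow]
  push_cast [Complex.ofReal_cpow (show 0 ≤ Real.pi / ε by positivity)]
  congr 2
  ring

theorem FL2_G_nonneg (ε w : ℝ) : 0 ≤ FL2_G ε w := by
  unfold FL2_G
  positivity

theorem FL2_G_neg (ε w : ℝ) : FL2_G ε (-w) = FL2_G ε w := by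
  unfold FL2_G
  rw [neg_sq]

theorem FL2_G_integrable {ε : ℝ} (hε : 0 < ε) : Integrable (FL2_G ε) := by
  unfold FL2_G
  exact (integrable_exp_neg_mul_sq (by positivity)).const_mul _

theorem FL2_G_integral {ε : ℝ} (hε : 0 < ε) : ∫ w : ℝ, FL2_G ε w = 2 * Real.pi := by
  unfold FL2_G
  rw [integral_const_mul, integral_gaussian, ← Real.sqrt_mul (by positivity)]
  have : Real.pi / ε * (Real.pi / (1 / (4 * ε))) = (2 * Real.pi) ^ 2 := by
    field_simp
    ring
  rw [this, Real.sqrt_sq (by positivity)]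

/-- the Fourier integral -/
noncomputable def FL2_g (f : ℝ → ℝ) (t : ℝ) : ℂ := ∫ u : ℝ, (f u : ℂ) * Complex.exp (-(I * t * u))

theorem FL2_exp_norm (t u : ℝ) : ‖Complex.exp (-(I * t * u))‖ = 1 := by
  have : -(I * (t : ℂ) * u) = ((-(t * u) : ℝ) : ℂ) * I := by
    push_cast
    ring
  rw [this, Complex.norm_exp_ofReal_mul_I]

theorem FL2_exp_norm' (t u : ℝ) : ‖Complex.exp (I * t * u)‖ = 1 := by
  have : I * (t : ℂ) * u = ((t * u : ℝ) : ℂ) * I := by
    push_cast
    ring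
  rw [this, Complex.norm_exp_ofReal_mul_I]

theorem FL2_integrable {f : ℝ → ℝ} (hf : Integrable f) (t : ℝ) :
    Integrable fun u : ℝ => (f u : ℂ) * Complex.exp (-(I * t * u)) := by
  refine hf.norm.mono' ?_ ?_
  · refine hf.ofReal.aestronglyMeasurable.mul ?_
    exact Continuous.aestronglyMeasurable (by fun_prop)
  · refine Eventually.of_forall fun u => ?_
    rw [norm_mul, FL2_exp_norm, mul_one, Complex.norm_real]

theorem FL2_integrable' {f : ℝ → ℝ} (hf : Integrable f) (t : ℝ) :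
    Integrable fun u : ℝ => (f u : ℂ) * Complex.exp (I * t * u) := by
  refine hf.norm.mono' ?_ ?_
  · refine hf.ofReal.aestronglyMeasurable.mul ?_
    exact Continuous.aestronglyMeasurable (by fun_prop)
  · refine Eventually.of_forall fun u => ?_
    rw [norm_mul, FL2_exp_norm', mul_one, Complex.norm_real]

theorem FL2_continuous {f : ℝ → ℝ} (hf : Integrable f) : Continuous (FL2_g f) := by
  refine continuous_of_dominated (bound := fun u => ‖f u‖) (fun t => ?_) (fun t => ?_) hf.norm ?_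
  · exact (FL2_integrable hf t).aestronglyMeasurable
  · refine Eventually.of_forall fun u => ?_
    rw [norm_mul, FL2_exp_norm, mul_one, Complex.norm_real]
  · refine Eventually.of_forall fun u => ?_
    fun_prop

theorem FL2_conj {f : ℝ → ℝ} (t : ℝ) :
    (starRingEnd ℂ) (FL2_g f t) = ∫ u : ℝ, (f u : ℂ) * Complex.exp (I * t * u) := by
  unfold FL2_g
  rw [← integral_conj]
  refine integral_congr_ae (Eventually.of_forall fun u => ?_)
  simp only [map_mul, Complex.conj_ofReal, ← Complex.exp_conj, map_neg, Complex.conj_I]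
  congr 2
  ring

theorem FL2_norm_sq {f : ℝ → ℝ} (t : ℝ) :
    ((‖FL2_g f t‖ ^ 2 : ℝ) : ℂ) = ∫ z : ℝ × ℝ, ((f z.1 : ℂ) * Complex.exp (-(I * t * z.1))) *
      ((f z.2 : ℂ) * Complex.exp (I * t * z.2)) := by
  have h := integral_prod_mul (μ := (volume : Measure ℝ)) (ν := (volume : Measure ℝ))
    (fun u : ℝ => (f u : ℂ) * Complex.exp (-(I * t * u)))
    (fun u : ℝ => (f u : ℂ) * Complex.exp (I * t * u))
  rw [Measure.volume_eq_prod, h, ← FL2_conj]
  have h2 : FL2_g f t * (starRingEnd ℂ) (FL2_g f t) = (‖FL2_g f t‖ : ℂ) ^ 2 := Complex.mul_conj' _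
  push_cast
  exact h2.symm

theorem FL2_weighted_eq {f : ℝ → ℝ} (hf : Integrable f) {ε : ℝ} (hε : 0 < ε) :
    ∫ t : ℝ, Real.exp (-ε * t ^ 2) * ‖FL2_g f t‖ ^ 2 =
      ∫ z : ℝ × ℝ, f z.1 * f z.2 * FL2_G ε (z.1 - z.2) := by
  have hA : Integrable fun t : ℝ => Real.exp (-ε * t ^ 2) := integrable_exp_neg_mul_sq hε
  have hff : Integrable (fun z : ℝ × ℝ => ‖f z.1‖ * ‖f z.2‖) (volume.prod volume) :=
    hf.norm.mul_prod hf.norm
  have hI : Integrable (Function.uncurry fun (t : ℝ) (z : ℝ × ℝ) =>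
      Complex.exp (-(ε : ℂ) * t ^ 2) * (((f z.1 : ℂ) * Complex.exp (-(I * t * z.1))) *
        ((f z.2 : ℂ) * Complex.exp (I * t * z.2)))) ((volume : Measure ℝ).prod
          ((volume : Measure ℝ).prod (volume : Measure ℝ))) := by
    refine (hA.mul_prod hff).mono' ?_ ?_
    · simp only [Function.uncurry_def]
      refine AEStronglyMeasurable.mul (Continuous.aestronglyMeasurable (by fun_prop)) ?_
      refine AEStronglyMeasurable.mul (AEStronglyMeasurable.mul ?_ ?_)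
        (AEStronglyMeasurable.mul ?_ ?_)
      · exact (hf.ofReal.aestronglyMeasurable.comp_fst).comp_snd
      · exact Continuous.aestronglyMeasurable (by fun_prop)
      · exact (hf.ofReal.aestronglyMeasurable.comp_snd).comp_snd
      · exact Continuous.aestronglyMeasurable (by fun_prop)
    · refine Eventually.of_forall fun x => ?_
      simp only [Function.uncurry_def]
      rw [norm_mul, norm_mul, norm_mul, norm_mul, FL2_exp_norm, FL2_exp_norm', mul_one, mul_one,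
        Complex.norm_real, Complex.norm_real, Complex.norm_exp]
      have : (-(ε : ℂ) * (x.1 : ℂ) ^ 2).re = -ε * x.1 ^ 2 := by
        have : (-(ε : ℂ) * (x.1 : ℂ) ^ 2) = ((-ε * x.1 ^ 2 : ℝ) : ℂ) := by push_cast; ring
        rw [this, Complex.ofReal_re]
      rw [this]
  have hC : ((∫ t : ℝ, Real.exp (-ε * t ^ 2) * ‖FL2_g f t‖ ^ 2 : ℝ) : ℂ) =
      ((∫ z : ℝ × ℝ, f z.1 * f z.2 * FL2_G ε (z.1 - z.2) : ℝ) : ℂ) := by
    rw [← integral_complex_ofReal, ← integral_complex_ofReal]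
    have h1 : ∀ t : ℝ, ((Real.exp (-ε * t ^ 2) * ‖FL2_g f t‖ ^ 2 : ℝ) : ℂ) =
        ∫ z : ℝ × ℝ, Complex.exp (-(ε : ℂ) * t ^ 2) *
          (((f z.1 : ℂ) * Complex.exp (-(I * t * z.1))) *
            ((f z.2 : ℂ) * Complex.exp (I * t * z.2))) := by
      intro t
      rw [integral_const_mul, ← FL2_norm_sq]
      push_cast
      rfl
    simp_rw [h1]
    rw [Measure.volume_eq_prod, integral_integral_swap hI]
    refine integral_congr_ae (Eventually.of_forall fun z => ?_)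
    simp only
    have h2 : ∀ t : ℝ, Complex.exp (-(ε : ℂ) * t ^ 2) *
          (((f z.1 : ℂ) * Complex.exp (-(I * t * z.1))) *
            ((f z.2 : ℂ) * Complex.exp (I * t * z.2))) =
        ((f z.1 : ℂ) * (f z.2 : ℂ)) * (Complex.exp (-(ε : ℂ) * t ^ 2) *
          Complex.exp (-(I * t * ((z.1 - z.2 : ℝ) : ℂ)))) := by
      intro t
      have h3 : Complex.exp (-(I * t * ((z.1 - z.2 : ℝ) : ℂ))) =
          Complex.exp (-(I * t * z.1)) * Complex.exp (I * t * z.2) := by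
        rw [← Complex.exp_add]
        congr 1
        push_cast
        ring
      rw [h3]
      ring
    simp_rw [h2]
    rw [integral_const_mul, FL2_G_eq hε]
    push_cast
    ring
  exact Complex.ofReal_injective hC

theorem FL2_quad_le {f : ℝ → ℝ} (hf : Integrable f) (hf2 : Integrable fun u => f u ^ 2)
    {ε : ℝ} (hε : 0 < ε) :
    ∫ z : ℝ × ℝ, f z.1 * f z.2 * FL2_G ε (z.1 - z.2) ≤ 2 * Real.pi * ∫ u : ℝ, f u ^ 2 := by
  have hG := FL2_G_integrable hε
  have h2 : Integrable (fun z : ℝ × ℝ => f z.2 ^ 2 * FL2_G ε (z.1 - z.2))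
      ((volume : Measure ℝ).prod volume) := by
    have := hf2.convolution_integrand (ContinuousLinearMap.mul ℝ ℝ) hG
    simpa using this
  have h1 : Integrable (fun z : ℝ × ℝ => f z.1 ^ 2 * FL2_G ε (z.1 - z.2))
      ((volume : Measure ℝ).prod volume) := by
    have := h2.swap
    refine this.congr (Eventually.of_forall fun z => ?_)
    simp only [Function.comp_apply, Prod.fst_swap, Prod.snd_swap]
    rw [← FL2_G_neg ε (z.2 - z.1), neg_sub]
  have e2 : ∫ z : ℝ × ℝ, f z.2 ^ 2 * FL2_G ε (z.1 - z.2) = 2 * Real.pi * ∫ u : ℝ, f u ^ 2 := by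
    rw [Measure.volume_eq_prod, integral_prod_symm _ h2]
    simp only
    have : ∀ y : ℝ, ∫ x : ℝ, f y ^ 2 * FL2_G ε (x - y) = f y ^ 2 * (2 * Real.pi) := by
      intro y
      rw [integral_const_mul, integral_sub_right_eq_self (FL2_G ε), FL2_G_integral hε]
    simp_rw [this]
    rw [integral_mul_const, mul_comm]
  have e1 : ∫ z : ℝ × ℝ, f z.1 ^ 2 * FL2_G ε (z.1 - z.2) = 2 * Real.pi * ∫ u : ℝ, f u ^ 2 := by
    rw [Measure.volume_eq_prod, integral_prod _ h1]
    simp only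
    have : ∀ x : ℝ, ∫ y : ℝ, f x ^ 2 * FL2_G ε (x - y) = f x ^ 2 * (2 * Real.pi) := by
      intro x
      rw [integral_const_mul, integral_sub_left_eq_self (FL2_G ε), FL2_G_integral hε]
    simp_rw [this]
    rw [integral_mul_const, mul_comm]
  have hle : ∀ z : ℝ × ℝ, |f z.1 * f z.2 * FL2_G ε (z.1 - z.2)| ≤
      (f z.1 ^ 2 * FL2_G ε (z.1 - z.2) + f z.2 ^ 2 * FL2_G ε (z.1 - z.2)) / 2 := by
    intro z
    rw [abs_mul, abs_of_nonneg (FL2_G_nonneg ε (z.1 - z.2))]
    have h3 : |f z.1 * f z.2| ≤ (f z.1 ^ 2 + f z.2 ^ 2) / 2 := by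
      rw [abs_le]
      constructor <;> nlinarith [sq_nonneg (f z.1 + f z.2), sq_nonneg (f z.1 - f z.2)]
    have h4 := mul_le_mul_of_nonneg_right h3 (FL2_G_nonneg ε (z.1 - z.2))
    linarith
  have hmeas : AEStronglyMeasurable (fun z : ℝ × ℝ => f z.1 * f z.2 * FL2_G ε (z.1 - z.2))
      ((volume : Measure ℝ).prod volume) := by
    refine (hf.aestronglyMeasurable.comp_fst.mul hf.aestronglyMeasurable.comp_snd).mul ?_
    refine Continuous.aestronglyMeasurable ?_
    unfold FL2_G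
    fun_prop
  have hint : Integrable (fun z : ℝ × ℝ => f z.1 * f z.2 * FL2_G ε (z.1 - z.2))
      ((volume : Measure ℝ).prod volume) :=
    ((h1.add h2).div_const 2).mono' hmeas (Eventually.of_forall fun z => hle z)
  have h5 : ∫ z : ℝ × ℝ, f z.1 * f z.2 * FL2_G ε (z.1 - z.2) ≤
      ∫ z : ℝ × ℝ, (f z.1 ^ 2 * FL2_G ε (z.1 - z.2) + f z.2 ^ 2 * FL2_G ε (z.1 - z.2)) / 2 := by
    rw [Measure.volume_eq_prod]
    exact integral_mono hint ((h1.add h2).div_const 2) fun z => le_trans (le_abs_self _) (hle z)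
  have h6 : ∫ z : ℝ × ℝ, (f z.1 ^ 2 * FL2_G ε (z.1 - z.2) + f z.2 ^ 2 * FL2_G ε (z.1 - z.2)) / 2 =
      2 * Real.pi * ∫ u : ℝ, f u ^ 2 := by
    rw [integral_div]
    have h7 : ∫ z : ℝ × ℝ, (f z.1 ^ 2 * FL2_G ε (z.1 - z.2) + f z.2 ^ 2 * FL2_G ε (z.1 - z.2)) =
        (∫ z : ℝ × ℝ, f z.1 ^ 2 * FL2_G ε (z.1 - z.2)) +
          ∫ z : ℝ × ℝ, f z.2 ^ 2 * FL2_G ε (z.1 - z.2) := by
      rw [Measure.volume_eq_prod]
      exact integral_add h1 h2
    rw [h7, e1, e2]
    ring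
  linarith

theorem FL2_interval {f : ℝ → ℝ} (hf : Integrable f) (hf2 : Integrable fun u => f u ^ 2)
    {T : ℝ} (hT : 0 ≤ T) :
    ∫ t in (-T)..T, ‖FL2_g f t‖ ^ 2 ≤ 2 * Real.pi * ∫ u : ℝ, f u ^ 2 := by
  set A : ℝ := 2 * Real.pi * ∫ u : ℝ, f u ^ 2 with hA
  have hcont := FL2_continuous hf
  have hgle : ∀ t : ℝ, ‖FL2_g f t‖ ≤ ∫ u : ℝ, ‖f u‖ := by
    intro t
    unfold FL2_g
    refine le_trans (norm_integral_le_integral_norm _) (le_of_eq ?_)
    refine integral_congr_ae (Eventually.of_forall fun u => ?_)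
    simp only
    rw [norm_mul, FL2_exp_norm, mul_one, Complex.norm_real]
  have key : ∀ ε : ℝ, 0 < ε → ∫ t in (-T)..T, ‖FL2_g f t‖ ^ 2 ≤ A * Real.exp (ε * T ^ 2) := by
    intro ε hε
    have hTT : -T ≤ T := by linarith
    have hw : Integrable fun t : ℝ => Real.exp (-ε * t ^ 2) * ‖FL2_g f t‖ ^ 2 := by
      refine ((integrable_exp_neg_mul_sq hε).mul_const ((∫ u : ℝ, ‖f u‖) ^ 2)).mono'
        (Continuous.aestronglyMeasurable (by fun_prop)) (Eventually.of_forall fun t => ?_)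
      rw [Real.norm_of_nonneg (by positivity)]
      gcongr
      exact hgle t
    have h1 : ∫ t in (-T)..T, Real.exp (-ε * t ^ 2) * ‖FL2_g f t‖ ^ 2 ≤ A := by
      rw [intervalIntegral.integral_of_le hTT]
      refine le_trans (setIntegral_le_integral hw (Eventually.of_forall fun t => by positivity)) ?_
      rw [FL2_weighted_eq hf hε]
      exact FL2_quad_le hf hf2 hε
    have h2 : ∫ t in (-T)..T, Real.exp (-ε * T ^ 2) * ‖FL2_g f t‖ ^ 2 ≤
        ∫ t in (-T)..T, Real.exp (-ε * t ^ 2) * ‖FL2_g f t‖ ^ 2 := by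
      refine intervalIntegral.integral_mono_on hTT
        (Continuous.intervalIntegrable (by fun_prop) _ _)
        (Continuous.intervalIntegrable (by fun_prop) _ _) fun t ht => ?_
      have h3 : t ^ 2 ≤ T ^ 2 := by
        have := abs_le.2 ⟨ht.1, ht.2⟩
        exact sq_le_sq' ht.1 ht.2
      have h4 : Real.exp (-ε * T ^ 2) ≤ Real.exp (-ε * t ^ 2) := by
        apply Real.exp_le_exp.2
        nlinarith
      exact mul_le_mul_of_nonneg_right h4 (by positivity)
    rw [intervalIntegral.integral_const_mul] at h2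
    have h5 := le_trans h2 h1
    have h6 : Real.exp (ε * T ^ 2) * Real.exp (-ε * T ^ 2) = 1 := by
      rw [← Real.exp_add]
      simp
    calc ∫ t in (-T)..T, ‖FL2_g f t‖ ^ 2
        = Real.exp (ε * T ^ 2) * (Real.exp (-ε * T ^ 2) * ∫ t in (-T)..T, ‖FL2_g f t‖ ^ 2) := by
          rw [← mul_assoc, h6, one_mul]
      _ ≤ Real.exp (ε * T ^ 2) * A := mul_le_mul_of_nonneg_left h5 (Real.exp_pos _).le
      _ = A * Real.exp (ε * T ^ 2) := mul_comm _ _
  have hlim : Tendsto (fun ε : ℝ => A * Real.exp (ε * T ^ 2)) (𝓝[>] 0) (𝓝 A) := by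
    have hc : Continuous fun ε : ℝ => A * Real.exp (ε * T ^ 2) := by fun_prop
    have := (hc.tendsto 0).mono_left (nhdsWithin_le_nhds (s := Ioi 0))
    simpa using this
  refine ge_of_tendsto hlim ?_
  filter_upwards [self_mem_nhdsWithin] with ε hε
  exact key ε hε

theorem FL2_main {f : ℝ → ℝ} (hf : Integrable f) (hf2 : Integrable fun u => f u ^ 2) :
    Integrable (fun t : ℝ => ‖FL2_g f t‖ ^ 2) ∧
      ∫ t : ℝ, ‖FL2_g f t‖ ^ 2 ≤ 2 * Real.pi * ∫ u : ℝ, f u ^ 2 := by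
  have hcont := FL2_continuous hf
  have ha : Tendsto (fun n : ℕ => -(n : ℝ)) atTop atBot :=
    tendsto_neg_atTop_atBot.comp tendsto_natCast_atTop_atTop
  have hb : Tendsto (fun n : ℕ => (n : ℝ)) atTop atTop := tendsto_natCast_atTop_atTop
  have hI : Integrable (fun t : ℝ => ‖FL2_g f t‖ ^ 2) := by
    refine integrable_of_intervalIntegral_norm_bounded (2 * Real.pi * ∫ u : ℝ, f u ^ 2)
      (fun n => ?_) ha hb ?_
    · exact (Continuous.integrableOn_Ioc (by fun_prop))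
    · refine Eventually.of_forall fun n => ?_
      have := FL2_interval hf hf2 (T := (n : ℝ)) (Nat.cast_nonneg n)
      simpa only [norm_pow, norm_norm] using this
  refine ⟨hI, ?_⟩
  refine le_of_tendsto (intervalIntegral_tendsto_integral hI ha hb) ?_
  exact Eventually.of_forall fun n => FL2_interval hf hf2 (T := (n : ℝ)) (Nat.cast_nonneg n)

/-- the function on the exponential scale -/
noncomputable def FL2_f (σ u : ℝ) : ℝ :=
  (Ioi (0 : ℝ)).indicator (fun u => Mz (Real.exp u) * Real.exp (-(1 / 2 + σ) * u)) u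

theorem FL2_image : Real.exp '' Ioi (0 : ℝ) = Ioi (1 : ℝ) := by
  ext x
  simp only [mem_image, mem_Ioi]
  constructor
  · rintro ⟨u, hu, rfl⟩
    exact Real.one_lt_exp_iff.2 hu
  · intro hx
    exact ⟨Real.log x, Real.log_pos hx, Real.exp_log (by linarith)⟩

theorem FL2_cov_int (g : ℝ → ℂ) :
    ∫ x in Ioi (1 : ℝ), g x = ∫ u in Ioi (0 : ℝ), (Real.exp u : ℂ) * g (Real.exp u) := by
  rw [← FL2_image, integral_image_eq_integral_abs_deriv_smul measurableSet_Ioi
    (fun x _ => (Real.hasDerivAt_exp x).hasDerivWithinAt) Real.exp_injective.injOn]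
  refine setIntegral_congr_fun measurableSet_Ioi fun u _ => ?_
  simp only [abs_of_pos (Real.exp_pos u), Complex.real_smul]

theorem FL2_cov_real (g : ℝ → ℝ) :
    (IntegrableOn g (Ioi 1) ↔ IntegrableOn (fun u => Real.exp u * g (Real.exp u)) (Ioi 0)) ∧
    ∫ x in Ioi (1 : ℝ), g x = ∫ u in Ioi (0 : ℝ), Real.exp u * g (Real.exp u) := by
  constructor
  · rw [← FL2_image, integrableOn_image_iff_integrableOn_abs_deriv_smul measurableSet_Ioi
      (fun x _ => (Real.hasDerivAt_exp x).hasDerivWithinAt) Real.exp_injective.injOn]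
    refine integrableOn_congr_fun (fun u _ => ?_) measurableSet_Ioi
    simp only [abs_of_pos (Real.exp_pos u), smul_eq_mul]
  · rw [← FL2_image, integral_image_eq_integral_abs_deriv_smul measurableSet_Ioi
      (fun x _ => (Real.hasDerivAt_exp x).hasDerivWithinAt) Real.exp_injective.injOn]
    refine setIntegral_congr_fun measurableSet_Ioi fun u _ => ?_
    simp only [abs_of_pos (Real.exp_pos u), smul_eq_mul]

theorem F_L2 (C : ℝ) (hC : 1 ≤ C) (h : SBound C) : ∃ C₂ : ℝ, 0 < C₂ ∧ ∀ σ : ℝ, 0 < σ → σ ≤ 3 →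
    Integrable (fun t : ℝ => ‖F (1 / 2 + σ + t * I)‖ ^ 2) ∧
      ∫ t : ℝ, ‖F (1 / 2 + σ + t * I)‖ ^ 2 ≤ C₂ / σ := by
  obtain ⟨C₁, hC₁, hsq⟩ := tail_sq C hC h
  obtain ⟨C₃, hC₃, habs⟩ := tail_abs C hC h
  refine ⟨2 * Real.pi * C₁, by positivity, fun σ hσ hσ3 => ?_⟩
  obtain ⟨hs1, hs2⟩ := hsq σ hσ hσ3
  obtain ⟨ha1, _⟩ := habs σ hσ hσ3
  have hexp : ∀ (u c : ℝ), (Real.exp u) ^ c = Real.exp (c * u) := by
    intro u c
    rw [← Real.exp_mul, mul_comm]
  -- integrability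
  have hmeas : Measurable fun u : ℝ => Mz (Real.exp u) * Real.exp (-(1 / 2 + σ) * u) :=
    (Mz_measurable.comp Real.measurable_exp).mul (by fun_prop)
  have hf : Integrable (FL2_f σ) := by
    unfold FL2_f
    rw [integrable_indicator_iff measurableSet_Ioi]
    have h1 := (FL2_cov_real _).1.1 ha1
    refine Integrable.mono' h1 hmeas.aestronglyMeasurable (Eventually.of_forall fun u => ?_)
    rw [hexp, norm_mul, Real.norm_eq_abs, Real.norm_of_nonneg (Real.exp_pos _).le, mul_left_comm,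
      ← Real.exp_add]
    refine le_of_eq ?_
    congr 2
    ring
  have hsqeq : ∀ u : ℝ, (FL2_f σ u) ^ 2 = (Ioi (0 : ℝ)).indicator
      (fun u => Real.exp u * ((Mz (Real.exp u)) ^ 2 * (Real.exp u) ^ (-2 - 2 * σ))) u := by
    intro u
    unfold FL2_f
    by_cases hu : u ∈ Ioi (0 : ℝ)
    · rw [indicator_of_mem hu, indicator_of_mem hu, hexp, mul_left_comm, ← Real.exp_add, mul_pow,
        ← Real.exp_nat_mul]
      congr 2
      push_cast
      ring
    · rw [indicator_of_notMem hu, indicator_of_notMem hu]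
      ring
  have hf2 : Integrable fun u => FL2_f σ u ^ 2 := by
    simp_rw [hsqeq]
    rw [integrable_indicator_iff measurableSet_Ioi]
    exact (FL2_cov_real _).1.1 hs1
  have hint : ∫ u : ℝ, FL2_f σ u ^ 2 ≤ C₁ / σ := by
    simp_rw [hsqeq]
    rw [integral_indicator measurableSet_Ioi]
    rw [(FL2_cov_real (fun x : ℝ => (Mz x) ^ 2 * x ^ (-2 - 2 * σ))).2] at hs2
    exact hs2
  have hFg : ∀ t : ℝ, F (1 / 2 + σ + t * I) = FL2_g (FL2_f σ) t := by
    intro t
    unfold F FL2_g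
    rw [FL2_cov_int, ← integral_indicator measurableSet_Ioi]
    refine integral_congr_ae (Eventually.of_forall fun u => ?_)
    unfold FL2_f
    by_cases hu : u ∈ Ioi (0 : ℝ)
    · simp only [indicator_of_mem hu]
      have h1 : ((Real.exp u : ℝ) : ℂ) ^ (-(1 / 2 + (σ : ℂ) + t * I) - 1) =
          Complex.exp (u * (-(1 / 2 + (σ : ℂ) + t * I) - 1)) := by
        rw [Complex.cpow_def_of_ne_zero (by exact_mod_cast (Real.exp_pos u).ne'),
          ← Complex.ofReal_log (Real.exp_pos u).le, Real.log_exp]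
      rw [h1]
      push_cast
      have h2 : Complex.exp u * ((Mz (Real.exp u) : ℂ) *
          Complex.exp (u * (-(1 / 2 + (σ : ℂ) + t * I) - 1))) =
          (Mz (Real.exp u) : ℂ) * (Complex.exp u *
            Complex.exp (u * (-(1 / 2 + (σ : ℂ) + t * I) - 1))) := by ring
      rw [h2, ← Complex.exp_add, mul_assoc, ← Complex.exp_add]
      congr 2
      ring
    · simp only [indicator_of_notMem hu]
      simp
  obtain ⟨hm1, hm2⟩ := FL2_main hf hf2
  simp_rw [hFg]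
  refine ⟨hm1, le_trans hm2 ?_⟩
  have := mul_le_mul_of_nonneg_left hint (show 0 ≤ 2 * Real.pi by positivity)
  calc 2 * Real.pi * ∫ u : ℝ, FL2_f σ u ^ 2 ≤ 2 * Real.pi * (C₁ / σ) := this
    _ = 2 * Real.pi * C₁ / σ := by ring

end Pool.Agent.H56.GX
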