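import Pool.Agent.H56.GX.FId
import Pool.Agent.H56.GX.FL2
import Pool.Agent.H56.GX.ZRefl

/-!
GX module Good: good heights.

Put `g(t) = ∫_{-1/2}^{2} ‖((σ+it) ζ(σ+it))⁻¹‖ dσ` (work with `lintegral`/`ℝ≥0∞`). For `N ≥ 1`:
`∫_N^{N+1} g(t) dt` is, by Tonelli, `∫_{-1/2}^2 ∫_N^{N+1} ‖...‖ dt dσ`.
* `1/2 < σ ≤ 2`: the integrand is `‖F(σ+it)‖` (`F_inv`), and Cauchy-Schwarz on an interval of length 1 with
  `F_L2` gives `≤ (C₂/(σ-1/2))^{1/2}`.
* `-1/2 ≤ σ < 1/2`, `s = σ+it`: `‖(s ζ(s))⁻¹‖ ≤ exp(C t) ‖s‖⁻¹ ‖ζ(1-s)⁻¹‖` (`zeta_refl`), and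
  `ζ(1-s)⁻¹ = (1-s) F(1-s)` (`F_inv`, `1/2 < Re (1-s) ≤ 3/2`), `‖1-s‖ ≤ 2‖s‖` (`‖s‖ ≥ 1`); so
  `≤ 2 exp(C(N+1)) ‖F(1-s)‖` and the `t`-integral is `≤ 2 exp(C(N+1)) (C₂/(1/2-σ))^{1/2}`
  (substitute `t → -t`).
* `∫_{1/2}^2 (σ-1/2)^{-1/2} dσ < ∞` and the same on the left. Total `≤ exp(C' (N+1))`.
So the set of `t ∈ [N,N+1]` with `g(t) ≤ 4 exp(C'(N+1))` has measure `≥ 3/4` (Markov). The set of
`t ∈ [N,N+1]` such that `ζ` has a zero `σ+it` with `-1/2 ≤ σ ≤ 2` is finite
(`IsCompact.inter_riemannZetaZeros_finite`, Mathlib/NumberTheory/LSeries/ZetaZeros.lean), so null. Choose `T`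
in the first set and outside the second. Statements for the line `Im s = -T` follow from
`riemannZeta_conj` (`ζ(conj s) = conj ζ(s)`, Mathlib/NumberTheory/Harmonic/ZetaAsymp.lean).
Convert from `lintegral` to the interval integral at the end (the function is continuous in `σ` for the chosen `T`).
-/

set_option autoImplicit false

namespace Pool.Agent.H56.GX

open MeasureTheory Set Complex Filter Topology
open scoped ENNReal

/-- the integrand -/
noncomputable def Good_G (σ t : ℝ) : ℝ := ‖((σ + t * I) * riemannZeta (σ + t * I))⁻¹‖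

theorem Good_G_nonneg (σ t : ℝ) : 0 ≤ Good_G σ t := norm_nonneg _

theorem Good_measurable_zeta : Measurable riemannZeta := by
  apply measurable_of_continuousOn_compl_singleton 1
  intro s hs
  exact (differentiableAt_riemannZeta hs).continuousAt.continuousWithinAt

theorem Good_measurable_G : Measurable (Function.uncurry Good_G) := by
  unfold Good_G Function.uncurry
  have h1 : Measurable (fun a : ℝ × ℝ => ((a.1 : ℂ) + a.2 * I)) := by fun_prop
  exact ((h1.mul (Good_measurable_zeta.comp h1)).inv).norm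

theorem Good_weight_integrable :
    IntegrableOn (fun σ : ℝ => |σ - 1 / 2| ^ (-(1 / 2) : ℝ)) (Icc (-(1 / 2)) 2) := by
  have hr : (-1 : ℝ) < -(1 / 2) := by norm_num
  have h1 : IntervalIntegrable (fun σ : ℝ => |σ - 1 / 2| ^ (-(1 / 2) : ℝ)) volume (1 / 2) 2 := by
    have h := (intervalIntegral.intervalIntegrable_rpow' hr (a := 0) (b := 3 / 2)).comp_sub_right (1 / 2)
    norm_num at h
    refine h.congr ?_
    rw [uIoc_of_le (by norm_num)]
    intro x hx
    have : 0 < x - 1 / 2 := by linarith [hx.1]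
    simp only [abs_of_pos this]
  have h2 : IntervalIntegrable (fun σ : ℝ => |σ - 1 / 2| ^ (-(1 / 2) : ℝ)) volume (-(1 / 2)) (1 / 2) := by
    have h := (intervalIntegral.intervalIntegrable_rpow' hr (a := 1) (b := 0)).comp_sub_left (1 / 2)
    norm_num at h
    refine h.congr ?_
    rw [uIoc_of_le (by norm_num)]
    intro x hx
    have : x - 1 / 2 ≤ 0 := by linarith [hx.2]
    simp only [abs_of_nonpos this]
    norm_num
  have h3 := h2.trans h1
  rw [intervalIntegrable_iff_integrableOn_Icc_of_le (by norm_num)] at h3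
  exact h3

theorem Good_amgm (x a : ℝ) (ha : 0 < a) : 2 * x ≤ a * x ^ 2 + 1 / a := by
  have h : 0 ≤ (a * x - 1) ^ 2 / a := by positivity
  have e : (a * x - 1) ^ 2 / a = a * x ^ 2 + 1 / a - 2 * x := by
    field_simp
    ring
  linarith

/-- the bound on a horizontal segment, for fixed `σ`. -/
theorem Good_fixed (C : ℝ) (hC : 1 ≤ C) (h : SBound C) : ∃ C₅ : ℝ, 0 < C₅ ∧
    ∀ N : ℕ, 1 ≤ N → ∀ σ : ℝ, σ ∈ Icc (-(1 / 2) : ℝ) 2 → σ ≠ 1 / 2 →
      ∫⁻ t in Icc (N : ℝ) (N + 1), ENNReal.ofReal (Good_G σ t)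
        ≤ ENNReal.ofReal (C₅ * Real.exp (C₅ * (N + 1)) * |σ - 1 / 2| ^ (-(1 / 2) : ℝ)) := by
  obtain ⟨C2, hC2, hL2⟩ := F_L2 C hC h
  obtain ⟨C3, hC3, hzr⟩ := zeta_refl
  refine ⟨max C3 (C2 + 1), by positivity, ?_⟩
  intro N hN σ hσ hσ'
  have hN' : (1 : ℝ) ≤ N := by exact_mod_cast hN
  set d : ℝ := |σ - 1 / 2| with hd
  have hd0 : 0 < d := abs_pos.2 (sub_ne_zero.2 hσ')
  have hd3 : d ≤ 3 := by
    rw [hd, abs_le]
    constructor <;> linarith [hσ.1, hσ.2]
  set E : ℝ := Real.exp (C3 * (N + 1)) with hE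
  have hE1 : 1 ≤ E := Real.one_le_exp (by positivity)
  set a : ℝ := d ^ (1 / 2 : ℝ) with ha
  have ha0 : 0 < a := Real.rpow_pos_of_pos hd0 _
  have haa : a * a = d := by
    rw [ha, ← Real.rpow_add hd0]
    norm_num
  have hinv : 1 / a = d ^ (-(1 / 2) : ℝ) := by
    rw [ha, Real.rpow_neg hd0.le, one_div]
  -- a function of `t` with the right bound
  obtain ⟨f, hf_int, hf_le, hGf⟩ : ∃ f : ℝ → ℝ, Integrable f ∧ (∫ t, f t ≤ C2 / d) ∧
      (∀ t, 0 ≤ f t) ∧ ∀ t ∈ Icc (N : ℝ) (N + 1), Good_G σ t ≤ E * (a * f t + 1 / a) := by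
    rcases lt_or_gt_of_ne hσ' with hlt | hgt
    · have hdd : d = 1 / 2 - σ := by rw [hd, abs_of_neg (by linarith)]; ring
      obtain ⟨hi, hb⟩ := hL2 d hd0 hd3
      refine ⟨fun t => ‖F (1 / 2 + d + (-t : ℝ) * I)‖ ^ 2, hi.comp_neg, ?_, fun t => by positivity, ?_⟩
      · rw [integral_neg_eq_self (fun t : ℝ => ‖F (1 / 2 + d + t * I)‖ ^ 2)]
        exact hb
      · intro t ht
        have ht1 : 1 ≤ t := by linarith [ht.1]
        have him : ((σ : ℂ) + t * I).im = t := by simp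
        have hre : ((σ : ℂ) + t * I).re = σ := by simp
        have h1 := hzr (σ + t * I) (by rw [hre]; exact hσ.1) (by rw [hre]; exact hlt.le)
          (by rw [him, abs_of_pos (by linarith)]; exact ht1)
        rw [him, abs_of_pos (by linarith : (0:ℝ) < t)] at h1
        have hw : (1 : ℂ) - (σ + t * I) = 1 / 2 + d + (-t : ℝ) * I := by
          rw [hdd]; push_cast; ring
        have hwre : ((1 : ℂ) - (σ + t * I)).re = 1 - σ := by simp
        have hwim : ((1 : ℂ) - (σ + t * I)).im = -t := by simp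
        have hw1 : (1 : ℂ) - (σ + t * I) ≠ 1 := by
          intro hc
          have := congrArg Complex.im hc
          rw [hwim] at this
          simp at this
          linarith
        have h2 := F_inv C hC h (1 - (σ + t * I)) (by rw [hwre]; linarith) hw1
        have hsn : 1 ≤ ‖(σ : ℂ) + t * I‖ := by
          have := Complex.abs_im_le_norm ((σ : ℂ) + t * I)
          rw [him, abs_of_pos (by linarith : (0:ℝ) < t)] at this
          linarith
        have hw0 : (1 : ℂ) - (σ + t * I) ≠ 0 := by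
          intro hc
          have := congrArg Complex.im hc
          rw [hwim] at this
          simp at this
          linarith
        have h3 : (riemannZeta (1 - (σ + t * I)))⁻¹ = (1 - (σ + t * I)) * F (1 - (σ + t * I)) := by
          rw [h2.2, mul_inv, ← mul_assoc, mul_inv_cancel₀ hw0, one_mul]
        have h4 : ‖(1 : ℂ) - (σ + t * I)‖ ≤ 2 * ‖(σ : ℂ) + t * I‖ := by
          calc ‖(1 : ℂ) - (σ + t * I)‖ ≤ ‖(1 : ℂ)‖ + ‖(σ : ℂ) + t * I‖ := norm_sub_le _ _
            _ ≤ _ := by rw [norm_one]; linarith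
        have h5 : Real.exp (C3 * t) ≤ E := Real.exp_le_exp.2 (by nlinarith [ht.2])
        have h6 := Good_amgm ‖F (1 / 2 + d + (-t : ℝ) * I)‖ a ha0
        unfold Good_G
        rw [mul_inv, norm_mul, norm_inv]
        calc ‖(σ : ℂ) + t * I‖⁻¹ * ‖(riemannZeta (σ + t * I))⁻¹‖
            ≤ ‖(σ : ℂ) + t * I‖⁻¹ * (Real.exp (C3 * t) * ‖(riemannZeta (1 - (σ + t * I)))⁻¹‖) := by
              gcongr
          _ = ‖(σ : ℂ) + t * I‖⁻¹ * (Real.exp (C3 * t) * (‖(1 : ℂ) - (σ + t * I)‖ *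
                ‖F (1 - (σ + t * I))‖)) := by rw [h3, norm_mul]
          _ ≤ ‖(σ : ℂ) + t * I‖⁻¹ * (E * ((2 * ‖(σ : ℂ) + t * I‖) *
                ‖F (1 - (σ + t * I))‖)) := by gcongr
          _ = E * (2 * ‖F (1 - (σ + t * I))‖) := by
              field_simp
          _ ≤ _ := by
              rw [hw]
              gcongr
    · have hdd : d = σ - 1 / 2 := by rw [hd, abs_of_pos (by linarith)]
      obtain ⟨hi, hb⟩ := hL2 d hd0 hd3
      refine ⟨fun t => ‖F (1 / 2 + d + t * I)‖ ^ 2, hi, hb, fun t => by positivity, ?_⟩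
      intro t ht
      have ht1 : 1 ≤ t := by linarith [ht.1]
      have hw : (σ : ℂ) + t * I = 1 / 2 + d + t * I := by
        rw [hdd]; push_cast; ring
      have hre : ((σ : ℂ) + t * I).re = σ := by simp
      have him : ((σ : ℂ) + t * I).im = t := by simp
      have h2 := F_inv C hC h (σ + t * I) (by rw [hre]; linarith) (by
        intro hc
        have := congrArg Complex.im hc
        rw [him] at this
        simp at this
        linarith)
      have h6 := Good_amgm ‖F (1 / 2 + d + t * I)‖ a ha0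
      unfold Good_G
      rw [← h2.2, hw]
      have h7 : 0 ≤ a * ‖F (1 / 2 + d + t * I)‖ ^ 2 + 1 / a := by positivity
      have h8 : 0 ≤ ‖F (1 / 2 + d + t * I)‖ := norm_nonneg _
      nlinarith
  obtain ⟨hf0, hGf⟩ := hGf
  have hint : IntegrableOn (fun t => E * (a * f t + 1 / a)) (Icc (N : ℝ) (N + 1)) := by
    apply Integrable.const_mul
    apply Integrable.add
    · exact (hf_int.const_mul a).integrableOn
    · simp
  calc ∫⁻ t in Icc (N : ℝ) (N + 1), ENNReal.ofReal (Good_G σ t)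
      ≤ ∫⁻ t in Icc (N : ℝ) (N + 1), ENNReal.ofReal (E * (a * f t + 1 / a)) := by
        apply setLIntegral_mono' measurableSet_Icc
        intro t ht
        exact ENNReal.ofReal_le_ofReal (hGf t ht)
    _ = ENNReal.ofReal (∫ t in Icc (N : ℝ) (N + 1), E * (a * f t + 1 / a)) := by
        rw [ofReal_integral_eq_lintegral_ofReal hint]
        filter_upwards with t
        have := hf0 t
        positivity
    _ ≤ _ := by
        apply ENNReal.ofReal_le_ofReal
        have h1 : ∫ t in Icc (N : ℝ) (N + 1), E * (a * f t + 1 / a)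
            = E * (a * (∫ t in Icc (N : ℝ) (N + 1), f t) + 1 / a) := by
          rw [integral_const_mul, integral_add (hf_int.const_mul a).integrableOn (by simp),
            integral_const_mul]
          simp
        have h2 : ∫ t in Icc (N : ℝ) (N + 1), f t ≤ C2 / d :=
          (setIntegral_le_integral hf_int (Filter.Eventually.of_forall hf0)).trans hf_le
        have h3 : a * (C2 / d) = C2 * (1 / a) := by
          rw [← haa]; field_simp
        have h4 : 0 < 1 / a := by positivity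
        rw [h1, ← hinv]
        calc E * (a * (∫ t in Icc (N : ℝ) (N + 1), f t) + 1 / a)
            ≤ E * (a * (C2 / d) + 1 / a) := by gcongr
          _ = (C2 + 1) * E * (1 / a) := by rw [h3]; ring
          _ ≤ max C3 (C2 + 1) * Real.exp (max C3 (C2 + 1) * (N + 1)) * (1 / a) := by
              gcongr
              · exact le_max_right _ _
              · rw [hE]
                apply Real.exp_le_exp.2
                gcongr
                exact le_max_left _ _

theorem Good_conj_norm (σ t : ℝ) :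
    ‖(((σ : ℂ) - t * I) * riemannZeta (σ - t * I))⁻¹‖ = Good_G σ t := by
  have h1 : (σ : ℂ) - t * I = (starRingEnd ℂ) (σ + t * I) := by simp [sub_eq_add_neg]
  unfold Good_G
  rw [h1, riemannZeta_conj, ← map_mul, ← map_inv₀, RCLike.norm_conj]

theorem Good_measurable_slice (T : ℝ) : Measurable (fun σ : ℝ => Good_G σ T) := by
  unfold Good_G
  have h1 : Measurable (fun σ : ℝ => ((σ : ℂ) + T * I)) := by fun_prop
  exact ((h1.mul (Good_measurable_zeta.comp h1)).inv).norm

theorem good_heights (C : ℝ) (hC : 1 ≤ C) (h : SBound C) : ∃ C₄ : ℝ, 0 < C₄ ∧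
    ∀ N : ℕ, 1 ≤ N → ∃ T : ℝ, (N : ℝ) ≤ T ∧ T ≤ N + 1 ∧
      (∀ σ : ℝ, -(1 / 2) ≤ σ → σ ≤ 2 → riemannZeta (σ + T * I) ≠ 0 ∧ riemannZeta (σ - T * I) ≠ 0) ∧
      (∫ σ in (-(1 / 2) : ℝ)..2, ‖((σ + T * I) * riemannZeta (σ + T * I))⁻¹‖
        ≤ Real.exp (C₄ * (N + 1))) ∧
      (∫ σ in (-(1 / 2) : ℝ)..2, ‖((σ - T * I) * riemannZeta (σ - T * I))⁻¹‖
        ≤ Real.exp (C₄ * (N + 1))) := by
  obtain ⟨C5, hC5, hfix⟩ := Good_fixed C hC h
  set w : ℝ → ℝ := fun σ => |σ - 1 / 2| ^ (-(1 / 2) : ℝ) with hw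
  have hw0 : ∀ σ, 0 ≤ w σ := fun σ => Real.rpow_nonneg (abs_nonneg _) _
  set I0 : ℝ := ∫ σ in Icc (-(1 / 2) : ℝ) 2, w σ with hI0
  have hI0n : 0 ≤ I0 := integral_nonneg hw0
  refine ⟨C5 + C5 * I0, by positivity, ?_⟩
  intro N hN
  have hN' : (1 : ℝ) ≤ N := by exact_mod_cast hN
  -- Tonelli
  set g : ℝ → ℝ≥0∞ := fun t => ∫⁻ σ in Icc (-(1 / 2) : ℝ) 2, ENNReal.ofReal (Good_G σ t) with hg
  have hmeas : Measurable (Function.uncurry fun σ t : ℝ => ENNReal.ofReal (Good_G σ t)) :=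
    ENNReal.measurable_ofReal.comp Good_measurable_G
  have hm3 : Measurable (Function.uncurry fun t σ : ℝ => ENNReal.ofReal (Good_G σ t)) := by
    have := hmeas.comp (measurable_swap (α := ℝ) (β := ℝ))
    exact this
  have hgm : Measurable g := hm3.lintegral_prod_right'
  have htot : ∫⁻ t in Icc (N : ℝ) (N + 1), g t
      ≤ ENNReal.ofReal (C5 * Real.exp (C5 * (N + 1)) * I0) := by
    have hsw : ∫⁻ t in Icc (N : ℝ) (N + 1), g t =
        ∫⁻ σ in Icc (-(1 / 2) : ℝ) 2, ∫⁻ t in Icc (N : ℝ) (N + 1), ENNReal.ofReal (Good_G σ t) := by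
      exact lintegral_lintegral_swap hm3.aemeasurable
    rw [hsw]
    calc ∫⁻ σ in Icc (-(1 / 2) : ℝ) 2, ∫⁻ t in Icc (N : ℝ) (N + 1), ENNReal.ofReal (Good_G σ t)
        ≤ ∫⁻ σ in Icc (-(1 / 2) : ℝ) 2, ENNReal.ofReal (C5 * Real.exp (C5 * (N + 1)) * w σ) := by
          apply lintegral_mono_ae
          have hae : ∀ᵐ σ : ℝ ∂(volume.restrict (Icc (-(1 / 2) : ℝ) 2)), σ ≠ 1 / 2 := by
            apply ae_restrict_of_ae
            exact Measure.ae_ne volume (1 / 2)
          filter_upwards [ae_restrict_mem measurableSet_Icc, hae] with σ hσ hσ'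
          exact hfix N hN σ hσ hσ'
      _ = ENNReal.ofReal (∫ σ in Icc (-(1 / 2) : ℝ) 2, C5 * Real.exp (C5 * (N + 1)) * w σ) := by
          rw [ofReal_integral_eq_lintegral_ofReal (Good_weight_integrable.const_mul _)]
          filter_upwards with σ
          have := hw0 σ
          positivity
      _ = _ := by rw [integral_const_mul]
  -- the bad heights
  set S : Set ℂ := Icc (-(1 / 2) : ℝ) 2 ×ℂ Icc (N : ℝ) (N + 1) with hS
  have hScomp : IsCompact S := isCompact_Icc.reProdIm isCompact_Icc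
  have hfin := hScomp.inter_riemannZetaZeros_finite
  set Bad : Set ℝ := Complex.im '' (S ∩ riemannZetaZeros) ∪ (Icc (N : ℝ) (N + 1))ᶜ with hBad
  have hprob : IsProbabilityMeasure ((volume : Measure ℝ).restrict (Icc (N : ℝ) (N + 1))) := by
    constructor
    simp [Measure.restrict_apply]
  have hBad0 : (volume.restrict (Icc (N : ℝ) (N + 1))) Bad = 0 := by
    rw [hBad]
    apply measure_union_null
    · exact (hfin.image _).measure_zero _
    · rw [Measure.restrict_apply measurableSet_Icc.compl]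
      simp
  obtain ⟨T, hT1, hT2⟩ := exists_notMem_null_le_lintegral
    (μ := volume.restrict (Icc (N : ℝ) (N + 1))) hgm.aemeasurable hBad0
  have hTm : T ∈ Icc (N : ℝ) (N + 1) := by
    by_contra hc
    exact hT1 (Or.inr hc)
  have hTz : ∀ σ : ℝ, -(1 / 2) ≤ σ → σ ≤ 2 → riemannZeta (σ + T * I) ≠ 0 := by
    intro σ h1 h2 h3
    apply hT1
    left
    refine ⟨σ + T * I, ⟨?_, h3⟩, by simp⟩
    rw [hS, Complex.mem_reProdIm]
    have hre : ((σ : ℂ) + T * I).re = σ := by simp
    have him : ((σ : ℂ) + T * I).im = T := by simp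
    rw [hre, him]
    exact ⟨⟨h1, h2⟩, hTm⟩
  have hTz' : ∀ σ : ℝ, -(1 / 2) ≤ σ → σ ≤ 2 → riemannZeta (σ - T * I) ≠ 0 := by
    intro σ h1 h2
    have h3 : (σ : ℂ) - T * I = (starRingEnd ℂ) (σ + T * I) := by simp [sub_eq_add_neg]
    rw [h3, riemannZeta_conj]
    intro hc
    exact hTz σ h1 h2 ((map_eq_zero (starRingEnd ℂ)).1 hc)
  have hfinal : ∫ σ in (-(1 / 2) : ℝ)..2, Good_G σ T ≤ Real.exp ((C5 + C5 * I0) * (N + 1)) := by
    have hm2 : Measurable (fun σ : ℝ => Good_G σ T) := Good_measurable_slice T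
    rw [intervalIntegral.integral_of_le (by norm_num), ← integral_Icc_eq_integral_Ioc,
      integral_eq_lintegral_of_nonneg_ae (Filter.Eventually.of_forall fun σ => Good_G_nonneg σ T)
        hm2.aestronglyMeasurable]
    have h1 : g T ≤ ENNReal.ofReal (C5 * Real.exp (C5 * (N + 1)) * I0) := hT2.trans htot
    calc (∫⁻ σ in Icc (-(1 / 2) : ℝ) 2, ENNReal.ofReal (Good_G σ T)).toReal
        ≤ C5 * Real.exp (C5 * (N + 1)) * I0 := ENNReal.toReal_le_of_le_ofReal (by positivity) h1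
      _ = Real.exp (C5 * (N + 1)) * (C5 * I0) := by ring
      _ ≤ Real.exp (C5 * (N + 1)) * Real.exp (C5 * I0 * (N + 1)) := by
          gcongr
          have h2 : C5 * I0 ≤ C5 * I0 * (N + 1) := by
            have : 0 ≤ C5 * I0 := by positivity
            nlinarith
          have h3 := Real.add_one_le_exp (C5 * I0 * (N + 1))
          linarith
      _ = _ := by rw [← Real.exp_add]; congr 1; ring
  refine ⟨T, hTm.1, hTm.2, fun σ h1 h2 => ⟨hTz σ h1 h2, hTz' σ h1 h2⟩, hfinal, ?_⟩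
  simp_rw [Good_conj_norm]
  exact hfinal

end Pool.Agent.H56.GX
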