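import Pool.Agent.H56.GX.ZLeft
import Pool.Agent.H56.GX.Gau

/-!
GX module JB: the left line integral `J`.

The integrand `K η (-1/2+it) x^{-1/2+it} ((-1/2+it) ζ(-1/2+it))⁻¹` has norm
`≤ exp(η²(1-t²)/2) x^{-1/2} · C / (1+|t|)²`... (`|{-1/2+it}| ≥ (1+|t|)/3`, `zeta_left`); it is
continuous in `t` (`ζ(-1/2+it) ≠ 0` by `zeta_left`).
* `J_integrable`, `J_bdd`: `‖J η x‖ ≤ C_η` for `x ≥ 1/4`.
* `J_lip`: for `x, y ∈ [1/4, 1]`: `|x^{s} - y^{s}| ≤ |s| · 8 · |x - y|` for `s = -1/2 + it` (mean value: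
  the derivative of `u ↦ u^s` is `s u^{s-1}`, `|u^{s-1}| = u^{-3/2} ≤ 8`), so the factor `|s|` cancels and
  `‖J η x - J η y‖ ≤ C |x-y| ∫ exp(η²(1-t²)/2) / (1+|t|) dt`, and for `0 < η ≤ 1`
  `∫ e^{1/2} e^{-η²t²/2}/(1+|t|) dt ≤ C η^{-1/4}`: indeed `e^{-η²t²/2} ≤ C (η|t|)^{-1/4}`... e.g.
  `e^{-u²/2} ≤ 2 (1+u)^{-1/4}`-type bounds: `(1+|t|)^{1/4} ≤ η^{-1/4} (1+η|t|)^{1/4}` (as
  `η ≤ 1`), so `e^{-η²t²/2} ≤ C (1+η|t|)^{-1/4} ≤ C η^{-1/4} (1+|t|)^{-1/4}`, and `∫ (1+|t|)^{-5/4} dt < ∞`.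
-/

set_option autoImplicit false

namespace Pool.Agent.H56.GX

open MeasureTheory Set Complex Filter Topology

/-- the point `-1/2 + it` -/
private noncomputable def JB_s (t : ℝ) : ℂ := -(1 / 2) + t * I

private lemma JB_s_re (t : ℝ) : (JB_s t).re = -(1 / 2) := by simp [JB_s]

private lemma JB_s_im (t : ℝ) : (JB_s t).im = t := by simp [JB_s]

private lemma JB_s_ne_zero (t : ℝ) : JB_s t ≠ 0 := by
  intro h
  have := congrArg Complex.re h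
  rw [JB_s_re, zero_re] at this
  norm_num at this

private lemma JB_s_ne_one (t : ℝ) : JB_s t ≠ 1 := by
  intro h
  have := congrArg Complex.re h
  rw [JB_s_re, one_re] at this
  norm_num at this

private lemma JB_s_continuous : Continuous JB_s := by
  unfold JB_s
  fun_prop

private lemma JB_s_norm (t : ℝ) : 1 + |t| ≤ 3 * ‖JB_s t‖ := by
  have h1 := Complex.abs_re_le_norm (JB_s t)
  have h2 := Complex.abs_im_le_norm (JB_s t)
  rw [JB_s_re] at h1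
  rw [JB_s_im] at h2
  have h3 : |(-(1 / 2) : ℝ)| = 1 / 2 := by norm_num
  rw [h3] at h1
  linarith

private lemma JB_K_norm (η t : ℝ) : ‖K η (JB_s t)‖ = Real.exp (η ^ 2 * (1 - t ^ 2) / 2) := by
  have h := K_norm η (-(1 / 2)) t
  have e : (((-(1 / 2) : ℝ) : ℂ) + t * I) = JB_s t := by
    rw [JB_s]; push_cast; ring
  rw [e] at h
  rw [h]
  norm_num

private lemma JB_zeta_inv (c : ℝ) (hc : 0 < c)
    (h : ∀ t : ℝ, c * (1 + |t|) ≤ ‖riemannZeta (-(1 / 2) + t * I)‖) (t : ℝ) :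
    riemannZeta (JB_s t) ≠ 0 ∧ ‖(riemannZeta (JB_s t))⁻¹‖ ≤ (c * (1 + |t|))⁻¹ := by
  have h1 : c * (1 + |t|) ≤ ‖riemannZeta (JB_s t)‖ := h t
  have h2 : 0 < c * (1 + |t|) := by positivity
  refine ⟨norm_pos_iff.1 (h2.trans_le h1), ?_⟩
  rw [norm_inv]
  exact inv_anti₀ h2 h1

private lemma JB_inv_norm (c : ℝ) (hc : 0 < c)
    (h : ∀ t : ℝ, c * (1 + |t|) ≤ ‖riemannZeta (-(1 / 2) + t * I)‖) (t : ℝ) :
    ‖(JB_s t * riemannZeta (JB_s t))⁻¹‖ ≤ 3 / c := by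
  obtain ⟨h0, h1⟩ := JB_zeta_inv c hc h t
  have h2 := JB_s_norm t
  have h3 : 0 ≤ |t| := abs_nonneg t
  have h4 : ‖(JB_s t)⁻¹‖ ≤ 3 := by
    rw [norm_inv]
    refine inv_le_of_inv_le₀ (by norm_num) ?_
    linarith
  have h5 : (c * (1 + |t|))⁻¹ ≤ c⁻¹ := by
    refine inv_anti₀ hc ?_
    nlinarith
  rw [mul_inv, norm_mul]
  calc ‖(JB_s t)⁻¹‖ * ‖(riemannZeta (JB_s t))⁻¹‖ ≤ 3 * c⁻¹ :=
        mul_le_mul h4 (h1.trans h5) (norm_nonneg _) (by norm_num)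
    _ = 3 / c := by rw [div_eq_mul_inv]

/-- the integrand of `J` -/
private noncomputable def JB_G (η x t : ℝ) : ℂ :=
  K η (JB_s t) * (x : ℂ) ^ (JB_s t) * (JB_s t * riemannZeta (JB_s t))⁻¹

private lemma JB_zeta_continuous : Continuous (fun t : ℝ => riemannZeta (JB_s t)) := by
  rw [continuous_iff_continuousAt]
  intro t
  exact ContinuousAt.comp (f := JB_s) (g := riemannZeta)
    (differentiableAt_riemannZeta (JB_s_ne_one t)).continuousAt JB_s_continuous.continuousAt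

private lemma JB_G_continuous (η x : ℝ) (hx : 0 < x) : Continuous (JB_G η x) := by
  obtain ⟨c, hc, h⟩ := zeta_left
  have hx0 : (x : ℂ) ≠ 0 := by exact_mod_cast hx.ne'
  unfold JB_G
  refine Continuous.mul (Continuous.mul ?_ ?_) ?_
  · exact (K_differentiable η).continuous.comp JB_s_continuous
  · exact JB_s_continuous.const_cpow (Or.inl hx0)
  · exact (JB_s_continuous.mul JB_zeta_continuous).inv₀
      fun t => mul_ne_zero (JB_s_ne_zero t) (JB_zeta_inv c hc h t).1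

private lemma JB_G_bound (c : ℝ) (hc : 0 < c)
    (h : ∀ t : ℝ, c * (1 + |t|) ≤ ‖riemannZeta (-(1 / 2) + t * I)‖) (η x : ℝ) (hx : 0 < x) (t : ℝ) :
    ‖JB_G η x t‖ ≤ (Real.exp (η ^ 2 / 2) * x ^ (-(1 / 2) : ℝ) * (3 / c)) *
      Real.exp (-(η ^ 2 / 2) * t ^ 2) := by
  rw [JB_G, norm_mul, norm_mul, JB_K_norm, Complex.norm_cpow_eq_rpow_re_of_pos hx, JB_s_re]
  have h1 := JB_inv_norm c hc h t
  have h2 : Real.exp (η ^ 2 * (1 - t ^ 2) / 2) =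
      Real.exp (η ^ 2 / 2) * Real.exp (-(η ^ 2 / 2) * t ^ 2) := by
    rw [← Real.exp_add]; congr 1; ring
  rw [h2]
  have h3 : 0 ≤ Real.exp (η ^ 2 / 2) * Real.exp (-(η ^ 2 / 2) * t ^ 2) * x ^ (-(1 / 2) : ℝ) := by
    positivity
  calc _ ≤ Real.exp (η ^ 2 / 2) * Real.exp (-(η ^ 2 / 2) * t ^ 2) * x ^ (-(1 / 2) : ℝ) * (3 / c) :=
        mul_le_mul_of_nonneg_left h1 h3
    _ = _ := by ring

private lemma JB_G_integrable (η x : ℝ) (hη : 0 < η) (hx : 0 < x) : Integrable (JB_G η x) := by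
  obtain ⟨c, hc, h⟩ := zeta_left
  refine Integrable.mono' ((integrable_exp_neg_mul_sq (b := η ^ 2 / 2) (by positivity)).const_mul
    (Real.exp (η ^ 2 / 2) * x ^ (-(1 / 2) : ℝ) * (3 / c)))
    (JB_G_continuous η x hx).aestronglyMeasurable ?_
  exact Filter.Eventually.of_forall fun t => JB_G_bound c hc h η x hx t

theorem J_integrable (η x : ℝ) (hη : 0 < η) (hx : 0 < x) :
    Integrable (fun t : ℝ => K η (-(1 / 2) + t * I) * (x : ℂ) ^ (-(1 / 2) + t * I : ℂ) *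
      ((-(1 / 2) + t * I) * riemannZeta (-(1 / 2) + t * I))⁻¹) :=
  JB_G_integrable η x hη hx

private lemma JB_J_eq (η x : ℝ) : J η x = (2 * Real.pi : ℂ)⁻¹ * ∫ t : ℝ, JB_G η x t := rfl

private lemma JB_two_pi : ‖((2 * Real.pi : ℂ))⁻¹‖ ≤ 1 := by
  rw [norm_inv, norm_mul]
  have h1 : ‖(2 : ℂ)‖ = 2 := by norm_num
  have h2 : ‖(Real.pi : ℂ)‖ = Real.pi := by
    rw [Complex.norm_real, Real.norm_of_nonneg Real.pi_pos.le]
  rw [h1, h2]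
  refine inv_le_one_of_one_le₀ ?_
  linarith [Real.pi_gt_three]

theorem J_bdd (η : ℝ) (hη : 0 < η) : ∃ C : ℝ, 0 < C ∧ ∀ x : ℝ, 1 / 4 ≤ x → ‖J η x‖ ≤ C := by
  obtain ⟨c, hc, h⟩ := zeta_left
  set A : ℝ := ∫ t : ℝ, (Real.exp (η ^ 2 / 2) * 2 * (3 / c)) * Real.exp (-(η ^ 2 / 2) * t ^ 2)
    with hA
  have hA0 : 0 ≤ A := integral_nonneg fun t => by positivity
  refine ⟨A + 1, by linarith, fun x hx => ?_⟩
  have hx0 : 0 < x := by linarith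
  have h2 : x ^ (-(1 / 2) : ℝ) ≤ 2 := by
    have h3 : x ^ (-(1 / 2) : ℝ) ≤ (1 / 4 : ℝ) ^ (-(1 / 2) : ℝ) :=
      Real.rpow_le_rpow_of_nonpos (by norm_num) hx (by norm_num)
    have h4 : (1 / 4 : ℝ) ^ (-(1 / 2) : ℝ) = 2 := by
      rw [Real.rpow_neg (by norm_num), ← Real.sqrt_eq_rpow,
        show (1 / 4 : ℝ) = (1 / 2) ^ 2 by norm_num, Real.sqrt_sq (by norm_num)]
      norm_num
    linarith
  have h5 : ‖∫ t : ℝ, JB_G η x t‖ ≤ A := by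
    refine norm_integral_le_of_norm_le ((integrable_exp_neg_mul_sq (b := η ^ 2 / 2)
      (by positivity)).const_mul _) (Filter.Eventually.of_forall fun t => ?_)
    refine (JB_G_bound c hc h η x hx0 t).trans ?_
    gcongr
  rw [JB_J_eq, norm_mul]
  calc ‖((2 * Real.pi : ℂ))⁻¹‖ * ‖∫ t : ℝ, JB_G η x t‖ ≤ 1 * A :=
        mul_le_mul JB_two_pi h5 (norm_nonneg _) zero_le_one
    _ ≤ A + 1 := by linarith

private lemma JB_cpow_lip (t x y : ℝ) (hx : 1 / 4 ≤ x) (hx1 : x ≤ 1) (hy : 1 / 4 ≤ y)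
    (hy1 : y ≤ 1) :
    ‖(x : ℂ) ^ (JB_s t) / JB_s t - (y : ℂ) ^ (JB_s t) / JB_s t‖ ≤ 8 * |x - y| := by
  have hne : JB_s t - 1 ≠ -1 := by
    intro h'
    exact JB_s_ne_zero t (by linear_combination h')
  have key := (convex_Icc (1 / 4 : ℝ) 1).norm_image_sub_le_of_norm_hasDerivWithin_le
    (f := fun u : ℝ => (u : ℂ) ^ (JB_s t) / JB_s t) (f' := fun u : ℝ => (u : ℂ) ^ (JB_s t - 1))
    (C := 8) (x := y) (y := x) ?_ ?_ ⟨hy, hy1⟩ ⟨hx, hx1⟩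
  · simpa [Real.norm_eq_abs] using key
  · intro u hu
    have hu0 : u ≠ 0 := by
      have := hu.1
      intro h0
      rw [h0] at this
      norm_num at this
    have := hasDerivAt_ofReal_cpow_const' hu0 hne
    rw [sub_add_cancel] at this
    exact this.hasDerivWithinAt
  · intro u hu
    have hu0 : 0 < u := by linarith [hu.1]
    rw [Complex.norm_cpow_eq_rpow_re_of_pos hu0, sub_re, JB_s_re, one_re]
    have h3 : u ^ (-(1 / 2) - 1 : ℝ) ≤ (1 / 4 : ℝ) ^ (-(1 / 2) - 1 : ℝ) :=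
      Real.rpow_le_rpow_of_nonpos (by norm_num) hu.1 (by norm_num)
    have h4 : (1 / 4 : ℝ) ^ (-(1 / 2) - 1 : ℝ) = 8 := by
      rw [show (-(1 / 2) - 1 : ℝ) = -(1 / 2 + 1) by norm_num, Real.rpow_neg (by norm_num),
        Real.rpow_add (by norm_num), Real.rpow_one, ← Real.sqrt_eq_rpow,
        show (1 / 4 : ℝ) = (1 / 2) ^ 2 by norm_num, Real.sqrt_sq (by norm_num)]
      norm_num
    linarith

private lemma JB_gauss (η t : ℝ) (hη : 0 < η) (hη1 : η ≤ 1) :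
    Real.exp (η ^ 2 * (1 - t ^ 2) / 2) * (1 + |t|) ^ (-1 : ℝ) ≤
      4 * η ^ (-(1 / 4) : ℝ) * (1 + ‖t‖) ^ (-(5 / 4) : ℝ) := by
  rw [Real.norm_eq_abs]
  set u : ℝ := |t| with hu
  have hu0 : 0 ≤ u := abs_nonneg t
  have ht2 : t ^ 2 = u ^ 2 := (sq_abs t).symm
  rw [ht2]
  have h1 : Real.exp (η ^ 2 * (1 - u ^ 2) / 2) =
      Real.exp (η ^ 2 / 2) * Real.exp (-((η * u) ^ 2 / 2)) := by
    rw [← Real.exp_add]; congr 1; ring
  have h2 : Real.exp (η ^ 2 / 2) ≤ 2 := by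
    have h3 : Real.exp (η ^ 2 / 2) ≤ Real.exp (1 / 2) := by
      refine Real.exp_le_exp.2 ?_
      nlinarith
    have h4 : Real.exp (1 / 2) ≤ 2 := by
      have h5 : Real.exp (1 / 2) ^ 2 ≤ 2 ^ 2 := by
        rw [← Real.exp_nat_mul]
        have := Real.exp_one_lt_d9
        norm_num
        linarith
      exact (sq_le_sq₀ (Real.exp_pos _).le (by norm_num)).1 h5
    exact h3.trans h4
  -- e^{-v^2/2} (1+v)^{1/4} ≤ 2
  have h5 : ∀ v : ℝ, 0 ≤ v → Real.exp (-(v ^ 2 / 2)) * (1 + v) ^ (1 / 4 : ℝ) ≤ 2 := by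
    intro v hv
    have h6 : (1 + v) ^ (1 / 4 : ℝ) ≤ 1 + v := by
      have := Real.rpow_le_rpow_of_exponent_le (show (1 : ℝ) ≤ 1 + v by linarith)
        (show (1 / 4 : ℝ) ≤ 1 by norm_num)
      rwa [Real.rpow_one] at this
    have h7 : 1 + v ≤ 2 * Real.exp (v ^ 2 / 2) := by
      have := Real.add_one_le_exp (v ^ 2 / 2)
      nlinarith [sq_nonneg (v - 1 / 2)]
    rw [Real.exp_neg]
    have h8 : 0 < Real.exp (v ^ 2 / 2) := Real.exp_pos _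
    rw [inv_mul_le_iff₀ h8]
    linarith
  have h9 : (1 + u) ^ (1 / 4 : ℝ) ≤ η ^ (-(1 / 4) : ℝ) * (1 + η * u) ^ (1 / 4 : ℝ) := by
    rw [Real.rpow_neg hη.le, ← Real.inv_rpow hη.le, ← Real.mul_rpow (by positivity) (by positivity)]
    refine Real.rpow_le_rpow (by positivity) ?_ (by norm_num)
    rw [inv_mul_eq_div, le_div_iff₀ hη]
    nlinarith
  have h10 : (1 + u) ^ (-1 : ℝ) = (1 + u) ^ (1 / 4 : ℝ) * (1 + u) ^ (-(5 / 4) : ℝ) := by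
    rw [← Real.rpow_add (by positivity)]; norm_num
  have h11 : 0 ≤ (1 + u) ^ (-(5 / 4) : ℝ) := by positivity
  have h12 : 0 ≤ η ^ (-(1 / 4) : ℝ) := by positivity
  rw [h1, h10]
  have h13 := h5 (η * u) (by positivity)
  calc Real.exp (η ^ 2 / 2) * Real.exp (-((η * u) ^ 2 / 2)) *
        ((1 + u) ^ (1 / 4 : ℝ) * (1 + u) ^ (-(5 / 4) : ℝ))
      ≤ 2 * Real.exp (-((η * u) ^ 2 / 2)) *
        ((η ^ (-(1 / 4) : ℝ) * (1 + η * u) ^ (1 / 4 : ℝ)) * (1 + u) ^ (-(5 / 4) : ℝ)) := by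
        gcongr
    _ = 2 * (Real.exp (-((η * u) ^ 2 / 2)) * (1 + η * u) ^ (1 / 4 : ℝ)) *
        (η ^ (-(1 / 4) : ℝ) * (1 + u) ^ (-(5 / 4) : ℝ)) := by ring
    _ ≤ 2 * 2 * (η ^ (-(1 / 4) : ℝ) * (1 + u) ^ (-(5 / 4) : ℝ)) := by
        gcongr
    _ = 4 * η ^ (-(1 / 4) : ℝ) * (1 + u) ^ (-(5 / 4) : ℝ) := by ring

theorem J_lip : ∃ C : ℝ, 0 < C ∧ ∀ η x y : ℝ, 0 < η → η ≤ 1 → 1 / 4 ≤ x → x ≤ 1 → 1 / 4 ≤ y →
    y ≤ 1 → ‖J η x - J η y‖ ≤ C * η ^ (-(1 / 4) : ℝ) * |x - y| := by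
  obtain ⟨c, hc, h⟩ := zeta_left
  have hint : Integrable (fun t : ℝ => (1 + ‖t‖) ^ (-(5 / 4) : ℝ)) := by
    refine integrable_one_add_norm ?_
    rw [Module.finrank_self]
    norm_num
  set B : ℝ := ∫ t : ℝ, (1 + ‖t‖) ^ (-(5 / 4) : ℝ) with hB
  have hB0 : 0 ≤ B := integral_nonneg fun t => by positivity
  refine ⟨32 / c * B + 1, by positivity, fun η x y hη hη1 hx hx1 hy hy1 => ?_⟩
  have hx0 : 0 < x := by linarith
  have hy0 : 0 < y := by linarith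
  have hp : 0 ≤ η ^ (-(1 / 4) : ℝ) := by positivity
  have hsub : J η x - J η y = (2 * Real.pi : ℂ)⁻¹ * ∫ t : ℝ, (JB_G η x t - JB_G η y t) := by
    rw [JB_J_eq, JB_J_eq, integral_sub (JB_G_integrable η x hη hx0) (JB_G_integrable η y hη hy0)]
    ring
  have hbd : ∀ t : ℝ, ‖JB_G η x t - JB_G η y t‖ ≤
      (32 / c * η ^ (-(1 / 4) : ℝ) * |x - y|) * (1 + ‖t‖) ^ (-(5 / 4) : ℝ) := by
    intro t
    have e : JB_G η x t - JB_G η y t = K η (JB_s t) *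
        ((x : ℂ) ^ (JB_s t) / JB_s t - (y : ℂ) ^ (JB_s t) / JB_s t) *
          (riemannZeta (JB_s t))⁻¹ := by
      rw [JB_G, JB_G, mul_inv, div_eq_mul_inv, div_eq_mul_inv]
      ring
    rw [e, norm_mul, norm_mul, JB_K_norm]
    have h1 := JB_cpow_lip t x y hx hx1 hy hy1
    have h2 := (JB_zeta_inv c hc h t).2
    have h3 := JB_gauss η t hη hη1
    have h4 : (c * (1 + |t|))⁻¹ = c⁻¹ * (1 + |t|) ^ (-1 : ℝ) := by
      rw [mul_inv, Real.rpow_neg_one]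
    rw [h4] at h2
    calc Real.exp (η ^ 2 * (1 - t ^ 2) / 2) *
          ‖(x : ℂ) ^ (JB_s t) / JB_s t - (y : ℂ) ^ (JB_s t) / JB_s t‖ *
          ‖(riemannZeta (JB_s t))⁻¹‖
        ≤ Real.exp (η ^ 2 * (1 - t ^ 2) / 2) * (8 * |x - y|) * (c⁻¹ * (1 + |t|) ^ (-1 : ℝ)) := by
          gcongr
      _ = (Real.exp (η ^ 2 * (1 - t ^ 2) / 2) * (1 + |t|) ^ (-1 : ℝ)) * (8 * |x - y| * c⁻¹) := by
          ring
      _ ≤ (4 * η ^ (-(1 / 4) : ℝ) * (1 + ‖t‖) ^ (-(5 / 4) : ℝ)) * (8 * |x - y| * c⁻¹) := by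
          gcongr
      _ = _ := by rw [div_eq_mul_inv]; ring
  have hI : ‖∫ t : ℝ, (JB_G η x t - JB_G η y t)‖ ≤ (32 / c * η ^ (-(1 / 4) : ℝ) * |x - y|) * B := by
    rw [hB, ← integral_const_mul]
    exact norm_integral_le_of_norm_le (hint.const_mul _) (Filter.Eventually.of_forall hbd)
  rw [hsub, norm_mul]
  calc ‖((2 * Real.pi : ℂ))⁻¹‖ * ‖∫ t : ℝ, (JB_G η x t - JB_G η y t)‖
      ≤ 1 * ((32 / c * η ^ (-(1 / 4) : ℝ) * |x - y|) * B) :=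
        mul_le_mul JB_two_pi hI (norm_nonneg _) zero_le_one
    _ ≤ (32 / c * B + 1) * η ^ (-(1 / 4) : ℝ) * |x - y| := by
        have h5 : 0 ≤ η ^ (-(1 / 4) : ℝ) * |x - y| := by positivity
        nlinarith [h5]

end Pool.Agent.H56.GX
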