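import Pool.Agent.H56.GX.MzB
import Pool.Agent.H56.GX.Gau

/-!
GX module SMLine: `SM` as an inverse Mellin integral on `Re s = 2`.

For `0 < η`, `0 < x`:
`SM η x = (1/2π) ∫ F(2+it) K(2+it) x^{2+it} dt`. Here `F(2+it) = ∫_1^∞ Mz(y) y^{-3-it} dy` converges
absolutely (`|Mz y| ≤ y`), `‖K(2+it)‖ = exp(η²(9/4 - t²)/2)` is integrable in `t`, so Fubini gives
`∫_1^∞ Mz(y) y^{-1} [(1/2π) ∫ K(2+it) (x/y)^{2+it} dt] dy = ∫_1^∞ Mz(y) y^{-1} e^{w/2} gk η w dy` with
`w = log (x/y)` (`K_inverse` with `σ = 2`), and the substitution `y = x e^{-v}` (`v ∈ (-∞, log x)`; for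
`v > log x` the integrand of `SM` is `0` as `x e^{-v} < 1`) gives `SM η x`. E.g.
`MeasureTheory.integral_image_eq_integral_abs_deriv_smul` or
`integral_comp_mul_deriv_Ioi`-type lemmas with `v ↦ x e^{-v}`.
Also the integrability of `t ↦ F(2+it) K(2+it) x^{2+it}` (`‖F(2+it)‖ ≤ ∫_1^∞ y^{-2} dy = 1`, and
continuity in `t` of `F(2+it)` by dominated convergence, for measurability).
-/

set_option autoImplicit false

namespace Pool.Agent.H56.GX

open MeasureTheory Set Complex Filter Topology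

private theorem SMLine_norm_integrand (t y : ℝ) (hy : 1 < y) :
    ‖(Mz y : ℂ) * (y : ℂ) ^ (-(2 + t * I) - 1 : ℂ)‖ ≤ y ^ (-2 : ℝ) := by
  have hy0 : 0 < y := by linarith
  rw [norm_mul, Complex.norm_cpow_eq_rpow_re_of_pos hy0, Complex.norm_real, Real.norm_eq_abs]
  have h1 : (-(2 + t * I) - 1 : ℂ).re = -3 := by
    simp
    norm_num
  rw [h1]
  have h2 : |Mz y| ≤ y := Mz_abs_le y hy0.le
  have h3 : y * y ^ (-3 : ℝ) = y ^ (-2 : ℝ) := by
    have : y ^ (1 : ℝ) * y ^ (-3 : ℝ) = y ^ (-2 : ℝ) := by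
      rw [← Real.rpow_add hy0]
      norm_num
    rwa [Real.rpow_one] at this
  rw [← h3]
  exact mul_le_mul_of_nonneg_right h2 (Real.rpow_nonneg hy0.le _)

private theorem SMLine_bound_integrable :
    Integrable (fun y : ℝ => y ^ (-2 : ℝ)) (volume.restrict (Ioi (1 : ℝ))) :=
  integrableOn_Ioi_rpow_of_lt (by norm_num) one_pos

private theorem SMLine_bound_integral : ∫ y in Ioi (1 : ℝ), y ^ (-2 : ℝ) = 1 := by
  rw [integral_Ioi_rpow_of_lt (by norm_num) one_pos]
  norm_num

theorem F_two_bound (t : ℝ) : ‖F (2 + t * I)‖ ≤ 1 := by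
  unfold F
  refine (norm_integral_le_of_norm_le SMLine_bound_integrable ?_).trans
    SMLine_bound_integral.le
  exact ae_restrict_of_forall_mem measurableSet_Ioi fun y hy => SMLine_norm_integrand t y hy

theorem F_two_continuous : Continuous (fun t : ℝ => F (2 + t * I)) := by
  unfold F
  refine continuous_of_dominated (bound := fun y : ℝ => y ^ (-2 : ℝ)) ?_ ?_
    SMLine_bound_integrable ?_
  · intro t
    refine Measurable.aestronglyMeasurable ?_
    exact (Complex.measurable_ofReal.comp Mz_measurable).mul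
      (Complex.measurable_ofReal.pow_const _)
  · intro t
    exact ae_restrict_of_forall_mem measurableSet_Ioi fun y hy => SMLine_norm_integrand t y hy
  · refine ae_restrict_of_forall_mem measurableSet_Ioi fun y hy => ?_
    have hy0 : (y : ℂ) ≠ 0 := by
      have : (0 : ℝ) < y := lt_trans one_pos hy
      exact_mod_cast this.ne'
    refine continuous_const.mul ?_
    refine Continuous.const_cpow ?_ (Or.inl hy0)
    fun_prop

private theorem SMLine_K_cont (η : ℝ) : Continuous (fun t : ℝ => K η (2 + t * I)) := by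
  have h := (K_differentiable η).continuous
  exact h.comp (by fun_prop)

private theorem SMLine_cpow_cont (x : ℝ) (hx : 0 < x) :
    Continuous (fun t : ℝ => (x : ℂ) ^ (2 + t * I : ℂ)) := by
  refine Continuous.const_cpow ?_ (Or.inl (by exact_mod_cast hx.ne'))
  fun_prop

private theorem SMLine_cpow_norm (x : ℝ) (hx : 0 < x) (t : ℝ) :
    ‖(x : ℂ) ^ (2 + t * I : ℂ)‖ = x ^ (2 : ℝ) := by
  rw [Complex.norm_cpow_eq_rpow_re_of_pos hx]
  congr 1
  simp

private theorem SMLine_K_norm (η t : ℝ) :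
    ‖K η (2 + t * I)‖ = Real.exp (η ^ 2 * ((2 - 1 / 2) ^ 2) / 2) * Real.exp (-(η ^ 2 / 2) * t ^ 2) := by
  have h := K_norm η 2 t
  have h2 : ((2 : ℝ) : ℂ) = 2 := by norm_num
  rw [h2] at h
  rw [h, ← Real.exp_add]
  congr 1
  ring

private theorem SMLine_gauss_integrable (η : ℝ) (hη : 0 < η) :
    Integrable (fun t : ℝ => ‖K η (2 + t * I)‖) := by
  have h : (fun t : ℝ => ‖K η (2 + t * I)‖) = fun t : ℝ =>
      Real.exp (η ^ 2 * ((2 - 1 / 2) ^ 2) / 2) * Real.exp (-(η ^ 2 / 2) * t ^ 2) := by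
    funext t
    exact SMLine_K_norm η t
  rw [h]
  exact (integrable_exp_neg_mul_sq (by positivity)).const_mul _

theorem sm_line_integrable (η x : ℝ) (hη : 0 < η) (hx : 0 < x) :
    Integrable (fun t : ℝ => K η (2 + t * I) * (x : ℂ) ^ (2 + t * I : ℂ) * F (2 + t * I)) := by
  refine ((SMLine_gauss_integrable η hη).mul_const (x ^ (2 : ℝ))).mono' ?_ ?_
  · exact (((SMLine_K_cont η).mul (SMLine_cpow_cont x hx)).mul F_two_continuous).aestronglyMeasurable
  · refine Filter.Eventually.of_forall fun t => ?_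
    rw [norm_mul, norm_mul, SMLine_cpow_norm x hx t]
    exact mul_le_of_le_one_right (by positivity) (F_two_bound t)

private theorem SMLine_inner (η x y : ℝ) (hη : 0 < η) (hx : 0 < x) (hy : 0 < y) :
    (2 * Real.pi : ℂ)⁻¹ * ∫ t : ℝ, K η (2 + t * I) * (x : ℂ) ^ (2 + t * I : ℂ) *
        ((Mz y : ℂ) * (y : ℂ) ^ (-(2 + t * I) - 1 : ℂ)) =
      ((Mz y * (y⁻¹ * (Real.exp ((Real.log x - Real.log y) / 2) *
        gk η (Real.log x - Real.log y))) : ℝ) : ℂ) := by
  have h1 : ∀ t : ℝ, K η (2 + t * I) * (x : ℂ) ^ (2 + t * I : ℂ) *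
        ((Mz y : ℂ) * (y : ℂ) ^ (-(2 + t * I) - 1 : ℂ)) =
      ((Mz y : ℂ) * (y : ℂ)⁻¹) * (K η ((2 : ℝ) + t * I) *
        Complex.exp (((2 : ℝ) + t * I) * ((Real.log x - Real.log y : ℝ) : ℂ))) := by
    intro t
    have hx0 : (x : ℂ) ≠ 0 := by exact_mod_cast hx.ne'
    have hy0 : (y : ℂ) ≠ 0 := by exact_mod_cast hy.ne'
    have h2 : (y : ℂ) ^ (-(2 + t * I) - 1 : ℂ) = (y : ℂ) ^ (-(2 + t * I) : ℂ) * (y : ℂ)⁻¹ := by
      rw [sub_eq_add_neg, Complex.cpow_add _ _ hy0, Complex.cpow_neg_one]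
    have h3 : (x : ℂ) ^ (2 + t * I : ℂ) * (y : ℂ) ^ (-(2 + t * I) : ℂ) =
        Complex.exp (((2 : ℝ) + t * I) * ((Real.log x - Real.log y : ℝ) : ℂ)) := by
      rw [Complex.cpow_def_of_ne_zero hx0, Complex.cpow_def_of_ne_zero hy0, ← Complex.exp_add,
        ← Complex.ofReal_log hx.le, ← Complex.ofReal_log hy.le]
      congr 1
      push_cast
      ring
    have h4 : ((2 : ℝ) : ℂ) = 2 := by norm_num
    rw [h2, ← h3, h4]
    ring
  simp_rw [h1]
  rw [integral_const_mul, mul_left_comm, K_inverse η hη 2 (Real.log x - Real.log y)]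
  push_cast
  ring

private theorem SMLine_prod_integrable (η x : ℝ) (hη : 0 < η) (hx : 0 < x) :
    Integrable (Function.uncurry fun (t y : ℝ) => K η (2 + t * I) * (x : ℂ) ^ (2 + t * I : ℂ) *
        ((Mz y : ℂ) * (y : ℂ) ^ (-(2 + t * I) - 1 : ℂ)))
      ((volume : Measure ℝ).prod (volume.restrict (Ioi (1 : ℝ)))) := by
  have hb := ((SMLine_gauss_integrable η hη).mul_const (x ^ (2 : ℝ))).mul_prod
    SMLine_bound_integrable
  refine hb.mono' ?_ ?_
  · refine Measurable.aestronglyMeasurable ?_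
    have m1 : Measurable (fun z : ℝ × ℝ => K η (2 + z.1 * I)) :=
      (SMLine_K_cont η).measurable.comp measurable_fst
    have m2 : Measurable (fun z : ℝ × ℝ => (x : ℂ) ^ (2 + z.1 * I : ℂ)) :=
      (SMLine_cpow_cont x hx).measurable.comp measurable_fst
    have m3 : Measurable (fun z : ℝ × ℝ => (Mz z.2 : ℂ)) :=
      (Complex.measurable_ofReal.comp Mz_measurable).comp measurable_snd
    have m4 : Measurable (fun z : ℝ × ℝ => (z.2 : ℂ) ^ (-(2 + z.1 * I) - 1 : ℂ)) := by
      refine Measurable.pow (Complex.measurable_ofReal.comp measurable_snd) ?_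
      have hc : Continuous (fun t : ℝ => (-(2 + t * I) - 1 : ℂ)) := by fun_prop
      exact hc.measurable.comp measurable_fst
    exact (m1.mul m2).mul (m3.mul m4)
  · have hset : (volume : Measure ℝ).prod (volume.restrict (Ioi (1 : ℝ))) =
        ((volume : Measure ℝ).prod volume).restrict (univ ×ˢ Ioi (1 : ℝ)) := by
      rw [← Measure.prod_restrict, Measure.restrict_univ]
    rw [hset]
    refine ae_restrict_of_forall_mem (MeasurableSet.univ.prod measurableSet_Ioi) ?_
    rintro ⟨t, y⟩ ⟨-, hy⟩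
    show ‖K η (2 + t * I) * (x : ℂ) ^ (2 + t * I : ℂ) *
        ((Mz y : ℂ) * (y : ℂ) ^ (-(2 + t * I) - 1 : ℂ))‖ ≤ _
    rw [norm_mul, norm_mul, SMLine_cpow_norm x hx t]
    exact mul_le_mul_of_nonneg_left (SMLine_norm_integrand t y hy) (by positivity)

theorem sm_line (η x : ℝ) (hη : 0 < η) (hx : 0 < x) :
    (SM η x : ℂ) = (2 * Real.pi : ℂ)⁻¹ *
      ∫ t : ℝ, K η (2 + t * I) * (x : ℂ) ^ (2 + t * I : ℂ) * F (2 + t * I) := by
  have h1 : ∀ t : ℝ, K η (2 + t * I) * (x : ℂ) ^ (2 + t * I : ℂ) * F (2 + t * I) =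
      ∫ y in Ioi (1 : ℝ), K η (2 + t * I) * (x : ℂ) ^ (2 + t * I : ℂ) *
        ((Mz y : ℂ) * (y : ℂ) ^ (-(2 + t * I) - 1 : ℂ)) := by
    intro t
    unfold F
    rw [integral_const_mul]
  simp_rw [h1]
  rw [integral_integral_swap (SMLine_prod_integrable η x hη hx), ← integral_const_mul]
  have h2 : ∫ y in Ioi (1 : ℝ), (2 * Real.pi : ℂ)⁻¹ * ∫ t : ℝ,
        K η (2 + t * I) * (x : ℂ) ^ (2 + t * I : ℂ) *
        ((Mz y : ℂ) * (y : ℂ) ^ (-(2 + t * I) - 1 : ℂ)) =
      ∫ y in Ioi (1 : ℝ), ((Mz y * (y⁻¹ * (Real.exp ((Real.log x - Real.log y) / 2) *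
        gk η (Real.log x - Real.log y))) : ℝ) : ℂ) := by
    refine setIntegral_congr_fun measurableSet_Ioi fun y hy => ?_
    exact SMLine_inner η x y hη hx (lt_trans one_pos hy)
  rw [h2, integral_complex_ofReal]
  congr 1
  set g : ℝ → ℝ := fun y => Mz y * (y⁻¹ * (Real.exp ((Real.log x - Real.log y) / 2) *
        gk η (Real.log x - Real.log y))) with hg
  have h3 : ∫ y in Ioi (1 : ℝ), g y = ∫ y in Ioi (0 : ℝ), g y := by
    rw [← integral_Ici_eq_integral_Ioi]
    symm
    refine setIntegral_eq_of_subset_of_forall_sdiff_eq_zero measurableSet_Ioi ?_ ?_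
    · intro y hy
      have hy1 : (1 : ℝ) ≤ y := hy
      exact mem_Ioi.2 (lt_of_lt_of_le one_pos hy1)
    · intro y hy
      have hy1 : y < 1 := not_le.1 hy.2
      simp only [hg, Mz_lt_one y hy1, zero_mul]
  rw [h3]
  have himg : (fun v : ℝ => x * Real.exp (-v)) '' univ = Ioi (0 : ℝ) := by
    ext y
    constructor
    · rintro ⟨v, -, rfl⟩
      exact mul_pos hx (Real.exp_pos _)
    · intro hy
      refine ⟨Real.log x - Real.log y, trivial, ?_⟩
      show x * Real.exp (-(Real.log x - Real.log y)) = y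
      rw [neg_sub, Real.exp_sub, Real.exp_log hx, Real.exp_log hy]
      field_simp
  have hder : ∀ v ∈ (univ : Set ℝ), HasDerivWithinAt (fun v : ℝ => x * Real.exp (-v))
      (-(x * Real.exp (-v))) univ v := by
    intro v _
    have h := ((hasDerivAt_neg v).exp.const_mul x).hasDerivWithinAt (s := univ)
    refine h.congr_deriv ?_
    ring
  have hinj : InjOn (fun v : ℝ => x * Real.exp (-v)) univ := by
    intro v _ w _ hvw
    have h := mul_left_cancel₀ hx.ne' hvw
    have h' := Real.exp_injective h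
    linarith
  rw [← himg, integral_image_eq_integral_abs_deriv_smul MeasurableSet.univ hder hinj g,
    Measure.restrict_univ]
  unfold SM
  refine integral_congr_ae (Filter.Eventually.of_forall fun v => ?_)
  have hpos : 0 < x * Real.exp (-v) := mul_pos hx (Real.exp_pos _)
  have hlog : Real.log x - Real.log (x * Real.exp (-v)) = v := by
    rw [Real.log_mul hx.ne' (Real.exp_pos _).ne', Real.log_exp]
    ring
  show Mz (x * Real.exp (-v)) * Real.exp (v / 2) * gk η v = |-(x * Real.exp (-v))| •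
    (Mz (x * Real.exp (-v)) * ((x * Real.exp (-v))⁻¹ *
      (Real.exp ((Real.log x - Real.log (x * Real.exp (-v))) / 2) *
        gk η (Real.log x - Real.log (x * Real.exp (-v))))))
  rw [hlog, abs_neg, abs_of_pos hpos, smul_eq_mul]
  field_simp

end Pool.Agent.H56.GX
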