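import Pool.Agent.H56.GX.Contour
import Pool.Agent.H56.GX.Good
import Pool.Agent.H56.GX.ASum
import Pool.Agent.H56.GX.SMLine
import Pool.Agent.H56.GX.JB

/-!
GX module Explicit: the smoothed explicit formula.

For each `N ≥ 1` take the good height `T_N ∈ [N, N+1]` and `contour`. As `N → ∞`:
* `I ∫_{-T_N}^{T_N} fc(2+iy) dy → I ∫_ℝ` (`intervalIntegral_tendsto_integral`, integrable by
  `sm_line_integrable` and `F_inv` at `Re s = 2`) `= 2π I · SM η x` (`sm_line`);
* `I ∫_{-T_N}^{T_N} fc(-1/2+iy) dy → 2π I · J η x` (`J_integrable`, definition of `J`);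
* horizontal sides: `‖fc(σ ± iT)‖ ≤ exp(η²(9/4 - T²)/2) (x^σ ≤ x² + x^{-1/2}) ‖((σ±iT) ζ)⁻¹‖`, so each is
  `≤ exp(η²(9/4 - N²)/2) (x² + x^{-1/2}) exp(C₄ (N+1)) → 0`;
* the finite sums over `{γ ∈ Zr : |γ| < T_N}` tend to the `tsum` over `Zr`: `a_summable` and
  `‖x^{1/2+iγ}‖ = x^{1/2}`; the finsets (as finsets of the subtype) are monotone-eventually containing every
  element (`tendsto_finset`/`HasSum.comp` with `Filter.Tendsto ... atTop` of finsets).
Dividing by `2π I`: `SM η x - J η x = -2 K η 0 + ∑' ...`.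
-/

set_option autoImplicit false

namespace Pool.Agent.H56.GX

open MeasureTheory Set Complex Filter Topology

private theorem Explicit_rpow_le (x σ : ℝ) (hx : 0 < x) (h1 : -(1 / 2) ≤ σ) (h2 : σ ≤ 2) :
    x ^ σ ≤ x ^ (2 : ℝ) + x ^ (-(1 / 2) : ℝ) := by
  have h3 : 0 < x ^ (2 : ℝ) := Real.rpow_pos_of_pos hx _
  have h4 : 0 < x ^ (-(1 / 2) : ℝ) := Real.rpow_pos_of_pos hx _
  rcases le_total 1 x with h | h
  · have := Real.rpow_le_rpow_of_exponent_le h h2
    linarith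
  · have := Real.rpow_le_rpow_of_exponent_ge hx h h1
    linarith

/-- a horizontal side -/
private theorem Explicit_side (η x T E : ℝ) (hx : 0 < x) (hT : 0 < |T|)
    (hz : ∀ σ : ℝ, -(1 / 2) ≤ σ → σ ≤ 2 → riemannZeta (σ + T * I) ≠ 0)
    (hE : ∫ σ in (-(1 / 2) : ℝ)..2, ‖((σ + T * I) * riemannZeta (σ + T * I))⁻¹‖ ≤ E) :
    ‖∫ σ in (-(1 / 2) : ℝ)..2, fc η x (σ + T * I)‖ ≤
      Real.exp (η ^ 2 * (9 / 4 - T ^ 2) / 2) * (x ^ (2 : ℝ) + x ^ (-(1 / 2) : ℝ)) * E := by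
  have hT0 : T ≠ 0 := abs_pos.1 hT
  have hne : ∀ σ : ℝ, (σ : ℂ) + T * I ≠ 0 := by
    intro σ h0
    have := congrArg Complex.im h0
    simp at this
    exact hT0 this
  have hne1 : ∀ σ : ℝ, (σ : ℂ) + T * I ≠ 1 := by
    intro σ h0
    have := congrArg Complex.im h0
    simp at this
    exact hT0 this
  have hc : ContinuousOn (fun σ : ℝ => ((σ + T * I) * riemannZeta (σ + T * I))⁻¹)
      (uIcc (-(1 / 2) : ℝ) 2) := by
    intro σ hσ
    rw [uIcc_of_le (by norm_num)] at hσ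
    have h1 : ContinuousAt (fun σ : ℝ => (σ : ℂ) + T * I) σ := by fun_prop
    have h2 : ContinuousAt (fun σ : ℝ => riemannZeta (σ + T * I)) σ := by
      have h3 : ContinuousAt riemannZeta ((σ : ℂ) + T * I) :=
        (differentiableAt_riemannZeta (hne1 σ)).continuousAt
      exact ContinuousAt.comp (f := fun σ : ℝ => (σ : ℂ) + T * I) h3 h1
    exact ((h1.mul h2).inv₀ (mul_ne_zero (hne σ) (hz σ hσ.1 hσ.2))).continuousWithinAt
  have hi : IntervalIntegrable (fun σ : ℝ => Real.exp (η ^ 2 * (9 / 4 - T ^ 2) / 2) *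
      (x ^ (2 : ℝ) + x ^ (-(1 / 2) : ℝ)) * ‖((σ + T * I) * riemannZeta (σ + T * I))⁻¹‖) volume
      (-(1 / 2) : ℝ) 2 := (hc.norm.intervalIntegrable).const_mul _
  refine (intervalIntegral.norm_integral_le_of_norm_le (by norm_num) ?_ hi).trans ?_
  · refine Filter.Eventually.of_forall fun σ hσ => ?_
    unfold fc
    rw [norm_mul, norm_mul, K_norm, Complex.norm_cpow_eq_rpow_re_of_pos hx]
    have hre : ((σ : ℂ) + T * I).re = σ := by simp
    rw [hre]
    apply mul_le_mul_of_nonneg_right _ (norm_nonneg _)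
    apply mul_le_mul _ (Explicit_rpow_le x σ hx hσ.1.le hσ.2) (Real.rpow_nonneg hx.le _)
      (Real.exp_pos _).le
    apply Real.exp_le_exp.2
    have h1 : (σ - 1 / 2) ^ 2 ≤ 9 / 4 := by nlinarith [hσ.1, hσ.2]
    have h2 : 0 ≤ η ^ 2 := sq_nonneg η
    have h3 : η ^ 2 * ((σ - 1 / 2) ^ 2 - T ^ 2) ≤ η ^ 2 * (9 / 4 - T ^ 2) :=
      mul_le_mul_of_nonneg_left (by linarith) h2
    linarith
  · rw [intervalIntegral.integral_const_mul]
    apply mul_le_mul_of_nonneg_left hE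
    have h3 : 0 < x ^ (2 : ℝ) := Real.rpow_pos_of_pos hx _
    have h4 : 0 < x ^ (-(1 / 2) : ℝ) := Real.rpow_pos_of_pos hx _
    positivity

private theorem Explicit_lim (η D C₄ : ℝ) (hη : 0 < η) (T : ℕ → ℝ) (hT : ∀ n : ℕ, (n : ℝ) + 1 ≤ T n) :
    Tendsto (fun n : ℕ => Real.exp (η ^ 2 * (9 / 4 - T n ^ 2) / 2) * D *
      Real.exp (C₄ * ((n + 1 : ℕ) + 1))) atTop (𝓝 0) := by
  have h1 : Tendsto (fun n : ℕ => Real.exp (-(((n : ℝ) + 1) * ((η ^ 2 / 2) * ((n : ℝ) + 1) - 2 * |C₄|)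
      - η ^ 2 * (9 / 8)))) atTop (𝓝 0) := by
    apply Real.tendsto_exp_neg_atTop_nhds_zero.comp
    apply tendsto_atTop_add_const_right
    have h2 : Tendsto (fun n : ℕ => (n : ℝ) + 1) atTop atTop :=
      tendsto_atTop_add_const_right _ _ tendsto_natCast_atTop_atTop
    apply Tendsto.atTop_mul_atTop₀ h2
    apply tendsto_atTop_add_const_right
    exact h2.const_mul_atTop (by positivity)
  have h2 := h1.const_mul |D|
  rw [mul_zero] at h2
  refine squeeze_zero_norm (fun n => ?_) h2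
  rw [norm_mul, norm_mul, Real.norm_of_nonneg (Real.exp_pos _).le,
    Real.norm_of_nonneg (Real.exp_pos _).le, Real.norm_eq_abs]
  rw [show Real.exp (η ^ 2 * (9 / 4 - T n ^ 2) / 2) * |D| * Real.exp (C₄ * ((n + 1 : ℕ) + 1)) =
    |D| * (Real.exp (η ^ 2 * (9 / 4 - T n ^ 2) / 2) * Real.exp (C₄ * ((n + 1 : ℕ) + 1))) by ring,
    ← Real.exp_add]
  apply mul_le_mul_of_nonneg_left _ (abs_nonneg _)
  apply Real.exp_le_exp.2
  have h3 := hT n
  have h4 : (0 : ℝ) ≤ n := by positivity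
  have h5 : ((n : ℝ) + 1) ^ 2 ≤ T n ^ 2 := pow_le_pow_left₀ (by positivity) h3 2
  have h6 : C₄ ≤ |C₄| := le_abs_self _
  have h7 : C₄ * (((n + 1 : ℕ) : ℝ) + 1) ≤ 2 * |C₄| * ((n : ℝ) + 1) := by
    push_cast
    have h8 : C₄ * ((n : ℝ) + 1 + 1) ≤ |C₄| * ((n : ℝ) + 1 + 1) :=
      mul_le_mul_of_nonneg_right h6 (by positivity)
    have h9 : |C₄| * ((n : ℝ) + 1 + 1) ≤ |C₄| * (2 * ((n : ℝ) + 1)) :=
      mul_le_mul_of_nonneg_left (by linarith) (abs_nonneg _)
    linarith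
  have h8 : η ^ 2 * ((n : ℝ) + 1) ^ 2 ≤ η ^ 2 * T n ^ 2 :=
    mul_le_mul_of_nonneg_left h5 (sq_nonneg _)
  nlinarith

theorem explicit (C : ℝ) (hC : 1 ≤ C) (h : SBound C) (η x : ℝ) (hη : 0 < η) (hx : 0 < x) :
    (SM η x : ℂ) = J η x - 2 * K η 0 + ∑' γ : Zr, a η γ * (x : ℂ) ^ (1 / 2 + (γ : ℝ) * I : ℂ) := by
  obtain ⟨C₄, hC₄, hgood⟩ := good_heights C hC h
  choose T hT1 hT2 hT3 hT4 hT5 using fun n : ℕ => hgood (n + 1) (by omega)
  have hTn : ∀ n : ℕ, (n : ℝ) + 1 ≤ T n := fun n => by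
    have := hT1 n
    push_cast at this
    exact this
  have hTpos : ∀ n : ℕ, 0 < T n := fun n => by
    have h1 := hTn n
    have h2 : (0 : ℝ) ≤ n := by positivity
    linarith
  have hTtop : Tendsto T atTop atTop :=
    tendsto_atTop_mono hTn (tendsto_atTop_add_const_right _ _ tendsto_natCast_atTop_atTop)
  have hTbot : Tendsto (fun n => -T n) atTop atBot := tendsto_neg_atTop_atBot.comp hTtop
  -- the contour formula
  have hcont : ∀ n : ℕ, Rect (fc η x) (-(1 / 2)) 2 (-T n) (T n) = 2 * Real.pi * I *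
      (-2 * K η 0 + ∑ γ ∈ (zr_finite (T n)).toFinset, a η γ * (x : ℂ) ^ (1 / 2 + γ * I : ℂ)) :=
    fun n => contour C hC h η x (T n) hη hx (hTpos n) (hT3 n)
  -- the horizontal sides
  have htop : Tendsto (fun n : ℕ => ∫ σ in (-(1 / 2) : ℝ)..2, fc η x (σ + (T n : ℝ) * I)) atTop
      (𝓝 0) := by
    refine squeeze_zero_norm (fun n => ?_)
      (Explicit_lim η (x ^ (2 : ℝ) + x ^ (-(1 / 2) : ℝ)) C₄ hη T hTn)
    exact Explicit_side η x (T n) _ hx (abs_pos.2 (hTpos n).ne') (fun σ h1 h2 => (hT3 n σ h1 h2).1)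
      (hT4 n)
  have hbot : Tendsto (fun n : ℕ => ∫ σ in (-(1 / 2) : ℝ)..2, fc η x (σ + ((-T n : ℝ) : ℂ) * I)) atTop
      (𝓝 0) := by
    refine squeeze_zero_norm (fun n => ?_)
      (Explicit_lim η (x ^ (2 : ℝ) + x ^ (-(1 / 2) : ℝ)) C₄ hη T hTn)
    have e : ∀ σ : ℝ, (σ : ℂ) + ((-T n : ℝ) : ℂ) * I = σ - T n * I := by
      intro σ
      push_cast
      ring
    have h1 := Explicit_side η x (-T n) (Real.exp (C₄ * ((n + 1 : ℕ) + 1))) hx
      (abs_pos.2 (neg_ne_zero.2 (hTpos n).ne'))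
      (fun σ h1 h2 => by rw [e σ]; exact (hT3 n σ h1 h2).2)
      (by simp only [e]; exact hT5 n)
    rw [neg_sq] at h1
    exact h1
  -- the right side
  have hF : ∀ t : ℝ, fc η x (2 + t * I) =
      K η (2 + t * I) * (x : ℂ) ^ (2 + t * I : ℂ) * F (2 + t * I) := by
    intro t
    unfold fc
    rw [(F_inv C hC h (2 + t * I) (by simp; norm_num) (by
      intro h0
      have := congrArg Complex.re h0
      simp at this)).2]
  have hright : Tendsto (fun n : ℕ => ∫ y in (-T n)..(T n), fc η x (2 + y * I)) atTop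
      (𝓝 (2 * Real.pi * (SM η x : ℂ))) := by
    have h1 : Integrable (fun t : ℝ => fc η x (2 + t * I)) := by
      simp only [hF]
      exact sm_line_integrable η x hη hx
    have h2 := intervalIntegral_tendsto_integral h1 hTbot hTtop
    have h3 : ∫ t : ℝ, fc η x (2 + t * I) = 2 * Real.pi * (SM η x : ℂ) := by
      rw [sm_line η x hη hx, ← mul_assoc, mul_inv_cancel₀, one_mul]
      · simp only [hF]
      · have := Real.pi_ne_zero
        simp [this]
    rw [h3] at h2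
    exact h2
  -- the left side
  have hleft : Tendsto (fun n : ℕ => ∫ y in (-T n)..(T n), fc η x (-(1 / 2) + y * I)) atTop
      (𝓝 (2 * Real.pi * J η x)) := by
    have h1 : Integrable (fun t : ℝ => fc η x (-(1 / 2) + t * I)) := J_integrable η x hη hx
    have h2 := intervalIntegral_tendsto_integral h1 hTbot hTtop
    have h3 : ∫ t : ℝ, fc η x (-(1 / 2) + t * I) = 2 * Real.pi * J η x := by
      unfold J
      rw [← mul_assoc, mul_inv_cancel₀, one_mul]
      · rfl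
      · have := Real.pi_ne_zero
        simp [this]
    rw [h3] at h2
    exact h2
  -- the sum
  have hsum : Tendsto (fun n : ℕ => ∑ γ ∈ (zr_finite (T n)).toFinset,
      a η γ * (x : ℂ) ^ (1 / 2 + γ * I : ℂ)) atTop
      (𝓝 (∑' γ : Zr, a η γ * (x : ℂ) ^ (1 / 2 + (γ : ℝ) * I : ℂ))) := by
    classical
    have h1 : Summable (fun γ : Zr => a η γ * (x : ℂ) ^ (1 / 2 + (γ : ℝ) * I : ℂ)) := by
      apply Summable.of_norm
      have h2 := (a_summable C hC h η hη).mul_right (x ^ (1 / 2 : ℝ))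
      refine h2.congr fun γ => ?_
      rw [norm_mul, Complex.norm_cpow_eq_rpow_re_of_pos hx]
      congr 2
      simp
    have h2 : Tendsto (fun n : ℕ => (zr_finite (T n)).toFinset.subtype (fun γ => γ ∈ Zr)) atTop
        atTop := by
      apply tendsto_atTop_finset_of_monotone
      · apply monotone_nat_of_le_succ
        intro n γ hγ
        rw [Finset.mem_subtype, Set.Finite.mem_toFinset] at hγ ⊢
        refine ⟨hγ.1, hγ.2.trans_le ?_⟩
        have h3 := hT2 n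
        have h4 := hT1 (n + 1)
        push_cast at h3 h4
        linarith
      · intro γ
        obtain ⟨n, hn⟩ := exists_nat_gt |(γ : ℝ)|
        refine ⟨n, ?_⟩
        rw [Finset.mem_subtype, Set.Finite.mem_toFinset]
        refine ⟨γ.2, hn.trans_le ?_⟩
        have := hTn n
        linarith
    have h3 := h1.hasSum.comp h2
    refine h3.congr fun n => ?_
    simp only [Function.comp]
    exact Finset.sum_subtype_of_mem (fun γ : ℝ => a η γ * (x : ℂ) ^ (1 / 2 + γ * I : ℂ))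
      (fun γ hγ => by
        rw [Set.Finite.mem_toFinset] at hγ
        exact hγ.1)
  -- limits
  have hL : Tendsto (fun n : ℕ => Rect (fc η x) (-(1 / 2)) 2 (-T n) (T n)) atTop
      (𝓝 (0 - 0 + I * (2 * Real.pi * (SM η x : ℂ)) - I * (2 * Real.pi * J η x))) := by
    unfold Rect
    have e1 : (((2 : ℝ)) : ℂ) = 2 := by push_cast; rfl
    have e2 : (((-(1 / 2) : ℝ)) : ℂ) = -(1 / 2) := by push_cast; rfl
    simp only [e1, e2]
    exact ((hbot.sub htop).add (hright.const_mul I)).sub (hleft.const_mul I)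
  have hR : Tendsto (fun n : ℕ => Rect (fc η x) (-(1 / 2)) 2 (-T n) (T n)) atTop
      (𝓝 (2 * Real.pi * I *
      (-2 * K η 0 + ∑' γ : Zr, a η γ * (x : ℂ) ^ (1 / 2 + (γ : ℝ) * I : ℂ)))) := by
    simp only [hcont]
    exact (hsum.const_add _).const_mul _
  have hE := tendsto_nhds_unique hL hR
  have hpi : (2 * Real.pi * I : ℂ) ≠ 0 := by
    have := Real.pi_ne_zero
    simp [this]
  have h5 : 2 * Real.pi * I * ((SM η x : ℂ) - J η x) = 2 * Real.pi * I *
      (-2 * K η 0 + ∑' γ : Zr, a η γ * (x : ℂ) ^ (1 / 2 + (γ : ℝ) * I : ℂ)) := by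
    rw [← hE]
    ring
  have h6 := mul_left_cancel₀ hpi h5
  rw [sub_eq_iff_eq_add] at h6
  rw [h6]
  ring

end Pool.Agent.H56.GX
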