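import Pool.Agent.H56.GX.MzB

/-!
GX module FEq: `s ζ(s) F(s) = 1` for `Re s > 1`.

Mathlib: `LSeries_eq_mul_integral` (file `Mathlib/NumberTheory/LSeries/SumCoeff.lean`) applied to
`f n = μ(n)` with `r = 1` gives `LSeries μ s = s * ∫_{Ioi 1} (∑_{k ≤ ⌊t⌋₊} μ(k)) * t^(-(s+1))`
(partial sums are `O(n)` since `|μ| ≤ 1`), which is `s * F s` (check the exponent: `-s - 1`);
and `LSeries ζ * LSeries μ = 1`: `ArithmeticFunction.LSeries_zeta_mul_Lseries_moebius` (for
`1 < s.re`), with `ArithmeticFunction.LSeries_zeta_eq_riemannZeta`.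
-/

set_option autoImplicit false

namespace Pool.Agent.H56.GX

open MeasureTheory Set Complex Filter Topology

theorem F_eq (s : ℂ) (hs : 1 < s.re) : s * riemannZeta s * F s = 1 := by
  have hbig : (fun n : ℕ => ∑ k ∈ Finset.Icc 1 n,
      ‖(fun m : ℕ => ((ArithmeticFunction.moebius m : ℤ) : ℂ)) k‖) =O[atTop]
      fun n : ℕ => (n : ℝ) ^ (1 : ℝ) := by
    refine Asymptotics.isBigO_of_le _ (fun n => ?_)
    rw [Real.rpow_one, Real.norm_of_nonneg (Finset.sum_nonneg fun _ _ => norm_nonneg _),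
      Real.norm_of_nonneg (Nat.cast_nonneg n)]
    have h1 : ∀ k ∈ Finset.Icc 1 n,
        ‖(fun m : ℕ => ((ArithmeticFunction.moebius m : ℤ) : ℂ)) k‖ ≤ 1 := by
      intro k _
      have h2 : |ArithmeticFunction.moebius k| ≤ 1 := ArithmeticFunction.abs_moebius_le_one
      simp only [Complex.norm_intCast]
      exact_mod_cast h2
    refine (Finset.sum_le_sum h1).trans (le_of_eq ?_)
    simp
  have h1 := LSeries_eq_mul_integral' (fun m : ℕ => ((ArithmeticFunction.moebius m : ℤ) : ℂ))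
    zero_le_one hs hbig
  have h2 : ∫ t in Set.Ioi (1 : ℝ),
      (∑ k ∈ Finset.Icc 1 ⌊t⌋₊, ((ArithmeticFunction.moebius k : ℤ) : ℂ)) *
        (t : ℂ) ^ (-(s + 1)) = F s := by
    rw [F]
    apply MeasureTheory.integral_congr_ae
    filter_upwards with t
    simp only [Mz]
    push_cast
    congr 2
    ring
  rw [h2] at h1
  have h3 := ArithmeticFunction.LSeries_zeta_mul_Lseries_moebius hs
  rw [ArithmeticFunction.LSeries_zeta_eq_riemannZeta hs] at h3
  have h4 : LSeries (fun m : ℕ => ((ArithmeticFunction.moebius m : ℤ) : ℂ)) s = s * F s := h1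
  rw [h4] at h3
  rw [← h3]
  ring

end Pool.Agent.H56.GX
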