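import Pool.Agent.H56.GX.Low

/-!
GX module FHol: under `SBound`, `F` is holomorphic in `Re s > 1/2` with `‖F s‖ ≤ C₁ / (Re s - 1/2)`.

Norm: `‖(x:ℂ)^(-s-1)‖ = x^(-Re s - 1)` for `x > 0` (`Complex.norm_cpow_eq_rpow_re_of_pos`), so with
`σ = Re s - 1/2` the bound is `tail_abs` (`-Re s - 1 = -3/2 - σ`), for `σ ≤ 3`.
Holomorphy: differentiation under the integral sign
(`hasDerivAt_integral_of_dominated_loc_of_deriv_le`) on a ball of radius `(Re s₀ - 1/2)/2`, with
dominating function `|Mz x| x^(-3/2 - σ₀/2) log x ≤ C |Mz x| x^(-3/2 - σ₀/4)`; or via Mathlib's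
`mellin_differentiableAt_of_isBigO_rpow`-style lemmas; or Morera/`DifferentiableOn` of locally uniform
limits of `∫_1^{2^n}` (`TendstoLocallyUniformlyOn.differentiableOn`). For `Re s₀` large (> 3) use that
`tail_abs` with `σ = 3` also gives integrability for larger exponents (`x ≥ 1`).
-/

set_option autoImplicit false

namespace Pool.Agent.H56.GX

open MeasureTheory Set Complex Filter Topology

private theorem FHol_norm (s : ℂ) {x : ℝ} (hx : 0 < x) :
    ‖(Mz x : ℂ) * (x : ℂ) ^ (-s - 1)‖ = |Mz x| * x ^ (-s.re - 1) := by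
  rw [norm_mul, Complex.norm_real, Real.norm_eq_abs, Complex.norm_cpow_eq_rpow_re_of_pos hx]
  simp

private theorem FHol_meas (s : ℂ) :
    Measurable fun x : ℝ => (Mz x : ℂ) * (x : ℂ) ^ (-s - 1) :=
  (Complex.measurable_ofReal.comp Mz_measurable).mul (Complex.measurable_ofReal.pow_const _)

private theorem FHol_int {s : ℂ} {σ : ℝ} (hσ : σ ≤ s.re - 1 / 2)
    (hi : IntegrableOn (fun x : ℝ => |Mz x| * x ^ (-(3 / 2) - σ)) (Ioi 1)) :
    IntegrableOn (fun x : ℝ => (Mz x : ℂ) * (x : ℂ) ^ (-s - 1)) (Ioi 1) := by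
  refine Integrable.mono' hi (FHol_meas s).aestronglyMeasurable ?_
  filter_upwards [ae_restrict_mem measurableSet_Ioi] with x hx
  have hx1 : (1 : ℝ) < x := hx
  rw [FHol_norm s (by linarith)]
  apply mul_le_mul_of_nonneg_left _ (abs_nonneg _)
  apply Real.rpow_le_rpow_of_exponent_le hx1.le
  linarith

theorem F_diff (C : ℝ) (hC : 1 ≤ C) (h : SBound C) :
    DifferentiableOn ℂ F {s : ℂ | 1 / 2 < s.re} := by
  obtain ⟨C', hC', ht⟩ := tail_abs C hC h
  intro s₀ hs₀
  have hs : 1 / 2 < s₀.re := hs₀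
  apply DifferentiableAt.differentiableWithinAt
  set σ : ℝ := min (s₀.re - 1 / 2) 3 with hσ
  have hσ0 : 0 < σ := lt_min (by linarith) (by norm_num)
  have hσ3 : σ ≤ 3 := min_le_right _ _
  have hσs : σ ≤ s₀.re - 1 / 2 := min_le_left _ _
  have hi0 := (ht σ hσ0 hσ3).1
  have hi4 := (ht (σ / 4) (by linarith) (by linarith)).1
  have hball : Metric.ball s₀ (σ / 2) ∈ 𝓝 s₀ := Metric.ball_mem_nhds s₀ (by linarith)
  have key := hasDerivAt_integral_of_dominated_loc_of_deriv_le (μ := volume.restrict (Ioi (1 : ℝ)))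
    (F := fun (s : ℂ) (x : ℝ) => (Mz x : ℂ) * (x : ℂ) ^ (-s - 1))
    (F' := fun (s : ℂ) (x : ℝ) => (Mz x : ℂ) * ((x : ℂ) ^ (-s - 1) * Complex.log x * (-1)))
    (x₀ := s₀) (bound := fun x : ℝ => (4 / σ) * (|Mz x| * x ^ (-(3 / 2) - σ / 4)))
    hball (Eventually.of_forall fun s => (FHol_meas s).aestronglyMeasurable)
    (FHol_int hσs hi0)
    (((Complex.measurable_ofReal.comp Mz_measurable).mul
      (((Complex.measurable_ofReal.pow_const _).mul
        (Complex.measurable_log.comp Complex.measurable_ofReal)).mul_const _)).aestronglyMeasurable)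
    ?_ (hi4.const_mul _) ?_
  · exact key.2.differentiableAt
  · filter_upwards [ae_restrict_mem measurableSet_Ioi] with x hx s hsb
    have hx1 : (1 : ℝ) < x := hx
    have hx0 : 0 < x := by linarith
    have hre : s₀.re - σ / 2 < s.re := by
      have h1 : |(s - s₀).re| ≤ ‖s - s₀‖ := Complex.abs_re_le_norm _
      have h2 : ‖s - s₀‖ < σ / 2 := by
        rw [← dist_eq_norm]
        exact hsb
      have h3 := (abs_le.1 h1).1
      rw [Complex.sub_re] at h3
      linarith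
    have hlog : ‖Complex.log (x : ℂ)‖ = Real.log x := by
      rw [← Complex.ofReal_log hx0.le, Complex.norm_real,
        Real.norm_of_nonneg (Real.log_nonneg hx1.le)]
    have hn : ‖(Mz x : ℂ) * ((x : ℂ) ^ (-s - 1) * Complex.log x * (-1))‖ =
        |Mz x| * (x ^ (-s.re - 1) * Real.log x) := by
      rw [norm_mul, norm_mul, norm_mul, hlog, Complex.norm_real, Real.norm_eq_abs,
        Complex.norm_cpow_eq_rpow_re_of_pos hx0, norm_neg, norm_one, mul_one]
      simp
    rw [hn]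
    have h4 : x ^ (-s.re - 1) ≤ x ^ (-(3 / 2) - σ / 2) := by
      apply Real.rpow_le_rpow_of_exponent_le hx1.le
      linarith
    have h5 : Real.log x ≤ x ^ (σ / 4) / (σ / 4) := Real.log_le_rpow_div hx0.le (by linarith)
    have h6 : x ^ (-s.re - 1) * Real.log x ≤ x ^ (-(3 / 2) - σ / 2) * (x ^ (σ / 4) / (σ / 4)) :=
      mul_le_mul h4 h5 (Real.log_nonneg hx1.le) (Real.rpow_nonneg hx0.le _)
    have h7 : x ^ (-(3 / 2) - σ / 2) * x ^ (σ / 4) = x ^ (-(3 / 2) - σ / 4) := by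
      rw [← Real.rpow_add hx0]
      congr 1
      ring
    calc |Mz x| * (x ^ (-s.re - 1) * Real.log x)
        ≤ |Mz x| * (x ^ (-(3 / 2) - σ / 2) * (x ^ (σ / 4) / (σ / 4))) :=
          mul_le_mul_of_nonneg_left h6 (abs_nonneg _)
      _ = (4 / σ) * (|Mz x| * (x ^ (-(3 / 2) - σ / 2) * x ^ (σ / 4))) := by
          field_simp
      _ = (4 / σ) * (|Mz x| * x ^ (-(3 / 2) - σ / 4)) := by rw [h7]
  · filter_upwards [ae_restrict_mem measurableSet_Ioi] with x hx s _
    have hx1 : (1 : ℝ) < x := hx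
    have hx0 : (x : ℂ) ≠ 0 := by
      have : x ≠ 0 := by linarith
      exact_mod_cast this
    have hd : HasDerivAt (fun s : ℂ => -s - 1) (-1) s := ((hasDerivAt_id s).neg).sub_const 1
    exact (hd.const_cpow (Or.inl hx0)).const_mul _

theorem F_norm (C : ℝ) (hC : 1 ≤ C) (h : SBound C) : ∃ C₁ : ℝ, 0 < C₁ ∧
    ∀ s : ℂ, 1 / 2 < s.re → s.re ≤ 7 / 2 → ‖F s‖ ≤ C₁ / (s.re - 1 / 2) := by
  obtain ⟨C', hC', ht⟩ := tail_abs C hC h
  refine ⟨C', hC', fun s hs hs2 => ?_⟩
  obtain ⟨hi, hb⟩ := ht (s.re - 1 / 2) (by linarith) (by linarith)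
  refine le_trans ?_ hb
  rw [F]
  refine (norm_integral_le_integral_norm _).trans (le_of_eq ?_)
  apply setIntegral_congr_fun measurableSet_Ioi
  intro x hx
  have hx1 : (1 : ℝ) < x := hx
  have hx0 : 0 < x := by linarith
  change ‖(Mz x : ℂ) * (x : ℂ) ^ (-s - 1)‖ = |Mz x| * x ^ (-(3 / 2) - (s.re - 1 / 2))
  rw [FHol_norm s hx0]
  congr 2
  ring

end Pool.Agent.H56.GX
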