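import Pool.Agent.H56.GX.FEq
import Pool.Agent.H56.GX.FHol

/-!
GX module FId: under `SBound`, `s ζ(s) F(s) = 1` for `Re s > 1/2`, `s ≠ 1`.

Both sides of `(s - 1) s ζ(s) F(s) = s - 1` are holomorphic on the preconnected open set
`U = {Re s > 1/2} \ {1}` (or work with `s * riemannZeta s * F s = 1` on `U`, which is preconnected:
complement of a countable set in a convex open set, see `zf_preconnected` in
`Pool/Agent/H95/GC/ZetaForm.lean` for the same argument), equal on `Re s > 1` (`F_eq`); identity theorem
`AnalyticOnNhd.eqOn_of_preconnected_of_eventuallyEq`.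
-/

set_option autoImplicit false

namespace Pool.Agent.H56.GX

open MeasureTheory Set Complex Filter Topology

/-- The domain. -/
private def fidU : Set ℂ := {s : ℂ | 1 / 2 < s.re ∧ s ≠ 1}

private theorem fid_isOpen : IsOpen fidU :=
  (isOpen_lt continuous_const Complex.continuous_re).inter isOpen_ne

private theorem fid_preconnected : IsPreconnected fidU := by
  set A : Set ℂ := {s | 1 / 2 < s.re} ∩ {s | 0 < s.im} with hA
  set B : Set ℂ := {s | 1 < s.re} with hB
  set C : Set ℂ := {s | 1 / 2 < s.re} ∩ {s | s.im < 0} with hC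
  set D : Set ℂ := {s | 1 / 2 < s.re} ∩ {s | s.re < 1} with hD
  have pA : IsPreconnected A :=
    ((convex_halfSpace_re_gt _).inter (convex_halfSpace_im_gt _)).isPreconnected
  have pB : IsPreconnected B := (convex_halfSpace_re_gt _).isPreconnected
  have pC : IsPreconnected C :=
    ((convex_halfSpace_re_gt _).inter (convex_halfSpace_im_lt _)).isPreconnected
  have pD : IsPreconnected D :=
    ((convex_halfSpace_re_gt _).inter (convex_halfSpace_re_lt _)).isPreconnected
  have h1 : IsPreconnected (A ∪ B) := by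
    refine pA.union (⟨2, 1⟩ : ℂ) ?_ ?_ pB
    · constructor
      · simp; norm_num
      · simp
    · simp [hB]
  have h2 : IsPreconnected ((A ∪ B) ∪ C) := by
    refine h1.union (⟨2, -1⟩ : ℂ) ?_ ?_ pC
    · right; simp [hB]
    · constructor
      · simp; norm_num
      · simp
  have h3 : IsPreconnected (((A ∪ B) ∪ C) ∪ D) := by
    refine h2.union (⟨3 / 4, 1⟩ : ℂ) ?_ ?_ pD
    · left; left
      constructor
      · change (1 / 2 : ℝ) < 3 / 4
        norm_num
      · change (0 : ℝ) < 1
        norm_num
    · constructor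
      · change (1 / 2 : ℝ) < 3 / 4
        norm_num
      · change (3 / 4 : ℝ) < 1
        norm_num
  have h4 : ((A ∪ B) ∪ C) ∪ D = fidU := by
    ext s
    simp only [hA, hB, hC, hD, fidU, mem_union, mem_inter_iff, mem_ofPred_eq]
    constructor
    · rintro (((⟨h1, h2⟩ | h) | ⟨h1, h2⟩) | ⟨h1, h2⟩)
      · exact ⟨h1, by rintro rfl; simp at h2⟩
      · exact ⟨by linarith, by rintro rfl; simp at h⟩
      · exact ⟨h1, by rintro rfl; simp at h2⟩
      · exact ⟨h1, by rintro rfl; simp at h2⟩
    · rintro ⟨h1, h2⟩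
      by_cases him : s.im = 0
      · rcases lt_trichotomy s.re 1 with h | h | h
        · exact Or.inr ⟨h1, h⟩
        · exact absurd (Complex.ext h (by simpa using him)) h2
        · exact Or.inl (Or.inl (Or.inr h))
      · rcases lt_or_gt_of_ne him with h | h
        · exact Or.inl (Or.inr ⟨h1, h⟩)
        · exact Or.inl (Or.inl (Or.inl ⟨h1, h⟩))
  rw [← h4]
  exact h3

theorem F_ident (C : ℝ) (hC : 1 ≤ C) (h : SBound C) (s : ℂ) (hs : 1 / 2 < s.re) (hs1 : s ≠ 1) :
    s * riemannZeta s * F s = 1 := by
  have hf : AnalyticOnNhd ℂ (fun s => s * riemannZeta s * F s) fidU := by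
    apply DifferentiableOn.analyticOnNhd _ fid_isOpen
    intro z hz
    have hF : DifferentiableAt ℂ F z :=
      (F_diff C hC h).differentiableAt
        ((isOpen_lt continuous_const Complex.continuous_re).mem_nhds hz.1)
    exact ((differentiableAt_id.mul (differentiableAt_riemannZeta hz.2)).mul
      hF).differentiableWithinAt
  have hg : AnalyticOnNhd ℂ (fun _ : ℂ => (1 : ℂ)) fidU := fun z _ => analyticAt_const
  have heq := hf.eqOn_of_preconnected_of_eventuallyEq hg fid_preconnected
    (z₀ := 2) ⟨by norm_num, by norm_num⟩ (by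
      have : {s : ℂ | 1 < s.re} ∈ nhds (2 : ℂ) :=
        (isOpen_lt continuous_const Complex.continuous_re).mem_nhds (by simp)
      filter_upwards [this] with z hz
      exact F_eq z hz)
  exact heq ⟨hs, hs1⟩

/-- consequences in the form used later -/
theorem F_inv (C : ℝ) (hC : 1 ≤ C) (h : SBound C) (s : ℂ) (hs : 1 / 2 < s.re) (hs1 : s ≠ 1) :
    riemannZeta s ≠ 0 ∧ F s = (s * riemannZeta s)⁻¹ := by
  have h1 := F_ident C hC h s hs hs1
  refine ⟨?_, ?_⟩
  · intro h0
    rw [h0] at h1
    simp at h1
  · exact eq_inv_of_mul_eq_one_right h1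

end Pool.Agent.H56.GX
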