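import Pool.Agent.H56.GX.Defs

/-!
GX module Recur: recurrence for absolutely convergent almost periodic sums.

Choose a finite `S` with `∑_{i ∉ S} w i ≤ ε/4` (`Summable`, `tendsto_tsum_compl_atTop_zero` or
`summable_iff_vanishing`...), so the tail contributes `≤ 2 · ε/4`. Put `W = ∑' w`. On the compact metric
space `S → Metric.sphere/closedBall` (or `S → AddCircle`/`S → ℂ` bounded) consider the points
`P_k = (exp(i g_i k τ₁))_{i ∈ S}`, `τ₁ = max τ₀ 1`. By compactness (a sequence in a compact metric space has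
a convergent subsequence, so two members `k < l` with `dist (P_k) (P_l) ≤ ε'`), i.e.
`|exp(i g_i k τ₁) - exp(i g_i l τ₁)| ≤ ε'` for all `i ∈ S`; dividing by the unimodular number
`exp(i g_i k τ₁)`: `|exp(i g_i (l-k) τ₁) - 1| ≤ ε'`. Take `τ = (l-k) τ₁ ≥ τ₁ ≥ τ₀` and
`ε' = ε / (2 (W+1))`.
-/

set_option autoImplicit false

namespace Pool.Agent.H56.GX

open MeasureTheory Set Complex Filter Topology

private lemma Recur_fin {ι : Type*} (S : Finset ι) (g : ι → ℝ) (δ : ℝ) (hδ : 0 < δ) (τ₁ : ℝ)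
    (hτ : 0 ≤ τ₁) : ∃ τ : ℝ, τ₁ ≤ τ ∧
      ∀ i ∈ S, ‖Complex.exp ((g i * τ : ℝ) * I) - 1‖ ≤ δ := by
  let x : ℕ → (S → ℂ) := fun k i => Complex.exp ((g i * (k * τ₁) : ℝ) * I)
  have hx : ∀ k, x k ∈ Metric.closedBall (0 : S → ℂ) 1 := by
    intro k
    rw [mem_closedBall_zero_iff, pi_norm_le_iff_of_nonneg zero_le_one]
    intro i
    rw [Complex.norm_exp_ofReal_mul_I]
  obtain ⟨a, _, φ, hφ, hlim⟩ := tendsto_subseq_of_bounded Metric.isBounded_closedBall hx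
  have hc := hlim.cauchySeq
  obtain ⟨N, hN⟩ := Metric.cauchySeq_iff.1 hc δ hδ
  have h1 := hN N le_rfl (N + 1) (Nat.le_succ N)
  have hlt : φ N < φ (N + 1) := hφ (Nat.lt_succ_self N)
  refine ⟨((φ (N + 1) : ℝ) - φ N) * τ₁, ?_, ?_⟩
  · have h2 : (φ N : ℝ) + 1 ≤ φ (N + 1) := by exact_mod_cast hlt
    nlinarith
  · intro i hi
    have h3 : dist (x (φ N) ⟨i, hi⟩) (x (φ (N + 1)) ⟨i, hi⟩) < δ :=
      (dist_le_pi_dist _ _ _).trans_lt h1
    rw [dist_comm, dist_eq_norm] at h3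
    have h4 : x (φ (N + 1)) ⟨i, hi⟩ - x (φ N) ⟨i, hi⟩
        = x (φ N) ⟨i, hi⟩ * (Complex.exp ((g i * (((φ (N + 1) : ℝ) - φ N) * τ₁) : ℝ) * I) - 1) := by
      change Complex.exp ((g i * (φ (N + 1) * τ₁) : ℝ) * I) - Complex.exp ((g i * (φ N * τ₁) : ℝ) * I)
        = Complex.exp ((g i * (φ N * τ₁) : ℝ) * I) * _
      rw [mul_sub, mul_one, ← Complex.exp_add]
      congr 2
      push_cast
      ring
    rw [h4, norm_mul] at h3
    have h5 : ‖x (φ N) ⟨i, hi⟩‖ = 1 := Complex.norm_exp_ofReal_mul_I _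
    rw [h5, one_mul] at h3
    exact h3.le

theorem recur {ι : Type*} (w : ι → ℝ) (hw : ∀ i, 0 ≤ w i) (hs : Summable w) (g : ι → ℝ) (ε : ℝ)
    (hε : 0 < ε) (τ₀ : ℝ) : ∃ τ : ℝ, τ₀ ≤ τ ∧
      ∑' i, w i * ‖Complex.exp ((g i * τ : ℝ) * I) - 1‖ ≤ ε := by
  classical
  have hW0 : 0 ≤ ∑' i, w i := tsum_nonneg hw
  obtain ⟨S, hS⟩ : ∃ S : Finset ι, ∑' i, w i - ε / 4 < ∑ i ∈ S, w i := by
    have h1 := hs.hasSum
    have h2 : ∀ᶠ S in atTop, ∑' i, w i - ε / 4 < ∑ i ∈ S, w i :=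
      h1.eventually (lt_mem_nhds (by linarith))
    exact h2.exists
  have hSle : ∑ i ∈ S, w i ≤ ∑' i, w i := hs.sum_le_tsum S (fun i _ => hw i)
  set δ : ℝ := ε / (2 * (∑' i, w i + 1)) with hδ
  have hδ0 : 0 < δ := by positivity
  obtain ⟨τ, h1, h2⟩ := Recur_fin S g δ hδ0 (max τ₀ 0) (le_max_right _ _)
  refine ⟨τ, (le_max_left _ _).trans h1, ?_⟩
  have hb : ∀ i, w i * ‖Complex.exp ((g i * τ : ℝ) * I) - 1‖ ≤ 2 * w i := by
    intro i
    have h3 : ‖Complex.exp ((g i * τ : ℝ) * I) - 1‖ ≤ 2 := by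
      refine (norm_sub_le _ _).trans ?_
      rw [Complex.norm_exp_ofReal_mul_I, norm_one]
      norm_num
    nlinarith [hw i]
  have hsum2 : Summable fun i => 2 * w i := hs.mul_left 2
  have hsum1 : Summable fun i => w i * ‖Complex.exp ((g i * τ : ℝ) * I) - 1‖ :=
    Summable.of_nonneg_of_le (fun i => mul_nonneg (hw i) (norm_nonneg _)) hb hsum2
  have hu : HasSum (fun i => 2 * w i + (if i ∈ S then (δ - 2) * w i else 0))
      (2 * ∑' i, w i + ∑ i ∈ S, (δ - 2) * w i) := by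
    apply HasSum.add (hs.hasSum.mul_left 2)
    have h5 : ∑ i ∈ S, (δ - 2) * w i = ∑ i ∈ S, (if i ∈ S then (δ - 2) * w i else 0) := by
      apply Finset.sum_congr rfl
      intro i hi
      rw [if_pos hi]
    rw [h5]
    apply hasSum_sum_of_ne_finset_zero
    intro i hi
    rw [if_neg hi]
  have hle : ∑' i, w i * ‖Complex.exp ((g i * τ : ℝ) * I) - 1‖
      ≤ 2 * ∑' i, w i + ∑ i ∈ S, (δ - 2) * w i := by
    rw [← hu.tsum_eq]
    apply hsum1.tsum_le_tsum _ hu.summable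
    intro i
    by_cases hi : i ∈ S
    · rw [if_pos hi]
      have := h2 i hi
      nlinarith [hw i]
    · rw [if_neg hi, add_zero]
      exact hb i
  refine hle.trans ?_
  rw [← Finset.mul_sum]
  have h6 : δ * ∑ i ∈ S, w i ≤ ε / 2 := by
    have h7 : δ * ∑ i ∈ S, w i ≤ δ * (∑' i, w i + 1) :=
      mul_le_mul_of_nonneg_left (by linarith) hδ0.le
    have h8 : δ * (∑' i, w i + 1) = ε / 2 := by
      rw [hδ]; field_simp
    linarith
  nlinarith

end Pool.Agent.H56.GX
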