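import Pool.Agent.H56.GX.MzB

/-!
GX module SB: the window bounds imply the mean square bound for `Mz`.

Write `b X = ∫_X^{2X} Mz²`. Choose an integer `k ≥ 1/δ₀` and `δ₁ = min (δ₀/2) (1/(8k))`; let `Y₀` be
given by `Win` for `δ₁`. Let `X ≥ 2 Y₀` (so `X / 2 ≥ Y₀`) and `h = X / (2k)`. For every
`Y ∈ [X/2, 2X]` we have `δ₁ Y ≤ 2 δ₁ X ≤ h ≤ δ₀ X / 2 ≤ δ₀ Y`, hence
`∫_Y^{2Y} (Mz (x+h) - Mz x)² ≤ 2 B Y h ≤ 4 B X² / (2k) ≤ 2 B X²`.

Shifts: for `j = 0, ..., 2k-1` the function `x ↦ Mz (x + (j+1) h) - Mz (x + j h)` on `[X/2, X]` has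
`∫ (...)² = ∫_{X/2 + jh}^{X + jh} (Mz (x+h) - Mz x)² dx ≤ 2 B X²` (contained in `[Y, 2Y]` with
`Y = X/2 + jh ≤ X/2 + X = 3X/2`, as `X + jh ≤ 2Y`).
So, for `m ≤ 2k`, with `(u_0 + ... + u_m)² ≤ 2 u_0² + 2 m ∑ u_i²` (Cauchy-Schwarz):
`∫_{X/2}^{X} Mz (x + m h)² dx ≤ (1+ε) ...`; precisely use `(u + v)² ≤ (3/2) u² + 3 v²`:
`∫_{X/2}^X Mz (x + m h)² dx ≤ (3/2) b(X/2) + 3 ∫ (Mz (x+mh) - Mz x)² dx
 ≤ (3/2) b(X/2) + 3 m ∑_{j<m} ∫ (Mz (x+(j+1)h) - Mz(x+jh))² ≤ (3/2) b(X/2) + C₁ X²`, with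
`C₁ = 3 (2k)² 2 B`. Apply this with `m = k` (`mh = X/2`, which gives `∫_X^{3X/2} Mz²`) and `m = 2k`
(`mh = X`, which gives `∫_{3X/2}^{2X} Mz²`): so `b X ≤ 3 b(X/2) + 2 C₁ X²` for `X ≥ 2 Y₀`.

Trivial bound: `b X ≤ 4 X³` for all `X ≥ 0` (`|Mz x| ≤ x ≤ 2X`); so for `X ≤ 2 Y₀`,
`b X ≤ 8 Y₀ X²`. Claim `b X ≤ C X²` for all `X ≥ 1` with `C = max (8 Y₀) (8 C₁) + 1`: strong induction
on `n` for `X ≤ 2 Y₀ 2^n`: `b X ≤ 3 C X²/4 + 2 C₁ X² ≤ C X²` as `2 C₁ ≤ C/4`.
-/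

set_option autoImplicit false

namespace Pool.Agent.H56.GX

open MeasureTheory Set Complex Filter Topology

private theorem sb_pointwise (x k : ℝ) (m : ℕ) :
    (Mz (x + m * k)) ^ 2 ≤ 3 / 2 * (Mz x) ^ 2
      + 3 * m * ∑ j ∈ Finset.range m,
        (Mz (x + ((j + 1 : ℕ) : ℝ) * k) - Mz (x + (j : ℝ) * k)) ^ 2 := by
  have h1 := Finset.sum_range_sub (fun j : ℕ => Mz (x + (j : ℝ) * k)) m
  have h2 := sq_sum_le_card_mul_sum_sq (s := Finset.range m)
    (f := fun j : ℕ => Mz (x + ((j + 1 : ℕ) : ℝ) * k) - Mz (x + (j : ℝ) * k))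
  rw [h1, Finset.card_range, Nat.cast_zero, zero_mul, add_zero] at h2
  set u := Mz x
  set w := Mz (x + m * k)
  set S := ∑ j ∈ Finset.range m, (Mz (x + ((j + 1 : ℕ) : ℝ) * k) - Mz (x + (j : ℝ) * k)) ^ 2
  nlinarith [sq_nonneg (u - 2 * (w - u))]

private theorem sb_shift_int (a b c : ℝ) :
    IntervalIntegrable (fun x => (Mz (x + c)) ^ 2) volume a b := by
  have h := (Mz_sq_intervalIntegrable (a + c) (b + c)).comp_add_right c
  simpa using h

private theorem sb_trivial (X : ℝ) (hX : 0 ≤ X) : ∫ x in X..2 * X, (Mz x) ^ 2 ≤ 4 * X ^ 3 := by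
  have h1 : ∫ x in X..2 * X, (Mz x) ^ 2 ≤ ∫ x in X..2 * X, (4 * X ^ 2) := by
    apply intervalIntegral.integral_mono_on (by linarith) (Mz_sq_intervalIntegrable _ _)
      intervalIntegrable_const
    intro x hx
    have h2 := Mz_abs_le x (hX.trans hx.1)
    have h3 : |Mz x| ≤ 2 * X := h2.trans hx.2
    rw [← sq_abs]
    nlinarith [abs_nonneg (Mz x)]
  refine h1.trans ?_
  rw [intervalIntegral.integral_const, smul_eq_mul]
  nlinarith

theorem sbound_of_win (B δ₀ : ℝ) (hB : 0 ≤ B) (hδ : 0 < δ₀) (hδ' : δ₀ ≤ 1 / 10)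
    (h : Win B δ₀) : ∃ C : ℝ, 1 ≤ C ∧ SBound C := by
  set k : ℕ := ⌈1 / δ₀⌉₊ with hk
  have hk1 : 1 / δ₀ ≤ (k : ℝ) := Nat.le_ceil _
  have hkd : 1 ≤ δ₀ * k := by
    rw [div_le_iff₀ hδ] at hk1
    linarith
  have hk0 : (1 : ℝ) ≤ k := by nlinarith
  have hkpos : (0 : ℝ) < k := by linarith
  have hδ1 : 0 < min (δ₀ / 2) (1 / (8 * (k : ℝ))) := lt_min (by positivity) (by positivity)
  have hδ2 : min (δ₀ / 2) (1 / (8 * (k : ℝ))) < δ₀ := (min_le_left _ _).trans_lt (by linarith)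
  obtain ⟨Y₀, hY₀, hW⟩ := h _ hδ1 hδ2
  set C₁ : ℝ := 24 * (k : ℝ) ^ 2 * B with hC₁
  have hC₁0 : 0 ≤ C₁ := by positivity
  -- the recursive inequality
  have hrec : ∀ X : ℝ, 2 * Y₀ ≤ X →
      ∫ x in X..2 * X, (Mz x) ^ 2 ≤ 3 * (∫ x in (X / 2)..X, (Mz x) ^ 2) + 2 * C₁ * X ^ 2 := by
    intro X hX
    have hX0 : 0 < X := by linarith
    set η : ℝ := X / (2 * k) with hη
    have hη0 : 0 < η := by positivity
    have hkη : (k : ℝ) * η = X / 2 := by rw [hη]; field_simp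
    have h2kη : ((2 * k : ℕ) : ℝ) * η = X := by
      push_cast
      rw [mul_assoc, hkη]; ring
    have hwin : ∀ j : ℕ, j < 2 * k →
        ∫ x in (X / 2)..X, (Mz (x + ((j + 1 : ℕ) : ℝ) * η) - Mz (x + (j : ℝ) * η)) ^ 2
          ≤ 2 * B * X ^ 2 := by
      intro j hj
      have hjη0 : 0 ≤ (j : ℝ) * η := by positivity
      have hjη : (j : ℝ) * η ≤ X := by
        rw [← h2kη]
        apply mul_le_mul_of_nonneg_right _ hη0.le
        exact_mod_cast hj.le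
      have e1 : ∫ x in (X / 2)..X, (Mz (x + ((j + 1 : ℕ) : ℝ) * η) - Mz (x + (j : ℝ) * η)) ^ 2
          = ∫ x in (X / 2 + j * η)..(X + j * η), (Mz (x + η) - Mz x) ^ 2 := by
        rw [← intervalIntegral.integral_comp_add_right (fun x => (Mz (x + η) - Mz x) ^ 2) (j * η)]
        apply intervalIntegral.integral_congr
        intro x _
        show (Mz (x + ((j + 1 : ℕ) : ℝ) * η) - Mz (x + (j : ℝ) * η)) ^ 2
          = (Mz (x + j * η + η) - Mz (x + j * η)) ^ 2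
        congr 3
        push_cast
        ring
      rw [e1]
      have e2 : ∫ x in (X / 2 + j * η)..(X + j * η), (Mz (x + η) - Mz x) ^ 2
          ≤ ∫ x in (X / 2 + j * η)..2 * (X / 2 + j * η), (Mz (x + η) - Mz x) ^ 2 := by
        apply intervalIntegral.integral_mono_interval le_rfl (by linarith) (by linarith)
        · exact Filter.Eventually.of_forall (fun x => sq_nonneg _)
        · simpa using Mz_diff_sq_intervalIntegrable (X / 2 + j * η) (2 * (X / 2 + j * η)) η 0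
      refine e2.trans ?_
      have hY : X / 2 ≤ X / 2 + j * η := by linarith
      have hY2 : X / 2 + j * η ≤ 2 * X := by linarith
      have e3 := hW (X / 2 + j * η) η (by linarith) ?_ ?_
      · refine e3.trans ?_
        have hηX : η ≤ X / 2 := by
          rw [hη, div_le_div_iff₀ (by positivity) (by norm_num)]
          nlinarith
        have : (X / 2 + j * η) * η ≤ (2 * X) * (X / 2) :=
          mul_le_mul hY2 hηX hη0.le (by linarith)
        nlinarith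
      · have h1 : min (δ₀ / 2) (1 / (8 * (k : ℝ))) * (X / 2 + j * η) ≤ 1 / (8 * (k : ℝ)) * (2 * X) :=
          mul_le_mul (min_le_right _ _) hY2 (by linarith) (by positivity)
        refine h1.trans ?_
        rw [hη]
        have : 1 / (8 * (k : ℝ)) * (2 * X) = X / (2 * k) / 2 := by field_simp; ring
        rw [this]
        have : 0 ≤ X / (2 * (k : ℝ)) := by positivity
        linarith
      · have h1 : δ₀ * (X / 2) ≤ δ₀ * (X / 2 + j * η) := mul_le_mul_of_nonneg_left hY hδ.le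
        refine le_trans ?_ h1
        rw [hη, div_le_iff₀ (by positivity)]
        nlinarith
    have hm : ∀ m : ℕ, m ≤ 2 * k →
        ∫ x in (X / 2)..X, (Mz (x + m * η)) ^ 2
          ≤ 3 / 2 * (∫ x in (X / 2)..X, (Mz x) ^ 2) + C₁ * X ^ 2 := by
      intro m hm
      have i1 : ∀ j : ℕ, IntervalIntegrable
          (fun x => (Mz (x + ((j + 1 : ℕ) : ℝ) * η) - Mz (x + (j : ℝ) * η)) ^ 2) volume (X / 2) X :=
        fun j => Mz_diff_sq_intervalIntegrable _ _ _ _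
      have i2 : IntervalIntegrable (fun x => 3 * (m : ℝ) * ∑ j ∈ Finset.range m,
          (Mz (x + ((j + 1 : ℕ) : ℝ) * η) - Mz (x + (j : ℝ) * η)) ^ 2) volume (X / 2) X := by
        apply IntervalIntegrable.const_mul
        have := IntervalIntegrable.sum (Finset.range m) (fun j _ => i1 j)
        simpa [Finset.sum_fn] using this
      have i3 : IntervalIntegrable (fun x => 3 / 2 * (Mz x) ^ 2) volume (X / 2) X :=
        (Mz_sq_intervalIntegrable _ _).const_mul _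
      have e1 : ∫ x in (X / 2)..X, (Mz (x + m * η)) ^ 2
          ≤ ∫ x in (X / 2)..X, (3 / 2 * (Mz x) ^ 2 + 3 * (m : ℝ) * ∑ j ∈ Finset.range m,
            (Mz (x + ((j + 1 : ℕ) : ℝ) * η) - Mz (x + (j : ℝ) * η)) ^ 2) := by
        apply intervalIntegral.integral_mono_on (by linarith) (sb_shift_int _ _ _) (i3.add i2)
        intro x _
        exact sb_pointwise x η m
      refine e1.trans ?_
      rw [intervalIntegral.integral_add i3 i2, intervalIntegral.integral_const_mul,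
        intervalIntegral.integral_const_mul, intervalIntegral.integral_finsetSum (fun j _ => i1 j)]
      have e2 : ∑ j ∈ Finset.range m, ∫ x in (X / 2)..X,
          (Mz (x + ((j + 1 : ℕ) : ℝ) * η) - Mz (x + (j : ℝ) * η)) ^ 2
          ≤ m * (2 * B * X ^ 2) := by
        calc _ ≤ ∑ j ∈ Finset.range m, (2 * B * X ^ 2) :=
              Finset.sum_le_sum (fun j hj => hwin j (lt_of_lt_of_le (Finset.mem_range.1 hj) hm))
          _ = m * (2 * B * X ^ 2) := by rw [Finset.sum_const, Finset.card_range, nsmul_eq_mul]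
      have hm2 : (m : ℝ) ≤ 2 * k := by exact_mod_cast hm
      have hm0 : (0 : ℝ) ≤ m := Nat.cast_nonneg m
      have e3 : 3 * (m : ℝ) * (m * (2 * B * X ^ 2)) ≤ C₁ * X ^ 2 := by
        have e4 : (m : ℝ) * m ≤ (2 * k) * (2 * k) := mul_le_mul hm2 hm2 hm0 (by positivity)
        have e5 : 0 ≤ 6 * B * X ^ 2 := by positivity
        calc 3 * (m : ℝ) * (m * (2 * B * X ^ 2)) = (m * m) * (6 * B * X ^ 2) := by ring
          _ ≤ ((2 * k) * (2 * k)) * (6 * B * X ^ 2) := mul_le_mul_of_nonneg_right e4 e5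
          _ = C₁ * X ^ 2 := by rw [hC₁]; ring
      have e6 : 3 * (m : ℝ) * ∑ j ∈ Finset.range m, ∫ x in (X / 2)..X,
          (Mz (x + ((j + 1 : ℕ) : ℝ) * η) - Mz (x + (j : ℝ) * η)) ^ 2
          ≤ 3 * (m : ℝ) * (m * (2 * B * X ^ 2)) := mul_le_mul_of_nonneg_left e2 (by positivity)
      linarith
    have s1 : ∫ x in X..2 * X, (Mz x) ^ 2
        = (∫ x in X..(3 / 2 * X), (Mz x) ^ 2) + ∫ x in (3 / 2 * X)..2 * X, (Mz x) ^ 2 :=
      (intervalIntegral.integral_add_adjacent_intervals (Mz_sq_intervalIntegrable _ _)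
        (Mz_sq_intervalIntegrable _ _)).symm
    have s2 : ∫ x in X..(3 / 2 * X), (Mz x) ^ 2 = ∫ x in (X / 2)..X, (Mz (x + k * η)) ^ 2 := by
      rw [intervalIntegral.integral_comp_add_right (fun x => (Mz x) ^ 2) ((k : ℝ) * η), hkη]
      congr 1 <;> ring
    have s3 : ∫ x in (3 / 2 * X)..2 * X, (Mz x) ^ 2
        = ∫ x in (X / 2)..X, (Mz (x + ((2 * k : ℕ) : ℝ) * η)) ^ 2 := by
      rw [intervalIntegral.integral_comp_add_right (fun x => (Mz x) ^ 2) (((2 * k : ℕ) : ℝ) * η),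
        h2kη]
      congr 1 <;> ring
    have t1 := hm k (by omega)
    have t2 := hm (2 * k) le_rfl
    rw [s1, s2, s3]
    linarith
  -- induction
  set C : ℝ := 8 * Y₀ + 8 * C₁ with hC
  have hC1 : 1 ≤ C := by rw [hC]; linarith
  have hbase : ∀ X : ℝ, 0 ≤ X → X ≤ 2 * Y₀ → ∫ x in X..2 * X, (Mz x) ^ 2 ≤ C * X ^ 2 := by
    intro X hX0 hX
    refine (sb_trivial X hX0).trans ?_
    have h1 : 4 * X ^ 3 ≤ 8 * Y₀ * X ^ 2 := by nlinarith [sq_nonneg X]
    have h2 : 0 ≤ 8 * C₁ * X ^ 2 := by positivity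
    rw [hC]
    nlinarith
  have hind : ∀ n : ℕ, ∀ X : ℝ, 0 ≤ X → X ≤ 2 * Y₀ * 2 ^ n →
      ∫ x in X..2 * X, (Mz x) ^ 2 ≤ C * X ^ 2 := by
    intro n
    induction n with
    | zero =>
      intro X hX0 hX
      exact hbase X hX0 (by simpa using hX)
    | succ n ih =>
      intro X hX0 hX
      rcases le_total X (2 * Y₀) with hc | hc
      · exact hbase X hX0 hc
      · have h1 := hrec X hc
        have h2 := ih (X / 2) (by linarith) (by rw [pow_succ] at hX; linarith)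
        rw [show 2 * (X / 2) = X by ring] at h2
        have h3 : 8 * C₁ ≤ C := by rw [hC]; linarith
        have h4 : 8 * C₁ * X ^ 2 ≤ C * X ^ 2 := mul_le_mul_of_nonneg_right h3 (sq_nonneg X)
        nlinarith
  refine ⟨C, hC1, ?_⟩
  intro X hX
  obtain ⟨n, hn⟩ := pow_unbounded_of_one_lt X (one_lt_two)
  refine hind n X (by linarith) ?_
  have : (2 : ℝ) ^ n ≤ 2 * Y₀ * 2 ^ n := by
    have : (0 : ℝ) < 2 ^ n := by positivity
    nlinarith
  linarith

end Pool.Agent.H56.GX
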