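import Pool.Agent.H56.GX.MzB
import Pool.Agent.H56.GX.Gau

/-!
GX module SMSmall: `|SM η y| ≤ C η²` for `0 < y ≤ 17/20`, `0 < η ≤ 1`.

`Mz (y e^{-v}) = 0` unless `y e^{-v} ≥ 1`, i.e. `e^{-v} ≥ 20/17`, `v ≤ -log(20/17) ≤ -0.16`; there
`|v| ≥ 4/25` (or any positive constant `c₀ ≤ log(20/17)`; `log(20/17) ≥ 1 - 17/20 = 3/20`) and
`|Mz(y e^{-v}) e^{v/2}| ≤ y e^{-v} e^{v/2} ≤ e^{|v|/2} ≤ (v²/c₀²) e^{2|v|}`. So
`|SM η y| ≤ c₀⁻² ∫ |v|² e^{2|v|} gk η v dv ≤ C η²` (`gk_moment 2`).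
-/

set_option autoImplicit false

namespace Pool.Agent.H56.GX

open MeasureTheory Set Complex Filter Topology

private theorem SMSmall_pt (η y v : ℝ) (hη : 0 < η) (hy : 0 < y) (hy2 : y ≤ 17 / 20) :
    ‖Mz (y * Real.exp (-v)) * Real.exp (v / 2) * gk η v‖ ≤
      400 / 9 * (|v| ^ 2 * Real.exp (2 * |v|) * gk η v) := by
  have hg := gk_pos η hη v
  have hR : 0 ≤ 400 / 9 * (|v| ^ 2 * Real.exp (2 * |v|) * gk η v) := by positivity
  by_cases h : y * Real.exp (-v) < 1
  · rw [Mz_lt_one _ h]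
    simpa using hR
  · push Not at h
    have h1 : Real.exp v ≤ y := by
      have h2 : Real.exp v * (y * Real.exp (-v)) = y := by
        rw [mul_comm y, ← mul_assoc, ← Real.exp_add]
        simp
      calc Real.exp v = Real.exp v * 1 := by ring
        _ ≤ Real.exp v * (y * Real.exp (-v)) := by
          apply mul_le_mul_of_nonneg_left h (Real.exp_pos v).le
        _ = y := h2
    have h3 : v ≤ -(3 / 20) := by
      have := Real.add_one_le_exp v
      linarith
    have h4 : |v| = -v := abs_of_neg (by linarith)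
    have h5 : |Mz (y * Real.exp (-v))| ≤ Real.exp (-v) := by
      refine (Mz_abs_le _ (by positivity)).trans ?_
      have := Real.exp_pos (-v)
      nlinarith
    have h6 : Real.exp (v / 2) ≤ 1 := by
      rw [Real.exp_le_one_iff]
      linarith
    have h7 : Real.exp (-v) ≤ Real.exp (2 * |v|) := by
      apply Real.exp_le_exp.mpr
      rw [h4]
      linarith
    have h8 : (1 : ℝ) ≤ 400 / 9 * |v| ^ 2 := by
      rw [h4]
      nlinarith
    rw [norm_mul, norm_mul, Real.norm_eq_abs, Real.norm_eq_abs, Real.norm_eq_abs, abs_of_pos hg,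
      abs_of_pos (Real.exp_pos (v / 2))]
    calc |Mz (y * Real.exp (-v))| * Real.exp (v / 2) * gk η v
        ≤ (Real.exp (2 * |v|) * 1) * gk η v := by
          apply mul_le_mul_of_nonneg_right _ hg.le
          exact mul_le_mul (h5.trans h7) h6 (Real.exp_pos _).le (Real.exp_pos _).le
      _ ≤ (Real.exp (2 * |v|) * (400 / 9 * |v| ^ 2)) * gk η v := by
          apply mul_le_mul_of_nonneg_right _ hg.le
          exact mul_le_mul_of_nonneg_left h8 (Real.exp_pos _).le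
      _ = 400 / 9 * (|v| ^ 2 * Real.exp (2 * |v|) * gk η v) := by ring

theorem SM_small : ∃ C : ℝ, 0 < C ∧ ∀ η y : ℝ, 0 < η → η ≤ 1 → 0 < y → y ≤ 17 / 20 →
    |SM η y| ≤ C * η ^ 2 := by
  obtain ⟨C, hC, hC2⟩ := gk_moment 2
  refine ⟨400 / 9 * C, by positivity, ?_⟩
  intro η y hη hη1 hy hy2
  obtain ⟨hi, hb⟩ := hC2 η hη hη1
  have h := norm_integral_le_of_norm_le (μ := volume)
    (f := fun v : ℝ => Mz (y * Real.exp (-v)) * Real.exp (v / 2) * gk η v)
    (hi.const_mul (400 / 9))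
    (Eventually.of_forall (fun v => SMSmall_pt η y v hη hy hy2))
  rw [Real.norm_eq_abs, integral_const_mul] at h
  calc |SM η y| ≤ 400 / 9 * ∫ v : ℝ, |v| ^ 2 * Real.exp (2 * |v|) * gk η v := h
    _ ≤ 400 / 9 * (C * η ^ 2) := by
      apply mul_le_mul_of_nonneg_left hb (by norm_num)
    _ = 400 / 9 * C * η ^ 2 := by ring

end Pool.Agent.H56.GX
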