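import Pool.Agent.H56.GX.WinHyp
import Pool.Agent.H56.GX.SB
import Pool.Agent.H56.GX.DiffB
import Pool.Agent.H56.GX.Err
import Pool.Agent.H56.GX.SMSmall
import Pool.Agent.H56.GX.Recur

/-!
GX module Final: assembly.
-/

set_option autoImplicit false

namespace Pool.Agent.H56.GX

open MeasureTheory Set Complex Filter Topology

/-- monotonicity of the error integral under shifts -/
theorem shift_err (η X X' s R : ℝ) (hη : 0 < η) (hX : 0 < X) (h1 : 7 / 20 * X ≤ X' + s) (h2 : 0 ≤ X')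
    (h3 : 2 * X' + s ≤ 17 / 20 * X)
    (hR : ∫ x in (7 / 20 * X)..(17 / 20 * X), (Mz x - SM η x) ^ 2 ≤ R) :
    ∫ x in X'..2 * X', (Mz (x + s) - SM η (x + s)) ^ 2 ≤ R := by
  have e1 : ∫ x in X'..2 * X', (Mz (x + s) - SM η (x + s)) ^ 2 =
      ∫ x in (X' + s)..(2 * X' + s), (Mz x - SM η x) ^ 2 :=
    intervalIntegral.integral_comp_add_right (fun x => (Mz x - SM η x) ^ 2) s
  rw [e1]
  refine le_trans ?_ hR
  have hi : IntervalIntegrable (fun x => (Mz x - SM η x) ^ 2) volume (7 / 20 * X) (17 / 20 * X) := by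
    have := err_intervalIntegrable η hη (7 / 20 * X) (17 / 20 * X) 0 (by linarith) (by linarith)
    simpa using this
  exact intervalIntegral.integral_mono_interval h1 (by linarith) h3
    (Filter.Eventually.of_forall fun x => sq_nonneg _) hi

/-- upper bound for the variance at a recurrence point -/
theorem var_bound (η X δ R Dm : ℝ) (hη : 0 < η) (hX : 0 < X) (hδ : 0 < δ) (hδ1 : δ ≤ 1 / 10)
    (hR : ∫ x in (7 / 20 * X)..(17 / 20 * X), (Mz x - SM η x) ^ 2 ≤ R)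
    (hD : ∀ x : ℝ, 2 / 5 * X ≤ x → x ≤ 4 / 5 * X →
      |SM η (x + δ * (2 / 5 * X) / 2) - SM η (x - δ * (2 / 5 * X) / 2)| ≤ Dm) :
    V (2 / 5 * X) (δ * (2 / 5 * X)) ≤ 15 * R / X + 3 * Dm ^ 2 := by
  set X' := 2 / 5 * X with hX'
  set H := δ * X' with hH
  have hX'0 : 0 < X' := by positivity
  have hH0 : 0 < H := by positivity
  have hHX : H ≤ X' := by
    rw [hH]
    nlinarith
  have hHs : H / 2 ≤ X / 50 := by
    rw [hH, hX']
    nlinarith
  rw [V_eq X' H hX'0 hH0 hHX]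
  have i1 : IntervalIntegrable (fun x => (Mz (x + H / 2) - SM η (x + H / 2)) ^ 2) volume X' (2 * X') :=
    err_intervalIntegrable η hη _ _ _ (by linarith) (by linarith)
  have i2 : IntervalIntegrable (fun x => (Mz (x + -(H / 2)) - SM η (x + -(H / 2))) ^ 2) volume
      X' (2 * X') :=
    err_intervalIntegrable η hη _ _ _ (by linarith) (by linarith)
  have i3 : IntervalIntegrable (fun x => (Mz (x + H / 2) - Mz (x - H / 2)) ^ 2) volume X' (2 * X') := by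
    have := Mz_diff_sq_intervalIntegrable X' (2 * X') (H / 2) (-(H / 2))
    simpa only [← sub_eq_add_neg] using this
  have hp : ∀ x ∈ Icc X' (2 * X'), (Mz (x + H / 2) - Mz (x - H / 2)) ^ 2 ≤
      3 * (Mz (x + H / 2) - SM η (x + H / 2)) ^ 2 +
        3 * (Mz (x + -(H / 2)) - SM η (x + -(H / 2))) ^ 2 + 3 * Dm ^ 2 := by
    intro x hx
    have h1 := hD x hx.1 (by linarith [hx.2])
    have h2 : (SM η (x + H / 2) - SM η (x - H / 2)) ^ 2 ≤ Dm ^ 2 := by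
      rw [← sq_abs]
      exact pow_le_pow_left₀ (abs_nonneg _) h1 2
    rw [← sub_eq_add_neg]
    nlinarith [sq_nonneg ((Mz (x + H / 2) - SM η (x + H / 2)) + (Mz (x - H / 2) - SM η (x - H / 2))),
      sq_nonneg ((Mz (x + H / 2) - SM η (x + H / 2)) - (SM η (x + H / 2) - SM η (x - H / 2))),
      sq_nonneg ((Mz (x - H / 2) - SM η (x - H / 2)) + (SM η (x + H / 2) - SM η (x - H / 2)))]
  have hint : ∫ x in X'..2 * X', (Mz (x + H / 2) - Mz (x - H / 2)) ^ 2 ≤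
      3 * R + 3 * R + 3 * Dm ^ 2 * X' := by
    calc ∫ x in X'..2 * X', (Mz (x + H / 2) - Mz (x - H / 2)) ^ 2
        ≤ ∫ x in X'..2 * X', (3 * (Mz (x + H / 2) - SM η (x + H / 2)) ^ 2 +
          3 * (Mz (x + -(H / 2)) - SM η (x + -(H / 2))) ^ 2 + 3 * Dm ^ 2) :=
          intervalIntegral.integral_mono_on (by linarith) i3
            (((i1.const_mul 3).add (i2.const_mul 3)).add intervalIntegrable_const) hp
      _ = 3 * (∫ x in X'..2 * X', (Mz (x + H / 2) - SM η (x + H / 2)) ^ 2) +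
          3 * (∫ x in X'..2 * X', (Mz (x + -(H / 2)) - SM η (x + -(H / 2))) ^ 2) +
            3 * Dm ^ 2 * X' := by
          rw [intervalIntegral.integral_add ((i1.const_mul 3).add (i2.const_mul 3))
            intervalIntegrable_const, intervalIntegral.integral_add (i1.const_mul 3)
            (i2.const_mul 3), intervalIntegral.integral_const_mul,
            intervalIntegral.integral_const_mul, intervalIntegral.integral_const, smul_eq_mul]
          ring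
      _ ≤ 3 * R + 3 * R + 3 * Dm ^ 2 * X' := by
          have j1 := shift_err η X X' (H / 2) R hη hX (by linarith) hX'0.le (by linarith) hR
          have j2 := shift_err η X X' (-(H / 2)) R hη hX (by linarith) hX'0.le (by linarith) hR
          linarith
  calc 1 / X' * ∫ x in X'..2 * X', (Mz (x + H / 2) - Mz (x - H / 2)) ^ 2
      ≤ 1 / X' * (3 * R + 3 * R + 3 * Dm ^ 2 * X') :=
        mul_le_mul_of_nonneg_left hint (by positivity)
    _ = 15 * R / X + 3 * Dm ^ 2 := by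
        rw [hX']
        field_simp
        ring

theorem final_Q (c CS CL κ δ p : ℝ) (hc : 0 < c) (hCS : 0 < CS) (hCL : 0 < CL) (hκ0 : 0 < κ)
    (hκ1 : κ ≤ 1) (hδ0 : 0 < δ) (hδ1 : δ ≤ 1) (hp0 : 0 < p) (hp4 : p ^ 4 * (κ * δ) = 1)
    (hδb : δ ≤ c / (480 * (2 * CS + 2) ^ 2))
    (hδc : δ ≤ κ * c ^ 2 / (480 ^ 2 * ((4 / 25) * CL ^ 2) ^ 2)) :
    (2 * (CS * (κ * δ) ^ 2) + CL * p * (2 / 5 * δ) + 2 * (κ * δ) ^ 2) ^ 2 ≤ c * δ / 120 := by
  have q1 : ((2 * CS + 2) * (κ * δ) ^ 2) ^ 2 ≤ c * δ / 480 := by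
    have f0 : κ * δ ≤ δ := mul_le_of_le_one_left hδ0.le hκ1
    have f1 : (κ * δ) ^ 2 ≤ δ ^ 2 := pow_le_pow_left₀ (by positivity) f0 2
    have f2 : ((κ * δ) ^ 2) ^ 2 ≤ (δ ^ 2) ^ 2 := pow_le_pow_left₀ (by positivity) f1 2
    have f4 : (δ ^ 2) ^ 2 ≤ δ ^ 2 := by
      calc (δ ^ 2) ^ 2 = δ ^ 2 * δ ^ 2 := by ring
        _ ≤ δ ^ 2 * 1 := mul_le_mul_of_nonneg_left (pow_le_one₀ hδ0.le hδ1) (by positivity)
        _ = δ ^ 2 := mul_one _
    have f3 : (2 * CS + 2) ^ 2 * δ ≤ c / 480 := by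
      rw [le_div_iff₀ (by positivity)] at hδb
      linarith
    calc ((2 * CS + 2) * (κ * δ) ^ 2) ^ 2 = (2 * CS + 2) ^ 2 * ((κ * δ) ^ 2) ^ 2 := by ring
      _ ≤ (2 * CS + 2) ^ 2 * δ ^ 2 := mul_le_mul_of_nonneg_left (f2.trans f4) (by positivity)
      _ = ((2 * CS + 2) ^ 2 * δ) * δ := by ring
      _ ≤ c / 480 * δ := mul_le_mul_of_nonneg_right f3 hδ0.le
      _ = c * δ / 480 := by ring
  have q2 : (CL * p * (2 / 5 * δ)) ^ 2 ≤ c * δ / 480 := by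
    have f1 : ((CL * p * (2 / 5 * δ)) ^ 2) ^ 2 ≤ (c * δ / 480) ^ 2 := by
      have g1 : (p ^ 2 * δ ^ 2) ^ 2 * κ = δ ^ 3 := by
        have : (p ^ 2 * δ ^ 2) ^ 2 * κ = p ^ 4 * (κ * δ) * δ ^ 3 := by ring
        rw [this, hp4, one_mul]
      have g2 : ((4 / 25) * CL ^ 2) ^ 2 * δ * 480 ^ 2 ≤ κ * c ^ 2 := by
        rw [le_div_iff₀ (by positivity)] at hδc
        linarith
      have g3 : ((CL * p * (2 / 5 * δ)) ^ 2) ^ 2 = ((4 / 25) * CL ^ 2) ^ 2 * (p ^ 2 * δ ^ 2) ^ 2 := by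
        ring
      have g4 : ((4 / 25) * CL ^ 2) ^ 2 * (p ^ 2 * δ ^ 2) ^ 2 * κ * 480 ^ 2 ≤ κ * (c * δ) ^ 2 := by
        calc ((4 / 25) * CL ^ 2) ^ 2 * (p ^ 2 * δ ^ 2) ^ 2 * κ * 480 ^ 2
            = ((4 / 25) * CL ^ 2) ^ 2 * ((p ^ 2 * δ ^ 2) ^ 2 * κ) * 480 ^ 2 := by ring
          _ = (((4 / 25) * CL ^ 2) ^ 2 * δ * 480 ^ 2) * δ ^ 2 := by rw [g1]; ring
          _ ≤ (κ * c ^ 2) * δ ^ 2 := mul_le_mul_of_nonneg_right g2 (by positivity)
          _ = κ * (c * δ) ^ 2 := by ring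
      rw [g3]
      have g5 : κ * (((4 / 25) * CL ^ 2) ^ 2 * (p ^ 2 * δ ^ 2) ^ 2 * 480 ^ 2) ≤ κ * (c * δ) ^ 2 := by
        linarith
      have g6 := le_of_mul_le_mul_left g5 hκ0
      rw [div_pow, le_div_iff₀ (by positivity)]
      exact g6
    exact (pow_le_pow_iff_left₀ (by positivity) (by positivity) two_ne_zero).1 f1
  have q3 : 2 * (CS * (κ * δ) ^ 2) + CL * p * (2 / 5 * δ) + 2 * (κ * δ) ^ 2 =
      (2 * CS + 2) * (κ * δ) ^ 2 + CL * p * (2 / 5 * δ) := by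
    ring
  rw [q3]
  have q4 : ∀ y z : ℝ, (y + z) ^ 2 ≤ 2 * y ^ 2 + 2 * z ^ 2 := fun y z => by
    nlinarith [sq_nonneg (y - z)]
  refine (q4 _ _).trans ?_
  linarith

theorem final_D (c δ X CJ q Q : ℝ) (hX0 : 0 < X) (hcd : 0 < c * δ)
    (hqq : q ^ 2 = X) (hXc : 480 * CJ ^ 2 / (c * δ) ≤ X) (hQsq : Q ^ 2 ≤ c * δ / 120) :
    3 * (2 * CJ + q * Q) ^ 2 ≤ c * δ * X / 10 := by
  have f1 : 480 * CJ ^ 2 ≤ X * (c * δ) := by
    rwa [div_le_iff₀ hcd] at hXc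
  have f2 : (2 * CJ + q * Q) ^ 2 ≤ 8 * CJ ^ 2 + 2 * (X * Q ^ 2) := by
    have : (q * Q) ^ 2 = X * Q ^ 2 := by
      rw [mul_pow, hqq]
    nlinarith [sq_nonneg (2 * CJ - q * Q)]
  have f3 : X * Q ^ 2 ≤ X * (c * δ / 120) := mul_le_mul_of_nonneg_left hQsq hX0.le
  linarith

theorem final_A (c A₀ A κ δ X : ℝ) (hX0 : 0 < X) (hδ0 : 0 < δ) (hκ0 : 0 < κ) (hA : A₀ ≤ A)
    (hAκ : A * κ = c / 300) :
    15 * (A₀ * (κ * δ + κ * δ) * X ^ 2) / X ≤ c * δ * X / 10 := by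
  have f1 : 15 * (A₀ * (κ * δ + κ * δ) * X ^ 2) / X = 30 * (A₀ * κ) * (δ * X) := by
    field_simp
    ring
  have f2 : A₀ * κ ≤ c / 300 := (mul_le_mul_of_nonneg_right hA hκ0.le).trans hAκ.le
  rw [f1]
  have f3 : 0 < δ * X := by positivity
  have f4 := mul_le_mul_of_nonneg_right f2 f3.le
  linarith

theorem final_sh (δ X : ℝ) (hX : 0 < X) (hδ : δ ≤ 1 / 40) : δ * (2 / 5 * X) / 2 ≤ X / 100 := by
  have := mul_le_mul_of_nonneg_right hδ hX.le
  linarith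

theorem no_hyp (c B δ₀ : ℝ) (hc : 0 < c) (hB : 0 ≤ B) (hδ : 0 < δ₀) (hδ' : δ₀ ≤ 1 / 10) :
    ¬ Hyp c B δ₀ := by
  intro hyp
  have hw := win_of_hyp c B δ₀ hB hδ hδ' hyp
  obtain ⟨C, hC, hS⟩ := sbound_of_win B δ₀ hB hδ hδ' hw
  obtain ⟨A₀, hA₀, hA⟩ := err B δ₀ C hB hδ hδ' hw hC hS
  obtain ⟨CS, hCS0, hCS⟩ := SM_small
  obtain ⟨CL, hCL0, hCL⟩ := J_lip
  -- the constants
  set A := max A₀ c with hAdef
  have hAc : c ≤ A := le_max_right _ _
  have hA0 : 0 < A := hc.trans_le hAc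
  set κ := c / (300 * A) with hκ
  have hκ0 : 0 < κ := by positivity
  have hκ1 : κ ≤ 1 := by
    rw [hκ, div_le_one (by positivity)]
    linarith
  have hAκ : A * κ = c / 300 := by
    rw [hκ]
    field_simp
  set δ := min (δ₀ / 4) (min (c / (480 * (2 * CS + 2) ^ 2))
    (κ * c ^ 2 / (480 ^ 2 * ((4 / 25) * CL ^ 2) ^ 2))) with hδdef
  have hδ0 : 0 < δ := by
    refine lt_min (by positivity) (lt_min (by positivity) (by positivity))
  have hδa : δ ≤ δ₀ / 4 := min_le_left _ _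
  have hδb : δ ≤ c / (480 * (2 * CS + 2) ^ 2) := (min_le_right _ _).trans (min_le_left _ _)
  have hδc : δ ≤ κ * c ^ 2 / (480 ^ 2 * ((4 / 25) * CL ^ 2) ^ 2) :=
    (min_le_right _ _).trans (min_le_right _ _)
  have hδ1 : δ ≤ 1 / 40 := by linarith
  set η := κ * δ with hη
  have hη0 : 0 < η := by positivity
  have hηδ : η ≤ δ := mul_le_of_le_one_left hδ0.le hκ1
  have hη1 : η ≤ 1 := by linarith
  obtain ⟨X₀, hX₀⟩ := hyp (δ / 2) (by positivity) (by linarith)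
  obtain ⟨X₁, hX₁1, hX₁⟩ := hA η hη0 (by linarith)
  obtain ⟨CJ, hCJ0, hCJ⟩ := J_bdd η hη0
  -- the recurrence point
  set Xm := max 1 (max (5 / 2 * X₀) (max X₁ (480 * CJ ^ 2 / (c * δ)))) with hXm
  have hXm1 : 1 ≤ Xm := le_max_left _ _
  obtain ⟨τ, hτ, hτs⟩ := recur (fun γ : Zr => ‖a η γ‖) (fun γ => norm_nonneg _)
    (a_summable C hC hS η hη0) (fun γ : Zr => (γ : ℝ)) (η ^ 2) (by positivity) (Real.log Xm)
  have hτ0 : 0 ≤ τ := (Real.log_nonneg hXm1).trans hτ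
  have hXge : Xm ≤ Real.exp τ := by
    rw [← Real.log_le_iff_le_exp (by linarith)]
    exact hτ
  set X := Real.exp τ with hX
  have hX0 : 0 < X := Real.exp_pos τ
  have hXa : 5 / 2 * X₀ ≤ X :=
    ((le_max_left _ _).trans (le_max_right _ _)).trans hXge
  have hXb : X₁ ≤ X :=
    (((le_max_left _ _).trans (le_max_right _ _)).trans (le_max_right _ _)).trans hXge
  have hXc : 480 * CJ ^ 2 / (c * δ) ≤ X :=
    (((le_max_right _ _).trans (le_max_right _ _)).trans (le_max_right _ _)).trans hXge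
  -- the difference bound
  set p := η ^ (-(1 / 4) : ℝ) with hp
  have hp0 : 0 < p := Real.rpow_pos_of_pos hη0 _
  have hp4 : p ^ 4 * η = 1 := by
    rw [hp, ← Real.rpow_natCast, ← Real.rpow_mul hη0.le]
    norm_num
    rw [Real.rpow_neg_one]
    field_simp
  set Q := 2 * (CS * η ^ 2) + CL * p * (2 / 5 * δ) + 2 * η ^ 2 with hQ
  set q := Real.sqrt X with hq
  have hqq : q ^ 2 = X := Real.sq_sqrt hX0.le
  have hD : ∀ x : ℝ, 2 / 5 * X ≤ x → x ≤ 4 / 5 * X →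
      |SM η (x + δ * (2 / 5 * X) / 2) - SM η (x - δ * (2 / 5 * X) / 2)| ≤ 2 * CJ + q * Q := by
    intro x hx1 hx2
    have hs : 0 ≤ δ * (2 / 5 * X) / 2 := by positivity
    have hs' : δ * (2 / 5 * X) / 2 ≤ X / 100 := final_sh δ X hX0 hδ1
    have e1 : x + δ * (2 / 5 * X) / 2 = X * ((x + δ * (2 / 5 * X) / 2) / X) := by
      field_simp
    have e2 : x - δ * (2 / 5 * X) / 2 = X * ((x - δ * (2 / 5 * X) / 2) / X) := by
      field_simp
    have hd := diff_bound C hC hS η τ ((x + δ * (2 / 5 * X) / 2) / X)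
      ((x - δ * (2 / 5 * X) / 2) / X) (η ^ 2) (CS * η ^ 2) (CL * p) CJ hη0 hτ0
      (by rw [le_div_iff₀ hX0]; linarith) (by rw [div_le_iff₀ hX0]; linarith)
      (by rw [le_div_iff₀ hX0]; linarith) (by rw [div_le_iff₀ hX0]; linarith)
      (fun y hy1 hy2 => hCS η y hη0 hη1 hy1 hy2)
      (fun x y h1 h2 h3 h4 => hCL η x y hη0 hη1 h1 h2 h3 h4) hCJ hτs
    rw [← hX, ← e1, ← e2] at hd
    have e3 : |(x + δ * (2 / 5 * X) / 2) / X - (x - δ * (2 / 5 * X) / 2) / X| = 2 / 5 * δ := by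
      have : (x + δ * (2 / 5 * X) / 2) / X - (x - δ * (2 / 5 * X) / 2) / X = 2 / 5 * δ := by
        field_simp
        ring
      rw [this, abs_of_nonneg (by positivity)]
    rw [e3] at hd
    exact hd
  have hR := hX₁ η X hη0 hη1 hXb
  have hvar := var_bound η X δ _ _ hη0 hX0 hδ0 (by linarith) hR hD
  have hX25 : 0 < 2 / 5 * X := by positivity
  have hlow := (hX₀ (2 / 5 * X) (δ * (2 / 5 * X)) (by linarith)
    (mul_le_mul_of_nonneg_right (by linarith) hX25.le)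
    (mul_le_mul_of_nonneg_right (by linarith) hX25.le)).1
  -- numerical contradiction
  have hQsq : Q ^ 2 ≤ c * δ / 120 :=
    final_Q c CS CL κ δ p hc hCS0 hCL0 hκ0 hκ1 hδ0 (by linarith) hp0 hp4 hδb hδc
  have hDm : 3 * (2 * CJ + q * Q) ^ 2 ≤ c * δ * X / 10 :=
    final_D c δ X CJ q Q hX0 (by positivity) hqq hXc hQsq
  have hfirst : 15 * (A₀ * (η + η) * X ^ 2) / X ≤ c * δ * X / 10 :=
    final_A c A₀ A κ δ X hX0 hδ0 hκ0 (le_max_left _ _) hAκ
  have hcd : 0 < c * δ * X := by positivity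
  have hcd2 : c * (δ * (2 / 5 * X)) = 2 / 5 * (c * δ * X) := by ring
  linarith

end Pool.Agent.H56.GX
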