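import Pool.Agent.H56.GX.Defs

/-!
GX module MzB: elementary facts about `Mz`.

`Mz` is measurable: it is the composition of the (measurable) `Nat.floor` with a function `ℕ → ℝ`
(`measurable_from_nat` / `measurable_from_top`, `Nat.measurable_floor`).
`|Mz x| ≤ ⌊x⌋₊ ≤ x` for `x ≥ 0` (`|μ| ≤ 1`, `ArithmeticFunction.abs_moebius_le_one`), `Mz x = 0` for
`x < 1`, `Mz x = 1` for `1 ≤ x < 2`.
Interval integrability on every interval of functions dominated by a continuous function: bounded
measurable functions on bounded intervals are integrable.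
-/

set_option autoImplicit false

namespace Pool.Agent.H56.GX

open MeasureTheory Set Complex Filter Topology

theorem Mz_measurable : Measurable Mz := by
  have h : Mz = (fun n : ℕ => ∑ k ∈ Finset.Icc 1 n, ((ArithmeticFunction.moebius k : ℤ) : ℝ)) ∘
      fun x : ℝ => ⌊x⌋₊ := rfl
  rw [h]
  exact (measurable_from_nat).comp Nat.measurable_floor

theorem Mz_abs_le (x : ℝ) (hx : 0 ≤ x) : |Mz x| ≤ x := by
  unfold Mz
  refine le_trans (Finset.abs_sum_le_sum_abs _ _) ?_
  refine le_trans (Finset.sum_le_card_nsmul _ _ 1 fun n _ => ?_) ?_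
  · exact_mod_cast ArithmeticFunction.abs_moebius_le_one
  · rw [Nat.card_Icc, Nat.add_sub_cancel, nsmul_eq_mul, mul_one]
    exact Nat.floor_le hx

theorem Mz_lt_one (x : ℝ) (hx : x < 1) : Mz x = 0 := by
  unfold Mz
  rw [Nat.floor_eq_zero.2 hx]
  simp

/-- valid for all real `x` -/
theorem Mz_abs_le' (x : ℝ) : |Mz x| ≤ |x| := by
  rcases le_or_gt 0 x with h | h
  · rw [abs_of_nonneg h]
    exact Mz_abs_le x h
  · rw [Mz_lt_one x (by linarith), abs_zero]
    exact abs_nonneg x

theorem Mz_lt_two (x : ℝ) (hx1 : 1 ≤ x) (hx : x < 2) : Mz x = 1 := by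
  unfold Mz
  have h : ⌊x⌋₊ = 1 := by
    rw [Nat.floor_eq_iff (by linarith)]
    norm_num
    exact ⟨hx1, hx⟩
  rw [h]
  simp

theorem Mz_sq_intervalIntegrable (a b : ℝ) :
    IntervalIntegrable (fun x => (Mz x) ^ 2) volume a b := by
  have hg : IntervalIntegrable (fun x : ℝ => x ^ 2) volume a b :=
    (continuous_pow 2).intervalIntegrable a b
  refine hg.mono_fun' (Mz_measurable.pow_const 2).aestronglyMeasurable ?_
  refine Filter.Eventually.of_forall fun x => ?_
  simp only
  rw [Real.norm_of_nonneg (sq_nonneg _)]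
  exact sq_le_sq.2 (Mz_abs_le' x)

theorem Mz_diff_sq_intervalIntegrable (a b p q : ℝ) :
    IntervalIntegrable (fun x => (Mz (x + p) - Mz (x + q)) ^ 2) volume a b := by
  have hg : IntervalIntegrable (fun x : ℝ => (|x + p| + |x + q|) ^ 2) volume a b :=
    Continuous.intervalIntegrable (by fun_prop) a b
  have hm : Measurable fun x : ℝ => (Mz (x + p) - Mz (x + q)) ^ 2 :=
    ((Mz_measurable.comp (measurable_id.add_const p)).sub
      (Mz_measurable.comp (measurable_id.add_const q))).pow_const 2
  refine hg.mono_fun' hm.aestronglyMeasurable ?_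
  refine Filter.Eventually.of_forall fun x => ?_
  simp only
  rw [Real.norm_of_nonneg (sq_nonneg _)]
  refine sq_le_sq.2 ?_
  rw [abs_of_nonneg (show 0 ≤ |x + p| + |x + q| by positivity)]
  refine le_trans (abs_sub _ _) ?_
  exact add_le_add (Mz_abs_le' _) (Mz_abs_le' _)

end Pool.Agent.H56.GX
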