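import Pool.Agent.H56.GX.Defs

/-!
GX module RectA: the boundary integral of `1/(s - w)` over a rectangle is `2πi`.

By translation `w = 0`, `a < 0 < b`, `c < 0 < d`. On the bottom, right and top sides use the
antiderivative `Complex.log` (they lie in `slitPlane`), on the left side use `s ↦ Complex.log (-s)`
(`intervalIntegral.integral_eq_sub_of_hasDerivAt`). The sum of the four integrals is
`log(b+ic) - log(a+ic) - (log(b+id) - log(a+id)) + (log(b+id) - log(b+ic))
 - (log(-(a+id)) - log(-(a+ic)))`, and `log z - log (-z) = iπ` for `Im z > 0`, `= -iπ` for `Im z < 0`.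
-/

set_option autoImplicit false

namespace Pool.Agent.H56.GX

open MeasureTheory Set Complex Filter Topology

/-- The boundary integral (counterclockwise) of `f` over the rectangle `[a,b] × [c,d]`. -/
noncomputable def Rect (f : ℂ → ℂ) (a b c d : ℝ) : ℂ :=
  (∫ x in a..b, f (x + c * I)) - (∫ x in a..b, f (x + d * I)) +
    I * (∫ y in c..d, f (b + y * I)) - I * (∫ y in c..d, f (a + y * I))

private theorem RectA_hor (a b e : ℝ) (w : ℂ) (he : e - w.im ≠ 0) :
    ∫ x in a..b, ((x : ℂ) + e * I - w)⁻¹ =
      Complex.log (b + e * I - w) - Complex.log (a + e * I - w) := by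
  have him : ∀ x : ℝ, ((x : ℂ) + e * I - w).im = e - w.im := fun x => by simp
  have hne : ∀ x : ℝ, (x : ℂ) + e * I - w ≠ 0 := by
    intro x h
    have := him x
    rw [h] at this
    exact he (by simpa using this.symm)
  have hcont : Continuous (fun x : ℝ => ((x : ℂ) + e * I - w)⁻¹) :=
    Continuous.inv₀ (by fun_prop) hne
  refine intervalIntegral.integral_eq_sub_of_hasDerivAt
    (f := fun x : ℝ => Complex.log ((x : ℂ) + e * I - w)) (fun x _ => ?_)
    (hcont.intervalIntegrable a b)
  have h1 : HasDerivAt (fun x : ℝ => (x : ℂ) + e * I - w) 1 x :=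
    ((Complex.ofRealCLM.hasDerivAt (x := x)).add_const (e * I)).sub_const w
  have h2 := h1.clog_real (Complex.mem_slitPlane_iff.2 (Or.inr (by rw [him x]; exact he)))
  rw [one_div] at h2
  exact h2

private theorem RectA_right (b c d : ℝ) (w : ℂ) (hb : w.re < b) :
    I * ∫ y in c..d, ((b : ℂ) + y * I - w)⁻¹ =
      Complex.log (b + d * I - w) - Complex.log (b + c * I - w) := by
  have hre : ∀ y : ℝ, ((b : ℂ) + y * I - w).re = b - w.re := fun y => by simp
  have hne : ∀ y : ℝ, (b : ℂ) + y * I - w ≠ 0 := by
    intro y h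
    have h1 := hre y
    rw [h, Complex.zero_re] at h1
    linarith
  have hcont : Continuous (fun y : ℝ => I / ((b : ℂ) + y * I - w)) :=
    Continuous.div (by fun_prop) (by fun_prop) hne
  have hmul : I * ∫ y in c..d, ((b : ℂ) + y * I - w)⁻¹ =
      ∫ y in c..d, I / ((b : ℂ) + y * I - w) := by
    rw [← intervalIntegral.integral_const_mul]
    simp only [div_eq_mul_inv]
  rw [hmul]
  refine intervalIntegral.integral_eq_sub_of_hasDerivAt
    (f := fun y : ℝ => Complex.log ((b : ℂ) + y * I - w)) (fun y _ => ?_)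
    (hcont.intervalIntegrable c d)
  have h1 : HasDerivAt (fun y : ℝ => (b : ℂ) + y * I - w) I y := by
    have h3 := (((Complex.ofRealCLM.hasDerivAt (x := y)).mul_const I).const_add (b : ℂ)).sub_const w
    simpa using h3
  exact h1.clog_real (Complex.mem_slitPlane_iff.2 (Or.inl (by rw [hre y]; linarith)))

private theorem RectA_left (a c d : ℝ) (w : ℂ) (ha : a < w.re) :
    I * ∫ y in c..d, ((a : ℂ) + y * I - w)⁻¹ =
      Complex.log (-(a + d * I - w)) - Complex.log (-(a + c * I - w)) := by
  have hre : ∀ y : ℝ, ((a : ℂ) + y * I - w).re = a - w.re := fun y => by simp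
  have hne : ∀ y : ℝ, (a : ℂ) + y * I - w ≠ 0 := by
    intro y h
    have h1 := hre y
    rw [h, Complex.zero_re] at h1
    linarith
  have hcont : Continuous (fun y : ℝ => I / ((a : ℂ) + y * I - w)) :=
    Continuous.div (by fun_prop) (by fun_prop) hne
  have hmul : I * ∫ y in c..d, ((a : ℂ) + y * I - w)⁻¹ =
      ∫ y in c..d, I / ((a : ℂ) + y * I - w) := by
    rw [← intervalIntegral.integral_const_mul]
    simp only [div_eq_mul_inv]
  rw [hmul]
  refine intervalIntegral.integral_eq_sub_of_hasDerivAt
    (f := fun y : ℝ => Complex.log (-((a : ℂ) + y * I - w))) (fun y _ => ?_)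
    (hcont.intervalIntegrable c d)
  have h1 : HasDerivAt (fun y : ℝ => (a : ℂ) + y * I - w) I y := by
    have h3 := (((Complex.ofRealCLM.hasDerivAt (x := y)).mul_const I).const_add (a : ℂ)).sub_const w
    simpa using h3
  have h2 := h1.neg.clog_real (Complex.mem_slitPlane_iff.2 (Or.inl (by
    rw [Pi.neg_apply, Complex.neg_re, hre y]
    linarith)))
  rw [Pi.neg_apply, neg_div_neg_eq] at h2
  exact h2

private theorem RectA_pos {z : ℂ} (hz : 0 < z.im) :
    Complex.log z - Complex.log (-z) = Real.pi * I := by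
  unfold Complex.log
  rw [norm_neg, Complex.arg_neg_eq_arg_sub_pi_of_im_pos hz]
  push_cast
  ring

private theorem RectA_neg {z : ℂ} (hz : z.im < 0) :
    Complex.log z - Complex.log (-z) = -(Real.pi * I) := by
  unfold Complex.log
  rw [norm_neg, Complex.arg_neg_eq_arg_add_pi_of_im_neg hz]
  push_cast
  ring

theorem rect_inv (a b c d : ℝ) (w : ℂ) (ha : a < w.re) (hb : w.re < b) (hc : c < w.im)
    (hd : w.im < d) : Rect (fun s => (s - w)⁻¹) a b c d = 2 * Real.pi * I := by
  unfold Rect
  rw [RectA_hor a b c w (by linarith), RectA_hor a b d w (by linarith), RectA_right b c d w hb,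
    RectA_left a c d w ha]
  have h1 := RectA_pos (z := (a : ℂ) + d * I - w) (by simp; linarith)
  have h2 := RectA_neg (z := (a : ℂ) + c * I - w) (by simp; linarith)
  linear_combination h1 - h2

end Pool.Agent.H56.GX
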