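import Pool.Agent.H56.GX.FId
import Pool.Agent.H56.GX.FL2
import Pool.Agent.H56.GX.Simple

/-!
GX module Res2: square summability of the residues: `∑_{γ ∈ A} ‖r γ‖² ≤ C₃` for all finite `A ⊂ Zr`.

Let `A` be finite. By `res_lim` there is `δ ∈ (0,1)` such that for all `γ ∈ A`, `0 < ‖s-ρ‖ < δ`
(`ρ = 1/2+iγ`): `‖(s-ρ) (s ζ(s))⁻¹‖² ≥ ‖r γ‖²/2` (`r γ ≠ 0`), and the intervals `(γ - δ/2, γ + δ/2)`,
`γ ∈ A`, are disjoint. For `0 < σ < δ/2`, with `F_inv` and `F_L2`: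
`C₂/σ ≥ ∑_{γ ∈ A} ∫_{|t-γ| < σ} ‖F(1/2+σ+it)‖² dt ≥ ∑_γ ∫_{|t-γ|<σ} (‖r γ‖²/2)/(σ² + (t-γ)²) dt
 ≥ ∑_γ (‖r γ‖²/2) · 2σ/(2σ²) = ∑_γ ‖r γ‖²/(2σ)`. (`s = 1/2+σ+it`, `‖s-ρ‖² = σ²+(t-γ)² ≤ 2σ² < δ²`.)
So `∑ ‖r γ‖² ≤ 2 C₂`.
-/

set_option autoImplicit false

namespace Pool.Agent.H56.GX

open MeasureTheory Set Complex Filter Topology

private lemma Res2_near (γ : ℝ) (hγ : γ ∈ Zr) (hd : deriv riemannZeta (1 / 2 + γ * I) ≠ 0) :
    ∀ᶠ σ in 𝓝[>] (0 : ℝ), ∀ t ∈ Ioo (γ - σ) (γ + σ),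
      ‖r γ‖ ^ 2 / 2 ≤ ‖((1 / 2 + σ + t * I : ℂ) - (1 / 2 + γ * I)) *
        ((1 / 2 + σ + t * I : ℂ) * riemannZeta (1 / 2 + σ + t * I))⁻¹‖ ^ 2 := by
  have h1 : ∀ᶠ s in 𝓝[≠] (1 / 2 + γ * I : ℂ),
      ‖r γ‖ ^ 2 / 2 ≤ ‖(s - (1 / 2 + γ * I)) * (s * riemannZeta s)⁻¹‖ ^ 2 := by
    have h2 := ((res_lim γ hγ hd).norm.pow 2)
    rcases eq_or_ne (r γ) 0 with h0 | h0
    · refine Eventually.of_forall fun s => ?_
      rw [h0, norm_zero]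
      have := sq_nonneg ‖(s - (1 / 2 + γ * I)) * (s * riemannZeta s)⁻¹‖
      linarith
    · have h3 : ‖r γ‖ ^ 2 / 2 < ‖r γ‖ ^ 2 := by
        have : 0 < ‖r γ‖ ^ 2 := by positivity
        linarith
      exact (h2.eventually (lt_mem_nhds h3)).mono fun s hs => hs.le
  obtain ⟨ε, hε, hsub⟩ := Metric.mem_nhdsWithin_iff.1 h1
  have h4 : ∀ᶠ σ in 𝓝[>] (0 : ℝ), σ ∈ Ioo (0 : ℝ) (ε / 2) :=
    Ioo_mem_nhdsGT (by linarith)
  filter_upwards [h4] with σ hσ t ht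
  have hst : ((1 / 2 + σ + t * I : ℂ) - (1 / 2 + γ * I)) = (σ : ℂ) + ((t - γ : ℝ) : ℂ) * I := by
    push_cast; ring
  apply hsub
  constructor
  · rw [Metric.mem_ball, dist_eq_norm, hst]
    refine (norm_add_le _ _).trans_lt ?_
    rw [norm_mul, Complex.norm_I, mul_one, Complex.norm_real, Complex.norm_real,
      Real.norm_eq_abs, Real.norm_eq_abs, abs_of_pos hσ.1]
    have h5 : |t - γ| < σ := by
      rw [abs_lt]; constructor <;> linarith [ht.1, ht.2]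
    linarith [hσ.2]
  · intro h6
    rw [mem_singleton_iff] at h6
    have h7 := congrArg Complex.re h6
    simp at h7
    exact absurd h7 hσ.1.ne'

private lemma Res2_disj (A : Finset ℝ) : ∀ᶠ σ in 𝓝[>] (0 : ℝ),
    ∀ γ ∈ A, ∀ γ' ∈ A, γ ≠ γ' → Disjoint (Ioo (γ - σ) (γ + σ)) (Ioo (γ' - σ) (γ' + σ)) := by
  rw [Filter.eventually_all_finset]
  intro γ _
  rw [Filter.eventually_all_finset]
  intro γ' _
  rcases eq_or_ne γ γ' with h | h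
  · exact Eventually.of_forall fun σ h' => absurd h h'
  · have h0 : 0 < |γ - γ'| / 2 := by
      have := abs_pos.2 (sub_ne_zero.2 h)
      positivity
    have h4 : ∀ᶠ σ in 𝓝[>] (0 : ℝ), σ ∈ Ioo (0 : ℝ) (|γ - γ'| / 2) := Ioo_mem_nhdsGT h0
    filter_upwards [h4] with σ hσ _
    rw [Set.disjoint_left]
    intro t ht ht'
    have h1 : |t - γ| < σ := by
      rw [abs_lt]; constructor <;> linarith [ht.1, ht.2]
    have h2 : |t - γ'| < σ := by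
      rw [abs_lt]; constructor <;> linarith [ht'.1, ht'.2]
    have h3 : |γ - γ'| ≤ |t - γ'| + |t - γ| := by
      have : γ - γ' = (t - γ') - (t - γ) := by ring
      rw [this]
      exact abs_sub _ _
    linarith [hσ.2]

theorem res_sq (C : ℝ) (hC : 1 ≤ C) (h : SBound C) : ∃ C₃ : ℝ, 0 < C₃ ∧
    ∀ A : Finset ℝ, (∀ γ ∈ A, γ ∈ Zr) → ∑ γ ∈ A, ‖r γ‖ ^ 2 ≤ C₃ := by
  obtain ⟨C₂, hC₂, hL⟩ := F_L2 C hC h
  refine ⟨2 * C₂, by positivity, ?_⟩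
  intro A hA
  have e1 : ∀ᶠ σ in 𝓝[>] (0 : ℝ), ∀ γ ∈ A, ∀ t ∈ Ioo (γ - σ) (γ + σ),
      ‖r γ‖ ^ 2 / 2 ≤ ‖((1 / 2 + σ + t * I : ℂ) - (1 / 2 + γ * I)) *
        ((1 / 2 + σ + t * I : ℂ) * riemannZeta (1 / 2 + σ + t * I))⁻¹‖ ^ 2 := by
    rw [Filter.eventually_all_finset]
    intro γ hγ
    exact Res2_near γ (hA γ hγ) (zeta_simple C hC h γ (hA γ hγ))
  have e2 := Res2_disj A
  have e3 : ∀ᶠ σ in 𝓝[>] (0 : ℝ), σ ∈ Ioo (0 : ℝ) (1 / 2) := Ioo_mem_nhdsGT (by norm_num)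
  obtain ⟨σ, h1, h2, hσ0, hσ1⟩ := (e1.and (e2.and e3)).exists
  obtain ⟨hint, hle⟩ := hL σ hσ0 (by linarith)
  have h3 : ∑ γ ∈ A, ∫ t in Ioo (γ - σ) (γ + σ), ‖F (1 / 2 + σ + t * I)‖ ^ 2
      ≤ ∫ t : ℝ, ‖F (1 / 2 + σ + t * I)‖ ^ 2 := by
    rw [← integral_biUnion_finset A (fun _ _ => measurableSet_Ioo)
      (fun γ hγ γ' hγ' hne => h2 γ hγ γ' hγ' hne) (fun γ _ => hint.integrableOn)]
    exact setIntegral_le_integral hint (Eventually.of_forall fun t => sq_nonneg _)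
  have h4 : ∀ γ ∈ A, ‖r γ‖ ^ 2 / (2 * σ) ≤ ∫ t in Ioo (γ - σ) (γ + σ), ‖F (1 / 2 + σ + t * I)‖ ^ 2 := by
    intro γ hγ
    have h5 : ∫ t in Ioo (γ - σ) (γ + σ), ‖r γ‖ ^ 2 / (4 * σ ^ 2) = ‖r γ‖ ^ 2 / (2 * σ) := by
      rw [setIntegral_const, Measure.real, Real.volume_Ioo,
        ENNReal.toReal_ofReal (by linarith), smul_eq_mul]
      field_simp
      ring
    rw [← h5]
    apply setIntegral_mono_on
    · exact integrableOn_const (by rw [Real.volume_Ioo]; exact ENNReal.ofReal_ne_top)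
    · exact hint.integrableOn
    · exact measurableSet_Ioo
    · intro t ht
      have h6 := h1 γ hγ t ht
      have hst : ((1 / 2 + σ + t * I : ℂ) - (1 / 2 + γ * I)) = (σ : ℂ) + ((t - γ : ℝ) : ℂ) * I := by
        push_cast; ring
      have hs1 : (1 / 2 + σ + t * I : ℂ) ≠ 1 := by
        intro h7
        have h8 := congrArg Complex.re h7
        simp at h8
        linarith
      have hsre : 1 / 2 < (1 / 2 + σ + t * I : ℂ).re := by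
        simp
        exact hσ0
      rw [(F_inv C hC h _ hsre hs1).2]
      rw [norm_mul, mul_pow] at h6
      have h9 : ‖((1 / 2 + σ + t * I : ℂ) - (1 / 2 + γ * I))‖ ^ 2 ≤ 2 * σ ^ 2 := by
        rw [hst, Complex.sq_norm, Complex.normSq_add_mul_I]
        have h10 : |t - γ| ≤ |σ| := by
          rw [abs_of_pos hσ0, abs_le]; constructor <;> linarith [ht.1, ht.2]
        have h11 := sq_le_sq.2 h10
        linarith
      have h12 : ‖r γ‖ ^ 2 / 2 ≤ 2 * σ ^ 2 *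
          ‖((1 / 2 + σ + t * I : ℂ) * riemannZeta (1 / 2 + σ + t * I))⁻¹‖ ^ 2 :=
        h6.trans (mul_le_mul_of_nonneg_right h9 (sq_nonneg _))
      have hσ2 : 0 < σ ^ 2 := by positivity
      rw [div_le_iff₀ (by positivity)]
      linarith
  have h5 : ∑ γ ∈ A, ‖r γ‖ ^ 2 / (2 * σ) ≤ C₂ / σ :=
    (Finset.sum_le_sum h4).trans (h3.trans hle)
  rw [← Finset.sum_div, div_le_div_iff₀ (by positivity) hσ0] at h5
  have h6 : (∑ γ ∈ A, ‖r γ‖ ^ 2) * σ ≤ (2 * C₂) * σ := by linarith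
  exact le_of_mul_le_mul_right h6 hσ0

end Pool.Agent.H56.GX
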