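import Pool.Agent.H56.GX.Defs

/-!
GX module VEq.

For `0 < H ≤ X` the window sum `M x H` is `Mz (x + H/2) - Mz (x - H/2)` for all `x ∈ [X, 2X]` except
those with `x + H/2 ∈ ℤ` (a countable set): both are sums of `μ(n)`, over `x - H/2 < n < x + H/2`
and over `x - H/2 < n ≤ x + H/2` (note `x - H/2 ≥ X/2 > 0`, `μ(0) = 0`).

Proof. Put `f n = μ(n)`. `Mz (x+H/2) - Mz (x-H/2) = ∑_{⌊x-H/2⌋₊ < n ≤ ⌊x+H/2⌋₊} f n`
(`Finset.Icc`/`Finset.Ioc` splitting), and `n ≤ ⌊y⌋₊ ↔ n ≤ y` (`Nat.le_floor_iff`) for `y ≥ 0`. The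
filter in `M` is `{n ≤ ⌈x+H⌉₊ : |n - x| < H/2}`; the condition `n ≤ ⌈x+H⌉₊` is automatic.
The countable exceptional set is null: `Set.Countable.ae_notMem` (the image of `ℕ` or `ℤ` under
`n ↦ n - H/2`), then `intervalIntegral.integral_congr_ae`.
-/

set_option autoImplicit false

namespace Pool.Agent.H56.GX

open MeasureTheory Set Complex Filter Topology

theorem M_eq_Mz (x H : ℝ) (hH : 0 < H) (hx : H ≤ x) (hn : ∀ n : ℕ, x + H / 2 ≠ n) :
    M x H = Mz (x + H / 2) - Mz (x - H / 2) := by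
  have h0 : 0 ≤ x - H / 2 := by linarith
  have h1 : 0 ≤ x + H / 2 := by linarith
  have hab : ⌊x - H / 2⌋₊ ≤ ⌊x + H / 2⌋₊ := Nat.floor_le_floor (by linarith)
  have hS : (Finset.range (⌈x + H⌉₊ + 1)).filter (fun n : ℕ => |(n : ℝ) - x| < H / 2)
      = Finset.Ioc ⌊x - H / 2⌋₊ ⌊x + H / 2⌋₊ := by
    ext n
    rw [Finset.mem_filter, Finset.mem_range, Finset.mem_Ioc, Nat.floor_lt h0, Nat.le_floor_iff h1,
      abs_lt, Nat.lt_succ_iff]
    constructor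
    · rintro ⟨_, h3, h4⟩
      constructor <;> linarith
    · rintro ⟨h3, h4⟩
      have h5 : (n : ℝ) < x + H / 2 := lt_of_le_of_ne h4 (fun h => hn n h.symm)
      refine ⟨?_, by linarith, by linarith⟩
      have h6 : (n : ℝ) ≤ x + H := by linarith
      exact_mod_cast h6.trans (Nat.le_ceil _)
  have hU : Finset.Icc 1 ⌊x + H / 2⌋₊
      = Finset.Icc 1 ⌊x - H / 2⌋₊ ∪ Finset.Ioc ⌊x - H / 2⌋₊ ⌊x + H / 2⌋₊ := by
    ext n
    rw [Finset.mem_union, Finset.mem_Icc, Finset.mem_Icc, Finset.mem_Ioc]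
    omega
  have hD : Disjoint (Finset.Icc 1 ⌊x - H / 2⌋₊) (Finset.Ioc ⌊x - H / 2⌋₊ ⌊x + H / 2⌋₊) := by
    rw [Finset.disjoint_left]
    intro n h3 h4
    rw [Finset.mem_Icc] at h3
    rw [Finset.mem_Ioc] at h4
    omega
  unfold M Mz
  rw [hS, hU, Finset.sum_union hD]
  ring

theorem V_eq (X H : ℝ) (hX : 0 < X) (hH : 0 < H) (hHX : H ≤ X) :
    V X H = (1 / X) * ∫ x in X..2 * X, (Mz (x + H / 2) - Mz (x - H / 2)) ^ 2 := by
  unfold V
  congr 1
  apply intervalIntegral.integral_congr_ae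
  have hc : (Set.range (fun n : ℕ => (n : ℝ) - H / 2)).Countable := Set.countable_range _
  filter_upwards [hc.ae_notMem volume] with x hx hx2
  rw [Set.uIoc_of_le (by linarith)] at hx2
  rw [M_eq_Mz x H hH (hHX.trans hx2.1.le)]
  intro n h
  exact hx ⟨n, by show (n : ℝ) - H / 2 = x; linarith⟩

end Pool.Agent.H56.GX
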