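import Pool.Agent.H56.GX.VEq
import Pool.Agent.H56.GX.MzB

/-!
GX module WinHyp: from the hypothesis to the window energies.

Given `δ₁ ∈ (0, δ₀)` apply `Hyp` with `δ₁ / 2` to get `X₀`; take `Y₀ = max X₀ 1`. For `Y ≥ Y₀` and
`δ₁ Y ≤ h ≤ δ₀ Y ≤ Y / 10` put `X = Y + h / 2` (so `Y ≤ X ≤ 2 Y`). Then `X ≥ X₀`,
`(δ₁ / 2) X ≤ δ₁ Y ≤ h ≤ δ₀ Y ≤ δ₀ X`, hence `V X h ≤ B h`. By `V_eq` and the substitution
`x' = x + h/2` (`intervalIntegral.integral_comp_add_right`)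
`∫_Y^{2Y} (Mz (x+h) - Mz x)² dx = ∫_{Y+h/2}^{2Y+h/2} (Mz (x'+h/2) - Mz (x'-h/2))² dx'
 ≤ ∫_X^{2X} ... = X V(X;h) ≤ X B h ≤ 2 Y B h`
(the interval `[Y+h/2, 2Y+h/2]` is contained in `[X, 2X]`, the integrand is nonnegative and
interval integrable by `Mz_diff_sq_intervalIntegrable`).
-/

set_option autoImplicit false

namespace Pool.Agent.H56.GX

open MeasureTheory Set Complex Filter Topology

theorem win_of_hyp (c B δ₀ : ℝ) (hB : 0 ≤ B) (hδ : 0 < δ₀) (hδ' : δ₀ ≤ 1 / 10)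
    (h : Hyp c B δ₀) : Win B δ₀ := by
  intro δ₁ h1 h2
  obtain ⟨X₀, hX₀⟩ := h (δ₁ / 2) (by positivity) (by linarith)
  refine ⟨max X₀ 1, le_max_right _ _, ?_⟩
  intro Y k hY hk1 hk2
  have hY1 : 1 ≤ Y := (le_max_right _ _).trans hY
  have hYX : X₀ ≤ Y := (le_max_left _ _).trans hY
  have hk0 : 0 < k := lt_of_lt_of_le (by positivity) hk1
  have hkY : k ≤ Y / 10 := hk2.trans (by nlinarith)
  have hV := (hX₀ (Y + k / 2) k (by linarith) (by nlinarith) (by nlinarith)).2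
  rw [V_eq (Y + k / 2) k (by linarith) hk0 (by linarith)] at hV
  have hX0 : 0 < Y + k / 2 := by linarith
  have h3 : ∫ x in (Y + k / 2)..2 * (Y + k / 2), (Mz (x + k / 2) - Mz (x - k / 2)) ^ 2
      ≤ (Y + k / 2) * (B * k) := by
    rw [one_div, inv_mul_le_iff₀ hX0] at hV
    exact hV
  have h4 : ∫ x in Y..2 * Y, (Mz (x + k) - Mz x) ^ 2
      = ∫ x in (Y + k / 2)..(2 * Y + k / 2), (Mz (x + k / 2) - Mz (x - k / 2)) ^ 2 := by
    rw [← intervalIntegral.integral_comp_add_right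
      (fun x => (Mz (x + k / 2) - Mz (x - k / 2)) ^ 2) (k / 2)]
    apply intervalIntegral.integral_congr
    intro x _
    show (Mz (x + k) - Mz x) ^ 2 = (Mz (x + k / 2 + k / 2) - Mz (x + k / 2 - k / 2)) ^ 2
    rw [show x + k / 2 + k / 2 = x + k by ring, show x + k / 2 - k / 2 = x by ring]
  rw [h4]
  have hint := Mz_diff_sq_intervalIntegrable (Y + k / 2) (2 * (Y + k / 2)) (k / 2) (-(k / 2))
  have h5 : ∫ x in (Y + k / 2)..(2 * Y + k / 2), (Mz (x + k / 2) - Mz (x - k / 2)) ^ 2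
      ≤ ∫ x in (Y + k / 2)..2 * (Y + k / 2), (Mz (x + k / 2) - Mz (x - k / 2)) ^ 2 := by
    apply intervalIntegral.integral_mono_interval le_rfl (by linarith) (by linarith)
    · exact Filter.Eventually.of_forall (fun x => sq_nonneg _)
    · simpa [sub_eq_add_neg] using hint
  refine h5.trans (h3.trans ?_)
  have h6 : 0 ≤ B * k := mul_nonneg hB hk0.le
  nlinarith

end Pool.Agent.H56.GX
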