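import Pool.Agent.H56.GX.Defs

/-!
GX module ZLeft: `ζ` on the line `Re s = -1/2`: `|ζ(-1/2+it)| ≥ c (1+|t|)`.

Functional equation (`riemannZeta_one_sub`) with `w = 3/2 - it`, `1 - w = -1/2 + it`:
`ζ(-1/2+it) = 2 (2π)^{-w} Γ(w) cos(π w/2) ζ(w)`.
* `Γ(w) = (w-1) Γ(w-1) = (1/2 - it) Γ(1/2 - it)`, `|Γ(1/2-it)|² = Γ(1/2-it) Γ(1/2+it) = π / cosh(π t)`
  (`Complex.Gamma_mul_Gamma_one_sub`, `Complex.Gamma_conj`).
* `|cos(3π/4 - iπt/2)|² = cos²(3π/4) + sinh²(πt/2) = 1/2 + sinh²(πt/2) = cosh(πt)/2`.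
  So `|Γ(1/2-it) cos(πw/2)|² = π/2` exactly.
* `|(2π)^{-w}| = (2π)^{-3/2}`.
* `|ζ(w)| ≥ 1/3`: `ζ(w)⁻¹ = LSeries μ w` has norm `≤ ∑ n^{-3/2} ≤ 3` (or any constant:
  `∑_{n≥1} n^{-3/2} < ∞` suffices, e.g. `‖LSeries μ w‖ ≤ ∑' ‖term‖ ≤ ∑' n^{-3/2}`, independent of `t`).
Hence `|ζ(-1/2+it)| = 2 (2π)^{-3/2} √(π/2) |1/2 - it| |ζ(w)| ≥ c (1 + |t|)`.
-/

set_option autoImplicit false

namespace Pool.Agent.H56.GX

open MeasureTheory Set Complex Filter Topology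

/-- `|cos(3π/4 - iπt/2)|² = cosh(πt)/2`. -/
lemma ZLeft_cos (t : ℝ) :
    ‖Complex.cos (Real.pi * (3 / 2 - t * I) / 2)‖ ^ 2 = Real.cosh (Real.pi * t) / 2 := by
  have h1 : (Real.pi * (3 / 2 - t * I) / 2 : ℂ)
      = ((3 * Real.pi / 4 : ℝ) : ℂ) - ((Real.pi * t / 2 : ℝ) : ℂ) * I := by
    push_cast; ring
  rw [h1, Complex.cos_sub, Complex.cos_mul_I, Complex.sin_mul_I, ← Complex.ofReal_cos,
    ← Complex.ofReal_sin, ← Complex.ofReal_cosh, ← Complex.ofReal_sinh]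
  have h2 : ((Real.cos (3 * Real.pi / 4) : ℝ) : ℂ) * ((Real.cosh (Real.pi * t / 2) : ℝ) : ℂ)
      + ((Real.sin (3 * Real.pi / 4) : ℝ) : ℂ) * (((Real.sinh (Real.pi * t / 2) : ℝ) : ℂ) * I)
      = (((Real.cos (3 * Real.pi / 4) * Real.cosh (Real.pi * t / 2)) : ℝ) : ℂ)
        + (((Real.sin (3 * Real.pi / 4) * Real.sinh (Real.pi * t / 2)) : ℝ) : ℂ) * I := by
    push_cast; ring
  rw [h2, ← Complex.normSq_eq_norm_sq, Complex.normSq_add_mul_I]
  have hc : Real.cos (3 * Real.pi / 4) ^ 2 = 1 / 2 := by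
    rw [Real.cos_sq]
    have : 2 * (3 * Real.pi / 4) = Real.pi / 2 + Real.pi := by ring
    rw [this, Real.cos_add_pi, Real.cos_pi_div_two]; norm_num
  have hs : Real.sin (3 * Real.pi / 4) ^ 2 = 1 / 2 := by
    rw [Real.sin_sq, hc]; norm_num
  have hcosh : Real.cosh (Real.pi * t)
      = Real.cosh (Real.pi * t / 2) ^ 2 + Real.sinh (Real.pi * t / 2) ^ 2 := by
    rw [← Real.cosh_two_mul]; congr 1; ring
  rw [mul_pow, mul_pow, hc, hs, hcosh]; ring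

/-- `|Γ(1/2 - it)|² = π / cosh(πt)`. -/
lemma ZLeft_Gamma (t : ℝ) :
    ‖Complex.Gamma (1 / 2 - t * I)‖ ^ 2 = Real.pi / Real.cosh (Real.pi * t) := by
  have h1 : (1 : ℂ) - (1 / 2 - t * I) = (starRingEnd ℂ) (1 / 2 - t * I) := by
    rw [map_sub, map_mul, Complex.conj_I, Complex.conj_ofReal]
    have : (starRingEnd ℂ) (1 / 2 : ℂ) = 1 / 2 := by
      rw [map_div₀, map_one]
      congr 1
      exact Complex.conj_ofNat 2
    rw [this]; ring
  have h2 := Complex.Gamma_mul_Gamma_one_sub (1 / 2 - t * I)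
  rw [h1, Complex.Gamma_conj] at h2
  have h3 : ‖Complex.Gamma (1 / 2 - t * I)‖ ^ 2
      = ‖Complex.Gamma (1 / 2 - t * I) * (starRingEnd ℂ) (Complex.Gamma (1 / 2 - t * I))‖ := by
    rw [norm_mul, Complex.norm_conj, sq]
  rw [h3, h2]
  have h4 : Complex.sin (Real.pi * (1 / 2 - t * I)) = ((Real.cosh (Real.pi * t) : ℝ) : ℂ) := by
    have : (Real.pi * (1 / 2 - t * I) : ℂ)
        = (Real.pi : ℂ) / 2 - ((Real.pi * t : ℝ) : ℂ) * I := by push_cast; ring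
    rw [this, Complex.sin_pi_div_two_sub, Complex.cos_mul_I, ← Complex.ofReal_cosh]
  rw [h4, norm_div, Complex.norm_real, Complex.norm_real, Real.norm_eq_abs, Real.norm_eq_abs,
    abs_of_pos Real.pi_pos, abs_of_pos (Real.cosh_pos _)]

/-- A uniform lower bound for `ζ` on the line `Re s = 3/2`. -/
lemma ZLeft_zeta : ∃ c : ℝ, 0 < c ∧ ∀ t : ℝ, c ≤ ‖riemannZeta (3 / 2 - t * I)‖ := by
  have hre : ∀ t : ℝ, ((3 / 2 : ℂ) - t * I).re = 3 / 2 := by
    intro t; simp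
  have hsum : Summable (fun n : ℕ => ‖LSeries.term (1 : ℕ → ℂ) ((3 / 2 : ℝ) : ℂ) n‖) := by
    have h := (LSeriesSummable_one_iff (s := ((3 / 2 : ℝ) : ℂ))).mpr (by
      rw [Complex.ofReal_re]; norm_num)
    exact h.norm
  set B : ℝ := ∑' n : ℕ, ‖LSeries.term (1 : ℕ → ℂ) ((3 / 2 : ℝ) : ℂ) n‖ with hB
  have hterm : ∀ (t : ℝ) (n : ℕ),
      ‖LSeries.term (fun n : ℕ => ((ArithmeticFunction.moebius n : ℤ) : ℂ)) (3 / 2 - t * I) n‖
        ≤ ‖LSeries.term (1 : ℕ → ℂ) ((3 / 2 : ℝ) : ℂ) n‖ := by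
    intro t n
    refine (LSeries.norm_term_le (g := (1 : ℕ → ℂ)) _ ?_).trans ?_
    · have h1 : |ArithmeticFunction.moebius n| ≤ 1 := ArithmeticFunction.abs_moebius_le_one
      have h2 : ‖((ArithmeticFunction.moebius n : ℤ) : ℂ)‖ ≤ 1 := by
        rw [Complex.norm_intCast]; exact_mod_cast h1
      simpa using h2
    · refine LSeries.norm_term_le_of_re_le_re _ ?_ n
      rw [hre, Complex.ofReal_re]
  have hB1 : ∀ t : ℝ,
      ‖LSeries (fun n : ℕ => ((ArithmeticFunction.moebius n : ℤ) : ℂ)) (3 / 2 - t * I)‖ ≤ B := by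
    intro t
    rw [LSeries]
    exact (norm_tsum_le_tsum_norm
      (Summable.of_nonneg_of_le (fun n => norm_nonneg _) (hterm t) hsum)).trans
      ((Summable.of_nonneg_of_le (fun n => norm_nonneg _) (hterm t) hsum).tsum_le_tsum
        (hterm t) hsum)
  have hprod : ∀ t : ℝ, riemannZeta (3 / 2 - t * I)
      * LSeries (fun n : ℕ => ((ArithmeticFunction.moebius n : ℤ) : ℂ)) (3 / 2 - t * I) = 1 := by
    intro t
    have h1 : 1 < ((3 / 2 : ℂ) - t * I).re := by rw [hre]; norm_num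
    rw [← ArithmeticFunction.LSeries_zeta_eq_riemannZeta h1]
    exact ArithmeticFunction.LSeries_zeta_mul_Lseries_moebius h1
  have hBpos : 0 < B := by
    have h := hprod 0
    rcases lt_or_ge 0 B with h1 | h1
    · exact h1
    · exfalso
      have h2 := (hB1 0).trans h1
      have h3 := norm_le_zero_iff.mp h2
      rw [h3, mul_zero] at h
      exact zero_ne_one h
  refine ⟨1 / B, by positivity, fun t => ?_⟩
  have h := congrArg norm (hprod t)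
  rw [norm_mul, norm_one] at h
  rw [div_le_iff₀ hBpos]
  calc (1 : ℝ) = _ := h.symm
    _ ≤ ‖riemannZeta (3 / 2 - t * I)‖ * B :=
      mul_le_mul_of_nonneg_left (hB1 t) (norm_nonneg _)

theorem zeta_left : ∃ c : ℝ, 0 < c ∧ ∀ t : ℝ, c * (1 + |t|) ≤ ‖riemannZeta (-(1 / 2) + t * I)‖ := by
  obtain ⟨c0, hc0, hz⟩ := ZLeft_zeta
  set A : ℝ := 2 * (2 * Real.pi) ^ (-(3 / 2 : ℝ)) * Real.sqrt (Real.pi / 2) with hA
  have hApos : 0 < A := by
    have : (0 : ℝ) < 2 * Real.pi := by positivity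
    have h1 : (0 : ℝ) < (2 * Real.pi) ^ (-(3 / 2 : ℝ)) := Real.rpow_pos_of_pos this _
    have h2 : 0 < Real.sqrt (Real.pi / 2) := Real.sqrt_pos.mpr (by positivity)
    positivity
  refine ⟨A * c0 / 4, by positivity, fun t => ?_⟩
  have hw : (-(1 / 2) + t * I : ℂ) = 1 - (3 / 2 - t * I) := by ring
  have hre : ((3 / 2 : ℂ) - t * I).re = 3 / 2 := by simp
  have hne : ∀ n : ℕ, (3 / 2 - t * I : ℂ) ≠ -n := by
    intro n h
    have := congrArg Complex.re h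
    rw [hre] at this
    simp at this
    have h2 : (0 : ℝ) ≤ n := Nat.cast_nonneg n
    linarith
  have hne1 : (3 / 2 - t * I : ℂ) ≠ 1 := by
    intro h
    have := congrArg Complex.re h
    rw [hre] at this
    norm_num at this
  rw [hw, riemannZeta_one_sub hne hne1]
  have hG : Complex.Gamma (3 / 2 - t * I) = (1 / 2 - t * I) * Complex.Gamma (1 / 2 - t * I) := by
    have h0 : (1 / 2 - t * I : ℂ) ≠ 0 := by
      intro h
      have := congrArg Complex.re h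
      simp at this
    rw [← Complex.Gamma_add_one _ h0]
    congr 1; ring
  rw [hG]
  have hpow : ‖(2 * (Real.pi : ℂ)) ^ (-(3 / 2 - t * I : ℂ))‖ = (2 * Real.pi) ^ (-(3 / 2 : ℝ)) := by
    have h1 : (2 * (Real.pi : ℂ)) = ((2 * Real.pi : ℝ) : ℂ) := by push_cast; ring
    rw [h1, Complex.norm_cpow_eq_rpow_re_of_pos (by positivity), Complex.neg_re, hre]
  have hGc : ‖Complex.Gamma (1 / 2 - t * I)‖ * ‖Complex.cos (Real.pi * (3 / 2 - t * I) / 2)‖
      = Real.sqrt (Real.pi / 2) := by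
    have h1 : (‖Complex.Gamma (1 / 2 - t * I)‖
        * ‖Complex.cos (Real.pi * (3 / 2 - t * I) / 2)‖) ^ 2 = Real.pi / 2 := by
      rw [mul_pow, ZLeft_Gamma, ZLeft_cos]
      have := (Real.cosh_pos (Real.pi * t)).ne'
      field_simp
    rw [← h1, Real.sqrt_sq (by positivity)]
  have hlin : (1 + |t|) / 4 ≤ ‖(1 / 2 - t * I : ℂ)‖ := by
    have h1 : |((1 / 2 - t * I : ℂ)).re| ≤ ‖(1 / 2 - t * I : ℂ)‖ := Complex.abs_re_le_norm _
    have h2 : |((1 / 2 - t * I : ℂ)).im| ≤ ‖(1 / 2 - t * I : ℂ)‖ := Complex.abs_im_le_norm _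
    have h3 : ((1 / 2 - t * I : ℂ)).re = 1 / 2 := by simp
    have h4 : ((1 / 2 - t * I : ℂ)).im = -t := by simp
    rw [h3] at h1
    rw [h4, abs_neg] at h2
    have h5 : |(1 / 2 : ℝ)| = 1 / 2 := abs_of_pos (by norm_num)
    rw [h5] at h1
    have h6 := abs_nonneg t
    linarith
  have hnorm : ‖2 * (2 * (Real.pi : ℂ)) ^ (-(3 / 2 - t * I : ℂ))
      * ((1 / 2 - t * I) * Complex.Gamma (1 / 2 - t * I))
      * Complex.cos (Real.pi * (3 / 2 - t * I) / 2) * riemannZeta (3 / 2 - t * I)‖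
      = A * ‖(1 / 2 - t * I : ℂ)‖ * ‖riemannZeta (3 / 2 - t * I)‖ := by
    rw [norm_mul, norm_mul, norm_mul, norm_mul, norm_mul, hpow, Complex.norm_two, hA, ← hGc]
    ring
  rw [hnorm]
  calc A * c0 / 4 * (1 + |t|) = A * ((1 + |t|) / 4) * c0 := by ring
    _ ≤ A * ‖(1 / 2 - t * I : ℂ)‖ * ‖riemannZeta (3 / 2 - t * I)‖ := by
      have h7 : A * ((1 + |t|) / 4) ≤ A * ‖(1 / 2 - t * I : ℂ)‖ :=
        mul_le_mul_of_nonneg_left hlin hApos.le
      have h8 : 0 ≤ A * ‖(1 / 2 - t * I : ℂ)‖ := by positivity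
      exact mul_le_mul h7 (hz t) hc0.le h8

end Pool.Agent.H56.GX
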